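import Pool.Agent.H65.GaussConst

/-! Smooth approximation and the translation estimate in `L¹`. -/

namespace Pool.Agent.H65.Gauss

open MeasureTheory Set Filter Topology Metric
open scoped ENNReal Convolution ContDiff

/-- A shrinking sequence of bump functions. -/
noncomputable def bumpSeq (j : ℕ) : ContDiffBump (0 : ℂ) where
  rIn := 1 / (2 * ((j : ℝ) + 1))
  rOut := 1 / ((j : ℝ) + 1)
  rIn_pos := by positivity
  rIn_lt_rOut := by
    apply one_div_lt_one_div_of_lt
    · positivity
    · have : (0:ℝ) ≤ j := Nat.cast_nonneg j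
      linarith

lemma exists_smooth_approx {w : ℂ → ℝ} (hw : Measurable w) (hb : ∀ x, |w x| ≤ 1) {M : ℝ}
    (hs : ∀ x, x ∉ closedBall (0:ℂ) M → w x = 0) :
    ∃ g : ℕ → ℂ → ℝ, (∀ j, ContDiff ℝ 1 (g j)) ∧ (∀ j, HasCompactSupport (g j)) ∧
      (∀ j x, |g j x| ≤ 1) ∧ (∀ j, tsupport (g j) ⊆ closedBall 0 (M + 1)) ∧
      ∀ᵐ x, Tendsto (fun j => g j x) atTop (𝓝 (w x)) := by
  have hloc : LocallyIntegrable w volume := by
    exact (locallyIntegrable_const (1:ℝ)).mono hw.aestronglyMeasurable
      (Eventually.of_forall fun x => by simpa using hb x)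
  have hsupp : ∀ j, Function.support ((bumpSeq j).normed volume ⋆[ContinuousLinearMap.lsmul ℝ ℝ] w)
      ⊆ closedBall 0 (M + 1) := by
    intro j
    refine (support_convolution_subset _).trans ?_
    rintro _ ⟨a, ha, b, hb', rfl⟩
    rw [(bumpSeq j).support_normed_eq] at ha
    have hb2 : b ∈ closedBall (0:ℂ) M := by
      by_contra hne
      exact hb' (hs b hne)
    rw [mem_ball_zero_iff] at ha
    rw [mem_closedBall_zero_iff] at hb2 ⊢
    have h1 : (bumpSeq j).rOut ≤ 1 := by
      change 1 / ((j : ℝ) + 1) ≤ 1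
      have : (0:ℝ) ≤ j := Nat.cast_nonneg j
      rw [div_le_one (by positivity)]
      linarith
    calc ‖a + b‖ ≤ ‖a‖ + ‖b‖ := norm_add_le _ _
      _ ≤ M + 1 := by linarith
  refine ⟨fun j => (bumpSeq j).normed volume ⋆[ContinuousLinearMap.lsmul ℝ ℝ] w, ?_, ?_, ?_, ?_, ?_⟩
  · intro j
    exact (bumpSeq j).hasCompactSupport_normed.contDiff_convolution_left
      (ContinuousLinearMap.lsmul ℝ ℝ) (n := 1) (bumpSeq j).contDiff_normed hloc
  · intro j
    exact HasCompactSupport.of_support_subset_isCompact (isCompact_closedBall 0 (M+1)) (hsupp j)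
  · intro j x
    change |((bumpSeq j).normed volume ⋆[ContinuousLinearMap.lsmul ℝ ℝ] w) x| ≤ 1
    rw [convolution_def]
    have h1 : ‖∫ t, (ContinuousLinearMap.lsmul ℝ ℝ) ((bumpSeq j).normed volume t) (w (x - t))‖ ≤
        ∫ t, (bumpSeq j).normed volume t := by
      apply norm_integral_le_of_norm_le (bumpSeq j).integrable_normed
      refine Eventually.of_forall fun t => ?_
      simp only [ContinuousLinearMap.lsmul_apply, smul_eq_mul, norm_mul]
      rw [Real.norm_of_nonneg ((bumpSeq j).nonneg_normed t)]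
      have := hb (x - t)
      have h2 := (bumpSeq j).nonneg_normed (μ := volume) t
      rw [Real.norm_eq_abs]
      nlinarith
    rw [(bumpSeq j).integral_normed] at h1
    exact h1
  · intro j
    exact closure_minimal (hsupp j) isClosed_closedBall
  · apply ContDiffBump.ae_convolution_tendsto_right_of_locallyIntegrable (K := 2)
    · change Tendsto (fun j : ℕ => 1 / ((j : ℝ) + 1)) atTop (𝓝 0)
      exact tendsto_one_div_add_atTop_nhds_zero_nat
    · refine Eventually.of_forall fun j => ?_
      change 1 / ((j : ℝ) + 1) ≤ 2 * (1 / (2 * ((j : ℝ) + 1)))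
      apply le_of_eq
      field_simp
    · exact hloc

/-- `K(M) = sup_{|x| ≤ M} γ(x)⁻¹`. -/
noncomputable def locConst (M : ℝ) : ℝ := 2 * Real.pi * Real.exp (M ^ 2 / 2)

lemma locConst_pos (M : ℝ) : 0 < locConst M := by unfold locConst; positivity

lemma inv_gaussDensity_le {M : ℝ} {x : ℂ} (hx : ‖x‖ ≤ M) : (gaussDensity x)⁻¹ ≤ locConst M := by
  unfold gaussDensity locConst
  rw [mul_inv, inv_inv, ← Real.exp_neg]
  apply mul_le_mul_of_nonneg_left _ (by positivity)
  apply Real.exp_le_exp.mpr
  have : ‖x‖ ^ 2 ≤ M ^ 2 := pow_le_pow_left₀ (norm_nonneg x) hx 2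
  linarith

lemma inv_locConst_le {M : ℝ} {x : ℂ} (hx : ‖x‖ ≤ M) : (locConst M)⁻¹ ≤ gaussDensity x := by
  have := inv_gaussDensity_le hx
  rw [inv_le_comm₀ (gaussDensity_pos x) (locConst_pos M)] at this
  exact this

lemma integral_div_gauss_le {E : Set ℂ} {C : ℝ} (hC : 0 ≤ C)
    (hP : gaussPerimeter E ≤ ENNReal.ofReal C) {φ : ℂ → ℂ} (hφ : IsTestField φ)
    (h1 : ∀ x, ‖φ x‖ ≤ 1) :
    ∫ x in E, divergence (fun y => gaussDensity y • φ y) x ≤ C := by
  have h2 : ENNReal.ofReal (∫ x in E, divergence (fun y => gaussDensity y • φ y) x) ≤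
      gaussPerimeter E := by
    unfold gaussPerimeter
    exact le_iSup₂ (f := fun (φ : ℂ → ℂ) (_ : IsTestField φ ∧ ∀ x, ‖φ x‖ ≤ 1) =>
      ENNReal.ofReal (∫ x in E, divergence (fun y => gaussDensity y • φ y) x)) φ ⟨hφ, h1⟩
  exact (ENNReal.ofReal_le_ofReal_iff hC).mp (h2.trans hP)

lemma abs_integral_div_gauss_le {E : Set ℂ} {C : ℝ} (hC : 0 ≤ C)
    (hP : gaussPerimeter E ≤ ENNReal.ofReal C) {φ : ℂ → ℂ} (hφ : IsTestField φ)
    (h1 : ∀ x, ‖φ x‖ ≤ 1) :
    |∫ x in E, divergence (fun y => gaussDensity y • φ y) x| ≤ C := by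
  rw [abs_le]
  refine ⟨?_, integral_div_gauss_le hC hP hφ h1⟩
  have h2 := integral_div_gauss_le hC hP hφ.neg (fun x => by rw [norm_neg]; exact h1 x)
  have h3 : ∀ x, divergence (fun y => gaussDensity y • (- φ y)) x =
      - divergence (fun y => gaussDensity y • φ y) x := by
    intro x
    rw [← divergence_neg]
    congr 1
    ext y
    simp
  simp only [h3] at h2
  rw [integral_neg] at h2
  linarith

lemma abs_integral_div_le {E : Set ℂ} {C : ℝ} (hC : 0 ≤ C)
    (hP : gaussPerimeter E ≤ ENNReal.ofReal C) {φ : ℂ → ℂ} (hφ : IsTestField φ) {b M : ℝ}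
    (hb : 0 < b) (h1 : ∀ x, ‖φ x‖ ≤ b) (hs : tsupport φ ⊆ closedBall 0 M) :
    |∫ x in E, divergence φ x| ≤ b * locConst M * C := by
  set c : ℝ := b * locConst M with hc
  have hcpos : 0 < c := mul_pos hb (locConst_pos M)
  have hψ : IsTestField (fun x => c⁻¹ • ((gaussDensity x)⁻¹ • φ x)) :=
    hφ.div_gauss.smul (a := fun _ => c⁻¹) contDiff_const
  have hψ1 : ∀ x, ‖c⁻¹ • ((gaussDensity x)⁻¹ • φ x)‖ ≤ 1 := by
    intro x
    by_cases hx : x ∈ tsupport φ
    · have hxM : ‖x‖ ≤ M := by simpa using hs hx
      rw [norm_smul, norm_smul, Real.norm_of_nonneg (inv_nonneg.mpr hcpos.le),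
        Real.norm_of_nonneg (inv_nonneg.mpr (gaussDensity_nonneg x)), inv_mul_le_iff₀ hcpos, mul_one,
        hc, mul_comm b]
      exact mul_le_mul (inv_gaussDensity_le hxM) (h1 x) (norm_nonneg _) (locConst_pos M).le
    · rw [image_eq_zero_of_notMem_tsupport hx]; simp
  have h2 := abs_integral_div_gauss_le hC hP hψ hψ1
  have h3 : ∀ x, divergence (fun y => gaussDensity y • (c⁻¹ • ((gaussDensity y)⁻¹ • φ y))) x =
      c⁻¹ * divergence φ x := by
    intro x
    rw [← divergence_const_smul _ (hφ.differentiable x)]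
    congr 1
    ext y
    rw [smul_comm (gaussDensity y) c⁻¹, smul_smul (gaussDensity y),
      mul_inv_cancel₀ (gaussDensity_pos y).ne', one_smul]
  simp only [h3] at h2
  rw [integral_const_mul, abs_mul, abs_of_pos (inv_pos.mpr hcpos), inv_mul_le_iff₀ hcpos] at h2
  exact h2

/-- The translation estimate in `L¹`. -/
lemma integral_translate_abs_le {E : Set ℂ} (hE : MeasurableSet E) {C : ℝ} (hC : 0 ≤ C)
    (hP : gaussPerimeter E ≤ ENNReal.ofReal C) {M : ℝ} {h : ℂ} (hh : ‖h‖ ≤ 1) :
    ∫ x in ball 0 M, |ind E (x + h) - ind E x| ≤ ‖h‖ * locConst (M + 2) * C := by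
  rcases eq_or_ne h 0 with rfl | h0
  · simp
  have hhpos : 0 < ‖h‖ := norm_pos_iff.mpr h0
  set v : ℂ → ℝ := fun x => ind E (x + h) - ind E x with hv
  have hvmeas : Measurable v :=
    ((measurable_ind hE).comp (measurable_add_const h)).sub (measurable_ind hE)
  have hvb : ∀ x, |v x| ≤ 1 := by
    intro x
    rw [abs_le]
    have := ind_nonneg E (x+h); have := ind_nonneg E x
    have := ind_le_one E (x+h); have := ind_le_one E x
    constructor <;> simp only [hv] <;> linarith
  set w : ℂ → ℝ := (ball (0:ℂ) M).indicator fun x => (SignType.sign (v x) : ℝ) with hw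
  have hwmeas : Measurable w := by
    apply Measurable.indicator _ measurableSet_ball
    have : Measurable fun y : ℝ => ((SignType.sign y : SignType) : ℝ) := by
      have h1 : (fun y : ℝ => ((SignType.sign y : SignType) : ℝ)) =
          fun y => if 0 < y then 1 else if y < 0 then -1 else 0 := by
        ext y
        rcases lt_trichotomy y 0 with hy | hy | hy
        · simp [hy, sign_neg hy, not_lt.mpr hy.le]
        · simp [hy]
        · simp [hy, sign_pos hy]
      rw [h1]
      exact Measurable.ite measurableSet_Ioi measurable_const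
        (Measurable.ite measurableSet_Iio measurable_const measurable_const)
    exact this.comp hvmeas
  have hwb : ∀ x, |w x| ≤ 1 := by
    intro x
    by_cases hx : x ∈ ball (0:ℂ) M
    · rw [hw, indicator_of_mem hx]
      rcases lt_trichotomy (v x) 0 with hy | hy | hy
      · simp [sign_neg hy]
      · simp [hy]
      · simp [sign_pos hy]
    · rw [hw, indicator_of_notMem hx]; simp
  have hws : ∀ x, x ∉ closedBall (0:ℂ) M → w x = 0 := by
    intro x hx
    rw [hw, indicator_of_notMem]
    exact fun hx' => hx (ball_subset_closedBall hx')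
  obtain ⟨g, hg1, hg2, hg3, hg4, hg5⟩ := exists_smooth_approx hwmeas hwb hws
  have hbound : ∀ j, |∫ x, v x * g j x| ≤ ‖h‖ * locConst (M + 2) * C := by
    intro j
    have h1 := integral_translate_eq hE ((hg1 j).continuous.integrable_of_hasCompactSupport (hg2 j)) h
    rw [hv, ← h1]
    apply integral_translate_sub_le (hg1 j) (hg2 j)
    intro t ht
    apply abs_integral_div_le hC hP (isTestField_transField (hg1 j) (hg2 j) h t) hhpos
    · intro x
      simp only [transField]
      rw [norm_smul, Real.norm_eq_abs]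
      have := hg3 j (x - t • h)
      nlinarith
    · apply closure_minimal _ isClosed_closedBall
      intro y hy
      have hy1 : g j (y - t • h) ≠ 0 := by
        intro h0
        apply hy
        simp only [transField]
        rw [h0, zero_smul]
      have hy2 := hg4 j (subset_closure (Function.mem_support.mpr hy1))
      rw [mem_closedBall_zero_iff] at hy2 ⊢
      have hth : ‖t • h‖ ≤ 1 := by
        rw [norm_smul, Real.norm_of_nonneg ht.1]
        have := ht.2
        have := norm_nonneg h
        nlinarith [ht.1]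
      calc ‖y‖ = ‖(y - t • h) + t • h‖ := by simp
        _ ≤ ‖y - t • h‖ + ‖t • h‖ := norm_add_le _ _
        _ ≤ M + 2 := by linarith
  have hlim : Tendsto (fun j => ∫ x, v x * g j x) atTop (𝓝 (∫ x, v x * w x)) := by
    apply tendsto_integral_of_dominated_convergence
      (bound := (closedBall (0:ℂ) (M+1)).indicator fun _ => 1)
    · intro j
      exact (hvmeas.mul (hg1 j).continuous.measurable).aestronglyMeasurable
    · rw [integrable_indicator_iff measurableSet_closedBall]
      exact integrableOn_const measure_closedBall_lt_top.ne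
    · intro j
      refine Eventually.of_forall fun x => ?_
      by_cases hx : x ∈ closedBall (0:ℂ) (M+1)
      · rw [indicator_of_mem hx, norm_mul, Real.norm_eq_abs, Real.norm_eq_abs]
        have h1 := hvb x; have h2 := hg3 j x
        have h3 := abs_nonneg (v x)
        have h4 := abs_nonneg (g j x)
        nlinarith
      · rw [indicator_of_notMem hx]
        have : g j x = 0 := image_eq_zero_of_notMem_tsupport fun h' => hx (hg4 j h')
        simp [this]
    · filter_upwards [hg5] with x hx
      exact hx.const_mul _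
  have heq : ∫ x, v x * w x = ∫ x in ball 0 M, |v x| := by
    rw [← integral_indicator measurableSet_ball]
    congr 1
    ext x
    by_cases hx : x ∈ ball (0:ℂ) M
    · rw [hw, indicator_of_mem hx, indicator_of_mem hx]
      exact self_mul_sign (v x)
    · rw [hw, indicator_of_notMem hx, indicator_of_notMem hx]; simp
  rw [← heq]
  have habs := hlim.abs
  have h5 := le_of_tendsto' habs hbound
  exact (le_abs_self _).trans h5

end Pool.Agent.H65.Gauss
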