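import Pool.Agent.H65.GaussDefs

/-! Basic facts about the Gaussian density and the divergence. -/

namespace Pool.Agent.H65.Gauss

open MeasureTheory Set Filter Topology Metric
open scoped ENNReal

lemma gaussDensity_pos (x : ℂ) : 0 < gaussDensity x := by
  unfold gaussDensity; positivity

lemma gaussDensity_nonneg (x : ℂ) : 0 ≤ gaussDensity x := (gaussDensity_pos x).le

lemma contDiff_gaussDensity {n : ℕ∞} : ContDiff ℝ n gaussDensity := by
  unfold gaussDensity
  have : ContDiff ℝ n (fun x : ℂ => ‖x‖ ^ 2) := contDiff_norm_sq ℝ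
  exact contDiff_const.mul (Real.contDiff_exp.comp ((this.neg).div_const 2))

lemma continuous_gaussDensity : Continuous gaussDensity :=
  (contDiff_gaussDensity (n := 0)).continuous

lemma measurable_gaussDensity : Measurable gaussDensity := continuous_gaussDensity.measurable

lemma hasFDerivAt_gaussDensity (x : ℂ) :
    HasFDerivAt gaussDensity (-(gaussDensity x) • (innerSL ℝ x)) x := by
  unfold gaussDensity
  have h1 : HasFDerivAt (fun x : ℂ => ‖x‖ ^ 2) (2 • (innerSL ℝ x)) x :=
    (hasStrictFDerivAt_norm_sq x).hasFDerivAt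
  have h2 : HasFDerivAt (fun x : ℂ => -‖x‖ ^ 2 / 2) (-(innerSL ℝ x)) x := by
    have := (h1.fun_neg).mul_const (2⁻¹ : ℝ)
    refine this.congr_fderiv ?_
    ext y
    simp
    ring
  have h3 := (h2.exp).const_mul ((2 * Real.pi)⁻¹ : ℝ)
  refine h3.congr_fderiv ?_
  ext y
  simp
  ring

lemma fderiv_gaussDensity (x v : ℂ) :
    fderiv ℝ gaussDensity x v = -(gaussDensity x) * inner ℝ x v := by
  rw [(hasFDerivAt_gaussDensity x).fderiv]
  simp

lemma differentiableAt_gaussDensity (x : ℂ) : DifferentiableAt ℝ gaussDensity x :=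
  (hasFDerivAt_gaussDensity x).differentiableAt

lemma gaussDensity_le (x : ℂ) : gaussDensity x ≤ (2 * Real.pi)⁻¹ := by
  unfold gaussDensity
  have : Real.exp (-‖x‖ ^ 2 / 2) ≤ 1 := by
    apply Real.exp_le_one_iff.mpr
    nlinarith [sq_nonneg ‖x‖]
  have h : (0:ℝ) ≤ (2 * Real.pi)⁻¹ := by positivity
  nlinarith

lemma gaussDensity_le_one (x : ℂ) : gaussDensity x ≤ 1 := by
  refine (gaussDensity_le x).trans ?_
  have := Real.pi_gt_three
  apply inv_le_one_of_one_le₀
  linarith

lemma integrable_gaussDensity : Integrable gaussDensity := by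
  unfold gaussDensity
  have h2 : Integrable (fun x : ℂ => Real.exp (-(1/2 : ℝ) * ‖x‖ ^ 2)) := by
    have := GaussianFourier.integrable_cexp_neg_mul_sq_norm_add (V := ℂ) (b := (1/2 : ℂ))
      (by norm_num) 0 (0 : ℂ)
    have h3 := this.norm
    refine h3.congr (Eventually.of_forall fun x => ?_)
    simp only [zero_mul, add_zero, Complex.norm_exp]
    congr 1
    have : (-(1/2 : ℂ) * (‖x‖ : ℂ) ^ 2) = ((-(1/2 : ℝ) * ‖x‖ ^ 2 : ℝ) : ℂ) := by push_cast; ring
    rw [this]; exact Complex.ofReal_re _
  refine (h2.const_mul ((2 * Real.pi)⁻¹)).congr (Eventually.of_forall fun x => ?_)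
  simp only
  congr 2
  ring

/-! ### Divergence -/

lemma divergence_eq_of_hasFDerivAt {φ : ℂ → ℂ} {x : ℂ} {φ' : ℂ →L[ℝ] ℂ}
    (h : HasFDerivAt φ φ' x) : divergence φ x = (φ' 1).re + (φ' Complex.I).im := by
  unfold divergence; rw [h.fderiv]

lemma divergence_add {φ ψ : ℂ → ℂ} {x : ℂ} (hφ : DifferentiableAt ℝ φ x)
    (hψ : DifferentiableAt ℝ ψ x) :
    divergence (fun y => φ y + ψ y) x = divergence φ x + divergence ψ x := by
  rw [divergence_eq_of_hasFDerivAt (hφ.hasFDerivAt.fun_add hψ.hasFDerivAt)]
  simp [divergence]; ring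

lemma divergence_neg {φ : ℂ → ℂ} {x : ℂ} :
    divergence (fun y => - φ y) x = - divergence φ x := by
  unfold divergence
  have : fderiv ℝ (fun y => - φ y) x = - fderiv ℝ φ x := by
    exact fderiv_fun_neg
  rw [this]; simp; ring

lemma divergence_sub {φ ψ : ℂ → ℂ} {x : ℂ} (hφ : DifferentiableAt ℝ φ x)
    (hψ : DifferentiableAt ℝ ψ x) :
    divergence (fun y => φ y - ψ y) x = divergence φ x - divergence ψ x := by
  rw [divergence_eq_of_hasFDerivAt (hφ.hasFDerivAt.fun_sub hψ.hasFDerivAt)]
  simp [divergence]; ring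

lemma divergence_smul {a : ℂ → ℝ} {φ : ℂ → ℂ} {x : ℂ} (ha : DifferentiableAt ℝ a x)
    (hφ : DifferentiableAt ℝ φ x) :
    divergence (fun y => a y • φ y) x = a x * divergence φ x + fderiv ℝ a x (φ x) := by
  rw [divergence_eq_of_hasFDerivAt (ha.hasFDerivAt.fun_smul hφ.hasFDerivAt)]
  have h : fderiv ℝ a x (φ x) =
      (φ x).re * fderiv ℝ a x 1 + (φ x).im * fderiv ℝ a x Complex.I := by
    have h1 : φ x = (φ x).re • (1 : ℂ) + (φ x).im • Complex.I := by
      apply Complex.ext <;> simp
    conv_lhs => rw [h1]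
    rw [map_add, map_smul, map_smul]
    simp
  rw [h]
  simp [divergence]
  ring

lemma divergence_const_smul (c : ℝ) {φ : ℂ → ℂ} {x : ℂ} (hφ : DifferentiableAt ℝ φ x) :
    divergence (fun y => c • φ y) x = c * divergence φ x := by
  rw [divergence_smul (a := fun _ => c) (differentiableAt_const c) hφ]
  simp

/-- divergence of `a • v` for a constant vector `v`. -/
lemma divergence_smul_const {a : ℂ → ℝ} (v : ℂ) {x : ℂ} (ha : DifferentiableAt ℝ a x) :
    divergence (fun y => a y • v) x = fderiv ℝ a x v := by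
  rw [divergence_smul (φ := fun _ => v) ha (differentiableAt_const v)]
  simp [divergence]

lemma divergence_comp_sub {φ : ℂ → ℂ} (h x : ℂ) :
    divergence (fun y => φ (y - h)) x = divergence φ (x - h) := by
  unfold divergence
  rw [fderiv_comp_sub]

lemma divergence_gauss {φ : ℂ → ℂ} {x : ℂ} (hφ : DifferentiableAt ℝ φ x) :
    divergence (fun y => gaussDensity y • φ y) x =
      gaussDensity x * (divergence φ x - inner ℝ x (φ x)) := by
  rw [divergence_smul (differentiableAt_gaussDensity x) hφ, fderiv_gaussDensity]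
  ring

lemma divergence_eventuallyEq {φ ψ : ℂ → ℂ} {x : ℂ} (h : φ =ᶠ[𝓝 x] ψ) :
    divergence φ x = divergence ψ x := by
  unfold divergence
  rw [h.fderiv_eq]

lemma divergence_zero (x : ℂ) : divergence (fun _ => 0) x = 0 := by
  simp [divergence]

lemma IsTestField.differentiable {φ : ℂ → ℂ} (h : IsTestField φ) : Differentiable ℝ φ :=
  h.1.differentiable (by norm_num)

lemma IsTestField.continuous {φ : ℂ → ℂ} (h : IsTestField φ) : Continuous φ := h.1.continuous

lemma continuous_divergence {φ : ℂ → ℂ} (h : ContDiff ℝ 1 φ) : Continuous (divergence φ) := by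
  have h1 : Continuous (fderiv ℝ φ) := h.continuous_fderiv (by norm_num)
  unfold divergence
  exact (Complex.continuous_re.comp (h1.clm_apply continuous_const)).add
    (Complex.continuous_im.comp (h1.clm_apply continuous_const))

lemma support_divergence_subset {φ : ℂ → ℂ} : Function.support (divergence φ) ⊆ tsupport φ := by
  intro x hx
  by_contra hx'
  apply hx
  have : φ =ᶠ[𝓝 x] (fun _ => 0) := by
    exact notMem_tsupport_iff_eventuallyEq.mp hx'
  rw [divergence_eventuallyEq this, divergence_zero]

lemma divergence_eq_zero_of_notMem {φ : ℂ → ℂ} {x : ℂ} (hx : x ∉ tsupport φ) :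
    divergence φ x = 0 := by
  by_contra h
  exact hx (support_divergence_subset h)

lemma IsTestField.hasCompactSupport_divergence {φ : ℂ → ℂ} (h : IsTestField φ) :
    HasCompactSupport (divergence φ) := by
  apply HasCompactSupport.of_support_subset_isCompact h.2 support_divergence_subset

lemma IsTestField.integrable_divergence {φ : ℂ → ℂ} (h : IsTestField φ) :
    Integrable (divergence φ) :=
  (continuous_divergence h.1).integrable_of_hasCompactSupport h.hasCompactSupport_divergence

lemma IsTestField.add {φ ψ : ℂ → ℂ} (h : IsTestField φ) (h' : IsTestField ψ) :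
    IsTestField (fun x => φ x + ψ x) := ⟨h.1.add h'.1, h.2.add h'.2⟩

lemma IsTestField.neg {φ : ℂ → ℂ} (h : IsTestField φ) :
    IsTestField (fun x => - φ x) := ⟨h.1.neg, h.2.neg⟩

lemma IsTestField.sub {φ ψ : ℂ → ℂ} (h : IsTestField φ) (h' : IsTestField ψ) :
    IsTestField (fun x => φ x - ψ x) := by
  simpa [sub_eq_add_neg] using h.add h'.neg

lemma IsTestField.smul {φ : ℂ → ℂ} (h : IsTestField φ) {a : ℂ → ℝ} (ha : ContDiff ℝ 1 a) :
    IsTestField (fun x => a x • φ x) := ⟨ha.smul h.1, h.2.smul_left (f := a)⟩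

lemma IsTestField.smul' {φ : ℂ → ℂ} (h : ContDiff ℝ 1 φ) {a : ℂ → ℝ} (ha : ContDiff ℝ 1 a)
    (ha' : HasCompactSupport a) :
    IsTestField (fun x => a x • φ x) := ⟨ha.smul h, ha'.smul_right⟩

lemma IsTestField.gauss {φ : ℂ → ℂ} (h : IsTestField φ) :
    IsTestField (fun x => gaussDensity x • φ x) := h.smul contDiff_gaussDensity

/-- Every test field is `γ` times a test field. -/
lemma IsTestField.div_gauss {φ : ℂ → ℂ} (h : IsTestField φ) :
    IsTestField (fun x => (gaussDensity x)⁻¹ • φ x) :=
  h.smul (contDiff_gaussDensity.inv fun x => (gaussDensity_pos x).ne')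

lemma IsTestField.integral_divergence {φ : ℂ → ℂ} (h : IsTestField φ) :
    ∫ x, divergence φ x = 0 := by
  have key : ∀ (v : ℂ) (L : ℂ →L[ℝ] ℝ), ∫ x, L (fderiv ℝ φ x v) = 0 := by
    intro v L
    have hint : Integrable (fun x => L (fderiv ℝ φ x v)) := by
      apply Continuous.integrable_of_hasCompactSupport
      · exact L.continuous.comp ((h.1.continuous_fderiv (by norm_num)).clm_apply continuous_const)
      · have := h.2.fderiv (𝕜 := ℝ)
        apply HasCompactSupport.of_support_subset_isCompact h.2
        intro x hx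
        by_contra hx'
        apply hx
        have h0 : φ =ᶠ[𝓝 x] (fun _ => 0) := notMem_tsupport_iff_eventuallyEq.mp hx'
        simp [h0.fderiv_eq]
    have hg : Differentiable ℝ (fun x => L (φ x)) := L.differentiable.comp h.differentiable
    have hfd : ∀ x, fderiv ℝ (fun x => L (φ x)) x v = L (fderiv ℝ φ x v) := by
      intro x
      have : HasFDerivAt (fun x => L (φ x)) (L.comp (fderiv ℝ φ x)) x :=
        L.hasFDerivAt.comp x (h.differentiable x).hasFDerivAt
      rw [this.fderiv]; rfl
    have := integral_mul_fderiv_eq_neg_fderiv_mul_of_integrable (𝕜 := ℝ) (μ := (volume : Measure ℂ))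
      (f := fun _ : ℂ => (1:ℝ)) (g := fun x => L (φ x)) (v := v) (by simp)
      (by simpa [hfd] using hint)
      (by
        simp only [one_mul]
        exact (L.continuous.comp h.continuous).integrable_of_hasCompactSupport
          (h.2.comp_left (map_zero L)))
      (fun x _ => by simp) (fun x _ => hg x)
    simpa [hfd] using this
  unfold divergence
  have h1 := key 1 Complex.reCLM
  have h2 := key Complex.I Complex.imCLM
  simp only [Complex.reCLM_apply, Complex.imCLM_apply] at h1 h2
  rw [integral_add, h1, h2, add_zero]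
  · apply Continuous.integrable_of_hasCompactSupport
    · exact Complex.continuous_re.comp
        ((h.1.continuous_fderiv (by norm_num)).clm_apply continuous_const)
    · apply HasCompactSupport.of_support_subset_isCompact h.2
      intro x hx
      by_contra hx'
      apply hx
      have h0 : φ =ᶠ[𝓝 x] (fun _ => 0) := notMem_tsupport_iff_eventuallyEq.mp hx'
      simp [h0.fderiv_eq]
  · apply Continuous.integrable_of_hasCompactSupport
    · exact Complex.continuous_im.comp
        ((h.1.continuous_fderiv (by norm_num)).clm_apply continuous_const)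
    · apply HasCompactSupport.of_support_subset_isCompact h.2
      intro x hx
      by_contra hx'
      apply hx
      have h0 : φ =ᶠ[𝓝 x] (fun _ => 0) := notMem_tsupport_iff_eventuallyEq.mp hx'
      simp [h0.fderiv_eq]

end Pool.Agent.H65.Gauss
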