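import Pool.Agent.H65.GaussOneDim

/-! The competitor: a half-plane and a half-plane cut into strips. -/

namespace Pool.Agent.H65.Gauss

open MeasureTheory Set Filter Topology Metric
open scoped ENNReal NNReal

section slices

variable {F : ℂ → ℂ}

lemma hasCompactSupport_slice_re (hF : IsTestField F) (b : ℝ) :
    HasCompactSupport (fun a : ℝ => (F ⟨a, b⟩).re) := by
  obtain ⟨T, hT⟩ := hF.2.isCompact.isBounded.subset_closedBall 0
  apply HasCompactSupport.of_support_subset_isCompact (isCompact_Icc (a := -T) (b := T))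
  intro a ha
  have h1 : (⟨a, b⟩ : ℂ) ∈ tsupport F := by
    by_contra hne
    apply ha
    simp only
    rw [image_eq_zero_of_notMem_tsupport hne]; simp
  have h2 := hT h1
  rw [mem_closedBall_zero_iff] at h2
  have h3 := (Complex.abs_re_le_norm (⟨a, b⟩ : ℂ)).trans h2
  exact abs_le.mp h3

lemma hasCompactSupport_slice_im (hF : IsTestField F) (a : ℝ) :
    HasCompactSupport (fun b : ℝ => (F ⟨a, b⟩).im) := by
  obtain ⟨T, hT⟩ := hF.2.isCompact.isBounded.subset_closedBall 0
  apply HasCompactSupport.of_support_subset_isCompact (isCompact_Icc (a := -T) (b := T))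
  intro b hb
  have h1 : (⟨a, b⟩ : ℂ) ∈ tsupport F := by
    by_contra hne
    apply hb
    simp only
    rw [image_eq_zero_of_notMem_tsupport hne]; simp
  have h2 := hT h1
  rw [mem_closedBall_zero_iff] at h2
  have h3 := (Complex.abs_im_le_norm (⟨a, b⟩ : ℂ)).trans h2
  exact abs_le.mp h3

lemma mk_eq (a b : ℝ) : (⟨a, b⟩ : ℂ) = a + b * Complex.I := by
  apply Complex.ext <;> simp

lemma contDiff_slice_re (hF : IsTestField F) (b : ℝ) :
    ContDiff ℝ 1 (fun a : ℝ => (F ⟨a, b⟩).re) := by
  have h1 : ContDiff ℝ 1 (fun a : ℝ => (⟨a, b⟩ : ℂ)) := by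
    simp only [mk_eq]
    exact (Complex.ofRealCLM.contDiff).add contDiff_const
  exact Complex.reCLM.contDiff.comp (hF.1.comp h1)

lemma contDiff_slice_im (hF : IsTestField F) (a : ℝ) :
    ContDiff ℝ 1 (fun b : ℝ => (F ⟨a, b⟩).im) := by
  have h1 : ContDiff ℝ 1 (fun b : ℝ => (⟨a, b⟩ : ℂ)) := by
    simp only [mk_eq]
    exact contDiff_const.add ((Complex.ofRealCLM.contDiff).mul contDiff_const)
  exact Complex.imCLM.contDiff.comp (hF.1.comp h1)

lemma deriv_slice_re (hF : IsTestField F) (a b : ℝ) :
    deriv (fun a : ℝ => (F ⟨a, b⟩).re) a = (fderiv ℝ F ⟨a, b⟩ 1).re := by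
  have h1 : HasDerivAt (fun a : ℝ => (⟨a, b⟩ : ℂ)) 1 a := by
    simp only [mk_eq]
    exact (Complex.ofRealCLM.hasDerivAt (x := a)).add_const _
  have h2 := (hF.differentiable ⟨a, b⟩).hasFDerivAt.comp_hasDerivAt a h1
  have h3 := (Complex.reCLM.hasFDerivAt (x := F ⟨a, b⟩)).comp_hasDerivAt a h2
  exact h3.deriv

lemma deriv_slice_im (hF : IsTestField F) (a b : ℝ) :
    deriv (fun b : ℝ => (F ⟨a, b⟩).im) b = (fderiv ℝ F ⟨a, b⟩ Complex.I).im := by
  have h1 : HasDerivAt (fun b : ℝ => (⟨a, b⟩ : ℂ)) Complex.I b := by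
    simp only [mk_eq]
    have := ((Complex.ofRealCLM.hasDerivAt (x := b)).mul_const Complex.I).const_add (a : ℂ)
    simpa using this
  have h2 := (hF.differentiable ⟨a, b⟩).hasFDerivAt.comp_hasDerivAt b h1
  have h3 := (Complex.imCLM.hasFDerivAt (x := F ⟨a, b⟩)).comp_hasDerivAt b h2
  exact h3.deriv

lemma integrable_part1 (hF : IsTestField F) : Integrable (fun x => (fderiv ℝ F x 1).re) := by
  apply Continuous.integrable_of_hasCompactSupport
  · exact Complex.continuous_re.comp
      ((hF.1.continuous_fderiv (by norm_num)).clm_apply continuous_const)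
  · apply HasCompactSupport.of_support_subset_isCompact hF.2
    intro x hx
    by_contra hx'
    apply hx
    have h0 : F =ᶠ[𝓝 x] (fun _ => 0) := notMem_tsupport_iff_eventuallyEq.mp hx'
    simp [h0.fderiv_eq]

lemma integrable_part2 (hF : IsTestField F) : Integrable (fun x => (fderiv ℝ F x Complex.I).im) := by
  apply Continuous.integrable_of_hasCompactSupport
  · exact Complex.continuous_im.comp
      ((hF.1.continuous_fderiv (by norm_num)).clm_apply continuous_const)
  · apply HasCompactSupport.of_support_subset_isCompact hF.2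
    intro x hx
    by_contra hx'
    apply hx
    have h0 : F =ᶠ[𝓝 x] (fun _ => 0) := notMem_tsupport_iff_eventuallyEq.mp hx'
    simp [h0.fderiv_eq]

end slices

lemma integral_le_of_slices {F : ℂ → ℂ} (hF : IsTestField F) {I J : Set ℝ}
    {p q : ℝ → ℝ} (hp : IntegrableOn p J)
    (hq : IntegrableOn q I)
    (h1 : ∀ b, |∫ a in I, deriv (fun a : ℝ => (F ⟨a, b⟩).re) a| ≤ p b)
    (h2 : ∀ a, |∫ b in J, deriv (fun b : ℝ => (F ⟨a, b⟩).im) b| ≤ q a) :
    ∫ x in prodSet I J, divergence F x ≤ (∫ b in J, p b) + ∫ a in I, q a := by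
  have e1 : ∫ x in prodSet I J, divergence F x =
      (∫ x in prodSet I J, (fderiv ℝ F x 1).re) + ∫ x in prodSet I J, (fderiv ℝ F x Complex.I).im := by
    unfold divergence
    exact integral_add (integrable_part1 hF).integrableOn (integrable_part2 hF).integrableOn
  rw [e1, setIntegral_prodSet' (integrable_part1 hF), setIntegral_prodSet (integrable_part2 hF)]
  simp only [← deriv_slice_re hF, ← deriv_slice_im hF]
  apply add_le_add
  · refine (le_abs_self _).trans ?_
    rw [← Real.norm_eq_abs]
    exact norm_integral_le_of_norm_le hp (Eventually.of_forall h1)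
  · refine (le_abs_self _).trans ?_
    rw [← Real.norm_eq_abs]
    exact norm_integral_le_of_norm_le hq (Eventually.of_forall h2)

lemma norm_gauss_smul_le {φ : ℂ → ℂ} (h : ∀ x, ‖φ x‖ ≤ 1) (x : ℂ) :
    ‖gaussDensity x • φ x‖ ≤ g1 x.re * g1 x.im := by
  rw [norm_smul, Real.norm_of_nonneg (gaussDensity_nonneg x), ← gaussDensity_eq]
  have := gaussDensity_nonneg x
  have := h x
  nlinarith

lemma perimeter_halfplane_le (R : ℝ) :
    gaussPerimeter (prodSet (Iic R) univ) ≤ ENNReal.ofReal (g1 R) := by
  unfold gaussPerimeter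
  apply iSup₂_le
  rintro φ ⟨hφ, hφ1⟩
  apply ENNReal.ofReal_le_ofReal
  have hF := hφ.gauss
  have h := integral_le_of_slices hF (I := Iic R) (J := univ)
    (p := fun b => g1 R * g1 b) (q := fun _ => 0) (integrable_g1.const_mul _).integrableOn
    (integrable_zero _ _ _)
    (fun b => by
      rw [HasCompactSupport.integral_Iic_deriv_eq (contDiff_slice_re hF b)
        (hasCompactSupport_slice_re hF b)]
      exact (Complex.abs_re_le_norm _).trans (norm_gauss_smul_le hφ1 _))
    (fun a => by
      have h1 := HasCompactSupport.integral_Iic_deriv_eq (contDiff_slice_im hF a)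
        (hasCompactSupport_slice_im hF a) 0
      have h2 := HasCompactSupport.integral_Ioi_deriv_eq (contDiff_slice_im hF a)
        (hasCompactSupport_slice_im hF a) 0
      have hint : Integrable (deriv (fun b : ℝ =>
          (gaussDensity (⟨a, b⟩ : ℂ) • φ (⟨a, b⟩ : ℂ)).im)) :=
        ((contDiff_slice_im hF a).continuous_deriv (by norm_num)).integrable_of_hasCompactSupport
          (hasCompactSupport_slice_im hF a).deriv
      have h3 := integral_add_compl (measurableSet_Iic (a := (0:ℝ))) hint
      rw [compl_Iic] at h3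
      rw [setIntegral_univ, ← h3, h1, h2]
      simp)
  refine h.trans ?_
  rw [setIntegral_univ, integral_const_mul, integral_g1]
  simp

lemma perimeter_strip_le (R : ℝ) {J : Set ℝ} (hJ : J.OrdConnected) :
    gaussPerimeter (prodSet (Ioi R) J) ≤ ENNReal.ofReal (g1 R * (∫ t in J, g1 t) + tailQ R) := by
  unfold gaussPerimeter
  apply iSup₂_le
  rintro φ ⟨hφ, hφ1⟩
  apply ENNReal.ofReal_le_ofReal
  have hF := hφ.gauss
  have h := integral_le_of_slices hF (I := Ioi R) (J := J)
    (p := fun b => g1 R * g1 b) (q := fun a => g1 a) (integrable_g1.const_mul _).integrableOn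
    integrable_g1.integrableOn
    (fun b => by
      rw [HasCompactSupport.integral_Ioi_deriv_eq (contDiff_slice_re hF b)
        (hasCompactSupport_slice_re hF b), abs_neg]
      exact (Complex.abs_re_le_norm _).trans (norm_gauss_smul_le hφ1 _))
    (fun a => by
      have h1 := abs_integral_deriv_le (contDiff_slice_im hF a)
        (hasCompactSupport_slice_im hF a) (B := g1 a * (1/2)) (fun b => by
          refine (Complex.abs_im_le_norm _).trans ((norm_gauss_smul_le hφ1 _).trans ?_)
          exact mul_le_mul_of_nonneg_left (g1_le b) (g1_pos a).le) hJ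
      refine h1.trans (le_of_eq ?_)
      ring)
  refine h.trans (le_of_eq ?_)
  rw [integral_const_mul]
  rfl

/-- The strips in the second coordinate. -/
def stripJ (K j : ℕ) : Set ℝ := {y | min ⌊y⌋₊ (K - 1) = j}

lemma ordConnected_stripJ (K j : ℕ) : (stripJ K j).OrdConnected := by
  constructor
  intro x hx y hy z hz
  have hx' : min ⌊x⌋₊ (K - 1) = j := hx
  have hy' : min ⌊y⌋₊ (K - 1) = j := hy
  have h1 : min ⌊x⌋₊ (K - 1) ≤ min ⌊z⌋₊ (K - 1) := min_le_min_right _ (Nat.floor_mono hz.1)
  have h2 : min ⌊z⌋₊ (K - 1) ≤ min ⌊y⌋₊ (K - 1) := min_le_min_right _ (Nat.floor_mono hz.2)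
  change min ⌊z⌋₊ (K - 1) = j
  omega

lemma Ioo_subset_stripJ {K j : ℕ} (hj : j < K) : Ioo (j:ℝ) (j + 1) ⊆ stripJ K j := by
  intro y hy
  have h1 : ⌊y⌋₊ = j := by
    rw [Nat.floor_eq_iff (by linarith [hy.1, (Nat.cast_nonneg j : (0:ℝ) ≤ j)])]
    exact ⟨hy.1.le, hy.2⟩
  change min ⌊y⌋₊ (K - 1) = j
  omega

/-- mass of a strip -/
noncomputable def stripM (K j : ℕ) : ℝ := ∫ t in stripJ K j, g1 t

lemma stripM_pos {K j : ℕ} (hj : j < K) : 0 < stripM K j := by
  unfold stripM
  rw [integral_pos_iff_support_of_nonneg_ae (Eventually.of_forall fun t => (g1_pos t).le)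
    integrable_g1.integrableOn]
  have : Function.support g1 = univ := by
    ext t; simp [(g1_pos t).ne']
  rw [this, Measure.restrict_apply_univ]
  refine lt_of_lt_of_le ?_ (measure_mono (Ioo_subset_stripJ hj))
  rw [Real.volume_Ioo]
  simp

lemma sum_stripM {K : ℕ} (hK : 0 < K) : ∑ j : Fin K, stripM K j = 1 := by
  unfold stripM
  rw [← integral_g1]
  rw [← integral_iUnion_fintype (f := g1) (s := fun j : Fin K => stripJ K j)
    (fun j => (ordConnected_stripJ K j).measurableSet) ?_ (fun j => integrable_g1.integrableOn)]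
  · have : ⋃ j : Fin K, stripJ K (j:ℕ) = univ := by
      rw [eq_univ_iff_forall]
      intro y
      rw [mem_iUnion]
      exact ⟨⟨min ⌊y⌋₊ (K - 1), by omega⟩, rfl⟩
    rw [this, setIntegral_univ]
  · intro i j hij
    apply disjoint_left.mpr
    intro y hy1 hy2
    apply hij
    have h1 : min ⌊y⌋₊ (K - 1) = i := hy1
    have h2 : min ⌊y⌋₊ (K - 1) = j := hy2
    exact Fin.ext (by omega)

/-- the competitor -/
def compSet (K : ℕ) (R : ℝ) : Fin (K + 1) → Set ℂ :=
  Fin.cons (prodSet (Iic R) univ) fun j => prodSet (Ioi R) (stripJ K j)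

lemma gaussArea_prodSet {I J : Set ℝ} :
    gaussArea (prodSet I J) = (∫ a in I, g1 a) * ∫ b in J, g1 b := by
  unfold gaussArea
  rw [setIntegral_prodSet integrable_gaussDensity, ← integral_mul_const]
  congr 1
  ext a
  rw [← integral_const_mul]
  congr 1
  ext b
  rw [gaussDensity_eq]

/-- The areas of the counterexample. -/
noncomputable def compV (K : ℕ) (R : ℝ) : Fin (K + 1) → ℝ :=
  Fin.cons (1 - tailQ R) fun j => tailQ R * stripM K j

lemma integral_Iic_g1 (R : ℝ) : ∫ a in Iic R, g1 a = 1 - tailQ R := by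
  have h := integral_add_compl (measurableSet_Iic (a := R)) integrable_g1
  rw [compl_Iic, integral_g1] at h
  unfold tailQ
  linarith

lemma gaussArea_compSet (K : ℕ) (R : ℝ) (i : Fin (K + 1)) :
    gaussArea (compSet K R i) = compV K R i := by
  refine Fin.cases ?_ (fun j => ?_) i
  · simp only [compSet, compV, Fin.cons_zero]
    rw [gaussArea_prodSet, setIntegral_univ, integral_g1, integral_Iic_g1, mul_one]
  · simp only [compSet, compV, Fin.cons_succ]
    rw [gaussArea_prodSet]
    rfl

lemma compV_pos {K : ℕ} {R : ℝ} (i : Fin (K + 1)) : 0 < compV K R i := by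
  refine Fin.cases ?_ (fun j => ?_) i
  · simp only [compV, Fin.cons_zero]
    rw [← integral_Iic_g1]
    rw [integral_pos_iff_support_of_nonneg_ae (Eventually.of_forall fun t => (g1_pos t).le)
      integrable_g1.integrableOn]
    have : Function.support g1 = univ := by
      ext t; simp [(g1_pos t).ne']
    rw [this, Measure.restrict_apply_univ]
    simp
  · simp only [compV, Fin.cons_succ]
    exact mul_pos (tailQ_pos R) (stripM_pos j.2)

lemma sum_compV {K : ℕ} (hK : 0 < K) (R : ℝ) : ∑ i, compV K R i = 1 := by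
  rw [Fin.sum_univ_succ]
  simp only [compV, Fin.cons_zero, Fin.cons_succ]
  rw [← Finset.mul_sum, sum_stripM hK]
  ring

lemma measurableSet_compSet (K : ℕ) (R : ℝ) (i : Fin (K + 1)) : MeasurableSet (compSet K R i) := by
  refine Fin.cases ?_ (fun j => ?_) i
  · simp only [compSet, Fin.cons_zero]
    exact measurableSet_prodSet measurableSet_Iic MeasurableSet.univ
  · simp only [compSet, Fin.cons_succ]
    exact measurableSet_prodSet measurableSet_Ioi (ordConnected_stripJ K j).measurableSet

lemma perimeter_compSet_sum (K : ℕ) (hK : 0 < K) (R : ℝ) :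
    ∑ i, gaussPerimeter (compSet K R i) ≤ ENNReal.ofReal (2 * (g1 R + K * tailQ R)) := by
  rw [Fin.sum_univ_succ]
  simp only [compSet, Fin.cons_zero, Fin.cons_succ]
  have h1 := perimeter_halfplane_le R
  have h2 : ∑ j : Fin K, gaussPerimeter (prodSet (Ioi R) (stripJ K j)) ≤
      ENNReal.ofReal (g1 R + K * tailQ R) := by
    calc ∑ j : Fin K, gaussPerimeter (prodSet (Ioi R) (stripJ K j))
        ≤ ∑ j : Fin K, ENNReal.ofReal (g1 R * stripM K j + tailQ R) :=
          Finset.sum_le_sum fun j _ => perimeter_strip_le R (ordConnected_stripJ K j)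
      _ = ENNReal.ofReal (∑ j : Fin K, (g1 R * stripM K j + tailQ R)) := by
          rw [ENNReal.ofReal_sum_of_nonneg]
          intro j _
          have := g1_pos R; have := stripM_pos j.2; have := tailQ_pos R
          positivity
      _ = ENNReal.ofReal (g1 R + K * tailQ R) := by
          rw [Finset.sum_add_distrib, ← Finset.mul_sum, sum_stripM hK]
          simp
  have hg := g1_pos R
  have hq := tailQ_pos R
  refine (add_le_add h1 h2).trans ?_
  rw [← ENNReal.ofReal_add hg.le (by positivity)]
  apply ENNReal.ofReal_le_ofReal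
  have : 0 ≤ (K:ℝ) * tailQ R := by positivity
  linarith

theorem compSet_facts (K : ℕ) (hK : 0 < K) (R : ℝ) :
    IsPartition (compV K R) (compSet K R) ∧
      totalPerimeter (compSet K R) ≤ ENNReal.ofReal (g1 R + K * tailQ R) := by
  have hg := g1_pos R
  have hq := tailQ_pos R
  have hsum := perimeter_compSet_sum K hK R
  constructor
  · refine ⟨fun i => ⟨measurableSet_compSet K R i, exists_gaussGreen ?_⟩, ?_, ?_,
      gaussArea_compSet K R⟩
    · apply ne_top_of_le_ne_top ENNReal.ofReal_ne_top (le_trans _ hsum)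
      exact Finset.single_le_sum (f := fun i => gaussPerimeter (compSet K R i))
            (fun j _ => zero_le) (Finset.mem_univ i)
    · intro i j hij
      have : compSet K R i ∩ compSet K R j = ∅ := by
        rw [eq_empty_iff_forall_notMem]
        rintro x ⟨hi, hj⟩
        apply hij
        induction i using Fin.cases with
        | zero =>
          induction j using Fin.cases with
          | zero => rfl
          | succ j =>
            simp only [compSet, Fin.cons_zero, Fin.cons_succ] at hi hj
            exact absurd (mem_Ioi.mp hj.1) (not_lt.mpr (mem_Iic.mp hi.1))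
        | succ i =>
          induction j using Fin.cases with
          | zero =>
            simp only [compSet, Fin.cons_zero, Fin.cons_succ] at hi hj
            exact absurd (mem_Ioi.mp hi.1) (not_lt.mpr (mem_Iic.mp hj.1))
          | succ j =>
            simp only [compSet, Fin.cons_succ] at hi hj
            have h1 : min ⌊x.im⌋₊ (K - 1) = i := hi.2
            have h2 : min ⌊x.im⌋₊ (K - 1) = j := hj.2
            congr 1
            exact Fin.ext (by omega)
      rw [this, measure_empty]
    · have : ⋃ i, compSet K R i = univ := by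
        rw [eq_univ_iff_forall]
        intro x
        rw [mem_iUnion]
        by_cases hx : x.re ≤ R
        · refine ⟨0, ?_⟩
          simp only [compSet, Fin.cons_zero]
          exact ⟨hx, mem_univ _⟩
        · refine ⟨Fin.succ ⟨min ⌊x.im⌋₊ (K - 1), by omega⟩, ?_⟩
          simp only [compSet, Fin.cons_succ]
          exact ⟨not_le.mp hx, rfl⟩
      rw [this]; simp
  · unfold totalPerimeter
    rw [ENNReal.div_le_iff (by norm_num) ENNReal.ofNat_ne_top]
    refine hsum.trans (le_of_eq ?_)
    rw [show (2:ℝ≥0∞) = ENNReal.ofReal 2 by simp, ← ENNReal.ofReal_mul (by positivity)]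
    congr 1
    ring

end Pool.Agent.H65.Gauss
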