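import Pool.Agent.H65.GaussApprox

/-! Compactness of sets of bounded Gaussian perimeter. -/

namespace Pool.Agent.H65.Gauss

open MeasureTheory Set Filter Topology Metric
open scoped ENNReal

/-- Integration over `E` as a continuous linear functional on `L¹`. -/
noncomputable def pairing (E : Set ℂ) : StrongDual ℝ (Lp ℝ 1 (volume : Measure ℂ)) :=
  LinearMap.mkContinuous
    { toFun := fun f => ∫ x in E, f x
      map_add' := by
        intro f g
        rw [← integral_add (L1.integrable_coeFn f).integrableOn (L1.integrable_coeFn g).integrableOn]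
        apply integral_congr_ae
        exact ae_restrict_of_ae (Lp.coeFn_add f g)
      map_smul' := by
        intro c f
        rw [RingHom.id_apply, smul_eq_mul, ← integral_const_mul]
        apply integral_congr_ae
        refine ae_restrict_of_ae ?_
        filter_upwards [Lp.coeFn_smul c f] with x hx
        rw [hx]; rfl } 1 (by
    intro f
    rw [one_mul, L1.norm_eq_integral_norm]
    refine (norm_integral_le_integral_norm _).trans ?_
    exact setIntegral_le_integral (L1.integrable_coeFn f).norm
      (Eventually.of_forall fun x => norm_nonneg _))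

lemma pairing_apply (E : Set ℂ) (f : Lp ℝ 1 (volume : Measure ℂ)) :
    pairing E f = ∫ x in E, f x := rfl

lemma norm_pairing_le (E : Set ℂ) : ‖pairing E‖ ≤ 1 :=
  LinearMap.mkContinuous_norm_le _ zero_le_one _

lemma exists_weak_subseq (E : ℕ → Set ℂ) :
    ∃ φ : ℕ → ℕ, StrictMono φ ∧ ∀ f : ℂ → ℝ, Integrable f →
      ∃ l, Tendsto (fun k => ∫ x in E (φ k), f x) atTop (𝓝 l) := by
  have h1 : Fact ((1:ENNReal) ≠ ⊤) := ⟨by simp⟩
  have hcomp := WeakDual.isSeqCompact_closedBall ℝ (Lp ℝ 1 (volume : Measure ℂ)) 0 1
  obtain ⟨a, -, φ, hφ, ha⟩ := hcomp (x := fun k => StrongDual.toWeakDual (pairing (E k)))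
    (fun k => by
      simp only [mem_preimage, mem_closedBall_zero_iff]
      exact norm_pairing_le (E k))
  refine ⟨φ, hφ, fun f hf => ?_⟩
  have h2 := ((WeakDual.eval_continuous (𝕜 := ℝ) (hf.toL1 f)).tendsto a).comp ha
  refine ⟨a (hf.toL1 f), h2.congr fun k => ?_⟩
  simp only [Function.comp_apply]
  change pairing (E (φ k)) (hf.toL1 f) = _
  rw [pairing_apply]
  apply integral_congr_ae
  exact ae_restrict_of_ae hf.coeFn_toL1

/-- The average of `1_E` over the ball `B(x,s)`. -/
noncomputable def avg (E : Set ℂ) (s : ℝ) (x : ℂ) : ℝ :=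
  (volume.real (closedBall (0:ℂ) s))⁻¹ * ∫ h in closedBall (0:ℂ) s, ind E (x + h)

lemma measurable_ind_add {E : Set ℂ} (hE : MeasurableSet E) :
    Measurable (fun p : ℂ × ℂ => ind E (p.1 + p.2)) :=
  (measurable_ind hE).comp (measurable_fst.add measurable_snd)

lemma measurable_avg {E : Set ℂ} (hE : MeasurableSet E) (s : ℝ) : Measurable (avg E s) := by
  unfold avg
  apply Measurable.const_mul
  exact (StronglyMeasurable.integral_prod_right (measurable_ind_add hE).stronglyMeasurable).measurable

lemma volume_closedBall_pos {s : ℝ} (hs : 0 < s) : 0 < volume.real (closedBall (0:ℂ) s) := by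
  rw [Measure.real]
  exact ENNReal.toReal_pos (measure_closedBall_pos volume 0 hs).ne' measure_closedBall_lt_top.ne

lemma abs_avg_le {E : Set ℂ} {s : ℝ} (hs : 0 < s) (x : ℂ) : |avg E s x| ≤ 1 := by
  unfold avg
  rw [abs_mul, abs_of_pos (inv_pos.mpr (volume_closedBall_pos hs)),
    inv_mul_le_iff₀ (volume_closedBall_pos hs), mul_one]
  have := norm_setIntegral_le_of_norm_le_const (μ := volume) (s := closedBall (0:ℂ) s)
    (f := fun h => ind E (x + h)) (C := 1) measure_closedBall_lt_top
    (fun h _ => norm_ind_le E _)
  simpa using this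

lemma integral_avg_sub_le {E : Set ℂ} (hE : MeasurableSet E) {C : ℝ} (hC : 0 ≤ C)
    (hP : gaussPerimeter E ≤ ENNReal.ofReal C) {M s : ℝ} (hs : 0 < s) (hs1 : s ≤ 1) :
    ∫ x in ball 0 M, |avg E s x - ind E x| ≤ s * locConst (M + 2) * C := by
  set V := volume.real (closedBall (0:ℂ) s) with hV
  have hVpos : 0 < V := volume_closedBall_pos hs
  have hmeas : Measurable (fun p : ℂ × ℂ => |ind E (p.1 + p.2) - ind E p.1|) :=
    ((measurable_ind_add hE).sub ((measurable_ind hE).comp measurable_fst)).abs
  have hb1 : ∀ x h, |ind E (x + h) - ind E x| ≤ 1 := by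
    intro x h
    rw [abs_le]
    have := ind_nonneg E (x+h); have := ind_nonneg E x
    have := ind_le_one E (x+h); have := ind_le_one E x
    constructor <;> linarith
  have hfin1 : IsFiniteMeasure (volume.restrict (ball (0:ℂ) M)) :=
    ⟨by rw [Measure.restrict_apply_univ]; exact measure_ball_lt_top⟩
  have hfin2 : IsFiniteMeasure (volume.restrict (closedBall (0:ℂ) s)) :=
    ⟨by rw [Measure.restrict_apply_univ]; exact measure_closedBall_lt_top⟩
  have hpt : ∀ x, |avg E s x - ind E x| ≤
      V⁻¹ * ∫ h in closedBall (0:ℂ) s, |ind E (x + h) - ind E x| := by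
    intro x
    have h1 : avg E s x - ind E x =
        V⁻¹ * ∫ h in closedBall (0:ℂ) s, (ind E (x + h) - ind E x) := by
      rw [integral_sub, setIntegral_const, mul_sub]
      · unfold avg
        rw [smul_eq_mul, ← hV, ← mul_assoc, inv_mul_cancel₀ hVpos.ne', one_mul]
      · apply Integrable.of_bound (C := 1)
        · exact ((measurable_ind hE).comp (measurable_const_add x)).aestronglyMeasurable
        · exact Eventually.of_forall fun h => norm_ind_le E _
      · exact integrable_const _
    rw [h1, abs_mul, abs_of_pos (inv_pos.mpr hVpos)]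
    apply mul_le_mul_of_nonneg_left _ (inv_nonneg.mpr hVpos.le)
    exact norm_integral_le_integral_norm (fun h => ind E (x + h) - ind E x)
  have hintprod : Integrable (Function.uncurry fun x h => |ind E (x + h) - ind E x|)
      ((volume.restrict (ball (0:ℂ) M)).prod (volume.restrict (closedBall (0:ℂ) s))) := by
    apply Integrable.of_bound (C := 1)
    · exact hmeas.aestronglyMeasurable
    · refine Eventually.of_forall fun p => ?_
      simp only [Function.uncurry]
      rw [Real.norm_eq_abs, abs_abs]
      exact hb1 p.1 p.2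
  calc ∫ x in ball 0 M, |avg E s x - ind E x|
      ≤ ∫ x in ball 0 M, V⁻¹ * ∫ h in closedBall (0:ℂ) s, |ind E (x + h) - ind E x| := by
        apply integral_mono
        · apply Integrable.of_bound (C := 2)
          · exact ((measurable_avg hE s).sub (measurable_ind hE)).abs.aestronglyMeasurable
          · refine Eventually.of_forall fun x => ?_
            rw [Real.norm_eq_abs, abs_abs]
            have h1 := abs_avg_le (E := E) hs x
            have h2 := norm_ind_le E x
            rw [Real.norm_eq_abs] at h2
            calc |avg E s x - ind E x| ≤ |avg E s x| + |ind E x| := abs_sub _ _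
              _ ≤ 2 := by linarith
        · exact (hintprod.integral_prod_left).const_mul _
        · exact fun x => hpt x
    _ = V⁻¹ * ∫ h in closedBall (0:ℂ) s, ∫ x in ball 0 M, |ind E (x + h) - ind E x| := by
        rw [integral_const_mul, integral_integral_swap hintprod]
    _ ≤ V⁻¹ * ∫ h in closedBall (0:ℂ) s, (s * locConst (M + 2) * C) := by
        apply mul_le_mul_of_nonneg_left _ (inv_nonneg.mpr hVpos.le)
        apply setIntegral_mono_on
        · exact hintprod.integral_prod_right
        · exact integrable_const _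
        · exact measurableSet_closedBall
        · intro h hh
          rw [mem_closedBall_zero_iff] at hh
          refine (integral_translate_abs_le hE hC hP (hh.trans hs1)).trans ?_
          have := locConst_pos (M+2)
          gcongr
    _ = s * locConst (M + 2) * C := by
        rw [setIntegral_const, ← hV, smul_eq_mul, ← mul_assoc, inv_mul_cancel₀ hVpos.ne', one_mul]

lemma avg_eq_pairing {E : Set ℂ} (hE : MeasurableSet E) {s : ℝ} (x : ℂ) :
    avg E s x = (volume.real (closedBall (0:ℂ) s))⁻¹ * ∫ y in E, ind (closedBall x s) y := by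
  unfold avg
  congr 1
  rw [setIntegral_eq_integral_ind hE, setIntegral_eq_integral_ind measurableSet_closedBall,
    ← integral_add_right_eq_self (fun y => ind E y * ind (closedBall x s) y) x]
  congr 1
  ext h
  have : ind (closedBall (0:ℂ) s) h = ind (closedBall x s) (h + x) := by
    unfold ind indicator
    simp only [mem_closedBall, dist_eq_norm]
    congr 2
    simp
  rw [this, add_comm h x]
  ring

/-- The weighted `L¹` distance of two sets. -/
noncomputable def gdist (E F : Set ℂ) : ℝ := ∫ x, |ind E x - ind F x| * gaussDensity x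

lemma abs_ind_sub_le (E F : Set ℂ) (x : ℂ) : |ind E x - ind F x| ≤ 1 := by
  rw [abs_le]
  have := ind_nonneg E x; have := ind_nonneg F x
  have := ind_le_one E x; have := ind_le_one F x
  constructor <;> linarith

lemma integrable_gdist {E F : Set ℂ} (hE : MeasurableSet E) (hF : MeasurableSet F) :
    Integrable fun x => |ind E x - ind F x| * gaussDensity x := by
  apply integrable_gaussDensity.bdd_mul (c := 1)
  · exact ((measurable_ind hE).sub (measurable_ind hF)).abs.aestronglyMeasurable
  · refine Eventually.of_forall fun x => ?_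
    rw [Real.norm_eq_abs, abs_abs]
    exact abs_ind_sub_le E F x

lemma gdist_nonneg (E F : Set ℂ) : 0 ≤ gdist E F :=
  integral_nonneg fun x => mul_nonneg (abs_nonneg _) (gaussDensity_nonneg x)

lemma exists_tail {ε : ℝ} (hε : 0 < ε) : ∃ M : ℝ, 0 < M ∧
    ∀ f : ℂ → ℝ, (∀ x, |f x| ≤ 1) → Measurable f →
      ∫ x, |f x| * gaussDensity x ≤ (∫ x in ball 0 M, |f x|) + ε := by
  have h1 : Tendsto (fun n : ℕ => ∫ x in ball (0:ℂ) (n:ℝ), gaussDensity x) atTop
      (𝓝 (∫ x, gaussDensity x)) :=
    (aecover_ball tendsto_natCast_atTop_atTop).integral_tendsto_of_countably_generated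
      integrable_gaussDensity
  have h2 : ∀ᶠ n : ℕ in atTop, (∫ x, gaussDensity x) - ε <
      ∫ x in ball (0:ℂ) (n:ℝ), gaussDensity x :=
    h1.eventually_const_lt (by linarith)
  obtain ⟨n, hn, hn0⟩ := (h2.and (eventually_gt_atTop 0)).exists
  refine ⟨n, by exact_mod_cast hn0, fun f hf hfm => ?_⟩
  have hint : Integrable fun x => |f x| * gaussDensity x := by
    apply integrable_gaussDensity.bdd_mul (c := 1) hfm.abs.aestronglyMeasurable
    refine Eventually.of_forall fun x => ?_
    rw [Real.norm_eq_abs, abs_abs]
    exact hf x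
  rw [← integral_add_compl (measurableSet_ball (x := (0:ℂ)) (ε := (n:ℝ))) hint]
  have h3 : ∫ x in ball (0:ℂ) n, |f x| * gaussDensity x ≤ ∫ x in ball (0:ℂ) n, |f x| := by
    apply integral_mono hint.integrableOn
    · have : IsFiniteMeasure (volume.restrict (ball (0:ℂ) n)) :=
        ⟨by rw [Measure.restrict_apply_univ]; exact measure_ball_lt_top⟩
      apply Integrable.of_bound (C := 1) hfm.abs.aestronglyMeasurable
      refine Eventually.of_forall fun x => ?_
      rw [Real.norm_eq_abs, abs_abs]
      exact hf x
    · intro x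
      have := gaussDensity_le_one x
      have := abs_nonneg (f x)
      simp only
      nlinarith
  have h4 : ∫ x in (ball (0:ℂ) n)ᶜ, |f x| * gaussDensity x ≤
      ∫ x in (ball (0:ℂ) n)ᶜ, gaussDensity x := by
    apply integral_mono hint.integrableOn integrable_gaussDensity.integrableOn
    intro x
    have := gaussDensity_nonneg x
    have := hf x
    simp only
    nlinarith
  have h5 := integral_add_compl (measurableSet_ball (x := (0:ℂ)) (ε := (n:ℝ)))
    integrable_gaussDensity
  linarith

theorem exists_convergent_subseq {E : ℕ → Set ℂ} (hE : ∀ k, MeasurableSet (E k)) {C : ℝ}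
    (hC : 0 ≤ C) (hP : ∀ k, gaussPerimeter (E k) ≤ ENNReal.ofReal C) :
    ∃ φ : ℕ → ℕ, StrictMono φ ∧ ∃ F, MeasurableSet F ∧
      Tendsto (fun k => gdist (E (φ k)) F) atTop (𝓝 0) := by
  obtain ⟨φ, hφ, hweak⟩ := exists_weak_subseq E
  -- Cauchy
  have hcauchy : ∀ ε > 0, ∃ N, ∀ p ≥ N, ∀ q ≥ N, gdist (E (φ p)) (E (φ q)) < ε := by
    intro ε hε
    obtain ⟨M, hM, htail⟩ := exists_tail (ε := ε / 4) (by linarith)
    have hKC : 0 ≤ locConst (M + 2) * C := mul_nonneg (locConst_pos _).le hC
    obtain ⟨s, hs, hs1, hsC⟩ : ∃ s : ℝ, 0 < s ∧ s ≤ 1 ∧ s * (locConst (M+2) * C) ≤ ε / 8 := by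
      refine ⟨min 1 (ε / 8 / (locConst (M+2) * C + 1)), ?_, min_le_left _ _, ?_⟩
      · apply lt_min one_pos; positivity
      · calc min 1 (ε / 8 / (locConst (M+2) * C + 1)) * (locConst (M+2) * C)
            ≤ (ε / 8 / (locConst (M+2) * C + 1)) * (locConst (M+2) * C + 1) := by
              apply mul_le_mul (min_le_right _ _) (by linarith) hKC (by positivity)
          _ = ε / 8 := by field_simp
    have hfin : IsFiniteMeasure (volume.restrict (ball (0:ℂ) M)) :=
      ⟨by rw [Measure.restrict_apply_univ]; exact measure_ball_lt_top⟩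
    -- pointwise limits of averages
    have hlimpt : ∀ x, ∃ l, Tendsto (fun k => avg (E (φ k)) s x) atTop (𝓝 l) := by
      intro x
      have hint : Integrable (ind (closedBall x s)) := by
        unfold ind
        rw [integrable_indicator_iff measurableSet_closedBall]
        exact integrableOn_const measure_closedBall_lt_top.ne
      obtain ⟨l, hl⟩ := hweak _ hint
      refine ⟨(volume.real (closedBall (0:ℂ) s))⁻¹ * l, ?_⟩
      simp only [fun k => avg_eq_pairing (hE (φ k)) (s := s) x]
      exact hl.const_mul _
    choose a ha using hlimpt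
    have hameas : Measurable a :=
      measurable_of_tendsto_metrizable (fun k => measurable_avg (hE (φ k)) s)
        (tendsto_pi_nhds.mpr ha)
    have hab : ∀ x, |a x| ≤ 1 := fun x =>
      le_of_tendsto' (ha x).abs fun k => abs_avg_le hs x
    have hb : Tendsto (fun k => ∫ x in ball (0:ℂ) M, |avg (E (φ k)) s x - a x|) atTop (𝓝 0) := by
      have : Tendsto (fun k => ∫ x in ball (0:ℂ) M, |avg (E (φ k)) s x - a x|) atTop
          (𝓝 (∫ x in ball (0:ℂ) M, (0:ℝ))) := by
        apply tendsto_integral_of_dominated_convergence (bound := fun _ => 2)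
        · intro k
          exact ((measurable_avg (hE (φ k)) s).sub hameas).abs.aestronglyMeasurable
        · exact integrable_const _
        · intro k
          refine Eventually.of_forall fun x => ?_
          rw [Real.norm_eq_abs, abs_abs]
          have h1 := abs_avg_le (E := E (φ k)) hs x
          have h2 := hab x
          calc |avg (E (φ k)) s x - a x| ≤ |avg (E (φ k)) s x| + |a x| := abs_sub _ _
            _ ≤ 2 := by linarith
        · refine Eventually.of_forall fun x => ?_
          have := ((ha x).sub_const (a x)).abs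
          simpa using this
      simpa using this
    have hb' : ∀ᶠ k in atTop, ∫ x in ball (0:ℂ) M, |avg (E (φ k)) s x - a x| < ε / 8 :=
      hb.eventually_lt_const (by linarith)
    obtain ⟨N, hN⟩ := eventually_atTop.mp hb'
    refine ⟨N, fun p hp q hq => ?_⟩
    have hint : ∀ f : ℂ → ℝ, Measurable f → (∃ c, ∀ x, |f x| ≤ c) →
        Integrable (fun x => |f x|) (volume.restrict (ball (0:ℂ) M)) := by
      rintro f hf ⟨c, hc⟩
      apply Integrable.of_bound (C := c) hf.abs.aestronglyMeasurable
      refine Eventually.of_forall fun x => ?_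
      rw [Real.norm_eq_abs, abs_abs]; exact hc x
    have hm : ∀ k, Measurable (avg (E (φ k)) s) := fun k => measurable_avg (hE (φ k)) s
    have hi : ∀ k, Measurable (ind (E (φ k))) := fun k => measurable_ind (hE (φ k))
    have hib : ∀ k x, |ind (E (φ k)) x| ≤ 1 := fun k x => norm_ind_le _ x
    have hab2 : ∀ k x, |avg (E (φ k)) s x| ≤ 1 := fun k x => abs_avg_le hs x
    have I1 := hint (fun x => avg (E (φ p)) s x - ind (E (φ p)) x) ((hm p).sub (hi p))
      ⟨2, fun x => (abs_sub _ _).trans (by have := hib p x; have := hab2 p x; linarith)⟩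
    have I2 := hint (fun x => avg (E (φ q)) s x - ind (E (φ q)) x) ((hm q).sub (hi q))
      ⟨2, fun x => (abs_sub _ _).trans (by have := hib q x; have := hab2 q x; linarith)⟩
    have I3 := hint (fun x => avg (E (φ p)) s x - a x) ((hm p).sub hameas)
      ⟨2, fun x => (abs_sub _ _).trans (by have := hab x; have := hab2 p x; linarith)⟩
    have I4 := hint (fun x => avg (E (φ q)) s x - a x) ((hm q).sub hameas)
      ⟨2, fun x => (abs_sub _ _).trans (by have := hab x; have := hab2 q x; linarith)⟩
    have I5 := hint (fun x => ind (E (φ p)) x - ind (E (φ q)) x) ((hi p).sub (hi q))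
      ⟨1, fun x => abs_ind_sub_le _ _ x⟩
    have h6 : ∫ x in ball (0:ℂ) M, |ind (E (φ p)) x - ind (E (φ q)) x| ≤
        (∫ x in ball (0:ℂ) M, |avg (E (φ p)) s x - ind (E (φ p)) x|) +
        (∫ x in ball (0:ℂ) M, |avg (E (φ q)) s x - ind (E (φ q)) x|) +
        (∫ x in ball (0:ℂ) M, |avg (E (φ p)) s x - a x|) +
        (∫ x in ball (0:ℂ) M, |avg (E (φ q)) s x - a x|) := by
      have I12 : Integrable (fun x => |avg (E (φ p)) s x - ind (E (φ p)) x| +
          |avg (E (φ q)) s x - ind (E (φ q)) x|) (volume.restrict (ball (0:ℂ) M)) := I1.add I2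
      have I123 : Integrable (fun x => |avg (E (φ p)) s x - ind (E (φ p)) x| +
          |avg (E (φ q)) s x - ind (E (φ q)) x| + |avg (E (φ p)) s x - a x|)
          (volume.restrict (ball (0:ℂ) M)) := I12.add I3
      have I1234 : Integrable (fun x => |avg (E (φ p)) s x - ind (E (φ p)) x| +
          |avg (E (φ q)) s x - ind (E (φ q)) x| + |avg (E (φ p)) s x - a x| +
          |avg (E (φ q)) s x - a x|)
          (volume.restrict (ball (0:ℂ) M)) := I123.add I4
      rw [← integral_add I1 I2, ← integral_add I12 I3, ← integral_add I123 I4]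
      apply integral_mono I5 I1234
      intro x
      simp only
      have e : ind (E (φ p)) x - ind (E (φ q)) x = -(avg (E (φ p)) s x - ind (E (φ p)) x) +
        (avg (E (φ q)) s x - ind (E (φ q)) x) + (avg (E (φ p)) s x - a x)
        + (-(avg (E (φ q)) s x - a x)) := by ring
      rw [e]
      refine (abs_add_le _ _).trans ?_
      rw [abs_neg]
      have h1 := abs_add_le (-(avg (E (φ p)) s x - ind (E (φ p)) x) +
        (avg (E (φ q)) s x - ind (E (φ q)) x)) (avg (E (φ p)) s x - a x)
      have h2 := abs_add_le (-(avg (E (φ p)) s x - ind (E (φ p)) x))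
        (avg (E (φ q)) s x - ind (E (φ q)) x)
      rw [abs_neg] at h2
      linarith
    have h7 := integral_avg_sub_le (hE (φ p)) hC (hP (φ p)) (M := M) hs hs1
    have h8 := integral_avg_sub_le (hE (φ q)) hC (hP (φ q)) (M := M) hs hs1
    have h9 := hN p hp
    have h10 := hN q hq
    have h11 := htail (fun x => ind (E (φ p)) x - ind (E (φ q)) x)
      (fun x => abs_ind_sub_le _ _ x) ((hi p).sub (hi q))
    unfold gdist
    have h12 : s * locConst (M + 2) * C = s * (locConst (M+2) * C) := by ring
    rw [h12] at h7 h8
    linarith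
  -- fast subsequence
  obtain ⟨ψ, hψ, hfast⟩ := extraction_forall_of_eventually
    (P := fun n k => ∀ p ≥ k, ∀ q ≥ k, gdist (E (φ p)) (E (φ q)) < (1/2:ℝ) ^ n) (by
      intro n
      obtain ⟨N, hN⟩ := hcauchy ((1/2:ℝ)^n) (by positivity)
      filter_upwards [eventually_ge_atTop N] with k hk p hp q hq
      exact hN p (hk.trans hp) q (hk.trans hq))
  refine ⟨φ ∘ ψ, hφ.comp hψ, liminf (fun j => E (φ (ψ j))) atTop,
    MeasurableSet.measurableSet_liminf fun j => hE _, ?_⟩
  set G : ℕ → Set ℂ := fun j => E (φ (ψ j)) with hG
  have hGm : ∀ j, MeasurableSet (G j) := fun j => hE _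
  -- Borel-Cantelli
  have hBC : ∀ᵐ x : ℂ, ∀ᶠ j in atTop, ind (G j) x = ind (G (j+1)) x := by
    set m : Measure ℂ := volume.withDensity fun x => ENNReal.ofReal (gaussDensity x) with hm
    have hac : (volume : Measure ℂ) ≪ m := by
      apply withDensity_absolutelyContinuous' measurable_gaussDensity.ennreal_ofReal.aemeasurable
      exact Eventually.of_forall fun x => by
        simp only [ne_eq, ENNReal.ofReal_eq_zero, not_le]
        exact gaussDensity_pos x
    apply hac.ae_le
    set s : ℕ → Set ℂ := fun j => {x | ind (G j) x ≠ ind (G (j+1)) x} with hs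
    have hsm : ∀ j, MeasurableSet (s j) := fun j =>
      (measurableSet_eq_fun (measurable_ind (hGm j)) (measurable_ind (hGm (j+1)))).compl
    have hms : ∀ j, m (s j) ≤ ENNReal.ofReal ((1/2:ℝ)^j) := by
      intro j
      rw [hm, withDensity_apply _ (hsm j), ← ofReal_integral_eq_lintegral_ofReal
        integrable_gaussDensity.integrableOn (Eventually.of_forall gaussDensity_nonneg)]
      apply ENNReal.ofReal_le_ofReal
      have h1 : ∫ x in s j, gaussDensity x = gdist (G j) (G (j+1)) := by
        unfold gdist
        rw [← integral_indicator (hsm j)]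
        congr 1
        ext x
        by_cases hx : ind (G j) x = ind (G (j+1)) x
        · rw [indicator_of_notMem (by simp [hs, hx]), hx]; simp
        · rw [indicator_of_mem (by simpa [hs] using hx)]
          have : |ind (G j) x - ind (G (j+1)) x| = 1 := by
            by_cases h1 : x ∈ G j <;> by_cases h2 : x ∈ G (j+1)
            · exact absurd (by rw [ind_of_mem h1, ind_of_mem h2]) hx
            · rw [ind_of_mem h1, ind_of_notMem h2]; norm_num
            · rw [ind_of_notMem h1, ind_of_mem h2]; norm_num
            · exact absurd (by rw [ind_of_notMem h1, ind_of_notMem h2]) hx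
          rw [this, one_mul]
      rw [h1]
      exact (hfast j (ψ j) le_rfl (ψ (j+1)) (hψ.monotone (Nat.le_succ j))).le
    have hsum : ∑' j, m (s j) ≠ ⊤ := by
      have h1 : ∑' j, m (s j) ≤ ∑' j, ENNReal.ofReal ((1/2:ℝ)^j) := ENNReal.tsum_le_tsum hms
      have h2 : ∑' j, ENNReal.ofReal ((1/2:ℝ)^j) = ENNReal.ofReal (∑' j, (1/2:ℝ)^j) :=
        (ENNReal.ofReal_tsum_of_nonneg (fun j => by positivity) summable_geometric_two).symm
      rw [h2] at h1
      exact ne_top_of_le_ne_top ENNReal.ofReal_ne_top h1
    filter_upwards [ae_eventually_notMem hsum] with x hx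
    filter_upwards [hx] with j hj
    simpa [hs] using hj
  have hconv : ∀ᵐ x : ℂ, Tendsto (fun j => ind (G j) x) atTop
      (𝓝 (ind (liminf G atTop) x)) := by
    filter_upwards [hBC] with x hx
    obtain ⟨J, hJ⟩ := eventually_atTop.mp hx
    have hconst : ∀ j ≥ J, ind (G j) x = ind (G J) x := by
      intro j hj
      induction j, hj using Nat.le_induction with
      | base => rfl
      | succ j hj ih => rw [← hJ j hj, ih]
    apply tendsto_const_nhds.congr'
    filter_upwards [eventually_ge_atTop J] with j hj
    rw [hconst j hj]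
    by_cases hmem : x ∈ G J
    · rw [ind_of_mem hmem, ind_of_mem]
      rw [mem_liminf_iff_eventually_mem]
      filter_upwards [eventually_ge_atTop J] with i hi
      by_contra hne
      have := hconst i hi
      rw [ind_of_notMem hne, ind_of_mem hmem] at this
      norm_num at this
    · rw [ind_of_notMem hmem, ind_of_notMem]
      rw [mem_liminf_iff_eventually_mem]
      intro hev
      obtain ⟨i, hi1, hi2⟩ := (hev.and (eventually_ge_atTop J)).exists
      have := hconst i hi2
      rw [ind_of_mem hi1, ind_of_notMem hmem] at this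
      norm_num at this
  have hFm : MeasurableSet (liminf G atTop) := MeasurableSet.measurableSet_liminf hGm
  have hfinal : Tendsto (fun j => ∫ x, |ind (G j) x - ind (liminf G atTop) x| * gaussDensity x)
      atTop (𝓝 (∫ x : ℂ, (0:ℝ))) := by
    apply tendsto_integral_of_dominated_convergence (bound := gaussDensity)
    · intro j
      exact (integrable_gdist (hGm j) hFm).aestronglyMeasurable
    · exact integrable_gaussDensity
    · intro j
      refine Eventually.of_forall fun x => ?_
      rw [norm_mul, Real.norm_eq_abs, abs_abs, Real.norm_of_nonneg (gaussDensity_nonneg x)]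
      have := abs_ind_sub_le (G j) (liminf G atTop) x
      have := gaussDensity_nonneg x
      nlinarith
    · filter_upwards [hconv] with x hx
      have := ((hx.sub_const (ind (liminf G atTop) x)).abs).mul_const (gaussDensity x)
      simpa using this
  simpa [gdist] using hfinal

end Pool.Agent.H65.Gauss
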