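import Pool.Agent.H65.GaussTrans

/-! The constancy lemma. -/

namespace Pool.Agent.H65.Gauss

open MeasureTheory Set Filter Topology Metric
open scoped ENNReal

/-- The indicator function of `E`. -/
noncomputable def ind (E : Set ℂ) : ℂ → ℝ := E.indicator fun _ => 1

lemma ind_of_mem {E : Set ℂ} {x : ℂ} (h : x ∈ E) : ind E x = 1 := indicator_of_mem h _
lemma ind_of_notMem {E : Set ℂ} {x : ℂ} (h : x ∉ E) : ind E x = 0 := indicator_of_notMem h _

lemma ind_nonneg (E : Set ℂ) (x : ℂ) : 0 ≤ ind E x := by
  by_cases h : x ∈ E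
  · rw [ind_of_mem h]; norm_num
  · rw [ind_of_notMem h]

lemma ind_le_one (E : Set ℂ) (x : ℂ) : ind E x ≤ 1 := by
  by_cases h : x ∈ E
  · rw [ind_of_mem h]
  · rw [ind_of_notMem h]; norm_num

lemma measurable_ind {E : Set ℂ} (hE : MeasurableSet E) : Measurable (ind E) :=
  measurable_const.indicator hE

lemma norm_ind_le (E : Set ℂ) (x : ℂ) : ‖ind E x‖ ≤ 1 := by
  rw [Real.norm_of_nonneg (ind_nonneg E x)]; exact ind_le_one E x

lemma setIntegral_eq_integral_ind {E : Set ℂ} (hE : MeasurableSet E) (f : ℂ → ℝ) :
    ∫ x in E, f x = ∫ x, ind E x * f x := by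
  rw [← integral_indicator hE]
  congr 1
  ext x
  by_cases h : x ∈ E
  · rw [indicator_of_mem h, ind_of_mem h, one_mul]
  · rw [indicator_of_notMem h, ind_of_notMem h, zero_mul]

lemma integrable_ind_mul {E : Set ℂ} (hE : MeasurableSet E) {f : ℂ → ℝ} (hf : Integrable f) :
    Integrable (fun x => ind E x * f x) :=
  hf.bdd_mul (c := 1) (measurable_ind hE).aestronglyMeasurable
    (Eventually.of_forall (norm_ind_le E))

lemma integral_translate_eq {E : Set ℂ} (hE : MeasurableSet E) {g : ℂ → ℝ}
    (hg : Integrable g) (h : ℂ) :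
    ∫ x in E, (g (x - h) - g x) = ∫ x, (ind E (x + h) - ind E x) * g x := by
  rw [setIntegral_eq_integral_ind hE]
  have h1 : Integrable (fun x => ind E x * g (x - h)) := integrable_ind_mul hE (hg.comp_sub_right h)
  have h2 : Integrable (fun x => ind E x * g x) := integrable_ind_mul hE hg
  have h3 : ∫ x, ind E x * g (x - h) = ∫ x, ind E (x + h) * g x := by
    rw [← integral_add_right_eq_self (fun x => ind E x * g (x - h)) h]
    simp
  have h4 : Integrable (fun x => ind E (x + h) * g x) := by
    have := h1.comp_add_right h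
    simpa using this
  calc ∫ x, ind E x * (g (x - h) - g x) = ∫ x, (ind E x * g (x - h) - ind E x * g x) := by
        congr 1; ext x; ring
    _ = (∫ x, ind E (x + h) * g x) - ∫ x, ind E x * g x := by
        rw [integral_sub h1 h2, h3]
    _ = _ := by
        rw [← integral_sub h4 h2]
        congr 1; ext x; ring

lemma constancy_ball {E : Set ℂ} (hE : MeasurableSet E) {x₀ : ℂ} {r : ℝ}
    (hzero : ∀ φ, IsTestField φ → tsupport φ ⊆ ball x₀ r → ∫ x in E, divergence φ x = 0) :
    volume (ball x₀ r ∩ E) = 0 ∨ volume (ball x₀ r \ E) = 0 := by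
  by_contra hcon
  push Not at hcon
  obtain ⟨hc1, hc2⟩ := hcon
  have hdens := Besicovitch.ae_tendsto_measure_inter_div_of_measurableSet
    (volume : Measure ℂ) hE
  obtain ⟨a, haU, haE, ha⟩ : ∃ a, a ∈ ball x₀ r ∧ a ∈ E ∧
      Tendsto (fun r => volume (E ∩ closedBall a r) / volume (closedBall a r)) (𝓝[>] 0)
        (𝓝 (E.indicator 1 a)) := by
    by_contra hne
    push Not at hne
    apply hc1
    refine measure_mono_null ?_ (ae_iff.mp hdens)
    rintro x ⟨hx1, hx2⟩
    exact hne x hx1 hx2
  obtain ⟨b, hbU, hbE, hb⟩ : ∃ b, b ∈ ball x₀ r ∧ b ∉ E ∧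
      Tendsto (fun r => volume (E ∩ closedBall b r) / volume (closedBall b r)) (𝓝[>] 0)
        (𝓝 (E.indicator 1 b)) := by
    by_contra hne
    push Not at hne
    apply hc2
    refine measure_mono_null ?_ (ae_iff.mp hdens)
    rintro x ⟨hx1, hx2⟩
    exact hne x hx1 hx2
  set h : ℂ := b - a with hh
  set ε : ℝ := min (r - dist a x₀) (r - dist b x₀) with hε
  have hεpos : 0 < ε := lt_min (by simpa using haU) (by simpa using hbU)
  -- translates stay inside
  have hstay : ∀ t ∈ Icc (0:ℝ) 1, ∀ y, y - t • h ∈ ball a ε → y ∈ ball x₀ r := by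
    intro t ht y hy
    rw [mem_ball, dist_eq_norm] at hy ⊢
    have h1 : y - x₀ = (y - t • h - a) + ((1 - t) • (a - x₀) + t • (b - x₀)) := by
      rw [hh]; simp only [Complex.real_smul]; push_cast; ring
    have h2 : ‖(1 - t) • (a - x₀) + t • (b - x₀)‖ ≤ (1 - t) * ‖a - x₀‖ + t * ‖b - x₀‖ := by
      refine (norm_add_le _ _).trans ?_
      rw [norm_smul, norm_smul, Real.norm_of_nonneg ht.1, Real.norm_of_nonneg (by linarith [ht.2])]
    have h3 : ε ≤ r - ‖a - x₀‖ := by
      rw [← dist_eq_norm]; exact min_le_left _ _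
    have h4 : ε ≤ r - ‖b - x₀‖ := by
      rw [← dist_eq_norm]; exact min_le_right _ _
    calc ‖y - x₀‖ ≤ ‖y - t • h - a‖ + ‖(1 - t) • (a - x₀) + t • (b - x₀)‖ := by
          rw [h1]; exact norm_add_le _ _
      _ < ε + ((1 - t) * ‖a - x₀‖ + t * ‖b - x₀‖) := by linarith
      _ ≤ ε + ((1 - t) * (r - ε) + t * (r - ε)) := by
          have := ht.1; have := ht.2
          have e1 : (1 - t) * ‖a - x₀‖ ≤ (1 - t) * (r - ε) :=
            mul_le_mul_of_nonneg_left (by linarith) (by linarith)
          have e2 : t * ‖b - x₀‖ ≤ t * (r - ε) :=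
            mul_le_mul_of_nonneg_left (by linarith) (by linarith)
          linarith
      _ = r := by ring
  have hae : ∀ᵐ x : ℂ, x ∈ ball a ε → ind E (x + h) - ind E x = 0 := by
    apply isOpen_ball.ae_eq_zero_of_integral_contDiff_smul_eq_zero
    · apply LocallyIntegrable.locallyIntegrableOn
      apply LocallyIntegrable.sub
      · have : Measurable (fun x => ind E (x + h)) := (measurable_ind hE).comp (by fun_prop)
        exact (locallyIntegrable_const (1:ℝ)).mono this.aestronglyMeasurable
          (Eventually.of_forall fun x => by simpa using norm_ind_le E (x + h))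
      · exact (locallyIntegrable_const (1:ℝ)).mono (measurable_ind hE).aestronglyMeasurable
          (Eventually.of_forall fun x => by simpa using norm_ind_le E x)
    · intro g hg hgc hgs
      have hg1 : ContDiff ℝ 1 g := hg.of_le (by exact_mod_cast le_top)
      have h0 : |∫ x in E, (g (x - h) - g x)| ≤ 0 := by
        apply integral_translate_sub_le hg1 hgc
        intro t ht
        rw [hzero _ (isTestField_transField hg1 hgc h t), abs_zero]
        intro y hy
        apply hstay t ht
        apply hgs
        by_contra hcon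
        have hz : (fun z => g (z - t • h) • h) =ᶠ[𝓝 y] fun _ => 0 := by
          have h1 : g =ᶠ[𝓝 (y - t • h)] fun _ => 0 := notMem_tsupport_iff_eventuallyEq.mp hcon
          have h2 : Tendsto (fun z => z - t • h) (𝓝 y) (𝓝 (y - t • h)) := by
            apply Continuous.tendsto; fun_prop
          filter_upwards [h2.eventually h1] with z hz
          rw [hz]; simp
        exact (notMem_tsupport_iff_eventuallyEq.mpr hz) hy
      rw [integral_translate_eq hE (hg.continuous.integrable_of_hasCompactSupport hgc)] at h0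
      have h1 := abs_nonpos_iff.mp h0
      rw [← h1]
      congr 1
      ext x
      simp [mul_comm]
  -- equality of densities
  have hvol : ∀ ρ < ε, volume (E ∩ closedBall b ρ) = volume (E ∩ closedBall a ρ) := by
    intro ρ hρ
    have h1 : volume (E ∩ closedBall b ρ) = volume ((fun x => x + h) ⁻¹' (E ∩ closedBall b ρ)) :=
      (measure_preimage_add_right volume h _).symm
    rw [h1]
    apply measure_congr
    filter_upwards [hae] with x hx
    have hset : x ∈ (fun x => x + h) ⁻¹' (E ∩ closedBall b ρ) ↔ x ∈ E ∩ closedBall a ρ := by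
      simp only [mem_preimage, mem_inter_iff, mem_closedBall]
      have hd : dist (x + h) b = dist x a := by
        rw [dist_eq_norm, dist_eq_norm, hh]; congr 1; ring
      rw [hd]
      constructor
      · rintro ⟨h1, h2⟩
        refine ⟨?_, h2⟩
        have := hx (mem_ball.mpr (lt_of_le_of_lt h2 hρ))
        rw [ind_of_mem h1] at this
        by_contra hne
        rw [ind_of_notMem hne] at this
        norm_num at this
      · rintro ⟨h1, h2⟩
        refine ⟨?_, h2⟩
        have := hx (mem_ball.mpr (lt_of_le_of_lt h2 hρ))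
        rw [ind_of_mem h1] at this
        by_contra hne
        rw [ind_of_notMem hne] at this
        norm_num at this
    exact propext hset
  have hlim : Tendsto (fun r => volume (E ∩ closedBall a r) / volume (closedBall a r)) (𝓝[>] 0)
      (𝓝 (E.indicator 1 b)) := by
    refine hb.congr' ?_
    have : ∀ᶠ ρ in 𝓝[>] (0:ℝ), ρ < ε := by
      apply eventually_nhdsWithin_of_eventually_nhds
      exact eventually_lt_nhds hεpos
    filter_upwards [this] with ρ hρ
    rw [hvol ρ hρ, Measure.addHaar_closedBall_center volume b,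
      Measure.addHaar_closedBall_center volume a]
  have huniq := tendsto_nhds_unique ha hlim
  rw [indicator_of_mem haE, indicator_of_notMem hbE] at huniq
  simp at huniq

end Pool.Agent.H65.Gauss
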