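import Mathlib

/-!
# Partitions of the Gauss plane: definitions

The plane is modelled by `ℂ` (with its Euclidean metric and Lebesgue measure).
-/

namespace Pool.Agent.H65.Gauss

open MeasureTheory Set Filter Topology Metric
open scoped ENNReal

/-- The Gaussian density `(2π)⁻¹ exp(-|x|²/2)` on the plane `ℂ = ℝ²`. -/
noncomputable def gaussDensity (x : ℂ) : ℝ := (2 * Real.pi)⁻¹ * Real.exp (-‖x‖ ^ 2 / 2)

/-- The Gaussian (weighted) area `γ(E) = ∫_E γ dx`. -/
noncomputable def gaussArea (E : Set ℂ) : ℝ := ∫ x in E, gaussDensity x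

/-- The divergence `∂₁ φ₁ + ∂₂ φ₂` of a plane vector field `φ = φ₁ + i φ₂`. -/
noncomputable def divergence (φ : ℂ → ℂ) (x : ℂ) : ℝ :=
  (fderiv ℝ φ x 1).re + (fderiv ℝ φ x Complex.I).im

/-- Test fields: compactly supported `C¹` vector fields. -/
def IsTestField (φ : ℂ → ℂ) : Prop := ContDiff ℝ 1 φ ∧ HasCompactSupport φ

/-- `μ` is the (Euclidean) perimeter measure `|D 1_E|` of `E` and `ν` its measure-theoretic outer
unit normal: `μ` is locally finite, `ν` is a Borel field of unit vectors, and the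
Gauss-Green formula `∫_E div φ dx = ∫ ⟨ν, φ⟩ dμ` holds for all `φ ∈ C¹_c(ℝ²; ℝ²)`. -/
structure IsGaussGreen (E : Set ℂ) (μ : Measure ℂ) (ν : ℂ → ℂ) : Prop where
  locallyFinite : IsLocallyFiniteMeasure μ
  measurable : Measurable ν
  norm_eq_one : ∀ x, ‖ν x‖ = 1
  formula : ∀ φ : ℂ → ℂ, IsTestField φ →
    ∫ x in E, divergence φ x = ∫ x, inner ℝ (ν x) (φ x) ∂μ

/-- Borel sets of locally finite perimeter. -/
def HasLocallyFinitePerimeter (E : Set ℂ) : Prop :=
  MeasurableSet E ∧ ∃ μ ν, IsGaussGreen E μ ν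

/-- De Giorgi's reduced boundary `∂*E`: the points `x` in the support of the perimeter measure
`μ = |D 1_E|` at which the averages of the normal `ν` over the balls `B(x,r)` converge, as
`r → 0`, to a unit vector. -/
def reducedBoundary (E : Set ℂ) : Set ℂ :=
  {x | ∃ μ ν, IsGaussGreen E μ ν ∧ (∀ r > 0, 0 < μ (closedBall x r)) ∧
    ∃ e : ℂ, ‖e‖ = 1 ∧ Tendsto (fun r => ⨍ y in closedBall x r, ν y ∂μ) (𝓝[>] 0) (𝓝 e)}

/-- The weighted perimeter `P_γ(E) = sup {∫_E div(γ φ) dx : φ ∈ C¹_c(ℝ²; ℝ²), |φ| ≤ 1}`, that is,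
the integral of `γ` against the perimeter measure `|D 1_E|`. -/
noncomputable def gaussPerimeter (E : Set ℂ) : ℝ≥0∞ :=
  ⨆ (φ : ℂ → ℂ) (_ : IsTestField φ ∧ ∀ x, ‖φ x‖ ≤ 1),
    ENNReal.ofReal (∫ x in E, divergence (fun y => gaussDensity y • φ y) x)

/-- `E` is a partition of the Gauss plane into `n` regions of areas `v`. -/
structure IsPartition {n : ℕ} (v : Fin n → ℝ) (E : Fin n → Set ℂ) : Prop where
  perimeter : ∀ i, HasLocallyFinitePerimeter (E i)
  disjoint : ∀ i j, i ≠ j → volume (E i ∩ E j) = 0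
  cover : volume (⋃ i, E i)ᶜ = 0
  area : ∀ i, gaussArea (E i) = v i

/-- The perimeter of a partition: half the sum of the weighted perimeters of its regions. -/
noncomputable def totalPerimeter {n : ℕ} (E : Fin n → Set ℂ) : ℝ≥0∞ :=
  (∑ i, gaussPerimeter (E i)) / 2

/-- Perimeter-minimizing partitions with prescribed areas. -/
def IsMinimizing {n : ℕ} (v : Fin n → ℝ) (E : Fin n → Set ℂ) : Prop :=
  IsPartition v E ∧ ∀ E', IsPartition v E' → totalPerimeter E ≤ totalPerimeter E'

/-- The interface of a partition: the union of the reduced boundaries of its regions. -/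
def interface {n : ℕ} (E : Fin n → Set ℂ) : Set ℂ := ⋃ i, reducedBoundary (E i)

/-- Closed line segments (of positive length). -/
def IsSegment (c : Set ℂ) : Prop := ∃ a b : ℂ, a ≠ b ∧ c = segment ℝ a b

/-- Closed half-lines. -/
def IsHalfLine (c : Set ℂ) : Prop :=
  ∃ a u : ℂ, u ≠ 0 ∧ c = {x | ∃ t : ℝ, 0 ≤ t ∧ x = a + t * u}

/-- Inside some ball about `x`, the set `S` consists exactly of the radii from `x` in the
directions `d ∈ D`. -/
def LooksLike (S : Set ℂ) (x : ℂ) (D : Set ℂ) : Prop :=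
  ∃ r > 0, S ∩ ball x r = {y | ∃ d ∈ D, ∃ t : ℝ, 0 ≤ t ∧ t < r ∧ y = x + t * d}

/-- The rotation by 120 degrees (as a complex number). -/
noncomputable def rot120 : ℂ := Complex.exp (2 * Real.pi / 3 * Complex.I)

/-- `S` is a union of finitely many closed half-lines and line segments, and these meet only in
threes, at angles of 120 degrees: near each of its points, `S` is either a straight piece
through the point, or three radii forming angles of 120 degrees (or a single
radius, if the point is a free end of a half-line or segment). -/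
def IsStraightNetwork (S : Set ℂ) : Prop :=
  (∃ C : Set (Set ℂ), C.Finite ∧ (∀ c ∈ C, IsHalfLine c ∨ IsSegment c) ∧ S = ⋃₀ C) ∧
  ∀ x ∈ S, ∃ u : ℂ, ‖u‖ = 1 ∧
    (LooksLike S x {u} ∨ LooksLike S x {u, -u} ∨ LooksLike S x {u, rot120 * u, rot120 ^ 2 * u})

end Pool.Agent.H65.Gauss
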