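import Pool.Agent.H65.GaussRedBd

/-! Existence of perimeter-minimizing partitions. -/

namespace Pool.Agent.H65.Gauss

open MeasureTheory Set Filter Topology Metric
open scoped ENNReal NNReal

lemma sum_liminf_le {n : ℕ} (u : ℕ → Fin n → ℝ≥0∞) :
    ∑ i, liminf (fun k => u k i) atTop ≤ liminf (fun k => ∑ i, u k i) atTop := by
  have h := lintegral_liminf_le (μ := (Measure.count : Measure (Fin n))) (u := atTop) (f := u)
    (fun k => measurable_of_finite _)
  simpa [lintegral_count] using h

/-- Convergence of the pairing with a fixed field. -/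
lemma abs_integral_sub_le_gdist {φ : ℂ → ℂ} (hφ : IsTestField φ) :
    ∃ c : ℝ, 0 ≤ c ∧ ∀ E' F' : Set ℂ, MeasurableSet E' → MeasurableSet F' →
      |(∫ x in E', divergence (fun y => gaussDensity y • φ y) x) -
        ∫ x in F', divergence (fun y => gaussDensity y • φ y) x| ≤ c * gdist E' F' := by
  have hcont : Continuous (fun x => divergence φ x - inner ℝ x (φ x)) :=
    (continuous_divergence hφ.1).sub (continuous_id.inner hφ.continuous)
  have hsupp : HasCompactSupport (fun x => divergence φ x - inner ℝ x (φ x)) := by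
    apply HasCompactSupport.of_support_subset_isCompact hφ.2
    intro x hx
    by_contra hne
    apply hx
    simp only
    rw [divergence_eq_zero_of_notMem hne, image_eq_zero_of_notMem_tsupport hne]
    simp
  obtain ⟨c, hc⟩ := hcont.bounded_above_of_compact_support hsupp
  have hc0 : 0 ≤ c := (norm_nonneg _).trans (hc 0)
  refine ⟨c, hc0, fun E' F' hE' hF' => ?_⟩
  have hint : Integrable (divergence (fun y => gaussDensity y • φ y)) :=
    hφ.gauss.integrable_divergence
  rw [setIntegral_eq_integral_ind hE', setIntegral_eq_integral_ind hF',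
    ← integral_sub (integrable_ind_mul hE' hint) (integrable_ind_mul hF' hint)]
  have h1 : ∀ x, |ind E' x * divergence (fun y => gaussDensity y • φ y) x -
      ind F' x * divergence (fun y => gaussDensity y • φ y) x| ≤
      c * (|ind E' x - ind F' x| * gaussDensity x) := by
    intro x
    rw [divergence_gauss (hφ.differentiable x), ← sub_mul, abs_mul, abs_mul,
      abs_of_nonneg (gaussDensity_nonneg x)]
    have h2 := hc x
    rw [Real.norm_eq_abs] at h2
    have h3 := gaussDensity_nonneg x
    have h4 := abs_nonneg (ind E' x - ind F' x)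
    calc |ind E' x - ind F' x| * (gaussDensity x * |divergence φ x - inner ℝ x (φ x)|)
        ≤ |ind E' x - ind F' x| * (gaussDensity x * c) := by gcongr
      _ = _ := by ring
  unfold gdist
  rw [← integral_const_mul, ← Real.norm_eq_abs]
  apply norm_integral_le_of_norm_le ((integrable_gdist hE' hF').const_mul c)
  exact Eventually.of_forall h1

lemma gaussPerimeter_le_liminf {E : ℕ → Set ℂ} (hE : ∀ k, MeasurableSet (E k)) {F : Set ℂ}
    (hF : MeasurableSet F) (h : Tendsto (fun k => gdist (E k) F) atTop (𝓝 0)) :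
    gaussPerimeter F ≤ liminf (fun k => gaussPerimeter (E k)) atTop := by
  unfold gaussPerimeter
  apply iSup₂_le
  rintro φ ⟨hφ, hφ1⟩
  obtain ⟨c, hc, hcE⟩ := abs_integral_sub_le_gdist hφ
  have hlim : Tendsto (fun k => ∫ x in E k, divergence (fun y => gaussDensity y • φ y) x) atTop
      (𝓝 (∫ x in F, divergence (fun y => gaussDensity y • φ y) x)) := by
    rw [tendsto_iff_norm_sub_tendsto_zero]
    have h1 : Tendsto (fun k => c * gdist (E k) F) atTop (𝓝 0) := by
      simpa using h.const_mul c
    exact squeeze_zero (fun k => norm_nonneg _) (fun k => hcE (E k) F (hE k) hF) h1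
  have hlim2 := (ENNReal.continuous_ofReal.tendsto _).comp hlim
  rw [← hlim2.liminf_eq]
  refine liminf_le_liminf (Eventually.of_forall fun k => ?_)
  exact le_iSup₂ (f := fun (φ : ℂ → ℂ) (_ : IsTestField φ ∧ ∀ x, ‖φ x‖ ≤ 1) =>
      ENNReal.ofReal (∫ x in E k, divergence (fun y => gaussDensity y • φ y) x)) φ ⟨hφ, hφ1⟩

lemma abs_gaussArea_sub_le {E F : Set ℂ} (hE : MeasurableSet E) (hF : MeasurableSet F) :
    |gaussArea E - gaussArea F| ≤ gdist E F := by
  unfold gaussArea gdist
  rw [setIntegral_eq_integral_ind hE, setIntegral_eq_integral_ind hF,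
    ← integral_sub (integrable_ind_mul hE integrable_gaussDensity)
      (integrable_ind_mul hF integrable_gaussDensity), ← Real.norm_eq_abs]
  apply norm_integral_le_of_norm_le (integrable_gdist hE hF)
  refine Eventually.of_forall fun x => ?_
  rw [← sub_mul, norm_mul, Real.norm_eq_abs, Real.norm_of_nonneg (gaussDensity_nonneg x)]

/-- disjointness and covering, in terms of indicator functions -/
lemma ae_sum_ind_eq_one {n : ℕ} {E : Fin n → Set ℂ}
    (hd : ∀ i j, i ≠ j → volume (E i ∩ E j) = 0) (hc : volume (⋃ i, E i)ᶜ = 0) :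
    ∀ᵐ x : ℂ, ∑ i, ind (E i) x = 1 := by
  have h1 : ∀ᵐ x : ℂ, ∀ i j, i ≠ j → x ∉ E i ∩ E j := by
    rw [ae_all_iff]; intro i
    rw [ae_all_iff]; intro j
    by_cases hij : i = j
    · exact Eventually.of_forall fun x h => absurd hij h
    · have := hd i j hij
      have h2 : ∀ᵐ x : ℂ, x ∉ E i ∩ E j := by rw [ae_iff]; simpa using this
      filter_upwards [h2] with x hx _
      exact hx
  have h2 : ∀ᵐ x : ℂ, x ∈ ⋃ i, E i := by rw [ae_iff]; exact hc
  filter_upwards [h1, h2] with x hx1 hx2
  obtain ⟨i, hi⟩ := mem_iUnion.mp hx2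
  rw [Finset.sum_eq_single i]
  · exact ind_of_mem hi
  · intro j _ hj
    exact ind_of_notMem fun hj' => hx1 i j (Ne.symm hj) ⟨hi, hj'⟩
  · intro h; exact absurd (Finset.mem_univ i) h

lemma partition_of_sum_ind {n : ℕ} {E : Fin n → Set ℂ}
    (h : ∀ᵐ x : ℂ, ∑ i, ind (E i) x = 1) :
    (∀ i j, i ≠ j → volume (E i ∩ E j) = 0) ∧ volume (⋃ i, E i)ᶜ = 0 := by
  constructor
  · intro i j hij
    apply measure_mono_null _ (ae_iff.mp h)
    rintro x ⟨hi, hj⟩ hsum
    have h1 : ind (E i) x + ind (E j) x ≤ ∑ k, ind (E k) x := by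
      rw [← Finset.sum_pair (f := fun k => ind (E k) x) hij]
      exact Finset.sum_le_sum_of_subset_of_nonneg (Finset.subset_univ _)
        fun k _ _ => ind_nonneg _ x
    rw [ind_of_mem hi, ind_of_mem hj, hsum] at h1
    norm_num at h1
  · apply measure_mono_null _ (ae_iff.mp h)
    intro x hx hsum
    rw [mem_compl_iff, mem_iUnion, not_exists] at hx
    have : ∑ k, ind (E k) x = 0 := Finset.sum_eq_zero fun k _ => ind_of_notMem (hx k)
    rw [this] at hsum
    norm_num at hsum

/-- simultaneous subsequence -/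
lemma exists_common_subseq {n : ℕ} {E : ℕ → Fin n → Set ℂ}
    (hE : ∀ k i, MeasurableSet (E k i)) {C : ℝ} (hC : 0 ≤ C)
    (hP : ∀ k i, gaussPerimeter (E k i) ≤ ENNReal.ofReal C) (s : Finset (Fin n)) :
    ∃ φ : ℕ → ℕ, StrictMono φ ∧ ∀ i ∈ s, ∃ F, MeasurableSet F ∧
      Tendsto (fun k => gdist (E (φ k) i) F) atTop (𝓝 0) := by
  induction s using Finset.induction_on with
  | empty => exact ⟨id, strictMono_id, fun i hi => absurd hi (Finset.notMem_empty i)⟩
  | insert i s _ ih =>
    obtain ⟨φ, hφ, hs⟩ := ih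
    obtain ⟨ψ, hψ, F, hF, hFlim⟩ := exists_convergent_subseq (E := fun k => E (φ k) i)
      (fun k => hE _ i) hC (fun k => hP _ i)
    refine ⟨φ ∘ ψ, hφ.comp hψ, fun j hj => ?_⟩
    rcases Finset.mem_insert.mp hj with rfl | hj
    · exact ⟨F, hF, hFlim⟩
    · obtain ⟨F', hF', hlim'⟩ := hs j hj
      exact ⟨F', hF', hlim'.comp hψ.tendsto_atTop⟩

theorem exists_minimizer {n : ℕ} {v : Fin n → ℝ}
    (hex : ∃ E, IsPartition v E ∧ totalPerimeter E ≠ ⊤) : ∃ E, IsMinimizing v E := by
  set S : Set ℝ≥0∞ := {t | ∃ E, IsPartition v E ∧ totalPerimeter E = t} with hS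
  have hne : S.Nonempty := by
    obtain ⟨E, hE, -⟩ := hex
    exact ⟨_, E, hE, rfl⟩
  obtain ⟨u, hu1, hu2, hu3⟩ := exists_seq_tendsto_sInf hne (OrderBot.bddBelow S)
  set m := sInf S with hm
  have hmtop : m ≠ ⊤ := by
    obtain ⟨E, hE, hEtop⟩ := hex
    exact ne_top_of_le_ne_top hEtop (sInf_le ⟨E, hE, rfl⟩)
  have hev : ∀ᶠ k in atTop, u k ≤ m + 1 := by
    have : m < m + 1 := ENNReal.lt_add_right hmtop one_ne_zero
    filter_upwards [hu2.eventually_lt_const this] with k hk
    exact hk.le
  obtain ⟨N, hN⟩ := eventually_atTop.mp hev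
  have hu3' : ∀ k, ∃ E, IsPartition v E ∧ totalPerimeter E = u (k + N) := fun k => hu3 (k + N)
  choose E hEpart hEtot using hu3'
  have hulim : Tendsto (fun k => totalPerimeter (E k)) atTop (𝓝 m) := by
    have h1 : Tendsto (fun k => u (k + N)) atTop (𝓝 m) := hu2.comp (tendsto_add_atTop_nat N)
    exact h1.congr fun k => (hEtot k).symm
  set C : ℝ := (2 * (m + 1)).toReal with hCdef
  have hCtop : 2 * (m + 1) ≠ ⊤ :=
    ENNReal.mul_ne_top ENNReal.ofNat_ne_top (ENNReal.add_ne_top.mpr ⟨hmtop, ENNReal.one_ne_top⟩)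
  have hC0 : 0 ≤ C := ENNReal.toReal_nonneg
  have hsum : ∀ k, ∑ i, gaussPerimeter (E k i) = 2 * totalPerimeter (E k) := by
    intro k
    unfold totalPerimeter
    rw [ENNReal.mul_div_cancel (by norm_num) ENNReal.ofNat_ne_top]
  have hbd : ∀ k i, gaussPerimeter (E k i) ≤ ENNReal.ofReal C := by
    intro k i
    rw [hCdef, ENNReal.ofReal_toReal hCtop]
    calc gaussPerimeter (E k i) ≤ ∑ i, gaussPerimeter (E k i) :=
          Finset.single_le_sum (f := fun i => gaussPerimeter (E k i))
            (fun j _ => zero_le) (Finset.mem_univ i)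
      _ = 2 * totalPerimeter (E k) := hsum k
      _ ≤ 2 * (m + 1) := by
          apply mul_le_mul_right
          rw [hEtot k]
          exact hN (k + N) (Nat.le_add_left N k)
  have hmeas : ∀ k i, MeasurableSet (E k i) := fun k i => ((hEpart k).perimeter i).1
  obtain ⟨φ, hφ, hlim⟩ := exists_common_subseq hmeas hC0 hbd Finset.univ
  have hlim' : ∀ i, ∃ F, MeasurableSet F ∧
      Tendsto (fun k => gdist (E (φ k) i) F) atTop (𝓝 0) := fun i => hlim i (Finset.mem_univ i)
  choose F hFm hFlim using hlim'
  have hPF : ∀ i, gaussPerimeter (F i) ≤ liminf (fun k => gaussPerimeter (E (φ k) i)) atTop :=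
    fun i => gaussPerimeter_le_liminf (fun k => hmeas (φ k) i) (hFm i) (hFlim i)
  have hPFtop : ∀ i, gaussPerimeter (F i) ≠ ⊤ := by
    intro i
    have h1 : liminf (fun k => gaussPerimeter (E (φ k) i)) atTop ≤ ENNReal.ofReal C := by
      apply liminf_le_of_frequently_le'
      exact Frequently.of_forall fun k => hbd (φ k) i
    exact ne_top_of_le_ne_top ENNReal.ofReal_ne_top ((hPF i).trans h1)
  have htot : totalPerimeter F ≤ m := by
    unfold totalPerimeter
    have h1 : ∑ i, gaussPerimeter (F i) ≤ 2 * m := by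
      calc ∑ i, gaussPerimeter (F i) ≤ ∑ i, liminf (fun k => gaussPerimeter (E (φ k) i)) atTop :=
            Finset.sum_le_sum fun i _ => hPF i
        _ ≤ liminf (fun k => ∑ i, gaussPerimeter (E (φ k) i)) atTop :=
            sum_liminf_le fun k i => gaussPerimeter (E (φ k) i)
        _ = liminf (fun k => 2 * totalPerimeter (E (φ k))) atTop := by
            simp only [hsum]
        _ = 2 * m := by
            apply Tendsto.liminf_eq
            apply ENNReal.Tendsto.const_mul (hulim.comp hφ.tendsto_atTop)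
            right; exact ENNReal.ofNat_ne_top
    rw [ENNReal.div_le_iff (by norm_num) ENNReal.ofNat_ne_top, mul_comm]
    exact h1
  -- partition of unity
  have hae : ∀ᵐ x : ℂ, ∑ i, ind (F i) x = 1 := by
    have hintg : ∀ i k, Integrable (fun x => |ind (E (φ k) i) x - ind (F i) x| * gaussDensity x) :=
      fun i k => integrable_gdist (hmeas (φ k) i) (hFm i)
    have hmeasF : Measurable (fun x => ∑ i, ind (F i) x) :=
      Finset.measurable_sum _ fun i _ => measurable_ind (hFm i)
    have hint0 : Integrable (fun x => |∑ i, ind (F i) x - 1| * gaussDensity x) := by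
      apply integrable_gaussDensity.bdd_mul (c := n + 1)
      · exact (hmeasF.sub_const 1).abs.aestronglyMeasurable
      · refine Eventually.of_forall fun x => ?_
        rw [Real.norm_eq_abs, abs_abs]
        refine (abs_sub _ _).trans ?_
        rw [abs_one]
        have : |∑ i, ind (F i) x| ≤ n := by
          refine (Finset.abs_sum_le_sum_abs _ _).trans ?_
          calc ∑ i, |ind (F i) x| ≤ ∑ i : Fin n, (1:ℝ) :=
                Finset.sum_le_sum fun i _ => norm_ind_le (F i) x
            _ = n := by simp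
        linarith
    have hle : ∀ k, ∫ x, |∑ i, ind (F i) x - 1| * gaussDensity x ≤
        ∑ i, gdist (E (φ k) i) (F i) := by
      intro k
      unfold gdist
      rw [← integral_finsetSum _ (fun i _ => hintg i k)]
      apply integral_mono_ae hint0 (integrable_finsetSum _ fun i _ => hintg i k)
      have h1 := ae_sum_ind_eq_one (hEpart (φ k)).disjoint (hEpart (φ k)).cover
      filter_upwards [h1] with x hx
      rw [← Finset.sum_mul]
      apply mul_le_mul_of_nonneg_right _ (gaussDensity_nonneg x)
      rw [← hx, ← Finset.sum_sub_distrib]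
      refine (Finset.abs_sum_le_sum_abs _ _).trans ?_
      exact Finset.sum_le_sum fun i _ => by rw [abs_sub_comm]
    have hlim0 : Tendsto (fun k => ∑ i, gdist (E (φ k) i) (F i)) atTop (𝓝 0) := by
      have := tendsto_finsetSum (Finset.univ : Finset (Fin n)) fun i _ => hFlim i
      simpa using this
    have hz : ∫ x, |∑ i, ind (F i) x - 1| * gaussDensity x = 0 := by
      apply le_antisymm (ge_of_tendsto' hlim0 hle)
      exact integral_nonneg fun x => mul_nonneg (abs_nonneg _) (gaussDensity_nonneg x)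
    rw [integral_eq_zero_iff_of_nonneg
      (fun x => mul_nonneg (abs_nonneg _) (gaussDensity_nonneg x)) hint0] at hz
    filter_upwards [hz] with x hx
    simp only [Pi.zero_apply, mul_eq_zero, abs_eq_zero] at hx
    rcases hx with hx | hx
    · linarith
    · exact absurd hx (gaussDensity_pos x).ne'
  obtain ⟨hdisj, hcov⟩ := partition_of_sum_ind hae
  have hFpart : IsPartition v F := by
    refine ⟨fun i => ⟨hFm i, exists_gaussGreen (hPFtop i)⟩, hdisj, hcov, fun i => ?_⟩
    have h1 : Tendsto (fun k => gaussArea (E (φ k) i)) atTop (𝓝 (gaussArea (F i))) := by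
      rw [tendsto_iff_norm_sub_tendsto_zero]
      exact squeeze_zero (fun k => norm_nonneg _)
        (fun k => abs_gaussArea_sub_le (hmeas (φ k) i) (hFm i)) (hFlim i)
    have h2 : Tendsto (fun k => gaussArea (E (φ k) i)) atTop (𝓝 (v i)) := by
      apply tendsto_const_nhds.congr
      intro k
      exact ((hEpart (φ k)).area i).symm
    exact tendsto_nhds_unique h1 h2
  refine ⟨F, hFpart, fun E' hE' => ?_⟩
  exact htot.trans (sInf_le ⟨E', hE', rfl⟩)

end Pool.Agent.H65.Gauss
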