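import Pool.Agent.H65.GaussExist

/-! One-dimensional Gaussian facts and integration over product sets. -/

namespace Pool.Agent.H65.Gauss

open MeasureTheory Set Filter Topology Metric
open scoped ENNReal NNReal

/-- The one-dimensional Gaussian density. -/
noncomputable def g1 (t : ℝ) : ℝ := (Real.sqrt (2 * Real.pi))⁻¹ * Real.exp (-t ^ 2 / 2)

lemma g1_pos (t : ℝ) : 0 < g1 t := by unfold g1; positivity

lemma continuous_g1 : Continuous g1 := by unfold g1; fun_prop

lemma g1_le (t : ℝ) : g1 t ≤ 1 / 2 := by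
  unfold g1
  have h1 : Real.exp (-t ^ 2 / 2) ≤ 1 := Real.exp_le_one_iff.mpr (by nlinarith [sq_nonneg t])
  have h2 : (2:ℝ) ≤ Real.sqrt (2 * Real.pi) := by
    apply Real.le_sqrt_of_sq_le
    nlinarith [Real.pi_gt_three]
  have h3 : (Real.sqrt (2 * Real.pi))⁻¹ ≤ 1 / 2 := by
    rw [inv_le_comm₀ (by linarith) (by norm_num)]
    simpa using h2
  calc (Real.sqrt (2 * Real.pi))⁻¹ * Real.exp (-t ^ 2 / 2) ≤ 1 / 2 * 1 := by
        apply mul_le_mul h3 h1 (Real.exp_pos _).le (by norm_num)
    _ = 1 / 2 := by ring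

lemma integrable_g1 : Integrable g1 := by
  unfold g1
  have := (integrable_exp_neg_mul_sq (b := 1/2) (by norm_num)).const_mul
    ((Real.sqrt (2 * Real.pi))⁻¹)
  refine this.congr (Eventually.of_forall fun x => ?_)
  simp only
  congr 2
  ring

lemma integral_g1 : ∫ t, g1 t = 1 := by
  unfold g1
  rw [integral_const_mul]
  have h := integral_gaussian (1/2)
  have h2 : ∀ x : ℝ, -x ^ 2 / 2 = -(1/2) * x ^ 2 := fun x => by ring
  simp only [h2]
  rw [h]
  have h3 : Real.pi / (1/2) = 2 * Real.pi := by ring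
  rw [h3, inv_mul_cancel₀]
  positivity

lemma gaussDensity_eq (x : ℂ) : gaussDensity x = g1 x.re * g1 x.im := by
  unfold gaussDensity g1
  have h1 : ‖x‖ ^ 2 = x.re ^ 2 + x.im ^ 2 := by
    rw [Complex.sq_norm, Complex.normSq_apply]; ring
  have h2 : (Real.sqrt (2 * Real.pi))⁻¹ * (Real.sqrt (2 * Real.pi))⁻¹ = (2 * Real.pi)⁻¹ := by
    rw [← mul_inv, Real.mul_self_sqrt (by positivity)]
  have h3 : Real.exp (-‖x‖ ^ 2 / 2) = Real.exp (-x.re ^ 2 / 2) * Real.exp (-x.im ^ 2 / 2) := by
    rw [← Real.exp_add]; congr 1; rw [h1]; ring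
  rw [h3, ← h2]; ring

/-- The Gaussian tail. -/
noncomputable def tailQ (R : ℝ) : ℝ := ∫ t in Ioi R, g1 t

lemma hasDerivAt_g1 (t : ℝ) : HasDerivAt g1 (-t * g1 t) t := by
  unfold g1
  have h1 : HasDerivAt (fun t : ℝ => -t ^ 2 / 2) (-t) t := by
    have := ((hasDerivAt_pow 2 t).neg).div_const 2
    refine (this.congr_deriv ?_)
    simp; ring
  have := (h1.exp).const_mul ((Real.sqrt (2 * Real.pi))⁻¹)
  refine this.congr_deriv ?_
  ring

lemma tendsto_g1_atTop : Tendsto g1 atTop (𝓝 0) := by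
  unfold g1
  have h1 : Tendsto (fun t : ℝ => -t ^ 2 / 2) atTop atBot := by
    have : Tendsto (fun t : ℝ => t ^ 2 / 2) atTop atTop :=
      (tendsto_pow_atTop two_ne_zero).atTop_div_const (by norm_num)
    have h2 := tendsto_neg_atTop_atBot.comp this
    refine h2.congr fun t => ?_
    simp only [Function.comp_apply]; ring
  have := (Real.tendsto_exp_atBot.comp h1).const_mul ((Real.sqrt (2 * Real.pi))⁻¹)
  simpa using this

lemma tailQ_pos (R : ℝ) : 0 < tailQ R := by
  unfold tailQ
  rw [integral_pos_iff_support_of_nonneg_ae (Eventually.of_forall fun t => (g1_pos t).le)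
    integrable_g1.integrableOn]
  have : Function.support g1 = univ := by
    ext t; simp [(g1_pos t).ne']
  rw [this, Measure.restrict_apply_univ]
  simp

lemma tailQ_le_one (R : ℝ) : tailQ R ≤ 1 := by
  rw [← integral_g1]
  exact setIntegral_le_integral integrable_g1 (Eventually.of_forall fun t => (g1_pos t).le)

/-- `Q(R) ≤ φ(R)/R`. -/
lemma tailQ_le {R : ℝ} (hR : 0 < R) : tailQ R ≤ g1 R / R := by
  have hint : IntegrableOn (fun t => t * g1 t) (Ioi R) := by
    have h1 : ∀ t ∈ Ioi R, HasDerivAt (fun t => - g1 t) (t * g1 t) t := by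
      intro t _
      have := (hasDerivAt_g1 t).neg
      refine this.congr_deriv ?_
      ring
    have h2 : Tendsto (fun t => - g1 t) atTop (𝓝 (-0)) := tendsto_g1_atTop.neg
    exact integrableOn_Ioi_deriv_of_nonneg (continuous_g1.neg.continuousWithinAt) h1
      (fun t ht => mul_nonneg (hR.le.trans (le_of_lt ht)) (g1_pos t).le) h2
  have hval : ∫ t in Ioi R, t * g1 t = g1 R := by
    have h1 : ∀ t ∈ Ioi R, HasDerivAt (fun t => - g1 t) (t * g1 t) t := by
      intro t _
      have := (hasDerivAt_g1 t).neg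
      refine this.congr_deriv ?_
      ring
    have h2 : Tendsto (fun t => - g1 t) atTop (𝓝 (-0)) := tendsto_g1_atTop.neg
    have := integral_Ioi_of_hasDerivAt_of_tendsto (continuous_g1.neg.continuousWithinAt) h1 hint h2
    rw [this]; simp
  rw [le_div_iff₀ hR, mul_comm, ← hval]
  unfold tailQ
  rw [← integral_const_mul]
  apply setIntegral_mono_on (integrable_g1.integrableOn.const_mul R) hint measurableSet_Ioi
  intro t ht
  exact mul_le_mul_of_nonneg_right (le_of_lt ht) (g1_pos t).le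

/-- `φ(R) ≤ (R+1) Q(R)`. -/
lemma g1_le_tailQ {R : ℝ} (hR : 0 ≤ R) : g1 R ≤ (R + 1) * tailQ R := by
  set f' : ℝ → ℝ := fun t => g1 t * ((t ^ 2 + t + 1) / (t + 1) ^ 2) with hf'
  have h1 : ∀ t ∈ Ioi R, HasDerivAt (fun t => - (g1 t / (t + 1))) (f' t) t := by
    intro t ht
    have ht0 : 0 < t := lt_of_le_of_lt hR ht
    have h2 : HasDerivAt (fun t : ℝ => t + 1) 1 t := (hasDerivAt_id t).add_const 1
    have := ((hasDerivAt_g1 t).fun_div h2 (by positivity)).fun_neg
    refine this.congr_deriv ?_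
    rw [hf']
    field_simp
    ring
  have h2 : Tendsto (fun t => - (g1 t / (t + 1))) atTop (𝓝 (-0)) := by
    apply Tendsto.neg
    have h3 : Tendsto (fun t : ℝ => t + 1) atTop atTop := tendsto_atTop_add_const_right _ _ tendsto_id
    exact tendsto_g1_atTop.div_atTop h3
  have hcont : ContinuousWithinAt (fun t => - (g1 t / (t + 1))) (Ici R) R := by
    apply ContinuousAt.continuousWithinAt
    apply ContinuousAt.neg
    exact continuous_g1.continuousAt.div (by fun_prop) (by positivity)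
  have hpos : ∀ t ∈ Ioi R, 0 ≤ f' t := by
    intro t ht
    have ht0 : 0 < t := lt_of_le_of_lt hR ht
    have := g1_pos t
    rw [hf']; positivity
  have hint := integrableOn_Ioi_deriv_of_nonneg hcont h1 hpos h2
  have hval := integral_Ioi_of_hasDerivAt_of_tendsto hcont h1 hint h2
  have hle : ∫ t in Ioi R, f' t ≤ tailQ R := by
    unfold tailQ
    apply setIntegral_mono_on hint integrable_g1.integrableOn measurableSet_Ioi
    intro t ht
    have ht0 : 0 < t := lt_of_le_of_lt hR ht
    have h3 : (t ^ 2 + t + 1) / (t + 1) ^ 2 ≤ 1 := by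
      rw [div_le_one (by positivity)]
      nlinarith
    have := g1_pos t
    rw [hf']
    simp only
    nlinarith
  rw [hval] at hle
  have h4 : g1 R / (R + 1) ≤ tailQ R := by linarith
  rwa [div_le_iff₀ (by positivity), mul_comm] at h4

/-- 1D bound for order-connected sets. -/
lemma abs_integral_deriv_le {g : ℝ → ℝ} (hg : ContDiff ℝ 1 g) (hc : HasCompactSupport g) {B : ℝ}
    (hB : ∀ t, |g t| ≤ B) {J : Set ℝ} (hJ : J.OrdConnected) :
    |∫ t in J, deriv g t| ≤ 2 * B := by
  have hB0 : 0 ≤ B := (abs_nonneg _).trans (hB 0)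
  obtain ⟨T, hT⟩ := hc.isCompact.isBounded.subset_closedBall 0
  rw [Real.closedBall_eq_Icc, zero_sub, zero_add] at hT
  have hJm : MeasurableSet J := hJ.measurableSet
  have hsupp : ∀ t, t ∉ Icc (-T) T → deriv g t = 0 := by
    intro t ht
    have h0 : g =ᶠ[𝓝 t] fun _ => 0 := notMem_tsupport_iff_eventuallyEq.mp fun h => ht (hT h)
    rw [h0.deriv_eq]; simp
  set J' := J ∩ Icc (-T) T with hJ'
  have hJ'c : J'.OrdConnected := hJ.inter ordConnected_Icc
  have hJ'm : MeasurableSet J' := hJ'c.measurableSet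
  have e1 : ∫ t in J, deriv g t = ∫ t in J', deriv g t := by
    rw [← integral_indicator hJm, ← integral_indicator hJ'm]
    congr 1
    ext t
    by_cases h1 : t ∈ J
    · by_cases h2 : t ∈ Icc (-T) T
      · have h3 : t ∈ J' := ⟨h1, h2⟩
        rw [indicator_of_mem h1, indicator_of_mem h3]
      · have h3 : t ∉ J' := fun h => h2 h.2
        rw [indicator_of_mem h1, indicator_of_notMem h3, hsupp t h2]
    · have h3 : t ∉ J' := fun h => h1 h.1
      rw [indicator_of_notMem h1, indicator_of_notMem h3]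
  rw [e1]
  rcases J'.eq_empty_or_nonempty with he | hne
  · rw [he]; simp; linarith
  have hbb : BddBelow J' := ⟨-T, fun t ht => ht.2.1⟩
  have hba : BddAbove J' := ⟨T, fun t ht => ht.2.2⟩
  set a := sInf J' with ha
  set b := sSup J' with hb
  have hab : a ≤ b := csInf_le_csSup hne hbb hba
  have hsub1 : Ioo a b ⊆ J' := by
    intro t ht
    obtain ⟨c, hc1, hc2⟩ := exists_lt_of_csInf_lt hne ht.1
    obtain ⟨d, hd1, hd2⟩ := exists_lt_of_lt_csSup hne ht.2
    exact hJ'c.out hc1 hd1 ⟨hc2.le, hd2.le⟩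
  have hsub2 : J' ⊆ Icc a b := fun t ht => ⟨csInf_le hbb ht, le_csSup hba ht⟩
  have e2 : ∫ t in J', deriv g t = ∫ t in Ioc a b, deriv g t := by
    apply setIntegral_congr_set
    have h1 : Ioo a b ≤ᵐ[volume] J' := hsub1.eventuallyLE
    have h2 : J' ≤ᵐ[volume] Icc a b := hsub2.eventuallyLE
    have h3 : Ioo a b =ᵐ[volume] Ioc a b := Ioo_ae_eq_Ioc
    have h4 : Icc a b =ᵐ[volume] Ioc a b := Ioc_ae_eq_Icc.symm
    exact (h2.trans h4.le).antisymm (h3.symm.le.trans h1)
  rw [e2, ← intervalIntegral.integral_of_le hab,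
    intervalIntegral.integral_eq_sub_of_hasDerivAt
      (fun t _ => (hg.differentiable (by norm_num) t).hasDerivAt)
      ((hg.continuous_deriv (by norm_num)).intervalIntegrable _ _)]
  have h1 := hB a
  have h2 := hB b
  calc |g b - g a| ≤ |g b| + |g a| := abs_sub _ _
    _ ≤ 2 * B := by linarith

/-- the product set `{x | x.re ∈ I, x.im ∈ J}` -/
def prodSet (I J : Set ℝ) : Set ℂ := {x | x.re ∈ I ∧ x.im ∈ J}

lemma measurableSet_prodSet {I J : Set ℝ} (hI : MeasurableSet I) (hJ : MeasurableSet J) :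
    MeasurableSet (prodSet I J) :=
  (Complex.measurable_re hI).inter (Complex.measurable_im hJ)

lemma setIntegral_prodSet {I J : Set ℝ} {f : ℂ → ℝ} (hf : Integrable f) :
    ∫ x in prodSet I J, f x = ∫ a in I, ∫ b in J, f (⟨a, b⟩ : ℂ) := by
  have hmp := Complex.volume_preserving_equiv_real_prod
  have h1 : prodSet I J = Complex.measurableEquivRealProd ⁻¹' (I ×ˢ J) := by
    ext x; simp [prodSet]
  have h2 : ∫ x in Complex.measurableEquivRealProd ⁻¹' (I ×ˢ J),
      (fun p : ℝ × ℝ => f (⟨p.1, p.2⟩ : ℂ)) (Complex.measurableEquivRealProd x) =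
      ∫ p in I ×ˢ J, f (⟨p.1, p.2⟩ : ℂ) := by
    have := hmp.setIntegral_preimage_emb Complex.measurableEquivRealProd.measurableEmbedding
      (fun p : ℝ × ℝ => f (⟨p.1, p.2⟩ : ℂ)) (I ×ˢ J)
    exact this
  rw [h1]
  have h3 : ∀ x, (fun p : ℝ × ℝ => f (⟨p.1, p.2⟩ : ℂ)) (Complex.measurableEquivRealProd x) = f x := by
    intro x; simp
  simp only [h3] at h2
  rw [h2]
  have hint : Integrable (fun p : ℝ × ℝ => f (⟨p.1, p.2⟩ : ℂ)) (volume.prod volume) := by
    have := (hmp.integrable_comp_emb Complex.measurableEquivRealProd.measurableEmbedding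
      (g := fun p : ℝ × ℝ => f (⟨p.1, p.2⟩ : ℂ))).mp (by
        refine hf.congr (Eventually.of_forall fun x => ?_)
        simp only [Function.comp_apply]
        exact (h3 x).symm)
    exact this
  exact setIntegral_prod _ hint.integrableOn

lemma setIntegral_prodSet' {I J : Set ℝ} {f : ℂ → ℝ} (hf : Integrable f) :
    ∫ x in prodSet I J, f x = ∫ b in J, ∫ a in I, f (⟨a, b⟩ : ℂ) := by
  have hmp := Complex.volume_preserving_equiv_real_prod
  have h3 : ∀ x, (fun p : ℝ × ℝ => f (⟨p.1, p.2⟩ : ℂ)) (Complex.measurableEquivRealProd x) = f x := by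
    intro x; simp
  have hint : Integrable (fun p : ℝ × ℝ => f (⟨p.1, p.2⟩ : ℂ)) (volume.prod volume) := by
    have := (hmp.integrable_comp_emb Complex.measurableEquivRealProd.measurableEmbedding
      (g := fun p : ℝ × ℝ => f (⟨p.1, p.2⟩ : ℂ))).mp (by
        refine hf.congr (Eventually.of_forall fun x => ?_)
        simp only [Function.comp_apply]
        exact (h3 x).symm)
    exact this
  rw [setIntegral_prodSet hf]
  apply integral_integral_swap
  rw [Measure.prod_restrict]
  exact hint.integrableOn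

end Pool.Agent.H65.Gauss
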