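import Pool.Agent.H65.GaussRiesz

/-! The reduced boundary carries the perimeter measure, and the perimeter measure vanishes on
`H¹`-null subsets of it. -/

namespace Pool.Agent.H65.Gauss

open MeasureTheory Set Filter Topology Metric
open scoped ENNReal NNReal

/-- Points at which the De Giorgi condition holds for the given pair. -/
def goodPts (μ : Measure ℂ) (ν : ℂ → ℂ) : Set ℂ :=
  {x | (∀ r > 0, 0 < μ (closedBall x r)) ∧
    ∃ e : ℂ, ‖e‖ = 1 ∧ Tendsto (fun r => ⨍ y in closedBall x r, ν y ∂μ) (𝓝[>] 0) (𝓝 e)}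

lemma goodPts_subset {E : Set ℂ} {μ : Measure ℂ} {ν : ℂ → ℂ} (h : IsGaussGreen E μ ν) :
    goodPts μ ν ⊆ reducedBoundary E := fun _ hx => ⟨μ, ν, h, hx.1, hx.2⟩

lemma IsGaussGreen.locallyIntegrable {E : Set ℂ} {μ : Measure ℂ} {ν : ℂ → ℂ}
    (h : IsGaussGreen E μ ν) : LocallyIntegrable ν μ := by
  have := h.locallyFinite
  exact (locallyIntegrable_const (1:ℝ)).mono h.measurable.aestronglyMeasurable
    (Eventually.of_forall fun x => by simp [h.norm_eq_one x])

lemma ae_mem_goodPts {E : Set ℂ} {μ : Measure ℂ} {ν : ℂ → ℂ} (h : IsGaussGreen E μ ν) :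
    ∀ᵐ x ∂μ, x ∈ goodPts μ ν := by
  have := h.locallyFinite
  have h1 := (Besicovitch.vitaliFamily μ).ae_tendsto_average h.locallyIntegrable
  have h2 : ∀ᵐ x ∂μ, x ∈ μ.support := Measure.support_mem_ae
  filter_upwards [h1, h2] with x hx1 hx2
  refine ⟨fun r hr => ?_, ν x, h.norm_eq_one x, hx1.comp (Besicovitch.tendsto_filterAt μ x)⟩
  exact (Measure.mem_support_iff_forall x).mp hx2 _ (closedBall_mem_nhds x hr)

/-! ### Radial cut-off functions -/

/-- A smooth function equal to `1` on `closedBall x r` and `0` outside `ball x r'`. -/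
noncomputable def radCut (x : ℂ) (r r' : ℝ) (y : ℂ) : ℝ :=
  Real.smoothTransition ((r' ^ 2 - ‖y - x‖ ^ 2) / (r' ^ 2 - r ^ 2))

lemma contDiff_radCut (x : ℂ) (r r' : ℝ) : ContDiff ℝ 1 (radCut x r r') := by
  unfold radCut
  apply (Real.smoothTransition.contDiff (n := 1)).comp
  have : ContDiff ℝ 1 (fun y : ℂ => ‖y - x‖ ^ 2) := (contDiff_norm_sq ℝ).comp
    (contDiff_id.sub contDiff_const)
  exact (contDiff_const.sub this).div_const _

lemma radCut_nonneg (x : ℂ) (r r' : ℝ) (y : ℂ) : 0 ≤ radCut x r r' y :=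
  Real.smoothTransition.nonneg _

lemma radCut_le_one (x : ℂ) (r r' : ℝ) (y : ℂ) : radCut x r r' y ≤ 1 :=
  Real.smoothTransition.le_one _

lemma radCut_eq_one {x : ℂ} {r r' : ℝ} (hr : 0 ≤ r) (hr' : r < r') {y : ℂ}
    (hy : ‖y - x‖ ≤ r) : radCut x r r' y = 1 := by
  unfold radCut
  apply Real.smoothTransition.one_of_one_le
  have h1 : r ^ 2 < r' ^ 2 := pow_lt_pow_left₀ hr' hr two_ne_zero
  have h2 : ‖y - x‖ ^ 2 ≤ r ^ 2 := pow_le_pow_left₀ (norm_nonneg _) hy 2
  rw [le_div_iff₀ (by linarith)]
  linarith

lemma radCut_eq_zero {x : ℂ} {r r' : ℝ} (hr : 0 ≤ r) (hr' : r < r') {y : ℂ}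
    (hy : r' ≤ ‖y - x‖) : radCut x r r' y = 0 := by
  unfold radCut
  apply Real.smoothTransition.zero_of_nonpos
  have h1 : r ^ 2 < r' ^ 2 := pow_lt_pow_left₀ hr' hr two_ne_zero
  have h2 : r' ^ 2 ≤ ‖y - x‖ ^ 2 := pow_le_pow_left₀ (by linarith) hy 2
  apply div_nonpos_of_nonpos_of_nonneg <;> linarith

lemma hasCompactSupport_radCut {x : ℂ} {r r' : ℝ} (hr : 0 ≤ r) (hr' : r < r') :
    HasCompactSupport (radCut x r r') := by
  apply HasCompactSupport.of_support_subset_isCompact (isCompact_closedBall x r')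
  intro y hy
  by_contra hne
  apply hy
  apply radCut_eq_zero hr hr'
  rw [mem_closedBall, dist_eq_norm, not_le] at hne
  exact hne.le

lemma exists_deriv_smoothTransition_bound :
    ∃ c : ℝ, 0 < c ∧ ∀ t, |deriv Real.smoothTransition t| ≤ c := by
  have hcont : Continuous (deriv Real.smoothTransition) :=
    (Real.smoothTransition.contDiff (n := 1)).continuous_deriv (by norm_num)
  have hsupp : ∀ t, t ∉ Icc (0:ℝ) 1 → deriv Real.smoothTransition t = 0 := by
    intro t ht
    rw [mem_Icc, not_and_or, not_le, not_le] at ht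
    rcases ht with ht | ht
    · have : Real.smoothTransition =ᶠ[𝓝 t] fun _ => 0 := by
        filter_upwards [Iio_mem_nhds ht] with s hs
        exact Real.smoothTransition.zero_of_nonpos (le_of_lt hs)
      rw [this.deriv_eq]; simp
    · have : Real.smoothTransition =ᶠ[𝓝 t] fun _ => 1 := by
        filter_upwards [Ioi_mem_nhds ht] with s hs
        exact Real.smoothTransition.one_of_one_le (le_of_lt hs)
      rw [this.deriv_eq]; simp
  obtain ⟨c, hc⟩ := isCompact_Icc.exists_bound_of_continuousOn
    (s := Icc (0:ℝ) 1) hcont.continuousOn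
  refine ⟨|c| + 1, by positivity, fun t => ?_⟩
  by_cases ht : t ∈ Icc (0:ℝ) 1
  · have := hc t ht
    rw [Real.norm_eq_abs] at this
    linarith [le_abs_self c]
  · rw [hsupp t ht, abs_zero]; positivity

/-- A bound for the derivative of the smooth transition function. -/
noncomputable def stC : ℝ := exists_deriv_smoothTransition_bound.choose

lemma stC_pos : 0 < stC := exists_deriv_smoothTransition_bound.choose_spec.1

lemma abs_deriv_st_le (t : ℝ) : |deriv Real.smoothTransition t| ≤ stC :=
  exists_deriv_smoothTransition_bound.choose_spec.2 t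

lemma fderiv_radCut (x : ℂ) (r r' : ℝ) (y v : ℂ) :
    fderiv ℝ (radCut x r r') y v =
      deriv Real.smoothTransition ((r' ^ 2 - ‖y - x‖ ^ 2) / (r' ^ 2 - r ^ 2)) *
        (-(2 * inner ℝ (y - x) v) / (r' ^ 2 - r ^ 2)) := by
  have h1 : HasFDerivAt (fun y : ℂ => ‖y - x‖ ^ 2) ((2:ℝ) • (innerSL ℝ (y - x))) y := by
    have h0 := (hasStrictFDerivAt_norm_sq (y - x)).hasFDerivAt
    have h0' : HasFDerivAt (fun z : ℂ => ‖z‖ ^ 2) ((2:ℝ) • (innerSL ℝ (y - x))) (y - x) := by
      refine h0.congr_fderiv ?_
      ext z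
      simp [two_mul]
    have h00 : HasFDerivAt (fun y : ℂ => y - x) (ContinuousLinearMap.id ℝ ℂ) y :=
      (hasFDerivAt_id y).sub_const x
    have := h0'.comp y h00
    rw [ContinuousLinearMap.comp_id] at this
    exact this
  have h2 : HasFDerivAt (fun y : ℂ => (r' ^ 2 - ‖y - x‖ ^ 2) / (r' ^ 2 - r ^ 2))
      ((r' ^ 2 - r ^ 2)⁻¹ • (-((2:ℝ) • (innerSL ℝ (y - x))))) y := by
    have := (h1.const_sub (r' ^ 2)).mul_const ((r' ^ 2 - r ^ 2)⁻¹)
    simpa only [div_eq_mul_inv] using this
  have h3 : HasDerivAt Real.smoothTransition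
      (deriv Real.smoothTransition ((r' ^ 2 - ‖y - x‖ ^ 2) / (r' ^ 2 - r ^ 2)))
      ((r' ^ 2 - ‖y - x‖ ^ 2) / (r' ^ 2 - r ^ 2)) :=
    ((Real.smoothTransition.contDiff (n := 1)).differentiable (by norm_num) _).hasDerivAt
  have h4 := h3.comp_hasFDerivAt y h2
  have h5 : fderiv ℝ (radCut x r r') y = _ := h4.fderiv
  rw [h5]
  simp only [smul_apply, neg_apply, innerSL_apply_apply,
    smul_eq_mul]
  ring

lemma integral_abs_fderiv_radCut_le {x : ℂ} {r r' : ℝ} (hr : 0 < r) (hr' : r < r') {v : ℂ}
    (hv : ‖v‖ = 1) {E : Set ℂ} :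
    |∫ y in E, fderiv ℝ (radCut x r r') y v| ≤ 2 * Real.pi * stC * r' := by
  have hpos : 0 < r' ^ 2 - r ^ 2 := by
    have h1 : r ^ 2 < r' ^ 2 := pow_lt_pow_left₀ hr' hr.le two_ne_zero
    linarith
  set A : Set ℂ := closedBall x r' \ ball x r with hA
  have hAm : MeasurableSet A := measurableSet_closedBall.diff measurableSet_ball
  have hvolA : volume.real A = Real.pi * (r' ^ 2 - r ^ 2) := by
    rw [hA, measureReal_sdiff (ball_subset_closedBall.trans (closedBall_subset_closedBall hr'.le))
      measurableSet_ball measure_closedBall_lt_top.ne]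
    rw [Measure.real, Measure.real, Complex.volume_closedBall, Complex.volume_ball]
    simp only [ENNReal.toReal_mul, ENNReal.toReal_pow, ENNReal.coe_toReal, NNReal.coe_real_pi]
    rw [ENNReal.toReal_ofReal hr.le, ENNReal.toReal_ofReal (hr.trans hr').le]
    ring
  have hbound : ∀ y, |fderiv ℝ (radCut x r r') y v| ≤
      A.indicator (fun _ => 2 * stC * r' / (r' ^ 2 - r ^ 2)) y := by
    intro y
    by_cases hy : y ∈ A
    · rw [indicator_of_mem hy, fderiv_radCut, abs_mul, abs_div, abs_neg, abs_of_pos hpos]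
      have h1 : |2 * inner ℝ (y - x) v| ≤ 2 * r' := by
        rw [abs_mul, abs_two]
        have := abs_real_inner_le_norm (y - x) v
        rw [hv, mul_one] at this
        have h2 : ‖y - x‖ ≤ r' := by
          have := hy.1
          rwa [mem_closedBall, dist_eq_norm] at this
        linarith
      calc |deriv Real.smoothTransition ((r' ^ 2 - ‖y - x‖ ^ 2) / (r' ^ 2 - r ^ 2))| *
            (|2 * inner ℝ (y - x) v| / (r' ^ 2 - r ^ 2)) ≤ stC * (2 * r' / (r' ^ 2 - r ^ 2)) := by
            apply mul_le_mul (abs_deriv_st_le _) _ (by positivity) stC_pos.le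
            exact div_le_div_of_nonneg_right h1 hpos.le
        _ = 2 * stC * r' / (r' ^ 2 - r ^ 2) := by ring
    · rw [indicator_of_notMem hy]
      have h0 : ∃ c, radCut x r r' =ᶠ[𝓝 y] fun _ => c := by
        rw [hA, Set.mem_sdiff, not_and_or, not_not, mem_closedBall, not_le] at hy
        rcases hy with hy | hy
        · refine ⟨0, ?_⟩
          have hopen : IsOpen {z : ℂ | r' < dist z x} := isOpen_lt continuous_const (by fun_prop)
          filter_upwards [hopen.mem_nhds hy] with z hz
          apply radCut_eq_zero hr.le hr'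
          rw [← dist_eq_norm]; exact le_of_lt hz
        · refine ⟨1, ?_⟩
          filter_upwards [isOpen_ball.mem_nhds hy] with z hz
          apply radCut_eq_one hr.le hr'
          rw [← dist_eq_norm]; exact le_of_lt hz
      obtain ⟨c, hc⟩ := h0
      rw [hc.fderiv_eq]; simp
  have hAfin : volume A ≠ ⊤ :=
    (lt_of_le_of_lt (measure_mono sdiff_subset) measure_closedBall_lt_top).ne
  have hint : Integrable (A.indicator (fun _ => 2 * stC * r' / (r' ^ 2 - r ^ 2))) := by
    rw [integrable_indicator_iff hAm]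
    exact integrableOn_const hAfin
  calc |∫ y in E, fderiv ℝ (radCut x r r') y v|
      ≤ ∫ y in E, A.indicator (fun _ => 2 * stC * r' / (r' ^ 2 - r ^ 2)) y := by
        rw [← Real.norm_eq_abs]
        apply norm_integral_le_of_norm_le hint.integrableOn
        exact Eventually.of_forall fun y => hbound y
    _ ≤ ∫ y, A.indicator (fun _ => 2 * stC * r' / (r' ^ 2 - r ^ 2)) y := by
        apply setIntegral_le_integral hint
        refine Eventually.of_forall fun y => ?_
        apply indicator_nonneg
        intro z _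
        have := stC_pos
        have : 0 < r' := hr.trans hr'
        positivity
    _ = 2 * Real.pi * stC * r' := by
        rw [integral_indicator hAm, setIntegral_const, hvolA, smul_eq_mul]
        field_simp

/-- upper density bound at good points -/
lemma density_bound {E : Set ℂ} {μ : Measure ℂ} {ν : ℂ → ℂ} (h : IsGaussGreen E μ ν)
    {x : ℂ} (hx : x ∈ goodPts μ ν) :
    ∃ δ > 0, ∀ r, 0 < r → r < δ → μ (closedBall x r) ≤ ENNReal.ofReal (4 * Real.pi * stC * r) := by
  have hlf := h.locallyFinite
  obtain ⟨hpos, e, he, hlim⟩ := hx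
  -- flux bound
  have hflux : ∀ r, 0 < r → ∫ y in closedBall x r, inner ℝ (ν y) e ∂μ ≤ 2 * Real.pi * stC * r := by
    intro r hr
    -- use r' = r + 1/(n+1)
    have hseq : ∀ n : ℕ, ∫ y, radCut x r (r + 1 / ((n:ℝ) + 1)) y * inner ℝ (ν y) e ∂μ ≤
        2 * Real.pi * stC * (r + 1 / ((n:ℝ) + 1)) := by
      intro n
      have hn : 0 < 1 / ((n:ℝ) + 1) := by positivity
      have ht : IsTestField (fun y => radCut x r (r + 1 / ((n:ℝ) + 1)) y • e) :=
        ⟨(contDiff_radCut _ _ _).smul contDiff_const,
          (hasCompactSupport_radCut hr.le (by linarith)).smul_right⟩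
      have h1 := h.formula _ ht
      have h2 : ∀ y, inner ℝ (ν y) (radCut x r (r + 1 / ((n:ℝ) + 1)) y • e) =
          radCut x r (r + 1 / ((n:ℝ) + 1)) y * inner ℝ (ν y) e := fun y => by
        rw [real_inner_smul_right]
      simp only [h2] at h1
      rw [← h1]
      have h3 : ∀ y, divergence (fun y => radCut x r (r + 1 / ((n:ℝ) + 1)) y • e) y =
          fderiv ℝ (radCut x r (r + 1 / ((n:ℝ) + 1))) y e := fun y =>
        divergence_smul_const e ((contDiff_radCut _ _ _).differentiable (by norm_num) y)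
      simp only [h3]
      exact (le_abs_self _).trans (integral_abs_fderiv_radCut_le hr (by linarith) he)
    have hl1 : Tendsto (fun n : ℕ => ∫ y, radCut x r (r + 1 / ((n:ℝ) + 1)) y * inner ℝ (ν y) e ∂μ)
        atTop (𝓝 (∫ y, (closedBall x r).indicator (fun y => inner ℝ (ν y) e) y ∂μ)) := by
      apply tendsto_integral_of_dominated_convergence
        (bound := (closedBall x (r + 1)).indicator fun _ => 1)
      · intro n
        exact ((contDiff_radCut _ _ _).continuous.measurable.mul
          (h.measurable.inner_const (c := e))).aestronglyMeasurable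
      · rw [integrable_indicator_iff measurableSet_closedBall]
        exact integrableOn_const measure_closedBall_lt_top.ne
      · intro n
        refine Eventually.of_forall fun y => ?_
        have hn : 1 / ((n:ℝ) + 1) ≤ 1 := by
          have : (0:ℝ) ≤ n := Nat.cast_nonneg n
          rw [div_le_one (by positivity)]
          linarith
        have hn' : 0 < 1 / ((n:ℝ) + 1) := by positivity
        by_cases hy : y ∈ closedBall x (r + 1)
        · rw [indicator_of_mem hy, norm_mul, Real.norm_of_nonneg (radCut_nonneg _ _ _ _)]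
          have h1 := radCut_le_one x r (r + 1 / ((n:ℝ) + 1)) y
          have h2 := radCut_nonneg x r (r + 1 / ((n:ℝ) + 1)) y
          have h3 : ‖(inner ℝ (ν y) e : ℝ)‖ ≤ 1 := by
            have := abs_real_inner_le_norm (ν y) e
            rw [h.norm_eq_one, he, mul_one] at this
            exact this
          nlinarith [norm_nonneg (inner ℝ (ν y) e : ℝ)]
        · rw [indicator_of_notMem hy]
          rw [mem_closedBall, not_le, dist_eq_norm] at hy
          rw [radCut_eq_zero hr.le (by linarith) (by linarith)]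
          simp
      · refine Eventually.of_forall fun y => ?_
        by_cases hy : y ∈ closedBall x r
        · rw [indicator_of_mem hy]
          rw [mem_closedBall, dist_eq_norm] at hy
          apply tendsto_const_nhds.congr
          intro n
          rw [radCut_eq_one hr.le (by
            have : 0 < 1 / ((n:ℝ) + 1) := by positivity
            linarith) hy, one_mul]
        · rw [indicator_of_notMem hy]
          rw [mem_closedBall, not_le, dist_eq_norm] at hy
          have hev : ∀ᶠ n : ℕ in atTop, r + 1 / ((n:ℝ) + 1) < ‖y - x‖ := by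
            have : Tendsto (fun n : ℕ => r + 1 / ((n:ℝ) + 1)) atTop (𝓝 (r + 0)) :=
              tendsto_const_nhds.add tendsto_one_div_add_atTop_nhds_zero_nat
            rw [add_zero] at this
            exact this.eventually_lt_const hy
          apply tendsto_const_nhds.congr'
          filter_upwards [hev] with n hn
          rw [radCut_eq_zero hr.le (by
            have : 0 < 1 / ((n:ℝ) + 1) := by positivity
            linarith) hn.le, zero_mul]
    have hl2 : Tendsto (fun n : ℕ => 2 * Real.pi * stC * (r + 1 / ((n:ℝ) + 1))) atTop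
        (𝓝 (2 * Real.pi * stC * (r + 0))) :=
      (tendsto_const_nhds.add tendsto_one_div_add_atTop_nhds_zero_nat).const_mul _
    rw [add_zero] at hl2
    have := le_of_tendsto_of_tendsto' hl1 hl2 hseq
    rwa [integral_indicator measurableSet_closedBall] at this
  -- averages
  have hlim2 : Tendsto (fun r => (inner ℝ (⨍ y in closedBall x r, ν y ∂μ) e : ℝ)) (𝓝[>] 0)
      (𝓝 (inner ℝ e e : ℝ)) := hlim.inner tendsto_const_nhds
  have hee : (inner ℝ e e : ℝ) = 1 := by rw [real_inner_self_eq_norm_sq, he]; norm_num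
  rw [hee] at hlim2
  have hev : ∀ᶠ r in 𝓝[>] (0:ℝ), (1/2:ℝ) < inner ℝ (⨍ y in closedBall x r, ν y ∂μ) e :=
    hlim2.eventually_const_lt (by norm_num)
  obtain ⟨δ, hδ, hδ'⟩ := mem_nhdsGT_iff_exists_Ioo_subset.mp hev
  refine ⟨δ, hδ, fun r hr hrδ => ?_⟩
  have h1 : (1/2:ℝ) < inner ℝ (⨍ y in closedBall x r, ν y ∂μ) e := hδ' ⟨hr, hrδ⟩
  have hfin : μ (closedBall x r) ≠ ⊤ := measure_closedBall_lt_top.ne
  have hmpos : 0 < μ.real (closedBall x r) := ENNReal.toReal_pos (hpos r hr).ne' hfin
  have hνint : IntegrableOn ν (closedBall x r) μ := by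
    have : IsFiniteMeasure (μ.restrict (closedBall x r)) :=
      ⟨by rw [Measure.restrict_apply_univ]; exact measure_closedBall_lt_top⟩
    apply Integrable.of_bound (C := 1) h.measurable.aestronglyMeasurable
    exact Eventually.of_forall fun y => (h.norm_eq_one y).le
  have h2 : (inner ℝ (⨍ y in closedBall x r, ν y ∂μ) e : ℝ) =
      (μ.real (closedBall x r))⁻¹ * ∫ y in closedBall x r, inner ℝ (ν y) e ∂μ := by
    rw [setAverage_eq, real_inner_smul_left]
    congr 1
    rw [real_inner_comm, ← integral_inner hνint]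
    congr 1
    ext y
    exact real_inner_comm _ _
  rw [h2] at h1
  have h3 : μ.real (closedBall x r) ≤ 2 * ∫ y in closedBall x r, inner ℝ (ν y) e ∂μ := by
    rw [lt_inv_mul_iff₀ hmpos] at h1
    linarith
  have h4 := hflux r hr
  rw [← ENNReal.ofReal_toReal hfin]
  apply ENNReal.ofReal_le_ofReal
  change μ.real (closedBall x r) ≤ _
  linarith

/-- a measure with bounded upper density on `A` vanishes on `H¹`-null sets -/
lemma measure_eq_zero_of_density {μ : Measure ℂ} {A : Set ℂ} {C δ : ℝ} (hC : 0 < C) (hδ : 0 < δ)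
    (h : ∀ x ∈ A, ∀ r, 0 < r → r < δ → μ (closedBall x r) ≤ ENNReal.ofReal (C * r))
    (hA : μH[1] A = 0) : μ A = 0 := by
  have key : (ENNReal.ofReal C)⁻¹ • μ.restrict A ≤ μH[1] := by
    apply Measure.le_hausdorffMeasure 1 _ (ENNReal.ofReal (δ / 2))
      (ENNReal.ofReal_pos.mpr (by linarith))
    intro s hs
    rw [ENNReal.rpow_one, Measure.smul_apply, smul_eq_mul]
    have hCpos : ENNReal.ofReal C ≠ 0 := (ENNReal.ofReal_pos.mpr hC).ne'
    rw [ENNReal.inv_mul_le_iff hCpos ENNReal.ofReal_ne_top]
    have h1 : (μ.restrict A) s ≤ μ (closure s ∩ A) :=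
      (measure_mono subset_closure).trans (by
        rw [Measure.restrict_apply isClosed_closure.measurableSet])
    refine h1.trans ?_
    rcases (closure s ∩ A).eq_empty_or_nonempty with he | ⟨x, hx1, hx2⟩
    · rw [he, measure_empty]; exact zero_le
    have hdfin : ediam s ≠ ⊤ := ne_top_of_le_ne_top ENNReal.ofReal_ne_top hs
    have hdle : (ediam s).toReal ≤ δ / 2 := ENNReal.toReal_le_of_le_ofReal (by linarith) hs
    have hsub : ∀ r, (ediam s).toReal ≤ r → closure s ∩ A ⊆ closedBall x r := by
      intro r hr y hy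
      rw [mem_closedBall]
      have h2 : edist y x ≤ ediam (closure s) := edist_le_ediam_of_mem hy.1 hx1
      rw [ediam_closure] at h2
      have h3 : (edist y x).toReal ≤ (ediam s).toReal := ENNReal.toReal_mono hdfin h2
      rw [edist_dist, ENNReal.toReal_ofReal dist_nonneg] at h3
      linarith
    have hbd : ∀ r, (ediam s).toReal < r → r < δ → μ (closure s ∩ A) ≤ ENNReal.ofReal (C * r) := by
      intro r hr1 hr2
      exact (measure_mono (hsub r hr1.le)).trans
        (h x hx2 r (lt_of_le_of_lt ENNReal.toReal_nonneg hr1) hr2)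
    have hlim : Tendsto (fun r : ℝ => ENNReal.ofReal (C * r)) (𝓝[>] (ediam s).toReal)
        (𝓝 (ENNReal.ofReal (C * (ediam s).toReal))) := by
      apply Tendsto.mono_left _ nhdsWithin_le_nhds
      apply (ENNReal.continuous_ofReal.comp (by fun_prop)).tendsto
    have hle : μ (closure s ∩ A) ≤ ENNReal.ofReal (C * (ediam s).toReal) := by
      apply ge_of_tendsto hlim
      filter_upwards [Ioo_mem_nhdsGT (show (ediam s).toReal < δ by linarith)] with r hr
      exact hbd r hr.1 hr.2
    rw [ENNReal.ofReal_mul hC.le, ENNReal.ofReal_toReal hdfin] at hle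
    exact hle
  have h1 := key A
  rw [hA, nonpos_iff_eq_zero, Measure.smul_apply, Measure.restrict_apply_self, smul_eq_mul,
    mul_eq_zero] at h1
  rcases h1 with h1 | h1
  · rw [ENNReal.inv_eq_zero] at h1
    exact absurd h1 ENNReal.ofReal_ne_top
  · exact h1

theorem measure_zero_of_null {E : Set ℂ} {μ : Measure ℂ} {ν : ℂ → ℂ} (h : IsGaussGreen E μ ν)
    {U : Set ℂ} (hnull : μH[1] (reducedBoundary E ∩ U) = 0) : μ U = 0 := by
  have h1 : μ (U ∩ (goodPts μ ν)ᶜ) = 0 :=
    measure_mono_null inter_subset_right (ae_iff.mp (ae_mem_goodPts h))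
  set S : ℕ → Set ℂ := fun k => {x | x ∈ U ∩ goodPts μ ν ∧
    ∀ r, 0 < r → r < 1 / ((k:ℝ) + 1) →
      μ (closedBall x r) ≤ ENNReal.ofReal (4 * Real.pi * stC * r)} with hS
  have h2 : U ∩ goodPts μ ν ⊆ ⋃ k, S k := by
    intro x hx
    obtain ⟨δ, hδ, hb⟩ := density_bound h hx.2
    obtain ⟨k, hk⟩ := exists_nat_one_div_lt hδ
    exact mem_iUnion.mpr ⟨k, hx, fun r hr hr' => hb r hr (hr'.trans hk)⟩
  have h3 : ∀ k, μ (S k) = 0 := by
    intro k
    apply measure_eq_zero_of_density (C := 4 * Real.pi * stC) (δ := 1 / ((k:ℝ) + 1))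
      (by have := stC_pos; positivity) (by positivity)
    · intro x hx; exact hx.2
    · apply measure_mono_null _ hnull
      intro x hx
      exact ⟨goodPts_subset h hx.1.2, hx.1.1⟩
  have h4 : μ (U ∩ goodPts μ ν) = 0 := measure_mono_null h2 (measure_iUnion_null h3)
  have h5 : U = (U ∩ goodPts μ ν) ∪ (U ∩ (goodPts μ ν)ᶜ) := (inter_union_compl U _).symm
  rw [h5]
  exact measure_union_null h4 h1

theorem integral_divergence_eq_zero_of_null {E : Set ℂ} (hE : HasLocallyFinitePerimeter E)
    {U : Set ℂ} (hnull : μH[1] (reducedBoundary E ∩ U) = 0) {φ : ℂ → ℂ} (hφ : IsTestField φ)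
    (hs : tsupport φ ⊆ U) : ∫ x in E, divergence φ x = 0 := by
  obtain ⟨-, μ, ν, h⟩ := hE
  rw [h.formula φ hφ]
  apply integral_eq_zero_of_ae
  have h1 := measure_zero_of_null h hnull
  have h2 : ∀ᵐ x ∂μ, x ∉ U := by rw [ae_iff]; simpa using h1
  filter_upwards [h2] with x hx
  rw [image_eq_zero_of_notMem_tsupport fun h' => hx (hs h')]
  simp

theorem reducedBoundary_inter_eq_empty {E U : Set ℂ} (hU : IsOpen U) (hE : MeasurableSet E)
    (h : volume (U ∩ E) = 0 ∨ volume (U \ E) = 0) : reducedBoundary E ∩ U = ∅ := by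
  rw [eq_empty_iff_forall_notMem]
  rintro x ⟨⟨μ, ν, hGG, hpos, -⟩, hxU⟩
  have hlf := hGG.locallyFinite
  -- integrals vanish
  have hz : ∀ φ, IsTestField φ → tsupport φ ⊆ U → ∫ y in E, divergence φ y = 0 := by
    intro φ hφ hs
    have hsupp : ∀ y, y ∉ U → divergence φ y = 0 := fun y hy =>
      divergence_eq_zero_of_notMem fun h' => hy (hs h')
    rcases h with h | h
    · apply integral_eq_zero_of_ae
      have h1 : ∀ᵐ y ∂(volume.restrict E), y ∉ U := by
        rw [ae_restrict_iff' hE]
        have : ∀ᵐ y : ℂ, ¬ (y ∈ U ∩ E) := by rw [ae_iff]; simpa using h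
        filter_upwards [this] with y hy hyE hyU
        exact hy ⟨hyU, hyE⟩
      filter_upwards [h1] with y hy
      exact hsupp y hy
    · have h1 := hφ.integral_divergence
      rw [← integral_add_compl hE hφ.integrable_divergence] at h1
      have h2 : ∫ y in Eᶜ, divergence φ y = 0 := by
        apply integral_eq_zero_of_ae
        have h3 : ∀ᵐ y ∂(volume.restrict Eᶜ), y ∉ U := by
          rw [ae_restrict_iff' hE.compl]
          have : ∀ᵐ y : ℂ, ¬ (y ∈ U \ E) := by
            rw [ae_iff]
            simp only [not_not]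
            exact h
          filter_upwards [this] with y hy hyE hyU
          exact hy ⟨hyU, hyE⟩
        filter_upwards [h3] with y hy
        exact hsupp y hy
      linarith
  have hae : ∀ᵐ y ∂μ, y ∈ U → ν y = 0 := by
    apply hU.ae_eq_zero_of_integral_contDiff_smul_eq_zero
    · exact hGG.locallyIntegrable.locallyIntegrableOn U
    · intro g hg hgc hgs
      have hg1 : ContDiff ℝ 1 g := hg.of_le (by exact_mod_cast le_top)
      have hint : Integrable (fun y => g y • ν y) μ := by
        have hgi : Integrable g μ := hg.continuous.integrable_of_hasCompactSupport hgc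
        refine Integrable.mono hgi ?_ ?_
        · exact (hg.continuous.measurable.smul hGG.measurable).aestronglyMeasurable
        · refine Eventually.of_forall fun y => ?_
          rw [norm_smul, hGG.norm_eq_one, mul_one]
      have hv : ∀ v : ℂ, inner ℝ (∫ y, g y • ν y ∂μ) v = (0:ℝ) := by
        intro v
        have ht : IsTestField (fun y => g y • v) :=
          ⟨hg1.smul contDiff_const, hgc.smul_right⟩
        have h1 := hGG.formula _ ht
        have hts : tsupport (fun y => g y • v) ⊆ U := by
          refine (closure_mono ?_).trans hgs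
          intro y hy hgy
          apply hy
          simp [hgy]
        rw [hz _ ht hts] at h1
        rw [real_inner_comm, ← integral_inner hint, h1]
        congr 1
        ext y
        rw [real_inner_smul_right, real_inner_smul_right, real_inner_comm]
      have h0 := hv (∫ y, g y • ν y ∂μ)
      rwa [inner_self_eq_zero] at h0
  have hUnull : μ U = 0 := by
    have : ∀ᵐ y ∂μ, y ∉ U := by
      filter_upwards [hae] with y hy hyU
      have h1 := hy hyU
      have h2 := hGG.norm_eq_one y
      rw [h1, norm_zero] at h2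
      norm_num at h2
    rw [ae_iff] at this
    simpa using this
  obtain ⟨ε, hε, hball⟩ := Metric.isOpen_iff.mp hU x hxU
  have h1 : closedBall x (ε / 2) ⊆ U := (closedBall_subset_ball (by linarith)).trans hball
  exact (hpos (ε / 2) (by linarith)).ne' (measure_mono_null h1 hUnull)

end Pool.Agent.H65.Gauss
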