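import Mathlib

/-! A signed Riesz representation theorem on `ℂ`. -/

namespace Pool.Agent.H65.Gauss

open MeasureTheory Set Filter Topology Metric
open scoped ENNReal NNReal CompactlySupported
open CompactlySupportedContinuousMap

variable (G : C_c(ℂ, ℝ) →ₗ[ℝ] ℝ)

/-- values of `G` below `f` -/
def belowSet (f : C_c(ℂ, ℝ≥0)) : Set ℝ := {r | ∃ g : C_c(ℂ, ℝ≥0), g ≤ f ∧ r = G g.toReal}

lemma exists_bound_cc (f : C_c(ℂ, ℝ≥0)) : ∃ b : ℝ, 0 ≤ b ∧ ∀ x, (f x : ℝ) ≤ b := by
  obtain ⟨b, hb⟩ := f.toReal.continuous.bounded_above_of_compact_support f.toReal.hasCompactSupport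
  refine ⟨b, (norm_nonneg _).trans (hb 0), fun x => ?_⟩
  have := hb x
  rw [coe_toContinuousMap, toReal_apply, Real.norm_of_nonneg (NNReal.coe_nonneg _)] at this
  exact this

lemma zero_mem_belowSet (f : C_c(ℂ, ℝ≥0)) : (0:ℝ) ∈ belowSet G f := by
  refine ⟨0, ?_, ?_⟩
  · intro x; simp
  · have : (0 : C_c(ℂ, ℝ≥0)).toReal = 0 := by ext x; simp
    rw [this, map_zero]

variable {C : ℝ} (hC : 0 ≤ C) (hG : ∀ f : C_c(ℂ, ℝ), ∀ b, (∀ x, |f x| ≤ b) → |G f| ≤ C * b)

include hG in
lemma bddAbove_belowSet (f : C_c(ℂ, ℝ≥0)) : BddAbove (belowSet G f) := by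
  obtain ⟨b, hb0, hb⟩ := exists_bound_cc f
  refine ⟨C * b, ?_⟩
  rintro r ⟨g, hg, rfl⟩
  refine (le_abs_self _).trans (hG _ b fun x => ?_)
  rw [toReal_apply, abs_of_nonneg (NNReal.coe_nonneg _)]
  exact le_trans (by exact_mod_cast hg x) (hb x)

/-- The positive part of `G`. -/
noncomputable def posPart (f : C_c(ℂ, ℝ≥0)) : ℝ := sSup (belowSet G f)

include hG in
lemma posPart_nonneg (f : C_c(ℂ, ℝ≥0)) : 0 ≤ posPart G f :=
  le_csSup (bddAbove_belowSet G hG f) (zero_mem_belowSet G f)

include hG in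
lemma le_posPart (f : C_c(ℂ, ℝ≥0)) : G f.toReal ≤ posPart G f :=
  le_csSup (bddAbove_belowSet G hG f) ⟨f, le_rfl, rfl⟩

include hG in
lemma posPart_add (f f' : C_c(ℂ, ℝ≥0)) : posPart G (f + f') = posPart G f + posPart G f' := by
  apply le_antisymm
  · apply csSup_le ⟨0, zero_mem_belowSet G _⟩
    rintro r ⟨g, hg, rfl⟩
    have h1 : g ⊓ f ≤ g := fun x => by simp
    obtain ⟨g2, hg2⟩ := CompactlySupportedContinuousMap.exists_add_of_le h1
    have h2 : g2 ≤ f' := by
      intro x
      have h3 : (g ⊓ f) x + g2 x = g x := by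
        rw [← CompactlySupportedContinuousMap.add_apply, hg2]
      have h4 := hg x
      simp only [CompactlySupportedContinuousMap.inf_apply, CompactlySupportedContinuousMap.add_apply] at h3 h4
      rcases le_total (g x) (f x) with h | h
      · rw [inf_eq_left.mpr h] at h3
        have : g2 x = 0 := by simpa using h3
        change g2 x ≤ f' x
        rw [this]; exact zero_le
      · rw [inf_eq_right.mpr h] at h3
        change g2 x ≤ f' x
        rw [← h3] at h4
        exact le_of_add_le_add_left h4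
    have h5 : G g.toReal = G (g ⊓ f).toReal + G g2.toReal := by
      rw [← map_add, ← toReal_add, hg2]
    rw [h5]
    apply add_le_add
    · apply le_csSup (bddAbove_belowSet G hG f)
      exact ⟨g ⊓ f, fun x => by simp, rfl⟩
    · apply le_csSup (bddAbove_belowSet G hG f')
      exact ⟨g2, h2, rfl⟩
  · have h1 : ∀ r ∈ belowSet G f, ∀ r' ∈ belowSet G f', r + r' ≤ posPart G (f + f') := by
      rintro r ⟨g, hg, rfl⟩ r' ⟨g', hg', rfl⟩
      rw [← map_add, ← toReal_add]
      apply le_csSup (bddAbove_belowSet G hG _)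
      exact ⟨g + g', fun x => by
        simp only [CompactlySupportedContinuousMap.add_apply]; exact add_le_add (hg x) (hg' x), rfl⟩
    have h2 : ∀ r ∈ belowSet G f, r + posPart G f' ≤ posPart G (f + f') := by
      intro r hr
      rw [add_comm, ← le_sub_iff_add_le]
      apply csSup_le ⟨0, zero_mem_belowSet G _⟩
      intro r' hr'
      linarith [h1 r hr r' hr']
    rw [← le_sub_iff_add_le]
    apply csSup_le ⟨0, zero_mem_belowSet G _⟩
    intro r hr
    linarith [h2 r hr]

include hG in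
lemma posPart_smul (c : ℝ≥0) (f : C_c(ℂ, ℝ≥0)) : posPart G (c • f) = c * posPart G f := by
  have key : ∀ (c : ℝ≥0) (f : C_c(ℂ, ℝ≥0)), (c:ℝ) * posPart G f ≤ posPart G (c • f) := by
    intro c f
    rcases eq_or_ne c 0 with rfl | hc
    · simpa using posPart_nonneg G hG _
    have hcpos : (0:ℝ) < c := by exact_mod_cast pos_of_ne_zero hc
    rw [mul_comm, ← le_div_iff₀ hcpos]
    apply csSup_le ⟨0, zero_mem_belowSet G _⟩
    rintro r ⟨g, hg, rfl⟩
    rw [le_div_iff₀ hcpos]
    apply le_csSup (bddAbove_belowSet G hG _)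
    refine ⟨c • g, fun x => ?_, ?_⟩
    · simp only [CompactlySupportedContinuousMap.smul_apply, smul_eq_mul]
      exact mul_le_mul_right (hg x) c
    · rw [toReal_smul]
      have : (c • g.toReal : C_c(ℂ, ℝ)) = (c : ℝ) • g.toReal := by
        ext x; simp [NNReal.smul_def]
      rw [this, map_smul, smul_eq_mul, mul_comm]
  apply le_antisymm _ (key c f)
  rcases eq_or_ne c 0 with rfl | hc
  · simp only [zero_smul, NNReal.coe_zero, zero_mul]
    apply csSup_le ⟨0, zero_mem_belowSet G _⟩
    rintro r ⟨g, hg, rfl⟩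
    have : g.toReal = 0 := by
      ext x
      have := hg x
      rw [CompactlySupportedContinuousMap.zero_apply, nonpos_iff_eq_zero] at this
      rw [toReal_apply, CompactlySupportedContinuousMap.zero_apply, this, NNReal.coe_zero]
    rw [this, map_zero]
  · have hcpos : (0:ℝ) < c := by exact_mod_cast pos_of_ne_zero hc
    have h1 := key c⁻¹ (c • f)
    rw [smul_smul, inv_mul_cancel₀ hc, one_smul, NNReal.coe_inv, inv_mul_le_iff₀ hcpos] at h1
    exact h1

/-- The positive part as a linear map. -/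
noncomputable def posLin : C_c(ℂ, ℝ≥0) →ₗ[ℝ≥0] ℝ≥0 where
  toFun f := ⟨posPart G f, posPart_nonneg G hG f⟩
  map_add' f g := by
    apply NNReal.eq
    rw [NNReal.coe_add]
    exact posPart_add G hG f g
  map_smul' c f := by
    apply NNReal.eq
    rw [RingHom.id_apply, smul_eq_mul, NNReal.coe_mul]
    exact posPart_smul G hG c f

/-- The negative part as a linear map. -/
noncomputable def negLin : C_c(ℂ, ℝ≥0) →ₗ[ℝ≥0] ℝ≥0 where
  toFun f := ⟨posPart G f - G f.toReal, sub_nonneg.mpr (le_posPart G hG f)⟩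
  map_add' f g := by
    apply NNReal.eq
    rw [NNReal.coe_add]
    change posPart G (f + g) - G (f + g).toReal =
      (posPart G f - G f.toReal) + (posPart G g - G g.toReal)
    rw [posPart_add G hG f g, toReal_add, map_add]
    ring
  map_smul' c f := by
    apply NNReal.eq
    rw [RingHom.id_apply, smul_eq_mul, NNReal.coe_mul]
    change posPart G (c • f) - G (c • f).toReal = c * (posPart G f - G f.toReal)
    rw [posPart_smul G hG c f, toReal_smul]
    have : (c • f.toReal : C_c(ℂ, ℝ)) = (c : ℝ) • f.toReal := by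
      ext x; simp [NNReal.smul_def]
    rw [this, map_smul, smul_eq_mul]
    ring

include hG in
theorem signed_riesz : ∃ μ₁ μ₂ : Measure ℂ, IsLocallyFiniteMeasure μ₁ ∧
    IsLocallyFiniteMeasure μ₂ ∧ ∀ f : C_c(ℂ, ℝ), G f = (∫ x, f x ∂μ₁) - ∫ x, f x ∂μ₂ := by
  refine ⟨RealRMK.rieszMeasure (toRealPositiveLinear (posLin G hG)),
    RealRMK.rieszMeasure (toRealPositiveLinear (negLin G hG)), inferInstance, inferInstance, ?_⟩
  intro f
  rw [RealRMK.integral_rieszMeasure, RealRMK.integral_rieszMeasure, toRealPositiveLinear_apply,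
    toRealPositiveLinear_apply]
  have h1 : ∀ g, ((posLin G hG g : ℝ≥0) : ℝ) = posPart G g := fun g => rfl
  have h2 : ∀ g, ((negLin G hG g : ℝ≥0) : ℝ) = posPart G g - G g.toReal := fun g => rfl
  rw [h1, h1, h2, h2]
  have h3 : G f = G f.nnrealPart.toReal - G (-f).nnrealPart.toReal := by
    rw [← map_sub, nnrealPart_sub_nnrealPart_neg]
  rw [h3]
  ring

end Pool.Agent.H65.Gauss
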