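import Pool.Agent.H65.GaussCompact
import Pool.Agent.H65.SignedRiesz

/-! Sets of finite Gaussian perimeter have a Gauss-Green measure. -/

namespace Pool.Agent.H65.Gauss

open MeasureTheory Set Filter Topology Metric
open scoped ENNReal NNReal CompactlySupported

/-- The sup norm on compactly supported functions. -/
noncomputable def supN (f : C_c(ℂ, ℝ)) : ℝ := ⨆ x, |f x|

lemma bddAbove_abs_cc (f : C_c(ℂ, ℝ)) : BddAbove (range fun x => |f x|) := by
  obtain ⟨b, hb⟩ := f.continuous.bounded_above_of_compact_support f.hasCompactSupport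
  refine ⟨b, ?_⟩
  rintro _ ⟨x, rfl⟩
  exact hb x

lemma le_supN (f : C_c(ℂ, ℝ)) (x : ℂ) : |f x| ≤ supN f := le_ciSup (bddAbove_abs_cc f) x

lemma supN_le {f : C_c(ℂ, ℝ)} {b : ℝ} (h : ∀ x, |f x| ≤ b) : supN f ≤ b := ciSup_le h

lemma supN_nonneg (f : C_c(ℂ, ℝ)) : 0 ≤ supN f := (abs_nonneg _).trans (le_supN f 0)

lemma exists_functional {E : Set ℂ} {C : ℝ} (hC : 0 ≤ C)
    (hP : gaussPerimeter E ≤ ENNReal.ofReal C) (e : ℂ) (he : ‖e‖ = 1) :
    ∃ G : C_c(ℂ, ℝ) →ₗ[ℝ] ℝ, (∀ f : C_c(ℂ, ℝ), ∀ b, (∀ x, |f x| ≤ b) → |G f| ≤ C * b) ∧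
      ∀ f : C_c(ℂ, ℝ), ContDiff ℝ 1 f →
        G f = ∫ x in E, divergence (fun y => gaussDensity y • (f y • e)) x := by
  have htest : ∀ f : C_c(ℂ, ℝ), ContDiff ℝ 1 f → IsTestField (fun y => f y • e) := fun f hf =>
    ⟨hf.smul contDiff_const, f.hasCompactSupport.smul_right⟩
  have hdiff : ∀ f : C_c(ℂ, ℝ), ContDiff ℝ 1 f → Differentiable ℝ (fun y => gaussDensity y • (f y • e)) :=
    fun f hf => (htest f hf).gauss.differentiable
  have hint : ∀ f : C_c(ℂ, ℝ), ContDiff ℝ 1 f →
      Integrable (fun x => divergence (fun y => gaussDensity y • (f y • e)) x) :=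
    fun f hf => (htest f hf).gauss.integrable_divergence
  let p : Submodule ℝ C_c(ℂ, ℝ) :=
    { carrier := {f | ContDiff ℝ 1 f}
      add_mem' := by
        intro f g hf hg
        simp only [mem_ofPred_eq] at hf hg ⊢
        rw [CompactlySupportedContinuousMap.coe_add]
        exact hf.add hg
      zero_mem' := by
        simp only [mem_ofPred_eq, CompactlySupportedContinuousMap.coe_zero]
        exact contDiff_const
      smul_mem' := by
        intro c f hf
        simp only [mem_ofPred_eq] at hf ⊢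
        rw [CompactlySupportedContinuousMap.coe_smul]
        exact hf.const_smul c }
  let L : p →ₗ[ℝ] ℝ :=
    { toFun := fun f => ∫ x in E, divergence (fun y => gaussDensity y • ((f : C_c(ℂ, ℝ)) y • e)) x
      map_add' := by
        intro f g
        rw [← integral_add (hint f f.2).integrableOn (hint g g.2).integrableOn]
        congr 1
        ext x
        rw [← divergence_add (hdiff f f.2 x) (hdiff g g.2 x)]
        congr 1
        ext y
        simp only [Submodule.coe_add, CompactlySupportedContinuousMap.add_apply]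
        rw [add_smul, smul_add]
      map_smul' := by
        intro c f
        rw [RingHom.id_apply, smul_eq_mul, ← integral_const_mul]
        congr 1
        ext x
        rw [← divergence_const_smul c (hdiff f f.2 x)]
        congr 1
        ext y
        simp only [Submodule.coe_smul, CompactlySupportedContinuousMap.smul_apply]
        rw [smul_eq_mul, mul_smul, smul_comm] }
  have hLbound : ∀ f : p, L f ≤ C * supN (f : C_c(ℂ, ℝ)) := by
    intro f
    set b := supN (f : C_c(ℂ, ℝ)) with hb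
    rcases eq_or_lt_of_le (supN_nonneg (f : C_c(ℂ, ℝ))) with h0 | hpos
    · have hz : ∀ y, (f : C_c(ℂ, ℝ)) y = 0 := by
        intro y
        have := le_supN (f : C_c(ℂ, ℝ)) y
        rw [← h0] at this
        exact abs_nonpos_iff.mp this
      have : L f = 0 := by
        change ∫ x in E, divergence (fun y => gaussDensity y • ((f : C_c(ℂ, ℝ)) y • e)) x = 0
        have h1 : (fun y => gaussDensity y • ((f : C_c(ℂ, ℝ)) y • e)) = fun _ => 0 := by
          ext y; rw [hz y]; simp
        rw [h1]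
        simp [divergence_zero]
      rw [this, hb, ← h0, mul_zero]
    · have hb' : 0 < b := hpos
      have ht : IsTestField (fun y => b⁻¹ • ((f : C_c(ℂ, ℝ)) y • e)) :=
        (htest f f.2).smul (a := fun _ => b⁻¹) contDiff_const
      have h1 := integral_div_gauss_le (E := E) hC hP ht (fun y => by
        rw [norm_smul, norm_smul, he, mul_one, Real.norm_of_nonneg (inv_nonneg.mpr hb'.le),
          Real.norm_eq_abs, inv_mul_le_iff₀ hb', mul_one]
        exact le_supN _ y)
      have h2 : ∀ x, divergence (fun y => gaussDensity y • (b⁻¹ • ((f : C_c(ℂ, ℝ)) y • e))) x =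
          b⁻¹ * divergence (fun y => gaussDensity y • ((f : C_c(ℂ, ℝ)) y • e)) x := by
        intro x
        rw [← divergence_const_smul _ (hdiff f f.2 x)]
        congr 1
        ext y
        rw [smul_comm]
      simp only [h2] at h1
      rw [integral_const_mul, inv_mul_le_iff₀ hb'] at h1
      rw [mul_comm C b]
      exact h1
  obtain ⟨G, hG1, hG2⟩ := exists_extension_of_le_sublinear ⟨p, L⟩ (fun f => C * supN f)
    (by
      intro c hc f
      have : supN (c • f) = c * supN f := by
        unfold supN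
        rw [Real.mul_iSup_of_nonneg hc.le]
        congr 1
        ext x
        rw [CompactlySupportedContinuousMap.smul_apply, smul_eq_mul, abs_mul, abs_of_pos hc]
      rw [this]; ring)
    (by
      intro f g
      rw [← mul_add]
      apply mul_le_mul_of_nonneg_left _ hC
      apply supN_le
      intro x
      rw [CompactlySupportedContinuousMap.add_apply]
      exact (abs_add_le _ _).trans (add_le_add (le_supN f x) (le_supN g x)))
    (fun f => hLbound f)
  refine ⟨G, ?_, ?_⟩
  · intro f b hb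
    have h1 : supN f ≤ b := supN_le hb
    rw [abs_le]
    constructor
    · have h2 := hG2 (-f)
      rw [map_neg] at h2
      have h3 : supN (-f) ≤ b := supN_le fun x => by
        rw [CompactlySupportedContinuousMap.neg_apply, abs_neg]; exact hb x
      have h4 := mul_le_mul_of_nonneg_left h3 hC
      linarith
    · exact (hG2 f).trans (mul_le_mul_of_nonneg_left h1 hC)
  · intro f hf
    exact hG1 ⟨f, hf⟩

theorem exists_gaussGreen {E : Set ℂ} (hP : gaussPerimeter E ≠ ⊤) :
    ∃ μ ν, IsGaussGreen E μ ν := by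
  set C := (gaussPerimeter E).toReal with hCdef
  have hC : 0 ≤ C := ENNReal.toReal_nonneg
  have hPC : gaussPerimeter E ≤ ENNReal.ofReal C := by
    rw [hCdef, ENNReal.ofReal_toReal hP]
  obtain ⟨G1, hG1, hG1'⟩ := exists_functional hC hPC 1 (by simp)
  obtain ⟨G2, hG2, hG2'⟩ := exists_functional hC hPC Complex.I (by simp)
  obtain ⟨μ₁, μ₂, hμ₁, hμ₂, h12⟩ := signed_riesz G1 hG1
  obtain ⟨μ₃, μ₄, hμ₃, hμ₄, h34⟩ := signed_riesz G2 hG2
  set μ₀ : Measure ℂ := μ₁ + μ₂ + μ₃ + μ₄ with hμ₀
  have hlf : IsLocallyFiniteMeasure μ₀ := by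
    constructor
    intro x
    obtain ⟨s1, hs1, h1⟩ := μ₁.finiteAt_nhds x
    obtain ⟨s2, hs2, h2⟩ := μ₂.finiteAt_nhds x
    obtain ⟨s3, hs3, h3⟩ := μ₃.finiteAt_nhds x
    obtain ⟨s4, hs4, h4⟩ := μ₄.finiteAt_nhds x
    refine ⟨s1 ∩ s2 ∩ s3 ∩ s4, inter_mem (inter_mem (inter_mem hs1 hs2) hs3) hs4, ?_⟩
    rw [hμ₀]
    simp only [Measure.coe_add, Pi.add_apply]
    refine ENNReal.add_lt_top.mpr ⟨ENNReal.add_lt_top.mpr ⟨ENNReal.add_lt_top.mpr ⟨?_, ?_⟩, ?_⟩, ?_⟩
    · exact lt_of_le_of_lt (measure_mono (by intro y hy; exact hy.1.1.1)) h1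
    · exact lt_of_le_of_lt (measure_mono (by intro y hy; exact hy.1.1.2)) h2
    · exact lt_of_le_of_lt (measure_mono (by intro y hy; exact hy.1.2)) h3
    · exact lt_of_le_of_lt (measure_mono (by intro y hy; exact hy.2)) h4
  have hle1 : μ₁ ≤ μ₀ := by
    rw [hμ₀, add_assoc, add_assoc]; exact Measure.le_add_right le_rfl
  have hle2 : μ₂ ≤ μ₀ := by
    rw [hμ₀, add_assoc, add_assoc]; exact Measure.le_add_left (Measure.le_add_right le_rfl)
  have hle3 : μ₃ ≤ μ₀ := by
    rw [hμ₀]; exact Measure.le_add_right (Measure.le_add_left le_rfl)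
  have hle4 : μ₄ ≤ μ₀ := by
    rw [hμ₀]; exact Measure.le_add_left le_rfl
  set a : Measure ℂ → ℂ → ℝ := fun m x => (m.rnDeriv μ₀ x).toReal with ha
  have hameas : ∀ m : Measure ℂ, Measurable (a m) := fun m =>
    (Measure.measurable_rnDeriv m μ₀).ennreal_toReal
  have ha1 : ∀ m : Measure ℂ, m ≤ μ₀ → ∀ᵐ x ∂μ₀, a m x ≤ 1 := by
    intro m hm
    filter_upwards [Measure.rnDeriv_le_one_of_le hm] with x hx
    exact ENNReal.toReal_le_of_le_ofReal zero_le_one (by simpa using hx)
  have ha0 : ∀ m x, 0 ≤ a m x := fun m x => ENNReal.toReal_nonneg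
  set g : ℂ → ℂ := fun x => ⟨a μ₁ x - a μ₂ x, a μ₃ x - a μ₄ x⟩ with hg
  have hgmeas : Measurable g := by
    have : g = fun x => ((a μ₁ x - a μ₂ x : ℝ) : ℂ) + ((a μ₃ x - a μ₄ x : ℝ) : ℂ) * Complex.I := by
      ext x
      apply Complex.ext <;> simp [hg]
    rw [this]
    exact (Complex.measurable_ofReal.comp ((hameas _).sub (hameas _))).add
      ((Complex.measurable_ofReal.comp ((hameas _).sub (hameas _))).mul_const _)
  have hg2 : ∀ᵐ x ∂μ₀, ‖g x‖ ≤ 2 := by
    filter_upwards [ha1 μ₁ hle1, ha1 μ₂ hle2, ha1 μ₃ hle3, ha1 μ₄ hle4] with x h1 h2 h3 h4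
    have e1 : |(g x).re| ≤ 1 := by
      have := ha0 μ₁ x; have := ha0 μ₂ x
      rw [abs_le]; constructor <;> simp only [hg] <;> linarith
    have e2 : |(g x).im| ≤ 1 := by
      have := ha0 μ₃ x; have := ha0 μ₄ x
      rw [abs_le]; constructor <;> simp only [hg] <;> linarith
    exact (Complex.norm_le_abs_re_add_abs_im _).trans (by linarith)
  set dens : ℂ → ℝ≥0∞ := fun x => ENNReal.ofReal (‖g x‖ * (gaussDensity x)⁻¹) with hdens
  have hdmeas : Measurable dens :=
    (hgmeas.norm.mul measurable_gaussDensity.inv).ennreal_ofReal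
  set ν : ℂ → ℂ := fun x => if g x = 0 then 1 else (‖g x‖ : ℂ)⁻¹ * g x with hν
  have hνmeas : Measurable ν := by
    apply Measurable.ite (hgmeas (measurableSet_singleton 0)) measurable_const
    exact (Complex.measurable_ofReal.comp hgmeas.norm).inv.mul hgmeas
  refine ⟨μ₀.withDensity dens, ν, ?_, hνmeas, ?_, ?_⟩
  · constructor
    intro x
    obtain ⟨s, hs, hsfin⟩ := μ₀.finiteAt_nhds x
    obtain ⟨ε, hε, hball⟩ := Metric.mem_nhds_iff.mp (inter_mem (ball_mem_nhds x one_pos) hs)
    refine ⟨ball x ε, ball_mem_nhds x hε, ?_⟩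
    rw [withDensity_apply _ measurableSet_ball]
    have hK : ∀ᵐ y ∂μ₀, y ∈ ball x ε → dens y ≤ ENNReal.ofReal (2 * locConst (‖x‖ + 1)) := by
      filter_upwards [hg2] with y hy hy1
      apply ENNReal.ofReal_le_ofReal
      apply mul_le_mul hy _ (inv_nonneg.mpr (gaussDensity_nonneg y)) (by norm_num)
      apply inv_gaussDensity_le
      have := (hball hy1).1
      rw [mem_ball, dist_eq_norm] at this
      calc ‖y‖ = ‖x + (y - x)‖ := by simp
        _ ≤ ‖x‖ + ‖y - x‖ := norm_add_le _ _
        _ ≤ ‖x‖ + 1 := by linarith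
    calc ∫⁻ y in ball x ε, dens y ∂μ₀
        ≤ ∫⁻ y in ball x ε, ENNReal.ofReal (2 * locConst (‖x‖ + 1)) ∂μ₀ := by
          apply lintegral_mono_ae
          exact (ae_restrict_iff' measurableSet_ball).mpr hK
      _ < ⊤ := by
          rw [setLIntegral_const]
          exact ENNReal.mul_lt_top ENNReal.ofReal_lt_top
            (lt_of_le_of_lt (measure_mono (hball.trans inter_subset_right)) hsfin)
  · intro x
    simp only [hν]
    split_ifs with h
    · simp
    · rw [norm_mul, norm_inv, Complex.norm_real, norm_norm, inv_mul_cancel₀]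
      exact norm_ne_zero_iff.mpr h
  · intro φ hφ
    set ψ : ℂ → ℂ := fun x => (gaussDensity x)⁻¹ • φ x with hψ
    have hψt : IsTestField ψ := hφ.div_gauss
    set f1 : C_c(ℂ, ℝ) := ⟨⟨fun x => (ψ x).re, Complex.continuous_re.comp hψt.continuous⟩,
      hψt.2.comp_left (g := Complex.re) (by simp)⟩ with hf1
    set f2 : C_c(ℂ, ℝ) := ⟨⟨fun x => (ψ x).im, Complex.continuous_im.comp hψt.continuous⟩,
      hψt.2.comp_left (g := Complex.im) (by simp)⟩ with hf2
    have hf1c : ContDiff ℝ 1 f1 := Complex.reCLM.contDiff.comp hψt.1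
    have hf2c : ContDiff ℝ 1 f2 := Complex.imCLM.contDiff.comp hψt.1
    have e1 := hG1' f1 hf1c
    have e2 := hG2' f2 hf2c
    rw [h12 f1] at e1
    rw [h34 f2] at e2
    have hi1 : ∀ m : Measure ℂ, IsLocallyFiniteMeasure m → Integrable f1 m := fun m _ =>
      f1.continuous.integrable_of_hasCompactSupport f1.hasCompactSupport
    have hi2 : ∀ m : Measure ℂ, IsLocallyFiniteMeasure m → Integrable f2 m := fun m _ =>
      f2.continuous.integrable_of_hasCompactSupport f2.hasCompactSupport
    have hac1 : μ₁ ≪ μ₀ := Measure.absolutelyContinuous_of_le hle1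
    have hac2 : μ₂ ≪ μ₀ := Measure.absolutelyContinuous_of_le hle2
    have hac3 : μ₃ ≪ μ₀ := Measure.absolutelyContinuous_of_le hle3
    have hac4 : μ₄ ≪ μ₀ := Measure.absolutelyContinuous_of_le hle4
    have j1 : Integrable (fun x => a μ₁ x * f1 x) μ₀ :=
      (integrable_rnDeriv_smul_iff hac1).mpr (hi1 μ₁ hμ₁)
    have j2 : Integrable (fun x => a μ₂ x * f1 x) μ₀ :=
      (integrable_rnDeriv_smul_iff hac2).mpr (hi1 μ₂ hμ₂)
    have j3 : Integrable (fun x => a μ₃ x * f2 x) μ₀ :=
      (integrable_rnDeriv_smul_iff hac3).mpr (hi2 μ₃ hμ₃)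
    have j4 : Integrable (fun x => a μ₄ x * f2 x) μ₀ :=
      (integrable_rnDeriv_smul_iff hac4).mpr (hi2 μ₄ hμ₄)
    have k1 : ∫ x, a μ₁ x * f1 x ∂μ₀ = ∫ x, f1 x ∂μ₁ := integral_toReal_rnDeriv_mul hac1
    have k2 : ∫ x, a μ₂ x * f1 x ∂μ₀ = ∫ x, f1 x ∂μ₂ := integral_toReal_rnDeriv_mul hac2
    have k3 : ∫ x, a μ₃ x * f2 x ∂μ₀ = ∫ x, f2 x ∂μ₃ := integral_toReal_rnDeriv_mul hac3
    have k4 : ∫ x, a μ₄ x * f2 x ∂μ₀ = ∫ x, f2 x ∂μ₄ := integral_toReal_rnDeriv_mul hac4
    have hptw : ∀ x, (dens x).toReal • inner ℝ (ν x) (φ x) =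
        (a μ₁ x * f1 x - a μ₂ x * f1 x) + (a μ₃ x * f2 x - a μ₄ x * f2 x) := by
      intro x
      have h1 : (dens x).toReal = ‖g x‖ * (gaussDensity x)⁻¹ :=
        ENNReal.toReal_ofReal (mul_nonneg (norm_nonneg _) (inv_nonneg.mpr (gaussDensity_nonneg x)))
      have h2 : ‖g x‖ • inner ℝ (ν x) (φ x) = inner ℝ (g x) (φ x) := by
        rw [smul_eq_mul, ← real_inner_smul_left]
        congr 1
        simp only [hν]
        split_ifs with h
        · simp [h]
        · rw [Complex.real_smul, ← mul_assoc, mul_inv_cancel₀, one_mul]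
          exact_mod_cast norm_ne_zero_iff.mpr h
      have h3 : (dens x).toReal • inner ℝ (ν x) (φ x) = inner ℝ (g x) (ψ x) := by
        rw [h1, hψ]
        simp only
        rw [real_inner_smul_right, ← h2, smul_eq_mul, smul_eq_mul]
        ring
      rw [h3, Complex.inner]
      simp only [hf1, hf2, hg, Complex.mul_re, Complex.conj_re, Complex.conj_im,
        CompactlySupportedContinuousMap.coe_mk, ContinuousMap.coe_mk]
      ring
    rw [integral_withDensity_eq_integral_toReal_smul hdmeas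
      (Eventually.of_forall fun x => ENNReal.ofReal_lt_top)]
    simp only [hptw]
    have j12 : Integrable (fun x => a μ₁ x * f1 x - a μ₂ x * f1 x) μ₀ := j1.sub j2
    have j34 : Integrable (fun x => a μ₃ x * f2 x - a μ₄ x * f2 x) μ₀ := j3.sub j4
    rw [integral_add j12 j34, integral_sub j1 j2, integral_sub j3 j4,
      k1, k2, k3, k4, e1, e2, ← integral_add]
    · congr 1
      ext x
      rw [← divergence_add]
      · congr 1
        ext y
        have h1 : φ y = gaussDensity y • ψ y := by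
          rw [hψ]; simp only
          rw [smul_smul, mul_inv_cancel₀ (gaussDensity_pos y).ne', one_smul]
        rw [h1, ← smul_add]
        congr 1
        apply Complex.ext <;> simp [hf1, hf2]
      · exact (IsTestField.gauss (φ := fun y => f1 y • (1:ℂ))
          ⟨hf1c.smul contDiff_const, f1.hasCompactSupport.smul_right⟩).differentiable x
      · exact (IsTestField.gauss (φ := fun y => f2 y • Complex.I)
          ⟨hf2c.smul contDiff_const, f2.hasCompactSupport.smul_right⟩).differentiable x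
    · exact (IsTestField.gauss (φ := fun y => f1 y • (1:ℂ))
          ⟨hf1c.smul contDiff_const, f1.hasCompactSupport.smul_right⟩).integrable_divergence.integrableOn
    · exact (IsTestField.gauss (φ := fun y => f2 y • Complex.I)
          ⟨hf2c.smul contDiff_const, f2.hasCompactSupport.smul_right⟩).integrable_divergence.integrableOn

end Pool.Agent.H65.Gauss
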