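import Pool.Agent.H65.GaussBasic

/-! Translation estimates, constancy lemma. -/

namespace Pool.Agent.H65.Gauss

open MeasureTheory Set Filter Topology Metric
open scoped ENNReal

/-- The field `y ↦ g (y - t h) h`. -/
noncomputable def transField (g : ℂ → ℝ) (h : ℂ) (t : ℝ) : ℂ → ℂ := fun y => g (y - t • h) • h

lemma isTestField_transField {g : ℂ → ℝ} (hg : ContDiff ℝ 1 g) (hc : HasCompactSupport g)
    (h : ℂ) (t : ℝ) : IsTestField (transField g h t) := by
  constructor
  · exact (hg.comp (contDiff_id.sub contDiff_const)).smul contDiff_const
  · have : HasCompactSupport (fun y => g (y - t • h)) := by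
      have := hc.comp_homeomorph (Homeomorph.subRight (t • h))
      exact this
    exact this.smul_right

lemma divergence_transField {g : ℂ → ℝ} (hg : ContDiff ℝ 1 g) (h : ℂ) (t : ℝ) (x : ℂ) :
    divergence (transField g h t) x = fderiv ℝ g (x - t • h) h := by
  unfold transField
  have hd : Differentiable ℝ g := hg.differentiable (by norm_num)
  rw [divergence_smul_const (a := fun y => g (y - t • h)) h]
  · rw [fderiv_comp_sub]
  · exact (hd _).comp x (by fun_prop)

lemma integral_translate_sub_le {E : Set ℂ} {g : ℂ → ℝ} (hg : ContDiff ℝ 1 g)
    (hc : HasCompactSupport g) (h : ℂ) {M : ℝ}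
    (hM : ∀ t ∈ Icc (0:ℝ) 1, |∫ x in E, divergence (transField g h t) x| ≤ M) :
    |∫ x in E, (g (x - h) - g x)| ≤ M := by
  have hd : Differentiable ℝ g := hg.differentiable (by norm_num)
  have hcont : Continuous (fderiv ℝ g) := hg.continuous_fderiv (by norm_num)
  obtain ⟨C, hC⟩ := hcont.bounded_above_of_compact_support (hc.fderiv (𝕜 := ℝ))
  obtain ⟨R, hR⟩ : ∃ R, tsupport g ⊆ closedBall 0 R := by
    obtain ⟨R, hR⟩ := hc.isCompact.isBounded.subset_closedBall 0
    exact ⟨R, hR⟩
  have hint : ∀ t : ℝ, Integrable (fun x => g (x - t • h)) := by
    intro t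
    exact (hg.continuous.integrable_of_hasCompactSupport hc).comp_sub_right (t • h)
  set F : ℝ → ℝ := fun t => ∫ x in E, g (x - t • h) with hF
  have key : ∀ t₀ : ℝ, HasDerivAt F (- ∫ x in E, divergence (transField g h t₀) x) t₀ := by
    intro t₀
    set R' : ℝ := R + (|t₀| + 1) * ‖h‖ with hR'
    have hmain := hasDerivAt_integral_of_dominated_loc_of_deriv_le
      (μ := volume.restrict E) (F := fun (t : ℝ) (x : ℂ) => g (x - t • h))
      (F' := fun t x => - fderiv ℝ g (x - t • h) h) (x₀ := t₀) (s := ball t₀ 1)
      (bound := (closedBall (0:ℂ) R').indicator fun _ => C * ‖h‖)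
      (ball_mem_nhds t₀ one_pos)
      (Eventually.of_forall fun t => (hint t).aestronglyMeasurable.restrict)
      (hint t₀).integrableOn
      (by
        apply Continuous.aestronglyMeasurable
        exact ((hcont.comp (by fun_prop)).clm_apply continuous_const).neg)
      (by
        refine Eventually.of_forall fun x t ht => ?_
        by_cases hx : x ∈ closedBall (0:ℂ) R'
        · rw [indicator_of_mem hx, norm_neg]
          exact ((fderiv ℝ g (x - t • h)).le_opNorm h).trans
            (mul_le_mul_of_nonneg_right (hC _) (norm_nonneg h))
        · rw [indicator_of_notMem hx]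
          have hnot : x - t • h ∉ tsupport g := by
            intro hmem
            apply hx
            have h1 := hR hmem
            rw [mem_closedBall_zero_iff] at h1 ⊢
            have h2 : ‖x‖ ≤ ‖x - t • h‖ + ‖t • h‖ := by
              calc ‖x‖ = ‖(x - t • h) + t • h‖ := by simp
                _ ≤ _ := norm_add_le _ _
            have h3 : ‖t • h‖ ≤ (|t₀| + 1) * ‖h‖ := by
              rw [norm_smul, Real.norm_eq_abs]
              apply mul_le_mul_of_nonneg_right _ (norm_nonneg h)
              have : |t - t₀| < 1 := by simpa [Real.dist_eq] using ht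
              have h4 : |t| ≤ |t - t₀| + |t₀| := by
                calc |t| = |(t - t₀) + t₀| := by simp
                  _ ≤ _ := abs_add_le _ _
              linarith
            linarith
          have h0 : g =ᶠ[𝓝 (x - t • h)] (fun _ => 0) :=
            notMem_tsupport_iff_eventuallyEq.mp hnot
          rw [h0.fderiv_eq]; simp)
      (by
        apply Integrable.integrableOn
        rw [integrable_indicator_iff measurableSet_closedBall]
        exact integrableOn_const (measure_closedBall_lt_top.ne))
      (by
        refine Eventually.of_forall fun x t _ => ?_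
        have h1 : HasDerivAt (fun t : ℝ => x - t • h) (-h) t := by
          have := ((hasDerivAt_id t).smul_const h).const_sub x
          simpa using this
        have h2 := (hd (x - t • h)).hasFDerivAt.comp_hasDerivAt t h1
        rw [map_neg] at h2
        exact h2)
    have h2 := hmain.2
    rw [integral_neg] at h2
    refine h2.congr_deriv ?_
    congr 1
    apply integral_congr_ae
    exact Eventually.of_forall fun x => (divergence_transField hg h t₀ x).symm
  have hmv := norm_image_sub_le_of_norm_deriv_le_segment_01' (f := F)
    (f' := fun t => - ∫ x in E, divergence (transField g h t) x) (C := M)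
    (fun t _ => (key t).hasDerivWithinAt)
    (fun t ht => by
      rw [norm_neg, Real.norm_eq_abs]
      exact hM t ⟨ht.1, ht.2.le⟩)
  have hsub : ∫ x in E, (g (x - h) - g x) = F 1 - F 0 := by
    simp only [hF, one_smul, zero_smul, sub_zero]
    rw [integral_sub]
    · have := hint 1; simp only [one_smul] at this; exact this.integrableOn
    · have := hint 0; simp only [zero_smul, sub_zero] at this; exact this.integrableOn
  rw [hsub]
  exact hmv

end Pool.Agent.H65.Gauss
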