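import Pool.Agent.H65.GaussDefs

/-! Local geometry of straight networks. -/

namespace Pool.Agent.H65.Gauss

open MeasureTheory Set Filter Topology Metric

/-- real scalar product -/
def dot (z w : ℂ) : ℝ := z.re * w.re + z.im * w.im

/-- cross product -/
def crs (z w : ℂ) : ℝ := z.re * w.im - z.im * w.re

lemma dot_eq_inner (z w : ℂ) : dot z w = inner ℝ z w := by
  rw [Complex.inner]; simp [dot]; ring

lemma norm_one_iff {u : ℂ} : ‖u‖ = 1 ↔ u.re ^ 2 + u.im ^ 2 = 1 := by
  have h : ‖u‖ ^ 2 = u.re ^ 2 + u.im ^ 2 := by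
    rw [Complex.sq_norm, Complex.normSq_apply]; ring
  constructor
  · intro h1; rw [h1] at h; linarith
  · intro h1
    rw [h1] at h
    have := norm_nonneg u
    nlinarith

lemma continuous_dot_left (w : ℂ) : Continuous (fun z => dot z w) := by
  unfold dot; fun_prop

lemma continuous_crs_right (z : ℂ) : Continuous (fun w => crs z w) := by
  unfold crs; fun_prop

lemma continuous_dot_right (z : ℂ) : Continuous (fun w => dot z w) := by
  unfold dot; fun_prop

/-- decomposition in the frame `u, iu` -/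
lemma frame {u : ℂ} (hu : ‖u‖ = 1) (q : ℂ) :
    q = (dot u q : ℂ) * u + (crs u q : ℂ) * (Complex.I * u) := by
  have h := norm_one_iff.mp hu
  apply Complex.ext
  · simp [dot, crs]
    linear_combination (-q.re) * h
  · simp [dot, crs]
    linear_combination (-q.im) * h

lemma rot120_eq : rot120 = ⟨-1/2, Real.sqrt 3 / 2⟩ := by
  unfold rot120
  have h1 : (2 * (Real.pi : ℂ) / 3 * Complex.I) = ((2 * Real.pi / 3 : ℝ) : ℂ) * Complex.I := by
    push_cast; ring
  have h2 : 2 * Real.pi / 3 = Real.pi - Real.pi / 3 := by ring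
  apply Complex.ext
  · rw [h1, Complex.exp_ofReal_mul_I_re, h2, Real.cos_pi_sub, Real.cos_pi_div_three]; norm_num
  · rw [h1, Complex.exp_ofReal_mul_I_im, h2, Real.sin_pi_sub, Real.sin_pi_div_three]

lemma rot120_sq : rot120 ^ 2 = ⟨-1/2, -(Real.sqrt 3 / 2)⟩ := by
  have h3 : Real.sqrt 3 * Real.sqrt 3 = 3 := Real.mul_self_sqrt (by norm_num)
  rw [rot120_eq, sq]
  apply Complex.ext
  · simp; nlinarith
  · simp; ring

lemma rot120_cube : rot120 ^ 3 = 1 := by
  have h3 : Real.sqrt 3 * Real.sqrt 3 = 3 := Real.mul_self_sqrt (by norm_num)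
  rw [pow_succ, rot120_sq, rot120_eq]
  apply Complex.ext
  · simp; nlinarith
  · simp; ring

lemma norm_rot120 : ‖rot120‖ = 1 := by
  rw [norm_one_iff, rot120_eq]
  have h3 : Real.sqrt 3 * Real.sqrt 3 = 3 := Real.mul_self_sqrt (by norm_num)
  simp only
  nlinarith

lemma norm_rot120_mul {u : ℂ} (hu : ‖u‖ = 1) : ‖rot120 * u‖ = 1 := by
  rw [norm_mul, norm_rot120, hu, one_mul]

lemma triple_rot (u : ℂ) :
    ({rot120 * u, rot120 * (rot120 * u), rot120 ^ 2 * (rot120 * u)} : Set ℂ) =
      {u, rot120 * u, rot120 ^ 2 * u} := by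
  have h1 : rot120 * (rot120 * u) = rot120 ^ 2 * u := by ring
  have h2 : rot120 ^ 2 * (rot120 * u) = u := by
    have : rot120 ^ 2 * (rot120 * u) = rot120 ^ 3 * u := by ring
    rw [this, rot120_cube, one_mul]
  rw [h1, h2]
  ext x
  simp only [mem_insert_iff, mem_singleton_iff]
  tauto

/-- coordinates of the three directions -/
lemma dot_rot1 {u : ℂ} (hu : ‖u‖ = 1) : dot u (rot120 * u) = -1/2 := by
  have h := norm_one_iff.mp hu
  rw [rot120_eq]
  simp [dot]
  linear_combination (-1/2) * h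

lemma crs_rot1 {u : ℂ} (hu : ‖u‖ = 1) : crs u (rot120 * u) = Real.sqrt 3 / 2 := by
  have h := norm_one_iff.mp hu
  rw [rot120_eq]
  simp [crs]
  linear_combination (Real.sqrt 3 / 2) * h

lemma dot_rot2 {u : ℂ} (hu : ‖u‖ = 1) : dot u (rot120 ^ 2 * u) = -1/2 := by
  have h := norm_one_iff.mp hu
  rw [rot120_sq]
  simp [dot]
  linear_combination (-1/2) * h

lemma crs_rot2 {u : ℂ} (hu : ‖u‖ = 1) : crs u (rot120 ^ 2 * u) = -(Real.sqrt 3 / 2) := by
  have h := norm_one_iff.mp hu
  rw [rot120_sq]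
  simp [crs]
  linear_combination (-(Real.sqrt 3 / 2)) * h

lemma dot_self_one {u : ℂ} (hu : ‖u‖ = 1) : dot u u = 1 := by
  have h := norm_one_iff.mp hu
  simp [dot]; linear_combination h

lemma crs_self (u : ℂ) : crs u u = 0 := by simp [crs]; ring

lemma dot_add_right (u p q : ℂ) : dot u (p + q) = dot u p + dot u q := by simp [dot]; ring
lemma dot_sub_right (u p q : ℂ) : dot u (p - q) = dot u p - dot u q := by simp [dot]; ring
lemma crs_add_right (u p q : ℂ) : crs u (p + q) = crs u p + crs u q := by simp [crs]; ring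
lemma crs_sub_right (u p q : ℂ) : crs u (p - q) = crs u p - crs u q := by simp [crs]; ring
lemma dot_smul_right (u : ℂ) (t : ℝ) (q : ℂ) : dot u (t * q) = t * dot u q := by simp [dot]; ring
lemma crs_smul_right (u : ℂ) (t : ℝ) (q : ℂ) : crs u (t * q) = t * crs u q := by simp [crs]; ring
lemma dot_neg_right (u q : ℂ) : dot u (-q) = - dot u q := by simp [dot]; ring
lemma crs_neg_right (u q : ℂ) : crs u (-q) = - crs u q := by simp [crs]; ring

lemma eq_of_coords {u : ℂ} (hu : ‖u‖ = 1) {p q : ℂ} (h1 : dot u p = dot u q)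
    (h2 : crs u p = crs u q) : p = q := by
  rw [frame hu p, frame hu q, h1, h2]

/-- membership in the tripod, in coordinates -/
lemma mem_tripod_iff {u : ℂ} (hu : ‖u‖ = 1) {x y : ℂ} {r : ℝ} (hy : y ∈ ball x r) :
    (∃ d ∈ ({u, rot120 * u, rot120 ^ 2 * u} : Set ℂ), ∃ t : ℝ, 0 ≤ t ∧ t < r ∧ y = x + t * d) ↔
      (crs u (y - x) = 0 ∧ 0 ≤ dot u (y - x)) ∨
      (Real.sqrt 3 * dot u (y - x) + crs u (y - x) = 0 ∧ 0 ≤ crs u (y - x)) ∨
      (Real.sqrt 3 * dot u (y - x) - crs u (y - x) = 0 ∧ crs u (y - x) ≤ 0) := by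
  have h3 : Real.sqrt 3 * Real.sqrt 3 = 3 := Real.mul_self_sqrt (by norm_num)
  have h3p : 0 < Real.sqrt 3 := Real.sqrt_pos.mpr (by norm_num)
  constructor
  · rintro ⟨d, hd, t, ht0, htr, rfl⟩
    rw [add_sub_cancel_left]
    rw [dot_smul_right, crs_smul_right]
    rcases hd with rfl | rfl | rfl
    · left
      rw [dot_self_one hu, crs_self]
      constructor <;> linarith
    · right; left
      rw [dot_rot1 hu, crs_rot1 hu]
      constructor
      · ring
      · positivity
    · right; right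
      rw [dot_rot2 hu, crs_rot2 hu]
      constructor
      · ring
      · have : 0 ≤ t * (Real.sqrt 3 / 2) := by positivity
        linarith
  · intro h
    have hnorm : ‖y - x‖ < r := by rwa [mem_ball, dist_eq_norm] at hy
    rcases h with ⟨h1, h2⟩ | ⟨h1, h2⟩ | ⟨h1, h2⟩
    · refine ⟨u, by simp, dot u (y - x), h2, ?_, ?_⟩
      · have : y - x = (dot u (y - x) : ℂ) * u := by
          conv_lhs => rw [frame hu (y - x), h1]
          simp
        rw [this, norm_mul, hu, mul_one, Complex.norm_real, Real.norm_of_nonneg h2] at hnorm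
        exact hnorm
      · apply sub_eq_iff_eq_add'.mp
        conv_lhs => rw [frame hu (y - x), h1]
        simp
    · have e : y - x = ((2 * crs u (y - x) / Real.sqrt 3 : ℝ) : ℂ) * (rot120 * u) := by
        apply eq_of_coords hu
        · rw [dot_smul_right, dot_rot1 hu]
          field_simp
          nlinarith
        · rw [crs_smul_right, crs_rot1 hu]
          field_simp
      have ht : 0 ≤ 2 * crs u (y - x) / Real.sqrt 3 := by positivity
      refine ⟨rot120 * u, by simp, 2 * crs u (y - x) / Real.sqrt 3, ht, ?_, ?_⟩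
      · rw [e, norm_mul, norm_rot120_mul hu, mul_one, Complex.norm_real,
          Real.norm_of_nonneg ht] at hnorm
        exact hnorm
      · exact sub_eq_iff_eq_add'.mp e
    · have e : y - x = ((-2 * crs u (y - x) / Real.sqrt 3 : ℝ) : ℂ) * (rot120 ^ 2 * u) := by
        apply eq_of_coords hu
        · rw [dot_smul_right, dot_rot2 hu]
          field_simp
          nlinarith
        · rw [crs_smul_right, crs_rot2 hu]
          field_simp
      have ht : 0 ≤ -2 * crs u (y - x) / Real.sqrt 3 := by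
        apply div_nonneg _ h3p.le
        linarith
      have hn2 : ‖rot120 ^ 2 * u‖ = 1 := by rw [norm_mul, norm_pow, norm_rot120, hu]; norm_num
      refine ⟨rot120 ^ 2 * u, by simp, -2 * crs u (y - x) / Real.sqrt 3, ht, ?_, ?_⟩
      · rw [e, norm_mul, hn2, mul_one, Complex.norm_real,
          Real.norm_of_nonneg ht] at hnorm
        exact hnorm
      · exact sub_eq_iff_eq_add'.mp e

/-- membership in a diameter, in coordinates -/
lemma mem_diam_iff {u : ℂ} (hu : ‖u‖ = 1) {x y : ℂ} {r : ℝ} (hy : y ∈ ball x r) :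
    (∃ d ∈ ({u, -u} : Set ℂ), ∃ t : ℝ, 0 ≤ t ∧ t < r ∧ y = x + t * d) ↔ crs u (y - x) = 0 := by
  constructor
  · rintro ⟨d, hd, t, ht0, htr, rfl⟩
    rw [add_sub_cancel_left, crs_smul_right]
    rcases hd with rfl | rfl
    · rw [crs_self]; ring
    · rw [crs_neg_right, crs_self]; ring
  · intro h
    have hnorm : ‖y - x‖ < r := by rwa [mem_ball, dist_eq_norm] at hy
    have e : y - x = (dot u (y - x) : ℂ) * u := by
      conv_lhs => rw [frame hu (y - x), h]
      simp
    rw [e, norm_mul, hu, mul_one, Complex.norm_real, Real.norm_eq_abs] at hnorm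
    rcases le_total 0 (dot u (y - x)) with h0 | h0
    · refine ⟨u, by simp, dot u (y - x), h0, ?_, sub_eq_iff_eq_add'.mp e⟩
      rwa [abs_of_nonneg h0] at hnorm
    · refine ⟨-u, by simp, -dot u (y - x), by linarith, ?_, ?_⟩
      · rwa [abs_of_nonpos h0] at hnorm
      · apply sub_eq_iff_eq_add'.mp
        rw [e]
        rw [← e]
        push_cast
        linear_combination e

/-- the three open sectors -/
def sec0 (u q : ℂ) : Prop := 0 < crs u q ∧ 0 < Real.sqrt 3 * dot u q + crs u q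
def sec1 (u q : ℂ) : Prop := Real.sqrt 3 * dot u q + crs u q < 0 ∧ Real.sqrt 3 * dot u q - crs u q < 0
def sec2 (u q : ℂ) : Prop := crs u q < 0 ∧ 0 < Real.sqrt 3 * dot u q - crs u q

lemma sec_cases {u q : ℂ} (h0 : ¬ (crs u q = 0 ∧ 0 ≤ dot u q))
    (h1 : ¬ (Real.sqrt 3 * dot u q + crs u q = 0 ∧ 0 ≤ crs u q))
    (h2 : ¬ (Real.sqrt 3 * dot u q - crs u q = 0 ∧ crs u q ≤ 0)) :
    sec0 u q ∨ sec1 u q ∨ sec2 u q := by
  have h3p : 0 < Real.sqrt 3 := Real.sqrt_pos.mpr (by norm_num)
  unfold sec0 sec1 sec2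
  rcases lt_trichotomy (crs u q) 0 with hb | hb | hb
  · -- crs < 0
    rcases lt_trichotomy (Real.sqrt 3 * dot u q - crs u q) 0 with hc | hc | hc
    · right; left; exact ⟨by linarith, hc⟩
    · exact absurd ⟨hc, hb.le⟩ h2
    · right; right; exact ⟨hb, hc⟩
  · -- crs = 0
    have : dot u q < 0 := by
      by_contra hne
      exact h0 ⟨hb, not_lt.mp hne⟩
    right; left
    rw [hb]
    constructor <;> nlinarith
  · rcases lt_trichotomy (Real.sqrt 3 * dot u q + crs u q) 0 with hc | hc | hc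
    · right; left; exact ⟨hc, by linarith⟩
    · exact absurd ⟨hc, hb.le⟩ h1
    · left; exact ⟨hb, hc⟩

lemma sec_not_ray {u q : ℂ} (h : sec0 u q ∨ sec1 u q ∨ sec2 u q) :
    ¬ ((crs u q = 0 ∧ 0 ≤ dot u q) ∨ (Real.sqrt 3 * dot u q + crs u q = 0 ∧ 0 ≤ crs u q) ∨
      (Real.sqrt 3 * dot u q - crs u q = 0 ∧ crs u q ≤ 0)) := by
  have h3p : 0 < Real.sqrt 3 := Real.sqrt_pos.mpr (by norm_num)
  unfold sec0 sec1 sec2 at h
  rintro (⟨h1, h2⟩ | ⟨h1, h2⟩ | ⟨h1, h2⟩) <;> rcases h with ⟨h3, h4⟩ | ⟨h3, h4⟩ | ⟨h3, h4⟩ <;>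
    first
      | linarith
      | (rw [h1] at h3 h4; nlinarith)
      | nlinarith

end Pool.Agent.H65.Gauss
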