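import Pool.Agent.H65.NetLength

/-! Lower bound for the perimeter of a partition whose interface enters a disc. -/

namespace Pool.Agent.H65.Gauss

open MeasureTheory Set Filter Topology Metric
open scoped ENNReal

variable {n : ℕ} {E : Fin n → Set ℂ} {S : Set ℂ}

lemma isTestField_zero : IsTestField (fun _ => 0) := ⟨contDiff_const, HasCompactSupport.zero⟩

lemma IsTestField.sum {ι : Type*} (s : Finset ι) {φ : ι → ℂ → ℂ}
    (h : ∀ b ∈ s, IsTestField (φ b)) : IsTestField (fun z => ∑ b ∈ s, φ b z) := by
  classical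
  induction s using Finset.induction_on with
  | empty => simpa using isTestField_zero
  | insert a s ha ih =>
    simp only [Finset.sum_insert ha]
    exact (h a (Finset.mem_insert_self a s)).add
      (ih fun b hb => h b (Finset.mem_insert_of_mem hb))

lemma integral_divergence_sum {ι : Type*} (s : Finset ι) {φ : ι → ℂ → ℂ} (A : Set ℂ)
    (h : ∀ b ∈ s, IsTestField (φ b)) :
    ∫ x in A, divergence (fun z => ∑ b ∈ s, φ b z) x = ∑ b ∈ s, ∫ x in A, divergence (φ b) x := by
  classical
  induction s using Finset.induction_on with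
  | empty => simp [divergence_zero]
  | insert a s ha ih =>
    have h1 := h a (Finset.mem_insert_self a s)
    have h2 : IsTestField (fun z => ∑ b ∈ s, φ b z) :=
      IsTestField.sum s fun b hb => h b (Finset.mem_insert_of_mem hb)
    have e : (fun z => ∑ b ∈ insert a s, φ b z) = fun z => φ a z + ∑ b ∈ s, φ b z := by
      ext z; rw [Finset.sum_insert ha]
    rw [e, Finset.sum_insert ha, ← ih fun b hb => h b (Finset.mem_insert_of_mem hb)]
    rw [← integral_add h1.integrable_divergence.integrableOn
      h2.integrable_divergence.integrableOn]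
    congr 1
    ext x
    exact divergence_add (h1.differentiable x) (h2.differentiable x)

lemma ofReal_sum_le_sum {ι : Type*} (s : Finset ι) (f : ι → ℝ) :
    ENNReal.ofReal (∑ i ∈ s, f i) ≤ ∑ i ∈ s, ENNReal.ofReal (f i) := by
  classical
  induction s using Finset.induction_on with
  | empty => simp
  | insert a s ha ih =>
    rw [Finset.sum_insert ha, Finset.sum_insert ha]
    exact ENNReal.ofReal_add_le.trans (add_le_add le_rfl ih)

lemma le_gaussPerimeter {A : Set ℂ} {φ : ℂ → ℂ} (h : IsTestField φ) (h1 : ∀ x, ‖φ x‖ ≤ 1) :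
    ENNReal.ofReal (∫ x in A, divergence (fun y => gaussDensity y • φ y) x) ≤ gaussPerimeter A := by
  unfold gaussPerimeter
  exact le_iSup₂_of_le φ ⟨h, h1⟩ le_rfl

lemma sum_perimeter_ge {ι : Type*} (u : Finset ι) (φ : ι → ℂ → ℂ) (idx : ι → Fin n)
    (E : Fin n → Set ℂ)
    (ht : ∀ b ∈ u, IsTestField (φ b)) (hle : ∀ b ∈ u, ∀ x, ‖φ b x‖ ≤ 1)
    (hd : ∀ b ∈ u, ∀ b' ∈ u, b ≠ b' → ∀ x, φ b x = 0 ∨ φ b' x = 0) :
    ENNReal.ofReal (∑ b ∈ u, ∫ x in E (idx b), divergence (fun z => gaussDensity z • φ b z) x) ≤
      ∑ i, gaussPerimeter (E i) := by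
  classical
  rw [← Finset.sum_fiberwise u idx]
  refine (ofReal_sum_le_sum _ _).trans (Finset.sum_le_sum fun i _ => ?_)
  set s := u.filter (fun b => idx b = i) with hs
  have hsu : ∀ b ∈ s, b ∈ u := fun b hb => (Finset.mem_filter.mp hb).1
  have hΦ : IsTestField (fun z => ∑ b ∈ s, φ b z) :=
    IsTestField.sum s fun b hb => ht b (hsu b hb)
  have hn : ∀ z, ‖∑ b ∈ s, φ b z‖ ≤ 1 := by
    intro z
    by_cases h0 : ∃ b ∈ s, φ b z ≠ 0
    · obtain ⟨b, hb, hbz⟩ := h0
      rw [Finset.sum_eq_single_of_mem b hb]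
      · exact hle b (hsu b hb) z
      · intro b' hb' hne
        exact (hd b' (hsu b' hb') b (hsu b hb) hne z).resolve_right hbz
    · push Not at h0
      rw [Finset.sum_eq_zero h0]; simp
  have h1 := le_gaussPerimeter (A := E i) hΦ hn
  refine le_trans (le_of_eq ?_) h1
  congr 1
  have e : (fun y => gaussDensity y • ∑ b ∈ s, φ b y) =
      fun y => ∑ b ∈ s, gaussDensity y • φ b y := by
    ext y; rw [Finset.smul_sum]
  rw [e, integral_divergence_sum s (E i) (φ := fun b y => gaussDensity y • φ b y)
    (fun b hb => (ht b (hsu b hb)).gauss)]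
  apply Finset.sum_congr rfl
  intro b hb
  rw [(Finset.mem_filter.mp hb).2]

namespace NetPart

variable (hN : NetPart E S)
include hN

lemma local_contribution {y u : ℂ} {r : ℝ} (h : LineAt S y u r) (hyS : y ∈ S) {m : ℝ}
    (hm : 0 ≤ m) (hγ : ∀ x ∈ ball y r, m ≤ gaussDensity x) :
    ∃ (i : Fin n) (φ : ℂ → ℂ), IsTestField φ ∧ (∀ x, ‖φ x‖ ≤ 1) ∧ (∀ x, x ∉ ball y r → φ x = 0) ∧
      r / 2 * m ≤ ∫ x in E i, divergence (fun z => gaussDensity z • φ z) x := by
  have hr := h.pos
  have hu := h.norm
  obtain ⟨i, hi⟩ := hN.line_color h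
  obtain ⟨j, hj⟩ := hN.line_color h.neg
  have hij : i ≠ j := hN.line_sides hyS h hi
    (fun z hz hz2 => hj z hz (by rw [crs_neg_left]; linarith))
  set χ := radCut y (r / 4) (r / 2) with hχ
  have hχs : HasCompactSupport χ := hasCompactSupport_radCut (by positivity) (by linarith)
  have hχc : ContDiff ℝ 1 χ := contDiff_radCut _ _ _
  set φ : ℂ → ℂ := fun z => χ z • (-(Complex.I * u)) with hφ
  have hφt : IsTestField φ := ⟨hχc.smul contDiff_const, hχs.smul_right⟩
  have hχ0 : ∀ x, x ∉ ball y r → χ x = 0 := by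
    intro x hx
    apply radCut_eq_zero (by positivity) (by linarith)
    rw [mem_ball, dist_eq_norm, not_lt] at hx
    linarith
  refine ⟨i, φ, hφt, ?_, ?_, ?_⟩
  · intro x
    rw [hφ]
    simp only [norm_smul, norm_neg, norm_mul_I hu, mul_one]
    rw [Real.norm_of_nonneg (radCut_nonneg _ _ _ _)]
    exact radCut_le_one _ _ _ _
  · intro x hx
    rw [hφ]
    simp only [hχ0 x hx, zero_smul]
  · set g : ℂ → ℝ := fun z => gaussDensity z * χ z with hg
    have hgc : ContDiff ℝ 1 g := (contDiff_gaussDensity (n := 1)).mul hχc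
    have hgs : HasCompactSupport g := hχs.mul_left
    have efun : (fun z => gaussDensity z • φ z) = fun z => g z • (-(Complex.I * u)) := by
      ext z
      rw [hφ, hg]
      simp only [smul_smul]
    rw [efun]
    set f : ℂ → ℝ := fun x => divergence (fun z => g z • (-(Complex.I * u))) x with hf
    have hf0 : ∀ x, x ∉ closedBall y (r / 2) → f x = 0 := by
      intro x hx
      have hx' : ∀ᶠ z in 𝓝 x, g z • (-(Complex.I * u)) = (fun _ => (0:ℂ)) z := by
        have ho : IsOpen (closedBall y (r / 2))ᶜ := isClosed_closedBall.isOpen_compl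
        filter_upwards [ho.mem_nhds hx] with z hz
        have : χ z = 0 := by
          apply radCut_eq_zero (by positivity) (by linarith)
          rw [mem_compl_iff, mem_closedBall, dist_eq_norm, not_le] at hz
          exact hz.le
        rw [hg]
        simp only [this, mul_zero, zero_smul]
      rw [hf]
      simp only
      rw [divergence_eventuallyEq hx', divergence_zero]
    have hcb : closedBall y (r / 2) ⊆ ball y r := closedBall_subset_ball (by linarith)
    -- from `E i` to the half plane
    have hcol : color E S i ∩ closedBall y (r / 2) =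
        {x | 0 < crs u (x - y)} ∩ closedBall y (r / 2) := by
      ext x
      constructor
      · rintro ⟨h1, h2⟩
        refine ⟨?_, h2⟩
        have hxS : x ∉ S := color_subset_compl i h1
        rw [h.mem x (hcb h2)] at hxS
        rcases lt_or_gt_of_ne hxS with h3 | h3
        · exfalso
          have h4 := hj x (hcb h2) (by rw [crs_neg_left]; linarith)
          exact Set.disjoint_left.mp (hN.color_disjoint hij) h1 h4
        · exact h3
      · rintro ⟨h1, h2⟩
        exact ⟨hi x (hcb h2) h1, h2⟩
    have hopen : IsOpen {x | 0 < crs u (x - y)} :=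
      isOpen_lt continuous_const ((continuous_crs_right u).comp (continuous_id.sub continuous_const))
    have e1 : ∫ x in E i, f x = ∫ x in color E S i, f x :=
      setIntegral_congr_set (hN.color_ae i).symm
    have e2 : ∫ x in color E S i, f x = ∫ x in color E S i ∩ closedBall y (r / 2), f x :=
      setIntegral_eq_of_subset_of_forall_sdiff_eq_zero (isOpen_color i).measurableSet
        inter_subset_left (fun x hx => hf0 x fun h5 => hx.2 ⟨hx.1, h5⟩)
    have e3 : ∫ x in {x | 0 < crs u (x - y)}, f x =
        ∫ x in {x | 0 < crs u (x - y)} ∩ closedBall y (r / 2), f x :=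
      setIntegral_eq_of_subset_of_forall_sdiff_eq_zero hopen.measurableSet
        inter_subset_left (fun x hx => hf0 x fun h5 => hx.2 ⟨hx.1, h5⟩)
    rw [e1, e2, hcol, ← e3, hf]
    simp only
    rw [flux_halfplane hu y hgc hgs]
    -- lower bound of the line integral
    have hgcont : Continuous (fun a : ℝ => g (y + a * u)) := hgc.continuous.comp (by fun_prop)
    have hg0 : ∀ z, 0 ≤ g z := fun z => mul_nonneg (gaussDensity_nonneg z) (radCut_nonneg _ _ _ _)
    have hgcs : HasCompactSupport (fun a : ℝ => g (y + a * u)) := by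
      apply HasCompactSupport.of_support_subset_isCompact (isCompact_Icc (a := -r) (b := r))
      intro a ha
      rw [mem_Icc, ← abs_le]
      by_contra hcon
      push Not at hcon
      apply ha
      have : χ (y + a * u) = 0 := by
        apply hχ0
        rw [mem_ball, dist_eq_norm, add_sub_cancel_left, norm_mul, hu, mul_one, Complex.norm_real,
          not_lt]
        exact hcon.le
      rw [hg]
      simp only [this, mul_zero]
    have hgint : Integrable (fun a : ℝ => g (y + a * u)) :=
      hgcont.integrable_of_hasCompactSupport hgcs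
    calc r / 2 * m = ∫ a in Icc (-(r / 4)) (r / 4), m := by
          rw [setIntegral_const, smul_eq_mul]
          rw [Real.volume_real_Icc_of_le (by linarith)]
          ring
      _ ≤ ∫ a in Icc (-(r / 4)) (r / 4), g (y + a * u) := by
          apply setIntegral_mono_on
          · exact integrableOn_const (by simp)
          · exact hgint.integrableOn
          · exact measurableSet_Icc
          · intro a ha
            have ha' : |a| ≤ r / 4 := abs_le.mpr ha
            have h1 : χ (y + a * u) = 1 := by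
              apply radCut_eq_one (by positivity) (by linarith)
              rw [add_sub_cancel_left, norm_mul, hu, mul_one, Complex.norm_real]
              exact ha'
            rw [hg]
            simp only [h1, mul_one]
            apply hγ
            apply add_smul_mem_ball hu
            linarith
      _ ≤ ∫ a : ℝ, g (y + a * u) :=
          setIntegral_le_integral hgint (Eventually.of_forall fun a => hg0 _)

theorem length_bound {p : ℂ} (hp : p ∈ S) {m : ℝ} (hm : 0 ≤ m)
    (hγ : ∀ x ∈ closedBall p (1 / 2), m ≤ gaussDensity x) :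
    ENNReal.ofReal (m / 240) ≤ ∑ i, gaussPerimeter (E i) := by
  classical
  have key : ∀ s : ℝ, s ∈ Icc (0:ℝ) (1 / 4) → ∃ y u r, LineAt S y u r ∧ y ∈ S ∧ r ≤ 1 / 12 ∧
      |‖y - p‖ - s| ≤ 2 * r := fun s hs => hN.exists_lineAt hp hs.1 (by norm_num)
  choose! y u r hL hyS hr1 hyd using key
  obtain ⟨t, htsub, hcov⟩ := (isCompact_Icc (a := (0:ℝ)) (b := 1 / 4)).elim_nhds_subcover
    (fun s => ball s (r s)) (fun s hs => ball_mem_nhds s (hL s hs).pos)
  obtain ⟨w, hwt, hwd, hwc⟩ := Vitali.exists_disjoint_subfamily_covering_enlargement_closedBall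
    (t : Set ℝ) (fun s => s) (fun s => 3 * r s) (1 / 4) (fun s hs => by
      have := hr1 s (htsub s hs); linarith) 5 (by norm_num)
  have hwfin : w.Finite := t.finite_toSet.subset hwt
  set w' := hwfin.toFinset with hw'
  have hmem : ∀ b ∈ w', b ∈ Icc (0:ℝ) (1 / 4) := by
    intro b hb
    exact htsub b (hwt (hwfin.mem_toFinset.mp hb))
  -- sum of the radii
  have hsum : 1 / 120 ≤ ∑ b ∈ w', r b := by
    have h1 : Icc (0:ℝ) (1 / 4) ⊆ ⋃ b ∈ w', closedBall b (15 * r b) := by
      intro s hs
      obtain ⟨a, ha⟩ := mem_iUnion.mp (hcov hs)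
      obtain ⟨hat, hsa⟩ := mem_iUnion.mp ha
      obtain ⟨b, hb, hsub⟩ := hwc a hat
      simp only [mem_iUnion]
      refine ⟨b, hwfin.mem_toFinset.mpr hb, ?_⟩
      have hra := (hL a (htsub a hat)).pos
      have h2 : s ∈ closedBall a (3 * r a) := by
        rw [mem_ball] at hsa
        rw [mem_closedBall]; linarith
      have h3 := hsub h2
      rw [mem_closedBall] at h3 ⊢
      linarith
    have h2 : volume (Icc (0:ℝ) (1 / 4)) ≤ ∑ b ∈ w', volume (closedBall b (15 * r b)) :=
      (measure_mono h1).trans (measure_biUnion_finset_le _ _)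
    simp only [Real.volume_Icc, Real.volume_closedBall] at h2
    rw [← ENNReal.ofReal_sum_of_nonneg (fun b hb => by
      have := (hL b (hmem b hb)).pos; positivity)] at h2
    have h3 : (1 / 4 - 0 : ℝ) ≤ ∑ b ∈ w', 2 * (15 * r b) := by
      apply (ENNReal.ofReal_le_ofReal_iff (Finset.sum_nonneg fun b hb => by
        have := (hL b (hmem b hb)).pos; positivity)).mp h2
    have h4 : ∑ b ∈ w', 2 * (15 * r b) = 30 * ∑ b ∈ w', r b := by
      rw [Finset.mul_sum]; apply Finset.sum_congr rfl; intro b _; ring
    rw [h4] at h3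
    linarith
  -- the balls lie in the big ball
  have hball : ∀ b ∈ w', ball (y b) (r b) ⊆ closedBall p (1 / 2) := by
    intro b hb x hx
    have hb' := hmem b hb
    have h1 := hyd b hb'
    have h2 := hr1 b hb'
    have h3 := abs_le.mp h1
    rw [mem_ball, dist_eq_norm] at hx
    rw [mem_closedBall, dist_eq_norm]
    calc ‖x - p‖ = ‖(x - y b) + (y b - p)‖ := by congr 1; ring
      _ ≤ ‖x - y b‖ + ‖y b - p‖ := norm_add_le _ _
      _ ≤ 1 / 2 := by linarith [h3.2, hb'.2]
  have hloc : ∀ b ∈ w', ∃ (i : Fin n) (φ : ℂ → ℂ), IsTestField φ ∧ (∀ x, ‖φ x‖ ≤ 1) ∧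
      (∀ x, x ∉ ball (y b) (r b) → φ x = 0) ∧
      r b / 2 * m ≤ ∫ x in E i, divergence (fun z => gaussDensity z • φ z) x := fun b hb =>
    hN.local_contribution (hL b (hmem b hb)) (hyS b (hmem b hb)) hm
      (fun x hx => hγ x (hball b hb hx))
  by_cases hne : w'.Nonempty
  swap
  · rw [Finset.not_nonempty_iff_eq_empty] at hne
    rw [hne] at hsum
    simp at hsum
    linarith
  obtain ⟨b0, hb0⟩ := hne
  obtain ⟨i0, _⟩ := hloc b0 hb0
  haveI : Nonempty (Fin n) := ⟨i0⟩
  choose! idx φ h1 h2 h3 h4 using hloc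
  have h5 := sum_perimeter_ge w' φ idx E h1 h2 (by
    intro b hb b' hb' hne x
    by_contra hcon
    push Not at hcon
    have hx1 : x ∈ ball (y b) (r b) := by
      by_contra h; exact hcon.1 (h3 b hb x h)
    have hx2 : x ∈ ball (y b') (r b') := by
      by_contra h; exact hcon.2 (h3 b' hb' x h)
    have hdis := hwd (hwfin.mem_toFinset.mp hb) (hwfin.mem_toFinset.mp hb') hne
    have gen : ∀ c ∈ w', x ∈ ball (y c) (r c) → ‖x - p‖ ∈ closedBall c (3 * r c) := by
      intro c hc hxc
      have h6 := hyd c (hmem c hc)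
      rw [mem_ball, dist_eq_norm] at hxc
      rw [mem_closedBall, Real.dist_eq]
      have h7 := abs_norm_sub_norm_le (x - p) (y c - p)
      have e : x - p - (y c - p) = x - y c := by ring
      rw [e] at h7
      calc |‖x - p‖ - c| = |(‖x - p‖ - ‖y c - p‖) + (‖y c - p‖ - c)| := by congr 1; ring
        _ ≤ |‖x - p‖ - ‖y c - p‖| + |‖y c - p‖ - c| := abs_add_le _ _
        _ ≤ 3 * r c := by linarith
    exact Set.disjoint_left.mp hdis (gen b hb hx1) (gen b' hb' hx2))
  refine le_trans (ENNReal.ofReal_le_ofReal ?_) h5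
  calc m / 240 = (1 / 120) * (m / 2) := by ring
    _ ≤ (∑ b ∈ w', r b) * (m / 2) := by gcongr
    _ = ∑ b ∈ w', r b / 2 * m := by rw [Finset.sum_mul]; apply Finset.sum_congr rfl; intro b _; ring
    _ ≤ _ := Finset.sum_le_sum fun b hb => h4 b hb

end NetPart

end Pool.Agent.H65.Gauss
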