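import Pool.Agent.H65.NetCount
import Pool.Agent.H65.NetVitali

/-! Calibration: lower bound for the perimeter when the interface avoids a large disc. -/

namespace Pool.Agent.H65.Gauss

open MeasureTheory Set Filter Topology Metric
open scoped ENNReal Manifold ContDiff

variable {n : ℕ} {E : Fin n → Set ℂ} {S : Set ℂ}

/-- the weight `(1+|x|²)^{-1/2}` -/
noncomputable def wt (x : ℂ) : ℝ := (Real.sqrt (1 + ‖x‖ ^ 2))⁻¹

lemma one_add_pos (x : ℂ) : 0 < 1 + ‖x‖ ^ 2 := by positivity

lemma wt_pos (x : ℂ) : 0 < wt x := by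
  unfold wt
  have := one_add_pos x
  positivity

lemma contDiff_wt : ContDiff ℝ 1 wt := by
  unfold wt
  apply ContDiff.inv
  · apply ContDiff.sqrt
    · exact contDiff_const.add (contDiff_norm_sq ℝ)
    · intro x; exact (one_add_pos x).ne'
  · intro x
    exact (Real.sqrt_pos.mpr (one_add_pos x)).ne'

lemma fderiv_wt (x : ℂ) : fderiv ℝ wt x x = - (wt x) ^ 3 * ‖x‖ ^ 2 := by
  have h1 : HasFDerivAt (fun y : ℂ => 1 + ‖y‖ ^ 2) (2 • (innerSL ℝ x)) x :=
    (hasStrictFDerivAt_norm_sq x).hasFDerivAt.const_add 1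
  have hpos := one_add_pos x
  have h2 := h1.sqrt hpos.ne'
  have hs : 0 < Real.sqrt (1 + ‖x‖ ^ 2) := Real.sqrt_pos.mpr hpos
  have h3 := (hasDerivAt_inv hs.ne').comp_hasFDerivAt x h2
  have h4 : HasFDerivAt wt _ x := h3
  rw [h4.fderiv]
  simp only [_root_.smul_apply, smul_eq_mul, innerSL_apply_apply, real_inner_self_eq_norm_sq,
    nsmul_eq_mul]
  unfold wt
  field_simp
  push_cast
  ring

lemma norm_wt_smul_le (x : ℂ) : ‖wt x • x‖ ≤ 1 := by
  rw [norm_smul, Real.norm_of_nonneg (wt_pos x).le]
  unfold wt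
  have hs : 0 < Real.sqrt (1 + ‖x‖ ^ 2) := Real.sqrt_pos.mpr (one_add_pos x)
  rw [inv_mul_le_iff₀ hs, mul_one]
  apply Real.le_sqrt_of_sq_le
  linarith

/-- cut-off of the calibrating field -/
noncomputable def calF (T : ℝ) (x : ℂ) : ℂ := (radCut 0 T (2 * T) x * wt x) • x

lemma divergence_id (x : ℂ) : divergence (fun y => y) x = 2 := by
  unfold divergence
  rw [fderiv_fun_id]
  simp
  norm_num

lemma isTestField_calF {T : ℝ} (hT : 0 < T) : IsTestField (calF T) := by
  have h1 : ContDiff ℝ 1 (fun x => radCut 0 T (2 * T) x * wt x) :=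
    (contDiff_radCut _ _ _).mul contDiff_wt
  refine ⟨h1.smul contDiff_id, ?_⟩
  have h2 : HasCompactSupport (fun x => radCut 0 T (2 * T) x * wt x) :=
    (hasCompactSupport_radCut hT.le (by linarith)).mul_right
  exact h2.smul_right

lemma norm_calF_le (T : ℝ) (x : ℂ) : ‖calF T x‖ ≤ 1 := by
  unfold calF
  rw [mul_smul, norm_smul, Real.norm_of_nonneg (radCut_nonneg _ _ _ _)]
  calc radCut 0 T (2 * T) x * ‖wt x • x‖ ≤ 1 * 1 := by
        apply mul_le_mul (radCut_le_one _ _ _ _) (norm_wt_smul_le x) (norm_nonneg _) zero_le_one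
    _ = 1 := one_mul 1

/-- the scalar inequality behind the calibration -/
lemma calib_scalar {ρ r : ℝ} (hρ : 2 ≤ ρ) (hr : ρ ≤ r) :
    ρ - 3 / ρ ≤ (Real.sqrt (1 + r ^ 2))⁻¹ * (r ^ 2 - 2) := by
  have hρ0 : 0 < ρ := by linarith
  have hr0 : 0 < r := by linarith
  have h1 : ρ - 3 / ρ ≤ r - 3 / r := by
    have : 3 / r ≤ 3 / ρ := by gcongr
    linarith
  refine h1.trans ?_
  have hs : 0 < Real.sqrt (1 + r ^ 2) := Real.sqrt_pos.mpr (by positivity)
  have hs2 : Real.sqrt (1 + r ^ 2) ≤ r + 1 / (2 * r) := by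
    apply Real.sqrt_le_iff.mpr
    refine ⟨by positivity, ?_⟩
    have : (r + 1 / (2 * r)) ^ 2 = r ^ 2 + 1 + (1 / (2 * r)) ^ 2 := by field_simp; ring
    rw [this]
    have : 0 ≤ (1 / (2 * r)) ^ 2 := by positivity
    linarith
  have hr2 : 0 ≤ r ^ 2 - 2 := by nlinarith
  have h2 : (r + 1 / (2 * r))⁻¹ * (r ^ 2 - 2) ≤ (Real.sqrt (1 + r ^ 2))⁻¹ * (r ^ 2 - 2) := by
    gcongr
  refine le_trans ?_ h2
  rw [le_inv_mul_iff₀ (by positivity)]
  have e : (r + 1 / (2 * r)) * (r - 3 / r) = r ^ 2 - 5 / 2 - 3 / (2 * r ^ 2) := by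
    field_simp; ring
  rw [e]
  have : 0 ≤ 3 / (2 * r ^ 2) := by positivity
  linarith

lemma divergence_calF_le {T ρ : ℝ} (hT : 0 < T) (hρ : 2 ≤ ρ) {x : ℂ} (hx : ρ ≤ ‖x‖) :
    (ρ - 3 / ρ) * (gaussDensity x * radCut 0 T (2 * T) x) ≤
      - divergence (fun y => gaussDensity y • calF T y) x := by
  have hd1 : DifferentiableAt ℝ (radCut 0 T (2 * T)) x :=
    (contDiff_radCut _ _ _).differentiable (by norm_num) x
  have hd2 : DifferentiableAt ℝ wt x := contDiff_wt.differentiable (by norm_num) x
  have hd : DifferentiableAt ℝ (fun x => radCut 0 T (2 * T) x * wt x) x := hd1.mul hd2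
  rw [divergence_gauss ((isTestField_calF hT).differentiable x)]
  have e1 : divergence (calF T) x = (radCut 0 T (2 * T) x * wt x) * 2 +
      fderiv ℝ (fun x => radCut 0 T (2 * T) x * wt x) x x := by
    have := divergence_smul (a := fun x => radCut 0 T (2 * T) x * wt x) (φ := fun y => y) hd
      differentiableAt_id
    rw [divergence_id] at this
    exact this
  have e2 : fderiv ℝ (fun x => radCut 0 T (2 * T) x * wt x) x x =
      radCut 0 T (2 * T) x * fderiv ℝ wt x x + wt x * fderiv ℝ (radCut 0 T (2 * T)) x x := by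
    have h := hd1.hasFDerivAt.mul hd2.hasFDerivAt
    have h' : HasFDerivAt (fun x => radCut 0 T (2 * T) x * wt x) _ x := h
    rw [h'.fderiv]
    simp
  have e3 : fderiv ℝ (radCut 0 T (2 * T)) x x ≤ 0 := by
    rw [fderiv_radCut, sub_zero, real_inner_self_eq_norm_sq]
    apply mul_nonpos_of_nonneg_of_nonpos
    · exact (Real.smoothTransition.monotone).deriv_nonneg
    · have : 0 < (2 * T) ^ 2 - T ^ 2 := by nlinarith
      apply div_nonpos_of_nonpos_of_nonneg _ this.le
      have := sq_nonneg ‖x‖
      linarith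
  have e4 : inner ℝ x (calF T x) = (radCut 0 T (2 * T) x * wt x) * ‖x‖ ^ 2 := by
    unfold calF
    rw [inner_smul_right, real_inner_self_eq_norm_sq]
  rw [e1, e2, e4, fderiv_wt]
  have hη := radCut_nonneg 0 T (2 * T) x
  have hw := wt_pos x
  have hγ := gaussDensity_nonneg x
  have hs := calib_scalar hρ hx
  change ρ - 3 / ρ ≤ wt x * (‖x‖ ^ 2 - 2) at hs
  set η := radCut 0 T (2 * T) x
  set γ := gaussDensity x
  set w := wt x
  set f := fderiv ℝ (radCut 0 T (2 * T)) x x
  have h1 : (ρ - 3 / ρ) * (γ * η) ≤ (w * (‖x‖ ^ 2 - 2)) * (γ * η) := by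
    apply mul_le_mul_of_nonneg_right hs (mul_nonneg hγ hη)
  have h2 : 0 ≤ γ * (w * (-f)) := by
    have : 0 ≤ -f := by linarith
    positivity
  have h3 : 0 ≤ γ * η * w ^ 3 * ‖x‖ ^ 2 := by positivity
  nlinarith

lemma sum_integral {f : ℂ → ℝ} (hN : NetPart E S) (hf : Integrable f) :
    ∑ i, ∫ x in E i, f x = ∫ x, f x := by
  have h1 : ∀ i, ∫ x in E i, f x = ∫ x in color E S i, f x := fun i =>
    setIntegral_congr_set (hN.color_ae i).symm
  simp only [h1]
  rw [← integral_iUnion_fintype (fun i => (isOpen_color i).measurableSet)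
    (fun i j hij => hN.color_disjoint hij) (fun i => hf.integrableOn), hN.iUnion_color]
  have h2 : (Sᶜ : Set ℂ) =ᵐ[volume] univ := by
    rw [ae_eq_univ, compl_compl]
    exact hN.volume_S
  rw [setIntegral_congr_set h2, setIntegral_univ]

theorem IsFace.calibration_T {F : Set ℂ} {i₀ j : Fin n} (hN : NetPart E S)
    (hF : IsFace E S F i₀) (hj : j ≠ i₀) (hdis : Disjoint (closure (color E S j)) (closure F))
    {φ : ℂ → ℂ} (hφ : IsTestField φ) (hφ1 : ∀ x, ‖φ x‖ ≤ 1) :
    ENNReal.ofReal (2 * (∫ x in F, divergence (fun y => gaussDensity y • φ y) x) -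
      2 * ∫ x in color E S j, divergence (fun y => gaussDensity y • φ y) x) ≤
      ∑ i, gaussPerimeter (E i) := by
  classical
  -- the cut-off
  have hcl : IsClosed (closure (color E S j) ∪ closure (color E S i₀ \ F)) :=
    isClosed_closure.union isClosed_closure
  have hd2 : Disjoint (closure (color E S j) ∪ closure (color E S i₀ \ F)) (closure F) :=
    hdis.union_left (hF.closure_diff_disjoint hN)
  obtain ⟨χ, hχs, hχr, hχ0, hχ1⟩ := exists_contMDiff_zero_iff_one_iff_of_isClosed (n := 1)
    𝓘(ℝ, ℂ) hcl isClosed_closure hd2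
  have hχc : ContDiff ℝ 1 χ := by
    have := contMDiff_iff_contDiff.mp hχs
    simpa using this
  have hχb : ∀ x, 0 ≤ χ x ∧ χ x ≤ 1 := fun x => hχr ⟨x, rfl⟩
  have hχd : Differentiable ℝ χ := hχc.differentiable (by norm_num)
  have hac : ContDiff ℝ 1 (fun x => 1 - 2 * χ x) := contDiff_const.sub (contDiff_const.mul hχc)
  -- the two integrands
  set D : ℂ → ℝ := fun x => divergence (fun y => gaussDensity y • φ y) x with hD
  set ψ : ℂ → ℂ := fun y => (1 - 2 * χ y) • φ y with hψ
  have hψt : IsTestField ψ := hφ.smul hac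
  set D' : ℂ → ℝ := fun x => divergence (fun y => gaussDensity y • ψ y) x with hD'
  have hDi : Integrable D := (hφ.gauss).integrable_divergence
  have hD'i : Integrable D' := (hψt.gauss).integrable_divergence
  have hψ1 : ∀ x, ‖ψ x‖ ≤ 1 := by
    intro x
    rw [hψ]
    simp only [norm_smul, Real.norm_eq_abs]
    have h1 : |1 - 2 * χ x| ≤ 1 := by
      rw [abs_le]; constructor <;> linarith [(hχb x).1, (hχb x).2]
    calc |1 - 2 * χ x| * ‖φ x‖ ≤ 1 * 1 := mul_le_mul h1 (hφ1 x) (norm_nonneg _) zero_le_one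
      _ = 1 := one_mul 1
  have hFo := hF.isOpen hN
  -- `D' = - D` on `F`
  have hDF : ∀ x ∈ F, D' x = - D x := by
    intro x hx
    have : (fun y => gaussDensity y • ψ y) =ᶠ[𝓝 x] fun y => - (gaussDensity y • φ y) := by
      filter_upwards [hFo.mem_nhds hx] with y hy
      have h1 : χ y = 1 := (hχ1 y).mp (subset_closure hy)
      rw [hψ]
      simp only [h1]
      rw [show (1 - 2 * 1 : ℝ) = -1 by norm_num, neg_one_smul, smul_neg]
    rw [hD', hD]
    simp only
    rw [divergence_eventuallyEq this, divergence_neg]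
  -- `D' = D` where `χ = 0` nearby
  have hDo : ∀ U : Set ℂ, IsOpen U → (∀ y ∈ U, χ y = 0) → ∀ x ∈ U, D' x = D x := by
    intro U hU h0 x hx
    have : (fun y => gaussDensity y • ψ y) =ᶠ[𝓝 x] fun y => (gaussDensity y • φ y) := by
      filter_upwards [hU.mem_nhds hx] with y hy
      rw [hψ]
      simp only [h0 y hy]
      rw [mul_zero, sub_zero, one_smul]
    rw [hD', hD]
    simp only
    rw [divergence_eventuallyEq this]
  have hDj : ∀ x ∈ color E S j, D' x = D x :=
    hDo _ (isOpen_color j) (fun y hy => (hχ0 y).mp (Or.inl (subset_closure hy)))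
  have hdo : IsOpen (color E S i₀ \ F) := by
    have : color E S i₀ \ F = color E S i₀ \ closure F := by
      apply Subset.antisymm
      · rintro x ⟨h1, h2⟩
        refine ⟨h1, fun h3 => ?_⟩
        exact Set.disjoint_left.mp (hF.closure_diff_disjoint hN) (subset_closure ⟨h1, h2⟩) h3
      · rintro x ⟨h1, h2⟩
        exact ⟨h1, fun h3 => h2 (subset_closure h3)⟩
    rw [this]
    exact (isOpen_color i₀).sdiff isClosed_closure
  have hDd : ∀ x ∈ color E S i₀ \ F, D' x = D x :=
    hDo _ hdo (fun y hy => (hχ0 y).mp (Or.inr (subset_closure hy)))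
  -- the fields
  set Φ : Fin n → ℂ → ℂ := fun i => if i = i₀ then φ else if i = j then (fun y => - φ y) else ψ
    with hΦ
  have hΦt : ∀ i, IsTestField (Φ i) := by
    intro i
    rw [hΦ]
    simp only
    split_ifs
    · exact hφ
    · exact hφ.neg
    · exact hψt
  have hΦ1 : ∀ i x, ‖Φ i x‖ ≤ 1 := by
    intro i x
    rw [hΦ]
    simp only
    split_ifs
    · exact hφ1 x
    · rw [norm_neg]; exact hφ1 x
    · exact hψ1 x
  have hlow : ENNReal.ofReal (∑ i, ∫ x in E i, divergence (fun y => gaussDensity y • Φ i y) x) ≤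
      ∑ i, gaussPerimeter (E i) :=
    (ofReal_sum_le_sum _ _).trans (Finset.sum_le_sum fun i _ => le_gaussPerimeter (hΦt i) (hΦ1 i))
  refine le_trans (le_of_eq ?_) hlow
  congr 1
  have hterm : ∀ i, ∫ x in E i, divergence (fun y => gaussDensity y • Φ i y) x =
      (∫ x in E i, D' x) + (if i = i₀ then ∫ x in E i₀, (D x - D' x) else 0) +
        (if i = j then ∫ x in E j, (-D x - D' x) else 0) := by
    intro i
    by_cases h1 : i = i₀
    · subst h1
      have h2 : i ≠ j := hj.symm
      rw [if_pos rfl, if_neg h2, add_zero]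
      have h3 : Φ i = φ := by rw [hΦ]; simp
      have h4 : Integrable (fun x => D x - D' x) (volume.restrict (E i)) :=
        (hDi.sub hD'i).integrableOn
      rw [h3, ← integral_add hD'i.integrableOn h4]
      congr 1
      ext x
      rw [hD]
      ring
    · by_cases h2 : i = j
      · subst h2
        rw [if_neg h1, if_pos rfl, add_zero]
        have h3 : Φ i = fun y => - φ y := by rw [hΦ]; simp [h1]
        have h4 : Integrable (fun x => -D x - D' x) (volume.restrict (E i)) :=
          (hDi.neg.sub hD'i).integrableOn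
        rw [h3, ← integral_add hD'i.integrableOn h4]
        congr 1
        ext x
        have : (fun y => gaussDensity y • - φ y) = fun y => - (gaussDensity y • φ y) := by
          ext y; rw [smul_neg]
        rw [this, divergence_neg, hD]
        ring
      · rw [if_neg h1, if_neg h2, add_zero, add_zero]
        have h3 : Φ i = ψ := by rw [hΦ]; simp [h1, h2]
        rw [h3]
  simp only [hterm]
  rw [Finset.sum_add_distrib, Finset.sum_add_distrib, Finset.sum_ite_eq' Finset.univ i₀,
    Finset.sum_ite_eq' Finset.univ j, if_pos (Finset.mem_univ _), if_pos (Finset.mem_univ _),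
    sum_integral hN hD'i]
  have hzero : ∫ x, D' x = 0 := (hψt.gauss).integral_divergence
  rw [hzero, zero_add]
  -- first term
  have hi0 : ∫ x in E i₀, (D x - D' x) = 2 * ∫ x in F, D x := by
    rw [setIntegral_congr_set (hN.color_ae i₀).symm]
    rw [setIntegral_eq_of_subset_of_forall_sdiff_eq_zero (isOpen_color i₀).measurableSet hF.col
      (fun x hx => by rw [hDd x hx, sub_self])]
    rw [← integral_const_mul]
    apply setIntegral_congr_fun hFo.measurableSet
    intro x hx
    simp only [hDF x hx]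
    ring
  have hjj : ∫ x in E j, (-D x - D' x) = - (2 * ∫ x in color E S j, D x) := by
    rw [setIntegral_congr_set (hN.color_ae j).symm]
    rw [← integral_const_mul, ← integral_neg]
    apply setIntegral_congr_fun (isOpen_color j).measurableSet
    intro x hx
    simp only [hDj x hx]
    ring
  rw [hi0, hjj]
  ring

theorem IsFace.calibration {F : Set ℂ} {i₀ j : Fin n} (hN : NetPart E S)
    (hF : IsFace E S F i₀) (hj : j ≠ i₀) (hdis : Disjoint (closure (color E S j)) (closure F))
    {ρ : ℝ} (hρ : 2 ≤ ρ) (hball : ball 0 ρ ⊆ F) :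
    ENNReal.ofReal (2 * (ρ - 3 / ρ) * (gaussArea Fᶜ + gaussArea (E j))) ≤
      ∑ i, gaussPerimeter (E i) := by
  have hFm : MeasurableSet F := (hF.isOpen hN).measurableSet
  have hjm : MeasurableSet (color E S j) := (isOpen_color j).measurableSet
  have hFc : ∀ x ∈ Fᶜ, ρ ≤ ‖x‖ := by
    intro x hx
    by_contra hcon
    apply hx
    apply hball
    rw [mem_ball, dist_zero_right]
    exact not_le.mp hcon
  have hjF : color E S j ⊆ Fᶜ := by
    intro x hx hxF
    exact Set.disjoint_left.mp (hN.color_disjoint hj) hx (hF.col hxF)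
  -- cut-off estimate
  have key : ∀ T : ℝ, 0 < T →
      ENNReal.ofReal (2 * (ρ - 3 / ρ) * ((∫ x in Fᶜ, gaussDensity x * radCut 0 T (2 * T) x) +
        ∫ x in color E S j, gaussDensity x * radCut 0 T (2 * T) x)) ≤
      ∑ i, gaussPerimeter (E i) := by
    intro T hT
    have hφ := isTestField_calF hT
    refine le_trans (ENNReal.ofReal_le_ofReal ?_)
      (hF.calibration_T hN hj hdis hφ (norm_calF_le T))
    have hDi : Integrable (fun x => divergence (fun y => gaussDensity y • calF T y) x) :=
      (hφ.gauss).integrable_divergence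
    have hgi : Integrable (fun x => gaussDensity x * radCut 0 T (2 * T) x) := by
      apply Continuous.integrable_of_hasCompactSupport
      · exact continuous_gaussDensity.mul (contDiff_radCut _ _ _).continuous
      · exact (hasCompactSupport_radCut hT.le (by linarith)).mul_left
    have hzero : (∫ x in F, divergence (fun y => gaussDensity y • calF T y) x) +
        ∫ x in Fᶜ, divergence (fun y => gaussDensity y • calF T y) x = 0 := by
      rw [integral_add_compl hFm hDi]
      exact (hφ.gauss).integral_divergence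
    have h1 : (ρ - 3 / ρ) * ∫ x in Fᶜ, gaussDensity x * radCut 0 T (2 * T) x ≤
        - ∫ x in Fᶜ, divergence (fun y => gaussDensity y • calF T y) x := by
      rw [← integral_const_mul, ← integral_neg]
      apply setIntegral_mono_on (hgi.const_mul _).integrableOn hDi.neg.integrableOn hFm.compl
      intro x hx
      exact divergence_calF_le hT hρ (hFc x hx)
    have h2 : (ρ - 3 / ρ) * ∫ x in color E S j, gaussDensity x * radCut 0 T (2 * T) x ≤
        - ∫ x in color E S j, divergence (fun y => gaussDensity y • calF T y) x := by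
      rw [← integral_const_mul, ← integral_neg]
      apply setIntegral_mono_on (hgi.const_mul _).integrableOn hDi.neg.integrableOn hjm
      intro x hx
      exact divergence_calF_le hT hρ (hFc x (hjF hx))
    linarith
  -- the limit
  have lim : ∀ A : Set ℂ, Tendsto (fun k : ℕ => ∫ x in A, gaussDensity x *
      radCut 0 ((k : ℝ) + 1) (2 * ((k : ℝ) + 1)) x) atTop (𝓝 (∫ x in A, gaussDensity x)) := by
    intro A
    apply tendsto_integral_of_dominated_convergence gaussDensity
    · intro k
      exact (continuous_gaussDensity.mul (contDiff_radCut _ _ _).continuous).aestronglyMeasurable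
    · exact integrable_gaussDensity.integrableOn
    · intro k
      filter_upwards with x
      rw [Real.norm_of_nonneg (mul_nonneg (gaussDensity_nonneg x) (radCut_nonneg _ _ _ _))]
      calc gaussDensity x * radCut 0 ((k : ℝ) + 1) (2 * ((k : ℝ) + 1)) x ≤ gaussDensity x * 1 := by
            gcongr
            · exact gaussDensity_nonneg x
            · exact radCut_le_one _ _ _ _
        _ = gaussDensity x := mul_one _
    · filter_upwards with x
      apply tendsto_const_nhds.congr'
      filter_upwards [eventually_ge_atTop ⌈‖x‖⌉₊] with k hk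
      have h1 : ‖x‖ ≤ k := Nat.ceil_le.mp hk
      rw [radCut_eq_one (by positivity) (by linarith [(Nat.cast_nonneg k : (0:ℝ) ≤ k)])
        (by rw [sub_zero]; linarith), mul_one]
  have hlim := ENNReal.tendsto_ofReal (((lim Fᶜ).add (lim (color E S j))).const_mul
    (2 * (ρ - 3 / ρ)))
  have e : gaussArea (E j) = ∫ x in color E S j, gaussDensity x :=
    setIntegral_congr_set (hN.color_ae j).symm
  rw [e]
  exact le_of_tendsto' hlim (fun k => key _ (by positivity))

end Pool.Agent.H65.Gauss
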