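import Pool.Agent.H65.NetGerm

/-! Faces of a straight network are convex. -/

namespace Pool.Agent.H65.Gauss

open MeasureTheory Set Filter Topology Metric
open scoped ENNReal

variable {n : ℕ} {E : Fin n → Set ℂ} {S : Set ℂ}

/-- boundary function of the sector -/
noncomputable def secH (u q : ℂ) : ℝ := min (crs u q) (Real.sqrt 3 * dot u q + crs u q)

lemma continuous_secH (u : ℂ) : Continuous (secH u) := by
  unfold secH
  exact (continuous_crs_right u).min
    ((continuous_const.mul (continuous_dot_right u)).add (continuous_crs_right u))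

lemma secH_pos {u q : ℂ} (h : sec0 u q) : 0 < secH u q := lt_min h.1 h.2

lemma secH_zero {u q : ℂ} (h : secH u q = 0) : rays u q := by
  have h3p : 0 < Real.sqrt 3 := Real.sqrt_pos.mpr (by norm_num)
  unfold secH at h
  unfold rays
  rcases le_total (crs u q) (Real.sqrt 3 * dot u q + crs u q) with hle | hle
  · rw [min_eq_left hle] at h
    left
    refine ⟨h, ?_⟩
    rw [h] at hle
    by_contra hcon
    have := mul_neg_of_pos_of_neg h3p (not_le.mp hcon)
    linarith
  · rw [min_eq_right hle] at h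
    right; left
    refine ⟨h, ?_⟩
    rw [h] at hle
    exact hle

lemma secH_neg_of {u q : ℂ} (h : sec0 u q) {s : ℝ} (hs : 0 < s) : secH u (s * (-q)) < 0 := by
  unfold secH
  rw [crs_smul_right, crs_neg_right]
  have : s * -crs u q < 0 := by nlinarith [h.1]
  exact lt_of_le_of_lt (min_le_left _ _) this

lemma sec0_smul {u q : ℂ} (h : sec0 u q) {s : ℝ} (hs : 0 < s) : sec0 u (s * q) := by
  unfold sec0 at h ⊢
  rw [crs_smul_right, dot_smul_right]
  constructor
  · exact mul_pos hs h.1
  · have := mul_pos hs h.2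
    linarith

lemma sec0_of_smul {u q : ℂ} {s : ℝ} (hs : 0 < s) (h : sec0 u (s * q)) : sec0 u q := by
  unfold sec0 at h ⊢
  rw [crs_smul_right, dot_smul_right] at h
  constructor
  · exact pos_of_mul_pos_right h.1 hs.le
  · have : 0 < s * (Real.sqrt 3 * dot u q + crs u q) := by linarith [h.2]
    exact pos_of_mul_pos_right this hs.le

namespace NetPart

variable (hN : NetPart E S)
include hN

lemma separating {x : ℂ} (hx : x ∈ S) {e : ℂ} {δ : ℝ} (hδ : 0 < δ)
    (he : ∀ s : ℝ, 0 < s → s < δ → x + s * (-e) ∉ S) :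
    ∃ r > 0, ∃ H : ℂ → ℝ, Continuous H ∧ (∀ y ∈ ball x r, H (y - x) = 0 → y ∈ S) ∧
      (∀ s : ℝ, 0 < s → 0 < H (s * (-e))) ∧ (∀ s : ℝ, 0 < s → H (s * e) < 0) := by
  -- a small parameter
  have small : ∀ r > 0, ∃ s : ℝ, 0 < s ∧ s < δ ∧ x + s * (-e) ∈ ball x r := by
    intro r hr
    have hpos : 0 < ‖e‖ + 1 := by positivity
    refine ⟨min (δ / 2) (r / 2 / (‖e‖ + 1)), by positivity, ?_, ?_⟩
    · exact lt_of_le_of_lt (min_le_left _ _) (by linarith)
    · rw [mem_ball, dist_eq_norm, add_sub_cancel_left, norm_mul, norm_neg, Complex.norm_real,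
        Real.norm_of_nonneg (by positivity)]
      calc min (δ / 2) (r / 2 / (‖e‖ + 1)) * ‖e‖ ≤ r / 2 / (‖e‖ + 1) * (‖e‖ + 1) := by
            gcongr
            · exact min_le_right _ _
            · linarith
        _ = r / 2 := by field_simp
        _ < r := by linarith
  have trip : ∀ u r, TripodAt S x u r → (∃ s : ℝ, 0 < s ∧ sec0 u (s * (-e))) →
      ∃ r > 0, ∃ H : ℂ → ℝ, Continuous H ∧ (∀ y ∈ ball x r, H (y - x) = 0 → y ∈ S) ∧
      (∀ s : ℝ, 0 < s → 0 < H (s * (-e))) ∧ (∀ s : ℝ, 0 < s → H (s * e) < 0) := by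
    rintro u r h ⟨s, hs, hsec⟩
    have h0 : sec0 u (-e) := sec0_of_smul hs hsec
    refine ⟨r, h.pos, secH u, continuous_secH u, ?_, ?_, ?_⟩
    · intro y hy h1
      rw [h.mem hy]
      exact secH_zero h1
    · intro s hs
      exact secH_pos (sec0_smul h0 hs)
    · intro s hs
      have := secH_neg_of h0 hs
      rwa [neg_neg] at this
  rcases hN.germ hx with ⟨u, r, h⟩ | ⟨u, r, h⟩
  · obtain ⟨s, hs0, hs1, hs2⟩ := small r h.pos
    have h1 := he s hs0 hs1
    rw [h.mem _ hs2, add_sub_cancel_left, crs_smul_right, crs_neg_right] at h1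
    have h2 : crs u e ≠ 0 := by
      intro h0; apply h1; rw [h0]; ring
    rcases lt_or_gt_of_ne h2 with h3 | h3
    · refine ⟨r, h.pos, crs u, continuous_crs_right u, ?_, ?_, ?_⟩
      · intro y hy h4; rwa [h.mem y hy]
      · intro s hs
        rw [crs_smul_right, crs_neg_right]; nlinarith
      · intro s hs
        rw [crs_smul_right]; nlinarith
    · refine ⟨r, h.pos, fun q => - crs u q, (continuous_crs_right u).neg, ?_, ?_, ?_⟩
      · intro y hy h4
        rw [h.mem y hy]
        change - crs u (y - x) = 0 at h4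
        linarith
      · intro s hs
        change 0 < - crs u (s * -e)
        rw [crs_smul_right, crs_neg_right]; nlinarith
      · intro s hs
        change - crs u (s * e) < 0
        rw [crs_smul_right]; nlinarith
  · obtain ⟨s, hs0, hs1, hs2⟩ := small r h.pos
    have h1 := he s hs0 hs1
    rw [h.mem hs2, add_sub_cancel_left, not_rays_iff] at h1
    rcases h1 with h1 | h1 | h1
    · exact trip u r h ⟨s, hs0, h1⟩
    · exact trip _ r h.rot ⟨s, hs0, sec0_rot.mpr h1⟩
    · exact trip _ r h.rot.rot ⟨s, hs0, sec0_rot.mpr (sec1_rot.mpr h1)⟩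

lemma segment_of_closure {a b : ℂ} (ha : a ∉ S) (hb : b ∉ S)
    (hcl : b ∈ closure {b' | segment ℝ a b' ⊆ Sᶜ}) : segment ℝ a b ⊆ Sᶜ := by
  by_contra hcon
  have hT : ∃ t ∈ Icc (0:ℝ) 1, a + t * (b - a) ∈ S := by
    rw [Set.not_subset] at hcon
    obtain ⟨y, hy, hyS⟩ := hcon
    rw [segment_eq_image'] at hy
    obtain ⟨t, ht, rfl⟩ := hy
    refine ⟨t, ht, ?_⟩
    rw [← Complex.real_smul]
    exact not_not.mp hyS
  set T : Set ℝ := {t | t ∈ Icc (0:ℝ) 1 ∧ a + t * (b - a) ∈ S} with hTdef
  have hTc : IsClosed T := by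
    apply isClosed_Icc.inter
    exact hN.isClosed.preimage (by fun_prop)
  have hTne : T.Nonempty := by
    obtain ⟨t, ht, h⟩ := hT; exact ⟨t, ht, h⟩
  have hTb : BddBelow T := ⟨0, fun t ht => ht.1.1⟩
  obtain ⟨t0, ht0⟩ : ∃ t0, t0 = sInf T := ⟨_, rfl⟩
  have ht0T : t0 ∈ T := by rw [ht0]; exact hTc.csInf_mem hTne hTb
  have hmin : ∀ t, 0 ≤ t → t < t0 → a + t * (b - a) ∉ S := by
    intro t h0 h1 h2
    have : t ∈ T := ⟨⟨h0, h1.le.trans ht0T.1.2⟩, h2⟩
    have := csInf_le hTb this
    rw [← ht0] at this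
    linarith
  have h0 : 0 < t0 := by
    rcases ht0T.1.1.eq_or_lt with h | h
    · exfalso
      have := ht0T.2
      rw [← h] at this
      simp at this
      exact ha this
    · exact h
  have h1 : t0 < 1 := by
    rcases ht0T.1.2.eq_or_lt with h | h
    · exfalso
      have := ht0T.2
      rw [h] at this
      simp at this
      exact hb this
    · exact h
  set x := a + t0 * (b - a) with hxdef
  have hxS : x ∈ S := ht0T.2
  obtain ⟨r, hr, H, hH, hH0, hH1, hH2⟩ := hN.separating (e := b - a) hxS h0 (by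
    intro s hs1 hs2
    have := hmin (t0 - s) (by linarith) (by linarith)
    have e : a + ((t0 - s : ℝ) : ℂ) * (b - a) = x + s * (-(b - a)) := by
      rw [hxdef]; push_cast; ring
    rwa [e] at this)
  -- choice of `s`
  obtain ⟨s, hs, hs1, hs2, hs3⟩ : ∃ s : ℝ, 0 < s ∧ s < t0 ∧ s < 1 - t0 ∧ s * ‖b - a‖ < r := by
    have hpos : 0 < ‖b - a‖ + 1 := by positivity
    have hp2 : 0 < 1 - t0 := by linarith
    refine ⟨min (min t0 (1 - t0)) (r / (‖b - a‖ + 1)) / 2, by positivity, ?_, ?_, ?_⟩
    · have : min (min t0 (1 - t0)) (r / (‖b - a‖ + 1)) ≤ t0 :=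
        (min_le_left _ _).trans (min_le_left _ _)
      linarith
    · have : min (min t0 (1 - t0)) (r / (‖b - a‖ + 1)) ≤ 1 - t0 :=
        (min_le_left _ _).trans (min_le_right _ _)
      linarith
    · calc min (min t0 (1 - t0)) (r / (‖b - a‖ + 1)) / 2 * ‖b - a‖
          ≤ r / (‖b - a‖ + 1) / 2 * (‖b - a‖ + 1) := by
            gcongr
            · exact min_le_right _ _
            · linarith
        _ = r / 2 := by field_simp
        _ < r := by linarith
  set P : ℂ → ℂ := fun b' => a + ((t0 - s : ℝ) : ℂ) * (b' - a) with hP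
  set Q : ℂ → ℂ := fun b' => a + ((t0 + s : ℝ) : ℂ) * (b' - a) with hQ
  have hPc : Continuous P := by fun_prop
  have hQc : Continuous Q := by fun_prop
  have hPb : P b = x + s * (-(b - a)) := by rw [hP, hxdef]; push_cast; ring
  have hQb : Q b = x + s * (b - a) := by rw [hQ, hxdef]; push_cast; ring
  set O : Set ℂ := {b' | P b' ∈ ball x r ∧ Q b' ∈ ball x r ∧ 0 < H (P b' - x) ∧ H (Q b' - x) < 0}
    with hO
  have hOo : IsOpen O := by
    apply IsOpen.inter (isOpen_ball.preimage hPc)
    apply IsOpen.inter (isOpen_ball.preimage hQc)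
    apply IsOpen.inter
    · exact isOpen_lt continuous_const (hH.comp (hPc.sub continuous_const))
    · exact isOpen_lt (hH.comp (hQc.sub continuous_const)) continuous_const
  have hbO : b ∈ O := by
    refine ⟨?_, ?_, ?_, ?_⟩
    · rw [hPb, mem_ball, dist_eq_norm, add_sub_cancel_left, norm_mul, norm_neg, Complex.norm_real,
        Real.norm_of_nonneg hs.le]
      exact hs3
    · rw [hQb, mem_ball, dist_eq_norm, add_sub_cancel_left, norm_mul, Complex.norm_real,
        Real.norm_of_nonneg hs.le]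
      exact hs3
    · rw [hPb, add_sub_cancel_left]; exact hH1 s hs
    · rw [hQb, add_sub_cancel_left]; exact hH2 s hs
  obtain ⟨b', hb'O, hb'⟩ := _root_.mem_closure_iff.mp hcl O hOo hbO
  obtain ⟨o1, o2, o3, o4⟩ := hb'O
  have hPm : P b' ∈ segment ℝ a b' := by
    rw [segment_eq_image']
    refine ⟨t0 - s, ⟨by linarith, by linarith⟩, ?_⟩
    simp only [hP, Complex.real_smul]
  have hQm : Q b' ∈ segment ℝ a b' := by
    rw [segment_eq_image']
    refine ⟨t0 + s, ⟨by linarith, by linarith⟩, ?_⟩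
    simp only [hQ, Complex.real_smul]
  have hpre : IsPreconnected (segment ℝ (P b') (Q b')) := (convex_segment _ _).isPreconnected
  have hiv := hpre.intermediate_value (right_mem_segment ℝ _ _) (left_mem_segment ℝ _ _)
    (f := fun y => H (y - x)) (hH.comp (continuous_id.sub continuous_const)).continuousOn
  obtain ⟨y, hy, hy0⟩ := hiv (show (0:ℝ) ∈ _ from ⟨o4.le, o3.le⟩)
  have hyb : y ∈ ball x r := (convex_ball x r).segment_subset o1 o2 hy
  have hyS : y ∈ S := hH0 y hyb hy0
  exact hb' ((convex_segment a b').segment_subset hPm hQm hy) hyS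

lemma isOpen_visible (a : ℂ) : IsOpen {b | segment ℝ a b ⊆ Sᶜ} := by
  rw [Metric.isOpen_iff]
  intro b hb
  have hc : IsCompact (segment ℝ a b) := by
    rw [segment_eq_image']; exact isCompact_Icc.image (by fun_prop)
  obtain ⟨δ, hδ, hsub⟩ := hc.exists_thickening_subset_open hN.isOpen_compl hb
  refine ⟨δ, hδ, fun b' hb' => ?_⟩
  intro y hy
  rw [segment_eq_image'] at hy
  obtain ⟨t, ht, rfl⟩ := hy
  apply hsub
  rw [mem_thickening_iff]
  refine ⟨a + t • (b - a), ?_, ?_⟩
  · rw [segment_eq_image']; exact ⟨t, ht, rfl⟩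
  · rw [dist_eq_norm]
    have e : a + t • (b' - a) - (a + t • (b - a)) = t • (b' - b) := by
      rw [smul_sub, smul_sub, smul_sub]; abel
    simp only [e]
    rw [norm_smul, Real.norm_of_nonneg ht.1]
    rw [mem_ball, dist_eq_norm] at hb'
    calc t * ‖b' - b‖ ≤ 1 * ‖b' - b‖ := by gcongr; exact ht.2
      _ < δ := by rw [one_mul]; exact hb'

/-- faces are convex -/
theorem convex_face (z : ℂ) : Convex ℝ (connectedComponentIn Sᶜ z) := by
  rw [convex_iff_segment_subset]
  intro a ha b hb
  have haS : a ∉ S := connectedComponentIn_subset _ _ ha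
  have hbS : b ∉ S := connectedComponentIn_subset _ _ hb
  have key : connectedComponentIn Sᶜ z ⊆ {b | segment ℝ a b ⊆ Sᶜ} := by
    apply (isPreconnected_connectedComponentIn).subset_of_closure_inter_subset
      (hN.isOpen_visible a)
    · refine ⟨a, ha, ?_⟩
      simp only [mem_ofPred_eq, segment_same]
      rintro y hy
      rw [mem_singleton_iff] at hy
      rw [hy]; exact haS
    · rintro y ⟨hy1, hy2⟩
      exact hN.segment_of_closure haS (connectedComponentIn_subset _ _ hy2) hy1
  have h1 : segment ℝ a b ⊆ Sᶜ := key hb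
  rw [connectedComponentIn_eq ha]
  exact (convex_segment a b).isPreconnected.subset_connectedComponentIn (left_mem_segment ℝ a b) h1

end NetPart

end Pool.Agent.H65.Gauss
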