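import Pool.Agent.H65.NetFrontier

/-! A face has at most six neighbours. -/

namespace Pool.Agent.H65.Gauss

open MeasureTheory Set Filter Topology Metric
open scoped ENNReal

variable {n : ℕ} {E : Fin n → Set ℂ} {S : Set ℂ}

/-- the algebra of the cone argument -/
lemma cone_algebra {m1 m2 t1 t2 c s : ℝ} (hm : m1 ^ 2 + m2 ^ 2 = 1) (ht : t1 ^ 2 + t2 ^ 2 = 1)
    (hmt : m1 * t1 + m2 * t2 = 0) (hcs : c ^ 2 + s ^ 2 = 1) (hc : 1 / 2 < c) (hs : 0 < s)
    (hm1 : m1 ≤ 0) (hm2 : Real.sqrt 3 * m2 ≤ m1) (ht2 : t2 ≤ 0)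
    (ht1 : Real.sqrt 3 * t1 + t2 ≤ 0) :
    c * m1 + s * t1 < 0 ∧ Real.sqrt 3 * (c * m2 + s * t2) < c * m1 + s * t1 := by
  have h3 : Real.sqrt 3 * Real.sqrt 3 = 3 := Real.mul_self_sqrt (by norm_num)
  have h3p : 0 < Real.sqrt 3 := Real.sqrt_pos.mpr (by norm_num)
  -- `s < √3 c`
  have hsc : s < Real.sqrt 3 * c := by
    by_contra hcon
    push Not at hcon
    have h1 : 0 ≤ Real.sqrt 3 * c := by positivity
    have h2 : (Real.sqrt 3 * c) * (Real.sqrt 3 * c) ≤ s * s := mul_self_le_mul_self h1 hcon
    nlinarith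
  rcases ht2.eq_or_lt with h | h
  · -- `t2 = 0`
    rw [h] at ht hmt ht1 ⊢
    have h4 : t1 ≤ 0 := by
      by_contra hcon
      have := mul_pos h3p (not_le.mp hcon)
      linarith
    have h5 : t1 = -1 := by
      have : (t1 - 1) * (t1 + 1) = 0 := by linarith
      rcases mul_eq_zero.mp this with h6 | h6
      · linarith
      · linarith
    rw [h5] at hmt ⊢
    have h6 : m1 = 0 := by linarith
    rw [h6] at hm hm2 ⊢
    have h7 : m2 ≤ 0 := by
      by_contra hcon
      have := mul_pos h3p (not_le.mp hcon)
      linarith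
    have h8 : m2 = -1 := by
      have : (m2 - 1) * (m2 + 1) = 0 := by linarith
      rcases mul_eq_zero.mp this with h9 | h9
      · linarith
      · linarith
    rw [h8]
    constructor
    · linarith
    · linarith
  · -- `t2 < 0`
    have h4 : m1 * (Real.sqrt 3 * t1 + t2) + t2 * (Real.sqrt 3 * m2 - m1) = 0 := by
      linear_combination Real.sqrt 3 * hmt
    have h5 : 0 ≤ m1 * (Real.sqrt 3 * t1 + t2) := mul_nonneg_of_nonpos_of_nonpos hm1 ht1
    have h6 : 0 ≤ t2 * (Real.sqrt 3 * m2 - m1) :=
      mul_nonneg_of_nonpos_of_nonpos h.le (by linarith)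
    have h7 : t2 * (Real.sqrt 3 * m2 - m1) = 0 := by linarith
    have h8 : Real.sqrt 3 * m2 = m1 := by
      have := (mul_eq_zero.mp h7).resolve_left h.ne
      linarith
    have h9 : m2 ≤ 0 := by
      by_contra hcon
      have := mul_pos h3p (not_le.mp hcon)
      linarith
    have h10 : m2 = -1/2 := by
      have h11 : m1 ^ 2 = 3 * m2 ^ 2 := by rw [← h8]; nlinarith
      have : (m2 - 1/2) * (m2 + 1/2) = 0 := by nlinarith
      rcases mul_eq_zero.mp this with h9 | h9
      · linarith
      · linarith
    have h12 : m1 = -(Real.sqrt 3 / 2) := by rw [← h8, h10]; ring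
    rw [h12, h10] at hmt
    have h13 : t2 = -Real.sqrt 3 * t1 := by linarith
    have h14 : t1 = 1/2 := by
      rw [h13] at ht h
      have h15 : 0 < t1 := by
        by_contra hcon
        have := mul_nonneg h3p.le (neg_nonneg.mpr (not_lt.mp hcon))
        linarith
      have : (t1 - 1/2) * (t1 + 1/2) = 0 := by nlinarith
      rcases mul_eq_zero.mp this with h9 | h9
      · linarith
      · linarith
    rw [h12, h10, h13, h14]
    constructor
    · linarith
    · nlinarith

namespace IsFace

variable {F : Set ℂ} {i₀ : Fin n} (hN : NetPart E S) (hF : IsFace E S F i₀)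

include hN hF in
/-- a point is not both a line point and a triple point -/
lemma lp_tp {x m u : ℂ} {j j1 j2 : Fin n} {r r' : ℝ} (h : LP E S F x m j r)
    (hT : TP E S F x u j1 j2 r') : False := by
  have hr := h.pos
  have hv : Complex.I * m = 0 := by
    apply hF.no_line hN hT (a := r / 2) (b := r / 2) (by positivity) (by positivity)
    · apply h.side
      · rw [dot_smul_right, dot_comm, dot_mul_I, crs_self, mul_zero]
      · rw [norm_mul, norm_mul_I h.norm, mul_one, Complex.norm_real,
          Real.norm_of_nonneg (by positivity)]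
        linarith
    · apply h.side
      · rw [dot_smul_right, dot_comm, dot_mul_I, crs_self, mul_zero]
      · rw [norm_mul, norm_mul_I h.norm, mul_one, Complex.norm_real, norm_neg,
          Real.norm_of_nonneg (by positivity)]
        linarith
  have := norm_mul_I h.norm
  rw [hv] at this
  simp at this

include hN hF in
/-- two line points whose normals form an angle less than 60 degrees have equal normals -/
lemma normals_far {x x' m m' : ℂ} {j j' : Fin n} {r r' : ℝ} (h : LP E S F x m j r)
    (h' : LP E S F x' m' j' r') (hc : 1 / 2 < dot m m') : m = m' := by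
  by_contra hne
  have hm := norm_one_iff.mp h.norm
  have hm' := norm_one_iff.mp h'.norm
  -- the direction `τ`
  obtain ⟨τ, hτn, hτm, hτm'⟩ : ∃ τ : ℂ, ‖τ‖ = 1 ∧ dot m τ = 0 ∧ 0 < dot τ m' := by
    rcases lt_trichotomy (crs m m') 0 with h0 | h0 | h0
    · refine ⟨-(Complex.I * m), by rw [norm_neg, norm_mul_I h.norm], ?_, ?_⟩
      · rw [dot_neg_right, dot_comm, dot_mul_I, crs_self, neg_zero]
      · rw [dot_neg_left, dot_mul_I]; linarith
    · exfalso
      have h1 := norm_sq_coords h.norm m'
      rw [h'.norm, h0] at h1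
      have h2 : dot m m' = 1 := by nlinarith
      apply hne
      apply eq_of_coords h.norm
      · rw [dot_self_one h.norm, h2]
      · rw [crs_self, h0]
    · refine ⟨Complex.I * m, norm_mul_I h.norm, ?_, ?_⟩
      · rw [dot_comm, dot_mul_I, crs_self]
      · rw [dot_mul_I]; exact h0
  -- `m' = c m + s τ`
  set c := dot m m' with hcdef
  set s := dot τ m' with hsdef
  have hm'eq : m' = (c : ℂ) * m + (s : ℂ) * τ := by
    have h1 := frame h.norm m'
    have h2 := frame h.norm τ
    rw [hτm] at h2
    simp only [Complex.ofReal_zero, zero_mul, zero_add] at h2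
    have h3 : s = crs m τ * crs m m' := by
      rw [hsdef, dot_coords h.norm τ m', hτm]; ring
    have h4 : crs m τ ^ 2 = 1 := by
      have := norm_sq_coords h.norm τ
      rw [hτn, hτm] at this
      linarith
    have h5 : s * crs m τ = crs m m' := by rw [h3]; linear_combination (crs m m') * h4
    rw [h2, h3]
    conv_lhs => rw [h1, ← h5, h3]
    push_cast
    ring
  have hcs : c ^ 2 + s ^ 2 = 1 := by
    have h1 := norm_sq_coords h.norm m'
    have h3 : s = crs m τ * crs m m' := by
      rw [hsdef, dot_coords h.norm τ m', hτm]; ring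
    have h4 : crs m τ ^ 2 = 1 := by
      have := norm_sq_coords h.norm τ
      rw [hτn, hτm] at this
      linarith
    rw [h'.norm, ← hcdef] at h1
    rw [h3]
    linear_combination (crs m m' ^ 2) * h4 - h1
  -- go as far as possible in direction `τ`
  set T : Set ℝ := {t | x + t * τ ∈ closure F} with hT
  have hTc : IsClosed T := isClosed_closure.preimage (by fun_prop)
  have hTb : BddAbove T := by
    refine ⟨dot m' (x' - x) / s, fun t ht => ?_⟩
    have h1 := hF.support_closure hN h' (p := x + t * τ) ht
    have e : x + t * τ - x' = t * τ - (x' - x) := by ring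
    rw [e, dot_sub_right, dot_smul_right, dot_comm m' τ, ← hsdef] at h1
    rw [le_div_iff₀ hτm']
    linarith
  have hr := h.pos
  have hhalf : r / 2 ∈ T := by
    apply h.side
    · rw [dot_smul_right, hτm, mul_zero]
    · rw [norm_mul, hτn, mul_one, Complex.norm_real, Real.norm_of_nonneg (by positivity)]
      linarith
  obtain ⟨t0, ht0⟩ : ∃ t0, t0 = sSup T := ⟨_, rfl⟩
  have ht0T : t0 ∈ T := by rw [ht0]; exact hTc.csSup_mem ⟨_, hhalf⟩ hTb
  have ht0p : 0 < t0 := by
    have := le_csSup hTb hhalf
    rw [← ht0] at this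
    linarith
  set y := x + t0 * τ with hy
  have hyd : dot m (y - x) = 0 := by
    rw [hy, add_sub_cancel_left, dot_smul_right, hτm, mul_zero]
  have hycl : y ∈ closure F := ht0T
  have hyF : y ∉ F := fun hcon => by
    have := hF.support hN h hcon
    linarith
  have hyfr : y ∈ frontier F := by
    rw [(hF.isOpen hN).frontier_eq]; exact ⟨hycl, hyF⟩
  have hsubm : ∀ p ∈ F, dot m (p - y) < 0 := by
    intro p hp
    have := hF.support hN h hp
    have e : p - y = (p - x) - (y - x) := by ring
    rw [e, dot_sub_right, hyd]; linarith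
  rcases hF.classify hN hyfr with ⟨m'', k, r'', _, hLP⟩ | ⟨u, j1, j2, r'', _, _, hTP⟩
  · have hmm := hF.normal_unique hN hLP h.norm hsubm
    subst hmm
    have hr'' := hLP.pos
    have : t0 + r'' / 2 ∈ T := by
      have e : x + ((t0 + r'' / 2 : ℝ) : ℂ) * τ = y + ((r'' / 2 : ℝ) : ℂ) * τ := by
        rw [hy]; push_cast; ring
      change x + ((t0 + r'' / 2 : ℝ) : ℂ) * τ ∈ closure F
      rw [e]
      apply hLP.side
      · rw [dot_smul_right, hτm, mul_zero]
      · rw [norm_mul, hτn, mul_one, Complex.norm_real, Real.norm_of_nonneg (by positivity)]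
        linarith
    have := le_csSup hTb this
    rw [← ht0] at this
    linarith
  · -- the triple point case
    have hr'' := hTP.pos
    have hu := hTP.norm
    have h3 : Real.sqrt 3 * Real.sqrt 3 = 3 := Real.mul_self_sqrt (by norm_num)
    have h3p : 0 < Real.sqrt 3 := Real.sqrt_pos.mpr (by norm_num)
    -- `x` is in the cone at `y`
    have hxc := hF.cone hN hTP h.mem_closure
    have exy : x - y = ((-t0 : ℝ) : ℂ) * τ := by rw [hy]; push_cast; ring
    rw [exy, crs_smul_right, dot_smul_right] at hxc
    have ht2 : crs u τ ≤ 0 := by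
      by_contra hcon
      have := mul_pos ht0p (not_le.mp hcon)
      linarith [hxc.1]
    have ht1 : Real.sqrt 3 * dot u τ + crs u τ ≤ 0 := by
      by_contra hcon
      have := mul_pos ht0p (not_le.mp hcon)
      linarith [hxc.2]
    -- legs are in the closure
    have hleg1 := hF.support_closure hN h hTP.lp2.mem_closure
    have hleg2 := hF.support_closure hN h hTP.lp1.mem_closure
    have e1 : y + ((r'' / 2 : ℝ) : ℂ) * u - x = (y - x) + ((r'' / 2 : ℝ) : ℂ) * u := by ring
    have e2 : y + ((r'' / 2 : ℝ) : ℂ) * (rot120 * u) - x =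
      (y - x) + ((r'' / 2 : ℝ) : ℂ) * (rot120 * u) := by ring
    rw [e1, dot_add_right, hyd, dot_smul_right, zero_add] at hleg1
    rw [e2, dot_add_right, hyd, dot_smul_right, zero_add, dot_comm m (rot120 * u),
      dot_rot_left] at hleg2
    have hm1 : dot u m ≤ 0 := by
      rw [dot_comm]
      by_contra hcon
      have := mul_pos (half_pos hr'') (not_le.mp hcon)
      linarith
    have hm2 : Real.sqrt 3 * crs u m ≤ dot u m := by
      by_contra hcon
      have := mul_pos (half_pos hr'') (sub_pos.mpr (not_le.mp hcon))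
      linarith
    have hmn := norm_sq_coords hu m
    have hτn2 := norm_sq_coords hu τ
    rw [h.norm] at hmn
    rw [hτn] at hτn2
    have hmt := dot_coords hu m τ
    rw [hτm] at hmt
    obtain ⟨k1, k2⟩ := cone_algebra (m1 := dot u m) (m2 := crs u m) (t1 := dot u τ)
      (t2 := crs u τ) (c := c) (s := s) (by linarith) (by linarith) (by linarith) hcs hc hτm' hm1
      hm2 ht2 ht1
    have hd' : dot u m' = c * dot u m + s * dot u τ := by
      rw [hm'eq, dot_add_right, dot_smul_right, dot_smul_right]
    have hc' : crs u m' = c * crs u m + s * crs u τ := by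
      rw [hm'eq, crs_add_right, crs_smul_right, crs_smul_right]
    rw [← hd'] at k1 k2
    rw [← hc'] at k2
    -- now `x' = y`
    have hxc' := hF.cone hN hTP h'.mem_closure
    have hsup := hF.support_closure hN h' hycl
    have e3 : y - x' = -(x' - y) := by ring
    rw [e3, dot_neg_right, dot_coords hu m' (x' - y)] at hsup
    set a := dot u (x' - y) with ha
    set b := crs u (x' - y) with hb
    -- `a m'1 + b m'2 ≥ 0` while both coefficients are negative
    have h5 : 0 ≤ (Real.sqrt 3 * a + b) * dot u m' + b * (Real.sqrt 3 * crs u m' - dot u m') := by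
      have : (Real.sqrt 3 * a + b) * dot u m' + b * (Real.sqrt 3 * crs u m' - dot u m') =
        Real.sqrt 3 * (dot u m' * a + crs u m' * b) := by ring
      rw [this]
      exact mul_nonneg h3p.le (by linarith)
    have hb0 : b = 0 := by
      rcases hxc'.1.eq_or_lt with h6 | h6
      · exact h6.symm
      · exfalso
        have h7 := mul_nonneg hxc'.2 (neg_nonneg.mpr k1.le)
        have h8 := mul_pos h6 (sub_pos.mpr k2)
        nlinarith
    have ha0 : a = 0 := by
      rw [hb0] at h5 hxc'
      have h9 : 0 ≤ Real.sqrt 3 * a := by linarith [hxc'.2]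
      rcases h9.eq_or_lt with h6 | h6
      · exact (mul_eq_zero.mp h6.symm).resolve_left h3p.ne'
      · exfalso
        have h8 := mul_pos h6 (neg_pos.mpr k1)
        nlinarith
    have hxy : x' = y := by
      have := frame hu (x' - y)
      rw [← ha, ← hb, ha0, hb0] at this
      simp only [Complex.ofReal_zero, zero_mul, add_zero] at this
      exact sub_eq_zero.mp this
    rw [hxy] at h'
    exact hF.lp_tp hN h' hTP

include hN hF in
/-- Lemma N -/
lemma neighbour_eq {x x' m m' : ℂ} {j j' : Fin n} {r r' : ℝ} (h : LP E S F x m j r)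
    (h' : LP E S F x' m' j' r') (hc : 1 / 2 < dot m m') : j = j' := by
  have := hF.normals_far hN h h' hc
  subst this
  exact hF.lp_same_normal hN h h'

include hN hF in
/-- Lemma A: every region whose closure meets the frontier of the face is the neighbour of the
face at some line point. -/
lemma exists_lp {j : Fin n} (hj : j ≠ i₀)
    (hne : (closure (color E S j) ∩ frontier F).Nonempty) : ∃ x m r, LP E S F x m j r := by
  obtain ⟨x, hx1, hx2⟩ := hne
  rcases hF.classify hN hx2 with ⟨m, k, r, _, hLP⟩ | ⟨u, j1, j2, r, _, _, hTP⟩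
  · obtain ⟨p, hp, hpx⟩ := Metric.mem_closure_iff.mp hx1 r hLP.pos
    have hpb : p ∈ ball x r := by rwa [mem_ball, dist_comm]
    have hpS : p ∉ S := color_subset_compl j hp
    rcases lt_trichotomy (dot m (p - x)) 0 with h0 | h0 | h0
    · exfalso
      have h1 := hF.col (hLP.inner p hpb h0)
      exact Set.disjoint_left.mp (hN.color_disjoint hj) hp h1
    · exact absurd (hLP.line p hpb h0) hpS
    · have h1 := hLP.outer p hpb h0
      have h2 : k = j := by
        by_contra hne
        exact Set.disjoint_left.mp (hN.color_disjoint hne) h1 hp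
      rw [← h2]
      exact ⟨x, m, r, hLP⟩
  · obtain ⟨p, hp, hpx⟩ := Metric.mem_closure_iff.mp hx1 r hTP.pos
    have hpb : p ∈ ball x r := by rwa [mem_ball, dist_comm]
    have hpS : p ∉ S := color_subset_compl j hp
    have hnr : ¬ rays u (p - x) := fun h0 => hpS (hTP.legs p hpb h0)
    rw [not_rays_iff] at hnr
    rcases hnr with h0 | h0 | h0
    · exfalso
      have h1 := hF.col (hTP.inner p hpb h0)
      exact Set.disjoint_left.mp (hN.color_disjoint hj) hp h1
    · have h1 := hTP.out1 p hpb h0
      have h2 : j1 = j := by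
        by_contra hne
        exact Set.disjoint_left.mp (hN.color_disjoint hne) h1 hp
      rw [← h2]
      exact ⟨_, _, _, hTP.lp1⟩
    · have h1 := hTP.out2 p hpb h0
      have h2 : j2 = j := by
        by_contra hne
        exact Set.disjoint_left.mp (hN.color_disjoint hne) h1 hp
      rw [← h2]
      exact ⟨_, _, _, hTP.lp2⟩

include hN hF in
/-- other faces of the same colour stay away from the frontier -/
lemma closure_diff_disjoint : Disjoint (closure (color E S i₀ \ F)) (closure F) := by
  rw [Set.disjoint_left]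
  intro x hx1 hx2
  by_cases hxF : x ∈ F
  · -- `F` is open and disjoint from the first set
    obtain ⟨p, hp1, hp2⟩ := _root_.mem_closure_iff.mp hx1 F (hF.isOpen hN) hxF
    exact hp2.2 hp1
  · have hfr : x ∈ frontier F := by
      rw [(hF.isOpen hN).frontier_eq]; exact ⟨hx2, hxF⟩
    rcases hF.classify hN hfr with ⟨m, k, r, hk, hLP⟩ | ⟨u, j1, j2, r, hj1, hj2, hTP⟩
    · obtain ⟨p, ⟨hp, hpF⟩, hpx⟩ := Metric.mem_closure_iff.mp hx1 r hLP.pos
      have hpb : p ∈ ball x r := by rwa [mem_ball, dist_comm]
      have hpS : p ∉ S := color_subset_compl i₀ hp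
      rcases lt_trichotomy (dot m (p - x)) 0 with h0 | h0 | h0
      · exact hpF (hLP.inner p hpb h0)
      · exact hpS (hLP.line p hpb h0)
      · exact Set.disjoint_left.mp (hN.color_disjoint hk) (hLP.outer p hpb h0) hp
    · obtain ⟨p, ⟨hp, hpF⟩, hpx⟩ := Metric.mem_closure_iff.mp hx1 r hTP.pos
      have hpb : p ∈ ball x r := by rwa [mem_ball, dist_comm]
      have hpS : p ∉ S := color_subset_compl i₀ hp
      have hnr : ¬ rays u (p - x) := fun h0 => hpS (hTP.legs p hpb h0)
      rw [not_rays_iff] at hnr
      rcases hnr with h0 | h0 | h0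
      · exact hpF (hTP.inner p hpb h0)
      · exact Set.disjoint_left.mp (hN.color_disjoint hj1) (hTP.out1 p hpb h0) hp
      · exact Set.disjoint_left.mp (hN.color_disjoint hj2) (hTP.out2 p hpb h0) hp

end IsFace

/-- scalar product of unit vectors by their arguments -/
lemma dot_eq_cos {m m' : ℂ} (hm : ‖m‖ = 1) (hm' : ‖m'‖ = 1) :
    dot m m' = Real.cos (m.arg - m'.arg) := by
  have h0 : m ≠ 0 := by rintro rfl; simp at hm
  have h0' : m' ≠ 0 := by rintro rfl; simp at hm'
  rw [Real.cos_sub, Complex.cos_arg h0, Complex.cos_arg h0', Complex.sin_arg, Complex.sin_arg,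
    hm, hm']
  simp [dot]

/-- the sector of a unit vector -/
noncomputable def secIdx (m : ℂ) : ℤ := ⌈m.arg / (Real.pi / 3)⌉

lemma secIdx_mem (m : ℂ) : secIdx m ∈ Finset.Icc (-2 : ℤ) 3 := by
  have hpi := Real.pi_pos
  have h1 := Complex.neg_pi_lt_arg m
  have h2 := Complex.arg_le_pi m
  rw [Finset.mem_Icc]
  unfold secIdx
  constructor
  · have : (-3 : ℝ) < m.arg / (Real.pi / 3) := by
      rw [lt_div_iff₀ (by positivity)]; linarith
    have h3 : (-3 : ℤ) < ⌈m.arg / (Real.pi / 3)⌉ := by
      rw [Int.lt_ceil]; exact_mod_cast this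
    omega
  · rw [Int.ceil_le]
    rw [div_le_iff₀ (by positivity)]
    push_cast
    linarith

lemma dot_of_secIdx {m m' : ℂ} (hm : ‖m‖ = 1) (hm' : ‖m'‖ = 1) (h : secIdx m = secIdx m') :
    1 / 2 < dot m m' := by
  have hpi := Real.pi_pos
  rw [dot_eq_cos hm hm']
  have h1 := Int.ceil_lt_add_one (m.arg / (Real.pi / 3))
  have h2 := Int.le_ceil (m.arg / (Real.pi / 3))
  have h3 := Int.ceil_lt_add_one (m'.arg / (Real.pi / 3))
  have h4 := Int.le_ceil (m'.arg / (Real.pi / 3))
  unfold secIdx at h
  rw [← h] at h3 h4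
  have e1 : m.arg = (m.arg / (Real.pi / 3)) * (Real.pi / 3) := by field_simp
  have e2 : m'.arg = (m'.arg / (Real.pi / 3)) * (Real.pi / 3) := by field_simp
  set a := m.arg / (Real.pi / 3)
  set b := m'.arg / (Real.pi / 3)
  have hab : |a - b| < 1 := by
    rw [abs_lt]; constructor <;> linarith
  have hd : |m.arg - m'.arg| < Real.pi / 3 := by
    rw [e1, e2, ← sub_mul, abs_mul, abs_of_pos (by positivity : (0:ℝ) < Real.pi / 3)]
    calc |a - b| * (Real.pi / 3) < 1 * (Real.pi / 3) := by gcongr
      _ = Real.pi / 3 := one_mul _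
  rw [← Real.cos_abs, ← Real.cos_pi_div_three]
  apply Real.cos_lt_cos_of_nonneg_of_le_pi_div_two (abs_nonneg _) (by linarith) hd

/-- if there are at least eight regions, some region is not adjacent to the face -/
theorem IsFace.exists_nonadjacent {F : Set ℂ} {i₀ : Fin n} (hN : NetPart E S)
    (hF : IsFace E S F i₀) (hn : 8 ≤ n) :
    ∃ j, j ≠ i₀ ∧ Disjoint (closure (color E S j)) (closure F) := by
  by_contra hcon
  push Not at hcon
  have key : ∀ j, j ≠ i₀ → ∃ x m r, LP E S F x m j r := by
    intro j hj
    apply hF.exists_lp hN hj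
    have h1 := hcon j hj
    rw [Set.not_disjoint_iff] at h1
    obtain ⟨x, hx1, hx2⟩ := h1
    refine ⟨x, hx1, ?_⟩
    rw [(hF.isOpen hN).frontier_eq]
    refine ⟨hx2, fun hxF => ?_⟩
    obtain ⟨p, hp1, hp2⟩ := _root_.mem_closure_iff.mp hx1 F (hF.isOpen hN) hxF
    exact Set.disjoint_left.mp (hN.color_disjoint hj) hp2 (hF.col hp1)
  choose! x m r hL using key
  have hcard : (Finset.Icc (-2 : ℤ) 3).card < (Finset.univ.filter (fun j : Fin n => j ≠ i₀)).card := by
    rw [Finset.filter_ne', Finset.card_erase_of_mem (Finset.mem_univ _), Finset.card_univ,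
      Fintype.card_fin]
    simp
    omega
  obtain ⟨a, ha, b, hb, hab, heq⟩ := Finset.exists_ne_map_eq_of_card_lt_of_maps_to hcard
    (f := fun j => secIdx (m j)) (fun j _ => secIdx_mem (m j))
  rw [Finset.mem_filter] at ha hb
  have h1 := hL a ha.2
  have h2 := hL b hb.2
  exact hab (hF.neighbour_eq hN h1 h2 (dot_of_secIdx h1.norm h2.norm heq))

end Pool.Agent.H65.Gauss
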