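import Pool.Agent.H65.NetBasic
import Pool.Agent.H65.GaussRedBd
import Pool.Agent.H65.GaussConst

/-! Facts on partitions whose interface is a straight network. -/

namespace Pool.Agent.H65.Gauss

open MeasureTheory Set Filter Topology Metric
open scoped ENNReal

/-- The sets `E i` partition the plane and the straight network `S` is their interface, up to
`H¹`-null sets. -/
structure NetPart {n : ℕ} (E : Fin n → Set ℂ) (S : Set ℂ) : Prop where
  perim : ∀ i, HasLocallyFinitePerimeter (E i)
  disj : ∀ i j, i ≠ j → volume (E i ∩ E j) = 0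
  cover : volume (⋃ i, E i)ᶜ = 0
  net : IsStraightNetwork S
  null : μH[1] (symmDiff (interface E) S) = 0

lemma halfLine_eq {a u : ℂ} (hu : u ≠ 0) :
    {x : ℂ | ∃ t : ℝ, 0 ≤ t ∧ x = a + t * u} =
      {x | crs u (x - a) = 0} ∩ {x | 0 ≤ dot u (x - a)} := by
  have hpos : 0 < u.re ^ 2 + u.im ^ 2 := by
    rcases eq_or_ne u.re 0 with h | h
    · have : u.im ≠ 0 := fun h' => hu (Complex.ext h h')
      positivity
    · positivity
  ext x
  simp only [mem_inter_iff, mem_ofPred_eq]
  constructor
  · rintro ⟨t, ht, rfl⟩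
    rw [add_sub_cancel_left, crs_smul_right, dot_smul_right, crs_self]
    refine ⟨by ring, ?_⟩
    have : dot u u = u.re ^ 2 + u.im ^ 2 := by simp [dot]; ring
    rw [this]; positivity
  · rintro ⟨h1, h2⟩
    obtain ⟨t, ht⟩ : ∃ t : ℝ, t = dot u (x - a) / (u.re ^ 2 + u.im ^ 2) := ⟨_, rfl⟩
    have ht' : t * (u.re ^ 2 + u.im ^ 2) = dot u (x - a) := by rw [ht]; field_simp
    refine ⟨t, by rw [ht]; positivity, ?_⟩
    apply sub_eq_iff_eq_add'.mp
    simp only [crs, dot, Complex.sub_re, Complex.sub_im] at h1 h2 ht'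
    apply Complex.ext
    · simp
      apply mul_left_cancel₀ hpos.ne'
      linear_combination (-u.im) * h1 - u.re * ht'
    · simp
      apply mul_left_cancel₀ hpos.ne'
      linear_combination (u.re) * h1 - u.im * ht'

lemma isClosed_halfLine {a u : ℂ} (hu : u ≠ 0) :
    IsClosed {x : ℂ | ∃ t : ℝ, 0 ≤ t ∧ x = a + t * u} := by
  rw [halfLine_eq hu]
  apply IsClosed.inter
  · exact isClosed_eq ((continuous_crs_right u).comp (continuous_id.sub continuous_const))
      continuous_const
  · exact isClosed_le continuous_const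
      ((continuous_dot_right u).comp (continuous_id.sub continuous_const))

lemma volume_line {a u : ℂ} (hu : u ≠ 0) : volume {x : ℂ | crs u (x - a) = 0} = 0 := by
  let L : ℂ →ₗ[ℝ] ℝ :=
    { toFun := fun w => crs u w
      map_add' := fun p q => crs_add_right u p q
      map_smul' := fun c q => by simp [crs]; ring }
  have hpos : 0 < u.re ^ 2 + u.im ^ 2 := by
    rcases eq_or_ne u.re 0 with h | h
    · have : u.im ≠ 0 := fun h' => hu (Complex.ext h h')
      positivity
    · positivity
  have hne : LinearMap.ker L ≠ ⊤ := by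
    intro h
    have : Complex.I * u ∈ LinearMap.ker L := by rw [h]; trivial
    rw [LinearMap.mem_ker] at this
    change crs u (Complex.I * u) = 0 at this
    simp [crs] at this
    nlinarith
  have h0 : volume (LinearMap.ker L : Set ℂ) = 0 := Measure.addHaar_submodule _ _ hne
  have : {x : ℂ | crs u (x - a) = 0} = (fun x => x - a) ⁻¹' (LinearMap.ker L : Set ℂ) := by
    ext x
    simp only [mem_ofPred_eq, mem_preimage, SetLike.mem_coe, LinearMap.mem_ker]
    rfl
  rw [this]
  simp only [sub_eq_add_neg]
  rw [measure_preimage_add_right, h0]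

lemma segment_sub_line (a b : ℂ) : segment ℝ a b ⊆ {x : ℂ | crs (b - a) (x - a) = 0} := by
  intro x hx
  rw [segment_eq_image'] at hx
  obtain ⟨t, _, rfl⟩ := hx
  simp [crs]; ring

lemma IsStraightNetwork.isClosed {S : Set ℂ} (h : IsStraightNetwork S) : IsClosed S := by
  obtain ⟨⟨C, hC, hC2, rfl⟩, _⟩ := h
  rw [sUnion_eq_biUnion]
  apply hC.isClosed_biUnion
  intro c hc
  rcases hC2 c hc with ⟨a, u, hu, rfl⟩ | ⟨a, b, hab, rfl⟩
  · exact isClosed_halfLine hu
  · rw [segment_eq_image']
    exact (isCompact_Icc.image (by fun_prop)).isClosed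

lemma IsStraightNetwork.volume_eq_zero {S : Set ℂ} (h : IsStraightNetwork S) : volume S = 0 := by
  obtain ⟨⟨C, hC, hC2, rfl⟩, _⟩ := h
  rw [measure_sUnion_null_iff hC.countable]
  intro c hc
  rcases hC2 c hc with ⟨a, u, hu, rfl⟩ | ⟨a, b, hab, rfl⟩
  · rw [halfLine_eq hu]
    exact measure_mono_null inter_subset_left (volume_line hu)
  · exact measure_mono_null (segment_sub_line a b) (volume_line (sub_ne_zero.mpr hab.symm))

/-- the open region of colour `i` -/
def color {n : ℕ} (E : Fin n → Set ℂ) (S : Set ℂ) (i : Fin n) : Set ℂ :=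
  {x | ∃ r > 0, Disjoint (ball x r) S ∧ volume (ball x r \ E i) = 0}

variable {n : ℕ} {E : Fin n → Set ℂ} {S : Set ℂ}

lemma isOpen_color (i : Fin n) : IsOpen (color E S i) := by
  rw [Metric.isOpen_iff]
  rintro x ⟨r, hr, h1, h2⟩
  refine ⟨r, hr, fun y hy => ?_⟩
  obtain ⟨s, hs, hsub⟩ := Metric.isOpen_iff.mp isOpen_ball y hy
  exact ⟨s, hs, h1.mono_left hsub, measure_mono_null (sdiff_subset_sdiff_left hsub) h2⟩

lemma color_disjoint_S (i : Fin n) : Disjoint (color E S i) S := by
  rw [Set.disjoint_left]
  rintro x ⟨r, hr, h1, h2⟩ hx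
  exact (Set.disjoint_left.mp h1) (mem_ball_self hr) hx

lemma color_subset_compl (i : Fin n) : color E S i ⊆ Sᶜ :=
  (color_disjoint_S i).subset_compl_right

namespace NetPart

variable (hN : NetPart E S)
include hN

lemma isClosed : IsClosed S := hN.net.isClosed
lemma isOpen_compl : IsOpen Sᶜ := hN.net.isClosed.isOpen_compl
lemma volume_S : volume S = 0 := hN.net.volume_eq_zero

lemma color_disjoint {i j : Fin n} (hij : i ≠ j) : Disjoint (color E S i) (color E S j) := by
  rw [Set.disjoint_left]
  rintro x ⟨r, hr, h1, h2⟩ ⟨r', hr', h1', h2'⟩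
  have hpos : 0 < volume (ball x (min r r')) := measure_ball_pos _ _ (lt_min hr hr')
  have hsub : ball x (min r r') ⊆ (ball x r \ E i) ∪ (ball x r' \ E j) ∪ (E i ∩ E j) := by
    intro y hy
    have hy1 : y ∈ ball x r := ball_subset_ball (min_le_left _ _) hy
    have hy2 : y ∈ ball x r' := ball_subset_ball (min_le_right _ _) hy
    by_cases a : y ∈ E i
    · by_cases b : y ∈ E j
      · right; exact ⟨a, b⟩
      · left; right; exact ⟨hy2, b⟩
    · left; left; exact ⟨hy1, a⟩
  have : volume (ball x (min r r')) = 0 :=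
    measure_mono_null hsub (measure_union_null (measure_union_null h2 h2') (hN.disj i j hij))
  exact hpos.ne' this

lemma ball_color {x : ℂ} {r : ℝ} (hr : 0 < r) (hd : Disjoint (ball x r) S) :
    ∃ i, volume (ball x r \ E i) = 0 := by
  by_contra hcon
  push Not at hcon
  have hnull : ∀ i, μH[1] (reducedBoundary (E i) ∩ ball x r) = 0 := by
    intro i
    apply measure_mono_null _ hN.null
    rintro y ⟨hy1, hy2⟩
    rw [mem_symmDiff]
    left
    exact ⟨mem_iUnion_of_mem i hy1, fun h => Set.disjoint_left.mp hd hy2 h⟩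
  have hz : ∀ i, volume (ball x r ∩ E i) = 0 := by
    intro i
    have := constancy_ball (hN.perim i).1 (x₀ := x) (r := r) (fun φ hφ hs =>
      integral_divergence_eq_zero_of_null (hN.perim i) (hnull i) hφ hs)
    exact this.resolve_right (hcon i)
  have hpos : 0 < volume (ball x r) := measure_ball_pos _ _ hr
  have hsub : ball x r ⊆ (⋃ i, ball x r ∩ E i) ∪ (⋃ i, E i)ᶜ := by
    intro y hy
    by_cases h : y ∈ ⋃ i, E i
    · left
      obtain ⟨i, hi⟩ := mem_iUnion.mp h
      exact mem_iUnion_of_mem i ⟨hy, hi⟩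
    · right; exact h
  have : volume (ball x r) = 0 :=
    measure_mono_null hsub (measure_union_null (measure_iUnion_null hz) hN.cover)
  exact hpos.ne' this

lemma iUnion_color : ⋃ i, color E S i = Sᶜ := by
  apply Subset.antisymm
  · exact iUnion_subset fun i => color_subset_compl i
  · intro x hx
    obtain ⟨r, hr, hsub⟩ := Metric.isOpen_iff.mp hN.isOpen_compl x hx
    have hd : Disjoint (ball x r) S := Set.subset_compl_iff_disjoint_right.mp hsub
    obtain ⟨i, hi⟩ := hN.ball_color hr hd
    exact mem_iUnion_of_mem i ⟨r, hr, hd, hi⟩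

lemma exists_color {x : ℂ} (hx : x ∉ S) : ∃ i, x ∈ color E S i := by
  have : x ∈ ⋃ i, color E S i := by rw [hN.iUnion_color]; exact hx
  exact mem_iUnion.mp this

lemma volume_color_diff (i : Fin n) : volume (color E S i \ E i) = 0 := by
  apply measure_null_of_locally_null
  rintro x ⟨⟨r, hr, h1, h2⟩, hx⟩
  refine ⟨ball x r \ E i, ?_, h2⟩
  rw [mem_nhdsWithin]
  exact ⟨ball x r, isOpen_ball, mem_ball_self hr, fun y hy => ⟨hy.1, hy.2.2⟩⟩

lemma volume_diff_color (i : Fin n) : volume (E i \ color E S i) = 0 := by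
  have hsub : E i \ color E S i ⊆
      S ∪ ⋃ j ∈ {j : Fin n | j ≠ i}, ((color E S j \ E j) ∪ (E j ∩ E i)) := by
    rintro x ⟨h1, h2⟩
    by_cases hx : x ∈ S
    · left; exact hx
    · right
      obtain ⟨j, hj⟩ := hN.exists_color hx
      have hji : j ≠ i := by rintro rfl; exact h2 hj
      simp only [mem_iUnion]
      refine ⟨j, hji, ?_⟩
      by_cases h3 : x ∈ E j
      · right; exact ⟨h3, h1⟩
      · left; exact ⟨hj, h3⟩
  apply measure_mono_null hsub
  apply measure_union_null hN.volume_S
  rw [measure_biUnion_null_iff (to_countable _)]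
  intro j hj
  exact measure_union_null (hN.volume_color_diff j) (hN.disj j i hj)

lemma color_ae (i : Fin n) : color E S i =ᵐ[volume] E i := by
  rw [ae_eq_set]
  exact ⟨hN.volume_color_diff i, hN.volume_diff_color i⟩

/-- preconnected subsets of the complement are monochromatic -/
lemma subset_color {C : Set ℂ} (hC : IsPreconnected C) (hCS : C ⊆ Sᶜ) {x : ℂ} (hx : x ∈ C)
    {i : Fin n} (hi : x ∈ color E S i) : C ⊆ color E S i := by
  apply IsPreconnected.subset_left_of_subset_union (isOpen_color i)
    (v := ⋃ j ∈ {j : Fin n | j ≠ i}, color E S j) _ _ _ ⟨x, hx, hi⟩ hC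
  · exact isOpen_biUnion fun j _ => isOpen_color j
  · rw [Set.disjoint_left]
    intro y hy hy2
    simp only [mem_iUnion] at hy2
    obtain ⟨j, hj, hy3⟩ := hy2
    exact Set.disjoint_left.mp (hN.color_disjoint hj) hy3 hy
  · intro y hy
    obtain ⟨j, hj⟩ := hN.exists_color (hCS hy)
    by_cases h : j = i
    · left; rw [← h]; exact hj
    · right
      simp only [mem_iUnion]
      exact ⟨j, h, hj⟩

/-- both sides of the network have different colours -/
lemma not_ball_subset {x : ℂ} (hx : x ∈ S) {r : ℝ} (hr : 0 < r) (i : Fin n) :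
    ¬ (ball x r \ S ⊆ color E S i) := by
  intro hsub
  have h1 : volume (ball x r \ E i) = 0 := by
    have : ball x r \ E i ⊆ S ∪ (color E S i \ E i) := by
      rintro y ⟨hy1, hy2⟩
      by_cases hy : y ∈ S
      · left; exact hy
      · right; exact ⟨hsub ⟨hy1, hy⟩, hy2⟩
    exact measure_mono_null this (measure_union_null hN.volume_S (hN.volume_color_diff i))
  have h2 : ∀ j, reducedBoundary (E j) ∩ ball x r = ∅ := by
    intro j
    apply reducedBoundary_inter_eq_empty isOpen_ball (hN.perim j).1
    by_cases hj : j = i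
    · right; rw [hj]; exact h1
    · left
      have : ball x r ∩ E j ⊆ (ball x r \ E i) ∪ (E j ∩ E i) := by
        rintro y ⟨hy1, hy2⟩
        by_cases hy : y ∈ E i
        · right; exact ⟨hy2, hy⟩
        · left; exact ⟨hy1, hy⟩
      exact measure_mono_null this (measure_union_null h1 (hN.disj j i hj))
  have h3 : μH[1] (S ∩ ball x r) = 0 := by
    apply measure_mono_null _ hN.null
    rintro y ⟨hy1, hy2⟩
    rw [mem_symmDiff]
    right
    refine ⟨hy1, fun hy => ?_⟩
    obtain ⟨j, hj⟩ := mem_iUnion.mp hy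
    have : y ∈ reducedBoundary (E j) ∩ ball x r := ⟨hj, hy2⟩
    rw [h2 j] at this
    exact this
  -- the network contains a segment starting at `x`
  have key : ∀ D : Set ℂ, LooksLike S x D → ∀ u ∈ D, ‖u‖ = 1 → False := by
    rintro D ⟨r', hr', hD⟩ u hu hu1
    set s := min r r' / 2 with hs
    have hs0 : 0 < s := by have := lt_min hr hr'; positivity
    have hs1 : s < r := by
      have := min_le_left r r'; have := lt_min hr hr'; rw [hs]; linarith
    have hs2 : s < r' := by
      have := min_le_right r r'; have := lt_min hr hr'; rw [hs]; linarith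
    have hseg : segment ℝ x (x + s * u) ⊆ S ∩ ball x r := by
      intro y hy
      rw [segment_eq_image'] at hy
      obtain ⟨t, ⟨ht0, ht1⟩, rfl⟩ := hy
      have e : x + t • (x + s * u - x) = x + ((t * s : ℝ) : ℂ) * u := by
        rw [Complex.real_smul]; push_cast; ring
      have hts : t * s ≤ s := by nlinarith
      have hts0 : 0 ≤ t * s := by positivity
      simp only [e]
      constructor
      · have : x + ((t * s : ℝ) : ℂ) * u ∈ S ∩ ball x r' := by
          rw [hD]
          exact ⟨u, hu, t * s, hts0, by linarith, rfl⟩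
        exact this.1
      · rw [mem_ball, dist_eq_norm, add_sub_cancel_left, norm_mul, hu1, mul_one, Complex.norm_real,
          Real.norm_of_nonneg hts0]
        linarith
    have h4 : μH[1] (segment ℝ x (x + s * u)) = 0 := measure_mono_null hseg h3
    rw [hausdorffMeasure_segment, edist_eq_zero] at h4
    have h5 : (s : ℂ) * u = 0 := by linear_combination (-1 : ℂ) * h4
    have h6 := congrArg norm h5
    rw [norm_mul, hu1, mul_one, Complex.norm_real, Real.norm_of_nonneg hs0.le, norm_zero] at h6
    linarith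
  obtain ⟨u, hu, h | h | h⟩ := hN.net.2 x hx
  · exact key _ h u (by simp) hu
  · exact key _ h u (by simp) hu
  · exact key _ h u (by simp) hu

end NetPart

end Pool.Agent.H65.Gauss
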