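import Pool.Agent.H65.NetConvex

/-! The frontier of a face. -/

namespace Pool.Agent.H65.Gauss

open MeasureTheory Set Filter Topology Metric
open scoped ENNReal

variable {n : ℕ} {E : Fin n → Set ℂ} {S : Set ℂ}

/-- `F` is a face of the complement, of colour `i₀`. -/
structure IsFace (E : Fin n → Set ℂ) (S F : Set ℂ) (i₀ : Fin n) : Prop where
  eq : ∃ z, z ∉ S ∧ F = connectedComponentIn Sᶜ z
  col : F ⊆ color E S i₀

/-- line point of the frontier, with outer normal `m` and neighbour `j` -/
structure LP (E : Fin n → Set ℂ) (S F : Set ℂ) (x m : ℂ) (j : Fin n) (r : ℝ) : Prop where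
  pos : 0 < r
  norm : ‖m‖ = 1
  inner : ∀ y ∈ ball x r, dot m (y - x) < 0 → y ∈ F
  outer : ∀ y ∈ ball x r, 0 < dot m (y - x) → y ∈ color E S j
  line : ∀ y ∈ ball x r, dot m (y - x) = 0 → y ∈ S

/-- triple point of the frontier -/
structure TP (E : Fin n → Set ℂ) (S F : Set ℂ) (x u : ℂ) (j1 j2 : Fin n) (r : ℝ) : Prop where
  pos : 0 < r
  norm : ‖u‖ = 1
  inner : ∀ y ∈ ball x r, sec0 u (y - x) → y ∈ F
  out1 : ∀ y ∈ ball x r, sec1 u (y - x) → y ∈ color E S j1
  out2 : ∀ y ∈ ball x r, sec2 u (y - x) → y ∈ color E S j2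
  legs : ∀ y ∈ ball x r, rays u (y - x) → y ∈ S

lemma TP.lp2 {F : Set ℂ} {x u : ℂ} {j1 j2 : Fin n} {r : ℝ} (h : TP E S F x u j1 j2 r) :
    LP E S F (x + (r / 2 : ℝ) * u) (-(Complex.I * u)) j2 (r / 4) := by
  refine ⟨by have := h.pos; positivity, by rw [norm_neg, norm_mul_I h.norm], ?_, ?_, ?_⟩
  · intro z hz hz2
    rw [dot_neg_left, dot_mul_I] at hz2
    obtain ⟨h1, _, h3, _⟩ := tripod_mid h.pos h.norm hz
    exact h.inner z h1 (h3 (by linarith))
  · intro z hz hz2
    rw [dot_neg_left, dot_mul_I] at hz2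
    obtain ⟨h1, _, _, h4⟩ := tripod_mid h.pos h.norm hz
    exact h.out2 z h1 (h4 (by linarith))
  · intro z hz hz2
    rw [dot_neg_left, dot_mul_I] at hz2
    obtain ⟨h1, h2, _⟩ := tripod_mid h.pos h.norm hz
    exact h.legs z h1 (h2.mpr (by linarith))

lemma rays_rot {u q : ℂ} : rays (rot120 * u) q ↔ rays u q := by
  have h1 : ¬ rays (rot120 * u) q ↔ ¬ rays u q := by
    rw [not_rays_iff, not_rays_iff, sec0_rot, sec1_rot, sec2_rot]; tauto
  exact not_iff_not.mp h1

lemma TP.lp1 {F : Set ℂ} {x u : ℂ} {j1 j2 : Fin n} {r : ℝ} (h : TP E S F x u j1 j2 r) :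
    LP E S F (x + (r / 2 : ℝ) * (rot120 * u)) (Complex.I * (rot120 * u)) j1 (r / 4) := by
  have hn := norm_rot120_mul h.norm
  refine ⟨by have := h.pos; positivity, norm_mul_I hn, ?_, ?_, ?_⟩
  · intro z hz hz2
    rw [dot_mul_I] at hz2
    obtain ⟨h1, _, _, h4⟩ := tripod_mid h.pos hn hz
    exact h.inner z h1 (sec2_rot.mp (h4 (by linarith)))
  · intro z hz hz2
    rw [dot_mul_I] at hz2
    obtain ⟨h1, _, h3, _⟩ := tripod_mid h.pos hn hz
    exact h.out1 z h1 (sec0_rot.mp (h3 (by linarith)))
  · intro z hz hz2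
    rw [dot_mul_I] at hz2
    obtain ⟨h1, h2, _⟩ := tripod_mid h.pos hn hz
    exact h.legs z h1 (rays_rot.mp (h2.mpr (by linarith)))

lemma LP.mem_S {F : Set ℂ} {x m : ℂ} {j : Fin n} {r : ℝ} (h : LP E S F x m j r) : x ∈ S :=
  h.line x (mem_ball_self h.pos) (by rw [sub_self]; simp [dot])

/-- the line through a line point is in the closure of the face, near the point -/
lemma LP.side {F : Set ℂ} {x m : ℂ} {j : Fin n} {r : ℝ} (h : LP E S F x m j r) {v : ℂ}
    (hv : dot m v = 0) (hvr : ‖v‖ < r) : x + v ∈ closure F := by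
  rw [Metric.mem_closure_iff]
  intro ε hε
  have hpos : 0 < r - ‖v‖ := by linarith
  set η := min (ε / 2) ((r - ‖v‖) / 2) with hη
  have hη0 : 0 < η := by positivity
  have hη1 : η ≤ ε / 2 := min_le_left _ _
  have hη2 : η ≤ (r - ‖v‖) / 2 := min_le_right _ _
  refine ⟨x + v - η * m, ?_, ?_⟩
  · apply h.inner
    · rw [mem_ball, dist_eq_norm]
      have e : x + v - η * m - x = v - η * m := by ring
      rw [e]
      calc ‖v - η * m‖ ≤ ‖v‖ + ‖(η : ℂ) * m‖ := norm_sub_le _ _
        _ < r := by
          rw [norm_mul, h.norm, mul_one, Complex.norm_real, Real.norm_of_nonneg hη0.le]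
          linarith
    · have e : x + v - η * m - x = v - η * m := by ring
      rw [e, dot_sub_right, hv, dot_smul_right, dot_self_one h.norm]
      linarith
  · rw [dist_eq_norm]
    have e : x + v - (x + v - η * m) = η * m := by ring
    rw [e, norm_mul, h.norm, mul_one, Complex.norm_real, Real.norm_of_nonneg hη0.le]
    linarith

lemma LP.mem_closure {F : Set ℂ} {x m : ℂ} {j : Fin n} {r : ℝ} (h : LP E S F x m j r) :
    x ∈ closure F := by
  have := h.side (v := 0) (by simp [dot]) (by simpa using h.pos)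
  simpa using this

namespace IsFace

variable {F : Set ℂ} {i₀ : Fin n} (hN : NetPart E S) (hF : IsFace E S F i₀)

include hF in
lemma subset_compl : F ⊆ Sᶜ := by
  obtain ⟨z, _, rfl⟩ := hF.eq
  exact connectedComponentIn_subset _ _

include hN hF in
lemma isOpen : IsOpen F := by
  obtain ⟨z, _, rfl⟩ := hF.eq
  exact hN.isOpen_compl.connectedComponentIn

include hN hF in
lemma convex : Convex ℝ F := by
  obtain ⟨z, _, rfl⟩ := hF.eq
  exact hN.convex_face z

include hF in
lemma absorb {C : Set ℂ} (hC : IsPreconnected C) (hCS : C ⊆ Sᶜ) (hne : (C ∩ F).Nonempty) :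
    C ⊆ F := by
  obtain ⟨z, _, rfl⟩ := hF.eq
  obtain ⟨p, hp1, hp2⟩ := hne
  rw [connectedComponentIn_eq hp2]
  exact hC.subset_connectedComponentIn hp1 hCS

include hN hF in
lemma frontier_subset : frontier F ⊆ S := by
  intro x hx
  by_contra hxS
  obtain ⟨r, hr, hsub⟩ := Metric.isOpen_iff.mp hN.isOpen_compl x hxS
  have hxcl : x ∈ closure F := frontier_subset_closure hx
  obtain ⟨p, hp, hpx⟩ := Metric.mem_closure_iff.mp hxcl r hr
  have h1 : ball x r ⊆ F := hF.absorb (convex_ball x r).isPreconnected hsub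
    ⟨p, by rwa [mem_ball, dist_comm], hp⟩
  have h2 : x ∈ F := h1 (mem_ball_self hr)
  rw [(hF.isOpen hN).frontier_eq] at hx
  exact hx.2 h2

include hN hF in
lemma classify {x : ℂ} (hx : x ∈ frontier F) :
    (∃ m j r, j ≠ i₀ ∧ LP E S F x m j r) ∨
      (∃ u j1 j2 r, j1 ≠ i₀ ∧ j2 ≠ i₀ ∧ TP E S F x u j1 j2 r) := by
  have hxS : x ∈ S := hF.frontier_subset hN hx
  have hxcl : x ∈ closure F := frontier_subset_closure hx
  have line : ∀ u r, LineAt S x u r → (∃ z ∈ ball x r, z ∈ F ∧ crs u (z - x) < 0) →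
      (∃ m j r, j ≠ i₀ ∧ LP E S F x m j r) := by
    rintro u r h ⟨z, hz1, hz2, hz3⟩
    obtain ⟨j, hj⟩ := hN.line_color h
    have hin : ∀ y ∈ ball x r, crs u (y - x) < 0 → y ∈ F := by
      have hconv : Convex ℝ (ball x r ∩ {y | crs u (y - x) < 0}) :=
        (convex_ball x r).inter (convex_crs_neg u x)
      have := hF.absorb hconv.isPreconnected (by
        rintro y ⟨hy1, hy2⟩ hyS
        rw [h.mem y hy1] at hyS
        simp only [mem_ofPred_eq] at hy2
        linarith) ⟨z, ⟨hz1, hz3⟩, hz2⟩
      exact fun y hy1 hy2 => this ⟨hy1, hy2⟩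
    refine ⟨Complex.I * u, j, r, ?_, h.pos, norm_mul_I h.norm, ?_, ?_, ?_⟩
    · exact hN.line_sides hxS h hj (fun y hy1 hy2 => hF.col (hin y hy1 hy2))
    · intro y hy1 hy2
      rw [dot_mul_I] at hy2
      exact hin y hy1 hy2
    · intro y hy1 hy2
      rw [dot_mul_I] at hy2
      exact hj y hy1 hy2
    · intro y hy1 hy2
      rw [dot_mul_I] at hy2
      exact (h.mem y hy1).mpr hy2
  have trip : ∀ u r, TripodAt S x u r → (∃ z ∈ ball x r, z ∈ F ∧ sec0 u (z - x)) →
      (∃ u j1 j2 r, j1 ≠ i₀ ∧ j2 ≠ i₀ ∧ TP E S F x u j1 j2 r) := by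
    rintro u r h ⟨z, hz1, hz2, hz3⟩
    obtain ⟨j1, hj1⟩ := hN.tripod_color h.rot
    obtain ⟨j2, hj2⟩ := hN.tripod_color h.rot.rot
    have hj1' : ∀ y ∈ ball x r, sec1 u (y - x) → y ∈ color E S j1 :=
      fun y hy1 hy2 => hj1 y hy1 (sec0_rot.mpr hy2)
    have hj2' : ∀ y ∈ ball x r, sec2 u (y - x) → y ∈ color E S j2 :=
      fun y hy1 hy2 => hj2 y hy1 (sec0_rot.mpr (sec1_rot.mpr hy2))
    have hin : ∀ y ∈ ball x r, sec0 u (y - x) → y ∈ F := by
      have hconv : Convex ℝ (ball x r ∩ {y | sec0 u (y - x)}) :=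
        (convex_ball x r).inter (convex_sec0 u x)
      have := hF.absorb hconv.isPreconnected (by
        rintro y ⟨hy1, hy2⟩ hyS
        rw [h.mem hy1] at hyS
        exact not_rays_iff.mpr (Or.inl hy2) hyS) ⟨z, ⟨hz1, hz3⟩, hz2⟩
      exact fun y hy1 hy2 => this ⟨hy1, hy2⟩
    refine ⟨u, j1, j2, r, ?_, ?_, h.pos, h.norm, hin, hj1', hj2', fun y hy1 hy2 =>
      (h.mem hy1).mpr hy2⟩
    · exact hN.tripod_adj h.rot hj1 (fun y hy1 hy2 => hF.col (hin y hy1 (sec2_rot.mp hy2)))
    · exact (hN.tripod_adj h (fun y hy1 hy2 => hF.col (hin y hy1 hy2)) hj2').symm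
  rcases hN.germ hxS with ⟨u, r, h⟩ | ⟨u, r, h⟩
  · left
    obtain ⟨p, hp, hpx⟩ := Metric.mem_closure_iff.mp hxcl r h.pos
    have hpb : p ∈ ball x r := by rwa [mem_ball, dist_comm]
    have hpS : p ∉ S := hF.subset_compl hp
    rw [h.mem p hpb] at hpS
    rcases lt_or_gt_of_ne hpS with h' | h'
    · exact line u r h ⟨p, hpb, hp, h'⟩
    · exact line (-u) r h.neg ⟨p, hpb, hp, by rw [crs_neg_left]; linarith⟩
  · right
    obtain ⟨p, hp, hpx⟩ := Metric.mem_closure_iff.mp hxcl r h.pos
    have hpb : p ∈ ball x r := by rwa [mem_ball, dist_comm]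
    have hpS : p ∉ S := hF.subset_compl hp
    rw [h.mem hpb, not_rays_iff] at hpS
    rcases hpS with h' | h' | h'
    · exact trip u r h ⟨p, hpb, hp, h'⟩
    · exact trip _ r h.rot ⟨p, hpb, hp, sec0_rot.mpr h'⟩
    · exact trip _ r h.rot.rot ⟨p, hpb, hp, sec0_rot.mpr (sec1_rot.mpr h')⟩

include hN hF in
/-- the face lies on one side of the line through a line point -/
lemma support {x m : ℂ} {j : Fin n} {r : ℝ} (h : LP E S F x m j r) {p : ℂ} (hp : p ∈ F) :
    dot m (p - x) < 0 := by
  by_contra hcon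
  push Not at hcon
  obtain ⟨ε, hε, hsub⟩ := Metric.isOpen_iff.mp (hF.isOpen hN) p hp
  set p' := p + ((ε / 2 : ℝ) : ℂ) * m with hp'
  have hp'F : p' ∈ F := hsub (add_smul_mem_ball h.norm (by
    rw [abs_of_pos (by positivity)]; linarith))
  have hpos : 0 < dot m (p' - x) := by
    have e : p' - x = (p - x) + ((ε / 2 : ℝ) : ℂ) * m := by rw [hp']; ring
    rw [e, dot_add_right, dot_smul_right, dot_self_one h.norm]
    linarith
  have hn : 0 < ‖p' - x‖ + 1 := by positivity
  have hr := h.pos
  obtain ⟨s, hs0, hs1⟩ : ∃ s : ℝ, 0 < s ∧ s * ‖p' - x‖ < r := by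
    refine ⟨r / 2 / (‖p' - x‖ + 1), by positivity, ?_⟩
    calc r / 2 / (‖p' - x‖ + 1) * ‖p' - x‖ ≤ r / 2 / (‖p' - x‖ + 1) * (‖p' - x‖ + 1) := by
          gcongr; linarith
      _ = r / 2 := by field_simp
      _ < r := by linarith
  have hy : x + ((-s : ℝ) : ℂ) * (p' - x) ∈ F := by
    apply h.inner
    · rw [mem_ball, dist_eq_norm, add_sub_cancel_left, norm_mul, Complex.norm_real, norm_neg,
        Real.norm_of_nonneg hs0.le]
      exact hs1
    · rw [add_sub_cancel_left, dot_smul_right]
      nlinarith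
  have hx : x ∈ F := by
    have hc := (hF.convex hN) hy hp'F (a := 1 / (1 + s)) (b := s / (1 + s)) (by positivity)
      (by positivity) (by field_simp)
    have e : (1 / (1 + s)) • (x + ((-s : ℝ) : ℂ) * (p' - x)) + (s / (1 + s)) • p' = x := by
      have h1 : (1 : ℂ) + s ≠ 0 := by
        have : (1 : ℂ) + s = ((1 + s : ℝ) : ℂ) := by push_cast; ring
        rw [this]
        exact_mod_cast (by positivity : (1 + s : ℝ) ≠ 0)
      simp only [Complex.real_smul]
      push_cast
      field_simp
      ring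
    rwa [e] at hc
  exact hF.subset_compl hx h.mem_S

include hN hF in
lemma support_closure {x m : ℂ} {j : Fin n} {r : ℝ} (h : LP E S F x m j r) {p : ℂ}
    (hp : p ∈ closure F) : dot m (p - x) ≤ 0 := by
  have hcl : IsClosed {p | dot m (p - x) ≤ 0} :=
    isClosed_le ((continuous_dot_right m).comp (continuous_id.sub continuous_const))
      continuous_const
  have hsub : F ⊆ {p | dot m (p - x) ≤ 0} := fun q hq => (hF.support hN h hq).le
  exact hcl.closure_subset_iff.mpr hsub hp

include hN hF in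
lemma cone {x u : ℂ} {j1 j2 : Fin n} {r : ℝ} (h : TP E S F x u j1 j2 r) {p : ℂ}
    (hp : p ∈ closure F) :
    0 ≤ crs u (p - x) ∧ 0 ≤ Real.sqrt 3 * dot u (p - x) + crs u (p - x) := by
  constructor
  · have := hF.support_closure hN h.lp2 hp
    have e : p - (x + ((r / 2 : ℝ) : ℂ) * u) = (p - x) - ((r / 2 : ℝ) : ℂ) * u := by ring
    rw [dot_neg_left, dot_mul_I, e, crs_sub_right, crs_smul_right, crs_self] at this
    linarith
  · have := hF.support_closure hN h.lp1 hp
    have e : p - (x + ((r / 2 : ℝ) : ℂ) * (rot120 * u)) =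
      (p - x) - ((r / 2 : ℝ) : ℂ) * (rot120 * u) := by ring
    rw [dot_mul_I, e, crs_sub_right, crs_smul_right, crs_self, crs_rot_left] at this
    linarith

include hN hF in
/-- no line through a triple point stays in the closure of the face -/
lemma no_line {x u : ℂ} {j1 j2 : Fin n} {r : ℝ} (h : TP E S F x u j1 j2 r) {v : ℂ} {a b : ℝ}
    (ha : 0 < a) (hb : 0 < b)
    (h1 : x + a * v ∈ closure F) (h2 : x + ((-b : ℝ) : ℂ) * v ∈ closure F) : v = 0 := by
  have h3p : 0 < Real.sqrt 3 := Real.sqrt_pos.mpr (by norm_num)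
  obtain ⟨c1, c2⟩ := hF.cone hN h h1
  obtain ⟨c3, c4⟩ := hF.cone hN h h2
  rw [add_sub_cancel_left, crs_smul_right] at c1 c2 c3 c4
  rw [dot_smul_right] at c2 c4
  have d1 : 0 ≤ crs u v := nonneg_of_mul_nonneg_right c1 ha
  have d2 : crs u v ≤ 0 := by
    by_contra hcon
    have := mul_pos hb (not_le.mp hcon)
    linarith
  have d0 : crs u v = 0 := le_antisymm d2 d1
  rw [d0] at c2 c4
  have d3 : 0 ≤ dot u v := by
    by_contra hcon
    have := mul_pos (mul_pos h3p ha) (neg_pos.mpr (not_le.mp hcon))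
    linarith
  have d4 : dot u v ≤ 0 := by
    by_contra hcon
    have := mul_pos (mul_pos h3p hb) (not_le.mp hcon)
    linarith
  rw [frame h.norm v, d0, le_antisymm d4 d3]
  simp

include hN hF in
/-- uniqueness of the normal -/
lemma normal_unique {x m m' : ℂ} {j : Fin n} {r : ℝ} (h : LP E S F x m j r) (hm' : ‖m'‖ = 1)
    (hsub : ∀ p ∈ F, dot m' (p - x) < 0) : m = m' := by
  by_contra hne
  have h1 := norm_one_iff.mp h.norm
  have h2 := norm_one_iff.mp hm'
  have hr := h.pos
  -- `q = ε (m' - m)`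
  have hd : dot m m' < 1 := by
    have : 0 < (m.re - m'.re) ^ 2 + (m.im - m'.im) ^ 2 := by
      rcases eq_or_ne m.re m'.re with h3 | h3
      · have h4 : m.im ≠ m'.im := fun h4 => hne (Complex.ext h3 h4)
        have := sub_ne_zero.mpr h4
        positivity
      · have := sub_ne_zero.mpr h3
        positivity
    unfold dot
    nlinarith
  have hnorm : ‖m' - m‖ ≤ 2 := by
    calc ‖m' - m‖ ≤ ‖m'‖ + ‖m‖ := norm_sub_le _ _
      _ = 2 := by rw [hm', h.norm]; norm_num
  have hF1 : x + ((r / 4 : ℝ) : ℂ) * (m' - m) ∈ F := by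
    apply h.inner
    · rw [mem_ball, dist_eq_norm, add_sub_cancel_left, norm_mul, Complex.norm_real,
        Real.norm_of_nonneg (by positivity)]
      nlinarith
    · rw [add_sub_cancel_left, dot_smul_right, dot_sub_right, dot_self_one h.norm]
      nlinarith
  have := hsub _ hF1
  rw [add_sub_cancel_left, dot_smul_right, dot_sub_right, dot_self_one hm', dot_comm m' m] at this
  nlinarith

include hN in
/-- the colours of nearby line points with the same normal agree -/
lemma lp_color_eq {x x' m : ℂ} {j j' : Fin n} {r r' : ℝ} (h : LP E S F x m j r)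
    (h' : LP E S F x' m j' r') (hx : x' ∈ ball x r) (hd : dot m (x' - x) = 0) : j = j' := by
  by_contra hne
  have hr := h.pos
  have hr' := h'.pos
  have hx2 : ‖x' - x‖ < r := by rwa [mem_ball, dist_eq_norm] at hx
  have hpos : 0 < r - ‖x' - x‖ := by linarith
  set η := min (r' / 2) ((r - ‖x' - x‖) / 2) with hη
  have hη0 : 0 < η := by positivity
  have hη1 : η ≤ r' / 2 := min_le_left _ _
  have hη2 : η ≤ (r - ‖x' - x‖) / 2 := min_le_right _ _
  have hz1 : x' + η * m ∈ color E S j' := by
    apply h'.outer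
    · apply add_smul_mem_ball h.norm
      rw [abs_of_pos hη0]; linarith
    · rw [add_sub_cancel_left, dot_smul_right, dot_self_one h.norm]; linarith
  have hz2 : x' + η * m ∈ color E S j := by
    have e : x' + η * m - x = (x' - x) + η * m := by ring
    apply h.outer
    · rw [mem_ball, dist_eq_norm, e]
      calc ‖(x' - x) + η * m‖ ≤ ‖x' - x‖ + ‖(η : ℂ) * m‖ := norm_add_le _ _
        _ < r := by
          rw [norm_mul, h.norm, mul_one, Complex.norm_real, Real.norm_of_nonneg hη0.le]
          linarith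
    · rw [e, dot_add_right, hd, dot_smul_right, dot_self_one h.norm]; linarith
  exact Set.disjoint_left.mp (hN.color_disjoint hne) hz2 hz1

include hN hF in
/-- line points with the same normal have the same neighbour -/
lemma lp_same_normal {x x' m : ℂ} {j j' : Fin n} {r r' : ℝ} (h : LP E S F x m j r)
    (h' : LP E S F x' m j' r') : j = j' := by
  have hd : dot m (x' - x) = 0 := by
    apply le_antisymm (hF.support_closure hN h h'.mem_closure)
    have := hF.support_closure hN h' h.mem_closure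
    rw [dot_sub_right] at this ⊢
    linarith
  have hr := h.pos
  have hr' := h'.pos
  -- direction of the segment
  have key : ∀ t : ℝ, 0 ≤ t → t ≤ 1 → ∃ k r'', LP E S F (x + t * (x' - x)) m k r'' := by
    intro t ht0 ht1
    set y := x + t * (x' - x) with hy
    have hyd : dot m (y - x) = 0 := by
      rw [hy, add_sub_cancel_left, dot_smul_right, hd, mul_zero]
    have hycl : y ∈ closure F := by
      have := (hF.convex hN).closure.segment_subset h.mem_closure h'.mem_closure
      apply this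
      rw [segment_eq_image']
      exact ⟨t, ⟨ht0, ht1⟩, by rw [hy, ← Complex.real_smul]⟩
    have hyF : y ∉ F := fun hcon => by
      have := hF.support hN h hcon
      linarith
    have hyfr : y ∈ frontier F := by
      rw [(hF.isOpen hN).frontier_eq]; exact ⟨hycl, hyF⟩
    have hsubm : ∀ p ∈ F, dot m (p - y) < 0 := by
      intro p hp
      have := hF.support hN h hp
      have e : p - y = (p - x) - (y - x) := by ring
      rw [e, dot_sub_right, hyd]; linarith
    rcases hF.classify hN hyfr with ⟨m'', k, r'', _, hLP⟩ | ⟨u, j1, j2, r'', _, _, hTP⟩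
    · have := hF.normal_unique hN hLP h.norm hsubm
      subst this
      exact ⟨k, r'', hLP⟩
    · exfalso
      rcases eq_or_ne x x' with hxx | hxx
      · -- `x = x'`: use the line through `x`
        have hyx : y = x := by rw [hy, ← hxx]; ring
        rw [hyx] at hTP
        have hv : Complex.I * m = 0 := by
          apply hF.no_line hN hTP (a := r / 2) (b := r / 2) (by positivity) (by positivity)
          · apply h.side
            · rw [dot_smul_right, dot_comm, dot_mul_I, crs_self, mul_zero]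
            · rw [norm_mul, norm_mul_I h.norm, mul_one, Complex.norm_real,
                Real.norm_of_nonneg (by positivity)]
              linarith
          · apply h.side
            · rw [dot_smul_right, dot_comm, dot_mul_I, crs_self, mul_zero]
            · rw [norm_mul, norm_mul_I h.norm, mul_one, Complex.norm_real, norm_neg,
                Real.norm_of_nonneg (by positivity)]
              linarith
        have := norm_mul_I h.norm
        rw [hv] at this
        simp at this
      · have hne : x' - x ≠ 0 := sub_ne_zero.mpr hxx.symm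
        have hnpos : 0 < ‖x' - x‖ := norm_pos_iff.mpr hne
        apply hne
        -- small extensions of the segment
        apply hF.no_line hN hTP (v := x' - x) (a := (1 - t) + r' / 2 / ‖x' - x‖)
          (b := t + r / 2 / ‖x' - x‖)
        · have : 0 ≤ 1 - t := by linarith
          positivity
        · positivity
        · have e : y + (((1 - t) + r' / 2 / ‖x' - x‖ : ℝ) : ℂ) * (x' - x) =
            x' + ((r' / 2 / ‖x' - x‖ : ℝ) : ℂ) * (x' - x) := by
            rw [hy]; push_cast; ring
          rw [e]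
          apply h'.side
          · rw [dot_smul_right, hd, mul_zero]
          · rw [norm_mul, Complex.norm_real, Real.norm_of_nonneg (by positivity)]
            rw [div_mul_cancel₀ _ hnpos.ne']
            linarith
        · have e : y + ((-(t + r / 2 / ‖x' - x‖) : ℝ) : ℂ) * (x' - x) =
            x + ((-(r / 2 / ‖x' - x‖) : ℝ) : ℂ) * (x' - x) := by
            rw [hy]; push_cast; ring
          rw [e]
          apply h.side
          · rw [dot_smul_right, hd, mul_zero]
          · rw [norm_mul, Complex.norm_real, norm_neg, Real.norm_of_nonneg (by positivity)]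
            rw [div_mul_cancel₀ _ hnpos.ne']
            linarith
  -- the colour is locally constant along the segment
  haveI : Nonempty (Fin n) := ⟨j⟩
  choose! k rr hk using key
  have hlc : IsLocallyConstant (fun t : unitInterval => k t) := by
    rw [IsLocallyConstant.iff_eventually_eq]
    intro t
    have hLt := hk t t.2.1 t.2.2
    have hcont : Continuous (fun s : unitInterval => x + ((s : ℝ) : ℂ) * (x' - x)) := by fun_prop
    have hball : ball (x + ((t : ℝ) : ℂ) * (x' - x)) (rr t) ∈
      𝓝 (x + ((t : ℝ) : ℂ) * (x' - x)) := ball_mem_nhds _ hLt.pos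
    filter_upwards [hcont.continuousAt.preimage_mem_nhds hball] with s hs
    have hLs := hk s s.2.1 s.2.2
    refine (lp_color_eq hN hLt hLs hs ?_).symm
    have e : x + ((s : ℝ) : ℂ) * (x' - x) - (x + ((t : ℝ) : ℂ) * (x' - x)) =
      (((s : ℝ) - (t : ℝ) : ℝ) : ℂ) * (x' - x) := by push_cast; ring
    rw [e, dot_smul_right, hd, mul_zero]
  have h01 : k ((0 : unitInterval) : ℝ) = k ((1 : unitInterval) : ℝ) :=
    hlc.apply_eq_of_preconnectedSpace 0 1
  have e0 : k ((0 : unitInterval) : ℝ) = j := by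
    have h0 := hk 0 le_rfl zero_le_one
    have hx0 : x + ((0:ℝ) : ℂ) * (x' - x) = x := by simp
    rw [hx0] at h0
    exact (lp_color_eq hN h h0 (mem_ball_self h.pos) (by rw [sub_self]; simp [dot])).symm
  have e1 : k ((1 : unitInterval) : ℝ) = j' := by
    have h1 := hk 1 zero_le_one le_rfl
    have hx1 : x + ((1:ℝ) : ℂ) * (x' - x) = x' := by simp
    rw [hx1] at h1
    exact (lp_color_eq hN h' h1 (mem_ball_self h'.pos) (by rw [sub_self]; simp [dot])).symm
  rw [← e0, h01, e1]

end IsFace

end Pool.Agent.H65.Gauss
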