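import Pool.Agent.H65.NetFacts

/-! Germs of straight networks. -/

namespace Pool.Agent.H65.Gauss

open MeasureTheory Set Filter Topology Metric
open scoped ENNReal

lemma dot_mul_I (u q : ℂ) : dot (Complex.I * u) q = crs u q := by simp [dot, crs]; ring
lemma crs_mul_I (u q : ℂ) : crs (Complex.I * u) q = - dot u q := by simp [dot, crs]; ring
lemma dot_neg_left (u q : ℂ) : dot (-u) q = - dot u q := by simp [dot]; ring
lemma crs_neg_left (u q : ℂ) : crs (-u) q = - crs u q := by simp [crs]; ring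
lemma dot_comm (u q : ℂ) : dot u q = dot q u := by simp [dot]; ring
lemma norm_mul_I {u : ℂ} (hu : ‖u‖ = 1) : ‖Complex.I * u‖ = 1 := by simp [hu]

lemma abs_dot_le (u q : ℂ) : |dot u q| ≤ ‖u‖ * ‖q‖ := by
  rw [dot_eq_inner]; exact abs_real_inner_le_norm u q

lemma abs_crs_le (u q : ℂ) : |crs u q| ≤ ‖u‖ * ‖q‖ := by
  rw [← dot_mul_I]
  have := abs_dot_le (Complex.I * u) q
  simpa using this

lemma norm_sq_coords {u : ℂ} (hu : ‖u‖ = 1) (q : ℂ) : ‖q‖ ^ 2 = dot u q ^ 2 + crs u q ^ 2 := by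
  have h := norm_one_iff.mp hu
  have h2 : ‖q‖ ^ 2 = q.re ^ 2 + q.im ^ 2 := by
    rw [Complex.sq_norm, Complex.normSq_apply]; ring
  rw [h2]
  simp only [dot, crs]
  linear_combination (-(q.re ^ 2 + q.im ^ 2)) * h

lemma dot_coords {u : ℂ} (hu : ‖u‖ = 1) (p q : ℂ) :
    dot p q = dot u p * dot u q + crs u p * crs u q := by
  have h := norm_one_iff.mp hu
  simp only [dot, crs]
  linear_combination (-(p.re * q.re + p.im * q.im)) * h

lemma dot_rot_left (u q : ℂ) : dot (rot120 * u) q = -1/2 * dot u q + Real.sqrt 3 / 2 * crs u q := by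
  rw [rot120_eq]; simp [dot, crs]; ring

lemma crs_rot_left (u q : ℂ) :
    crs (rot120 * u) q = -1/2 * crs u q - Real.sqrt 3 / 2 * dot u q := by
  rw [rot120_eq]; simp [dot, crs]; ring

lemma sec0_rot {u q : ℂ} : sec0 (rot120 * u) q ↔ sec1 u q := by
  have h3 : Real.sqrt 3 * Real.sqrt 3 = 3 := Real.mul_self_sqrt (by norm_num)
  unfold sec0 sec1
  rw [dot_rot_left, crs_rot_left]
  constructor
  · rintro ⟨h1, h2⟩; constructor <;> nlinarith
  · rintro ⟨h1, h2⟩; constructor <;> nlinarith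

lemma sec1_rot {u q : ℂ} : sec1 (rot120 * u) q ↔ sec2 u q := by
  have h3 : Real.sqrt 3 * Real.sqrt 3 = 3 := Real.mul_self_sqrt (by norm_num)
  unfold sec1 sec2
  rw [dot_rot_left, crs_rot_left]
  constructor
  · rintro ⟨h1, h2⟩; constructor <;> nlinarith
  · rintro ⟨h1, h2⟩; constructor <;> nlinarith

lemma sec2_rot {u q : ℂ} : sec2 (rot120 * u) q ↔ sec0 u q := by
  have h3 : Real.sqrt 3 * Real.sqrt 3 = 3 := Real.mul_self_sqrt (by norm_num)
  unfold sec2 sec0
  rw [dot_rot_left, crs_rot_left]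
  constructor
  · rintro ⟨h1, h2⟩; constructor <;> nlinarith
  · rintro ⟨h1, h2⟩; constructor <;> nlinarith

/-- the three closed rays -/
def rays (u q : ℂ) : Prop :=
  (crs u q = 0 ∧ 0 ≤ dot u q) ∨ (Real.sqrt 3 * dot u q + crs u q = 0 ∧ 0 ≤ crs u q) ∨
    (Real.sqrt 3 * dot u q - crs u q = 0 ∧ crs u q ≤ 0)

lemma not_rays_iff {u q : ℂ} : ¬ rays u q ↔ sec0 u q ∨ sec1 u q ∨ sec2 u q := by
  constructor
  · intro h
    unfold rays at h
    push Not at h
    obtain ⟨h0, h1, h2⟩ := h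
    apply sec_cases
    · rintro ⟨a, b⟩; exact absurd b (not_le.mpr (h0 a))
    · rintro ⟨a, b⟩; exact absurd b (not_le.mpr (h1 a))
    · rintro ⟨a, b⟩; exact absurd b (not_le.mpr (h2 a))
  · exact sec_not_ray

/-- `S` is a straight line near `x` -/
structure LineAt (S : Set ℂ) (x u : ℂ) (r : ℝ) : Prop where
  pos : 0 < r
  norm : ‖u‖ = 1
  mem : ∀ y ∈ ball x r, y ∈ S ↔ crs u (y - x) = 0

/-- `S` is a tripod near `x` -/
structure TripodAt (S : Set ℂ) (x u : ℂ) (r : ℝ) : Prop where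
  pos : 0 < r
  norm : ‖u‖ = 1
  eq : S ∩ ball x r =
    {y | ∃ d ∈ ({u, rot120 * u, rot120 ^ 2 * u} : Set ℂ), ∃ t : ℝ, 0 ≤ t ∧ t < r ∧ y = x + t * d}

lemma LineAt.neg {S : Set ℂ} {x u : ℂ} {r : ℝ} (h : LineAt S x u r) : LineAt S x (-u) r := by
  refine ⟨h.pos, by rw [norm_neg, h.norm], fun y hy => ?_⟩
  rw [h.mem y hy, crs_neg_left, neg_eq_zero]

lemma TripodAt.rot {S : Set ℂ} {x u : ℂ} {r : ℝ} (h : TripodAt S x u r) :
    TripodAt S x (rot120 * u) r := by
  refine ⟨h.pos, norm_rot120_mul h.norm, ?_⟩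
  rw [triple_rot, h.eq]

lemma TripodAt.mem {S : Set ℂ} {x u : ℂ} {r : ℝ} (h : TripodAt S x u r) {y : ℂ}
    (hy : y ∈ ball x r) : y ∈ S ↔ rays u (y - x) := by
  have h1 : y ∈ S ↔ y ∈ S ∩ ball x r := ⟨fun h => ⟨h, hy⟩, fun h => h.1⟩
  rw [h1, h.eq]
  exact mem_tripod_iff h.norm hy

lemma convex_pos_of_linear {f : ℂ → ℝ} (hf : IsLinearMap ℝ f) (x : ℂ) :
    Convex ℝ {y | 0 < f (y - x)} := by
  intro y hy z hz a b ha hb hab
  simp only [mem_ofPred_eq] at hy hz ⊢
  have e : a • y + b • z - x = a • (y - x) + b • (z - x) := by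
    have : x = (a + b) • x := by rw [hab, one_smul]
    conv_lhs => rw [this]
    rw [add_smul, smul_sub, smul_sub]; abel
  rw [e, hf.map_add, hf.map_smul, hf.map_smul, smul_eq_mul, smul_eq_mul]
  rcases ha.eq_or_lt with h | h
  · have : b = 1 := by linarith
    rw [← h, this]; simpa using hz
  · have : 0 ≤ b * f (z - x) := mul_nonneg hb (le_of_lt hz)
    have : 0 < a * f (y - x) := mul_pos h hy
    linarith

lemma isLinear_dot_crs (u : ℂ) (α β : ℝ) : IsLinearMap ℝ (fun q => α * dot u q + β * crs u q) :=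
  { map_add := fun p q => by rw [dot_add_right, crs_add_right]; ring
    map_smul := fun c q => by simp [dot, crs]; ring }

lemma convex_crs_pos (u x : ℂ) : Convex ℝ {y | 0 < crs u (y - x)} := by
  have := convex_pos_of_linear (isLinear_dot_crs u 0 1) x
  simpa using this

lemma convex_crs_neg (u x : ℂ) : Convex ℝ {y | crs u (y - x) < 0} := by
  have := convex_pos_of_linear (isLinear_dot_crs u 0 (-1)) x
  simpa using this

lemma convex_sec0 (u x : ℂ) : Convex ℝ {y | sec0 u (y - x)} := by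
  have h1 := convex_pos_of_linear (isLinear_dot_crs u 0 1) x
  have h2 := convex_pos_of_linear (isLinear_dot_crs u (Real.sqrt 3) 1) x
  have := h1.inter h2
  simpa [sec0, ofPred_and] using this

/-- the point at distance `s` in direction `u` -/
lemma add_smul_mem_ball {x u : ℂ} (hu : ‖u‖ = 1) {s r : ℝ} (hs : |s| < r) :
    x + s * u ∈ ball x r := by
  rw [mem_ball, dist_eq_norm, add_sub_cancel_left, norm_mul, hu, mul_one, Complex.norm_real]
  exact hs

/-- a tripod gives a line at the middle of each of its legs -/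
lemma tripod_mid {x u : ℂ} {r : ℝ} (hr : 0 < r) (hu : ‖u‖ = 1) {z : ℂ}
    (hz : z ∈ ball (x + (r / 2 : ℝ) * u) (r / 4)) :
    z ∈ ball x r ∧ (rays u (z - x) ↔ crs u (z - (x + (r / 2 : ℝ) * u)) = 0) ∧
      (0 < crs u (z - (x + (r / 2 : ℝ) * u)) → sec0 u (z - x)) ∧
      (crs u (z - (x + (r / 2 : ℝ) * u)) < 0 → sec2 u (z - x)) := by
  have h3 : Real.sqrt 3 * Real.sqrt 3 = 3 := Real.mul_self_sqrt (by norm_num)
  have h3p : 1 < Real.sqrt 3 := by
    rw [Real.lt_sqrt] <;> norm_num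
  set y := x + (r / 2 : ℝ) * u with hy
  have hz' : ‖z - y‖ < r / 4 := by rwa [mem_ball, dist_eq_norm] at hz
  have e : z - x = (z - y) + (r / 2 : ℝ) * u := by rw [hy]; ring
  have ed : dot u (z - x) = dot u (z - y) + r / 2 := by
    rw [e, dot_add_right, dot_smul_right, dot_self_one hu]; ring
  have ec : crs u (z - x) = crs u (z - y) := by
    rw [e, crs_add_right, crs_smul_right, crs_self]; ring
  have h1 := abs_dot_le u (z - y)
  have h2 := abs_crs_le u (z - y)
  rw [hu, one_mul] at h1 h2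
  have h1' := abs_le.mp h1
  have h2' := abs_le.mp h2
  have hd : r / 4 < dot u (z - x) := by rw [ed]; linarith [h1'.1]
  have hc1 : crs u (z - x) < r / 4 := by rw [ec]; linarith [h2'.2]
  have hc2 : -(r / 4) < crs u (z - x) := by rw [ec]; linarith [h2'.1]
  have hs : r / 4 < Real.sqrt 3 * dot u (z - x) := by nlinarith
  refine ⟨?_, ?_, ?_, ?_⟩
  · rw [mem_ball, dist_eq_norm, e]
    calc ‖(z - y) + (r / 2 : ℝ) * u‖ ≤ ‖z - y‖ + ‖((r / 2 : ℝ) : ℂ) * u‖ := norm_add_le _ _
      _ < r := by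
        rw [norm_mul, hu, mul_one, Complex.norm_real, Real.norm_of_nonneg (by positivity)]
        linarith
  · rw [← ec]
    unfold rays
    constructor
    · rintro (⟨a, _⟩ | ⟨a, b⟩ | ⟨a, b⟩)
      · exact a
      · linarith
      · linarith
    · intro h; left; exact ⟨h, by linarith⟩
  · intro h
    rw [← ec] at h
    exact ⟨h, by linarith⟩
  · intro h
    rw [← ec] at h
    exact ⟨h, by linarith⟩

lemma TripodAt.lineAt {S : Set ℂ} {x u : ℂ} {r : ℝ} (h : TripodAt S x u r) :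
    LineAt S (x + (r / 2 : ℝ) * u) u (r / 4) := by
  refine ⟨by have := h.pos; positivity, h.norm, fun z hz => ?_⟩
  obtain ⟨h1, h2, _⟩ := tripod_mid h.pos h.norm hz
  rw [h.mem h1, h2]

variable {n : ℕ} {E : Fin n → Set ℂ} {S : Set ℂ}

namespace NetPart

variable (hN : NetPart E S)
include hN

/-- there are no free ends -/
lemma no_free_end {x u : ℂ} (hx : x ∈ S) (hu : ‖u‖ = 1) : ¬ LooksLike S x {u} := by
  rintro ⟨r, hr, hD⟩
  -- the slit disc is star-shaped
  have hmem : ∀ y ∈ ball x r, y ∈ S ↔ crs u (y - x) = 0 ∧ 0 ≤ dot u (y - x) := by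
    intro y hy
    have h1 : y ∈ S ↔ y ∈ S ∩ ball x r := ⟨fun h => ⟨h, hy⟩, fun h => h.1⟩
    rw [h1, hD]
    constructor
    · rintro ⟨d, hd, t, ht0, ht1, rfl⟩
      rw [mem_singleton_iff] at hd
      rw [hd, add_sub_cancel_left, crs_smul_right, dot_smul_right, crs_self, dot_self_one hu]
      constructor <;> linarith
    · rintro ⟨h1, h2⟩
      have hnorm : ‖y - x‖ < r := by rwa [mem_ball, dist_eq_norm] at hy
      have e : y - x = (dot u (y - x) : ℂ) * u := by
        conv_lhs => rw [frame hu (y - x), h1]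
        simp
      refine ⟨u, rfl, dot u (y - x), h2, ?_, sub_eq_iff_eq_add'.mp e⟩
      rw [e, norm_mul, hu, mul_one, Complex.norm_real, Real.norm_of_nonneg h2] at hnorm
      exact hnorm
  set c := x + ((-(r / 2) : ℝ) : ℂ) * u with hc
  have hcx : c - x = ((-(r / 2) : ℝ) : ℂ) * u := by rw [hc]; ring
  have hcd : dot u (c - x) = -(r / 2) := by rw [hcx, dot_smul_right, dot_self_one hu]; ring
  have hcc : crs u (c - x) = 0 := by rw [hcx, crs_smul_right, crs_self]; ring
  have hcb : c ∈ ball x r := by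
    apply add_smul_mem_ball hu
    rw [abs_neg, abs_of_nonneg (by positivity)]; linarith
  have hcS : c ∉ S := by
    rw [hmem c hcb, hcd]
    rintro ⟨_, h⟩; linarith
  have hstar : StarConvex ℝ c (ball x r \ S) := by
    intro y hy a b ha hb hab
    have hyb : a • c + b • y ∈ ball x r := (convex_ball x r) hcb hy.1 ha hb hab
    refine ⟨hyb, ?_⟩
    have hyS := hy.2
    rw [hmem y hy.1] at hyS
    rw [hmem _ hyb]
    have e : a • c + b • y - x = a • (c - x) + b • (y - x) := by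
      have : x = (a + b) • x := by rw [hab, one_smul]
      conv_lhs => rw [this]
      rw [add_smul, smul_sub, smul_sub]; abel
    rw [e]
    simp only [Complex.real_smul]
    rw [dot_add_right, crs_add_right, dot_smul_right, dot_smul_right, crs_smul_right,
      crs_smul_right, hcd, hcc]
    rintro ⟨h1, h2⟩
    rcases hb.eq_or_lt with h | h
    · have : a = 1 := by linarith
      rw [← h, this] at h2
      linarith
    · have h3 : crs u (y - x) = 0 := by
        have : b * crs u (y - x) = 0 := by linarith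
        exact (mul_eq_zero.mp this).resolve_left h.ne'
      have h4 : dot u (y - x) < 0 := by
        by_contra hcon
        exact hyS ⟨h3, not_lt.mp hcon⟩
      have : b * dot u (y - x) < 0 := mul_neg_of_pos_of_neg h h4
      have : 0 ≤ a * (r / 2) := by positivity
      linarith
  have hpre : IsPreconnected (ball x r \ S) :=
    (hstar.isPathConnected ⟨hcb, hcS⟩).isConnected.isPreconnected
  obtain ⟨i, hi⟩ := hN.exists_color hcS
  exact hN.not_ball_subset hx hr i (hN.subset_color hpre (fun y hy => hy.2) ⟨hcb, hcS⟩ hi)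

lemma germ {x : ℂ} (hx : x ∈ S) :
    (∃ u r, LineAt S x u r) ∨ (∃ u r, TripodAt S x u r) := by
  obtain ⟨u, hu, h | h | h⟩ := hN.net.2 x hx
  · exact absurd h (hN.no_free_end hx hu)
  · left
    obtain ⟨r, hr, hD⟩ := h
    refine ⟨u, r, hr, hu, fun y hy => ?_⟩
    have h1 : y ∈ S ↔ y ∈ S ∩ ball x r := ⟨fun h => ⟨h, hy⟩, fun h => h.1⟩
    rw [h1, hD]
    exact mem_diam_iff hu hy
  · right
    obtain ⟨r, hr, hD⟩ := h
    exact ⟨u, r, hr, hu, hD⟩

/-- a convex subset of the complement has one colour -/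
lemma convex_color {C : Set ℂ} (hC : Convex ℝ C) (hne : C.Nonempty) (hCS : C ⊆ Sᶜ) :
    ∃ i, C ⊆ color E S i := by
  obtain ⟨x, hx⟩ := hne
  obtain ⟨i, hi⟩ := hN.exists_color (hCS hx)
  exact ⟨i, hN.subset_color hC.isPreconnected hCS hx hi⟩

lemma line_sides {x u : ℂ} {r : ℝ} (hx : x ∈ S) (h : LineAt S x u r) {i j : Fin n}
    (hi : ∀ y ∈ ball x r, 0 < crs u (y - x) → y ∈ color E S i)
    (hj : ∀ y ∈ ball x r, crs u (y - x) < 0 → y ∈ color E S j) : i ≠ j := by
  rintro rfl
  apply hN.not_ball_subset hx h.pos i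
  rintro y ⟨hy1, hy2⟩
  rw [h.mem y hy1] at hy2
  rcases lt_or_gt_of_ne hy2 with h' | h'
  · exact hj y hy1 h'
  · exact hi y hy1 h'

lemma line_color {x u : ℂ} {r : ℝ} (h : LineAt S x u r) :
    ∃ i, ∀ y ∈ ball x r, 0 < crs u (y - x) → y ∈ color E S i := by
  have hconv : Convex ℝ (ball x r ∩ {y | 0 < crs u (y - x)}) :=
    (convex_ball x r).inter (convex_crs_pos u x)
  obtain ⟨i, hi⟩ := hN.convex_color hconv (by
    refine ⟨x + ((r / 2 : ℝ) : ℂ) * (Complex.I * u), ?_, ?_⟩
    · apply add_smul_mem_ball (norm_mul_I h.norm)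
      have := h.pos
      rw [abs_of_pos (by positivity)]; linarith
    · have := h.pos
      have hn := norm_one_iff.mp h.norm
      simp only [mem_ofPred_eq, add_sub_cancel_left, crs_smul_right]
      have : crs u (Complex.I * u) = 1 := by simp [crs]; linarith
      rw [this]; linarith) (by
    rintro y ⟨hy1, hy2⟩ hyS
    rw [h.mem y hy1] at hyS
    simp only [mem_ofPred_eq] at hy2
    linarith)
  exact ⟨i, fun y hy1 hy2 => hi ⟨hy1, hy2⟩⟩

lemma tripod_color {x u : ℂ} {r : ℝ} (h : TripodAt S x u r) :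
    ∃ i, ∀ y ∈ ball x r, sec0 u (y - x) → y ∈ color E S i := by
  have hconv : Convex ℝ (ball x r ∩ {y | sec0 u (y - x)}) :=
    (convex_ball x r).inter (convex_sec0 u x)
  obtain ⟨i, hi⟩ := hN.convex_color hconv (by
    refine ⟨x + ((r / 2 : ℝ) : ℂ) * (Complex.I * u), ?_, ?_⟩
    · apply add_smul_mem_ball (norm_mul_I h.norm)
      have := h.pos
      rw [abs_of_pos (by positivity)]; linarith
    · have := h.pos
      have hn := norm_one_iff.mp h.norm
      have h1 : crs u (Complex.I * u) = 1 := by simp [crs]; linarith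
      have h2 : dot u (Complex.I * u) = 0 := by simp [dot]; ring
      simp only [mem_ofPred_eq, add_sub_cancel_left, sec0, crs_smul_right, dot_smul_right, h1, h2]
      constructor <;> linarith) (by
    rintro y ⟨hy1, hy2⟩ hyS
    rw [h.mem hy1] at hyS
    exact not_rays_iff.mpr (Or.inl hy2) hyS)
  exact ⟨i, fun y hy1 hy2 => hi ⟨hy1, hy2⟩⟩

/-- adjacent sectors of a tripod have different colours -/
lemma tripod_adj {x u : ℂ} {r : ℝ} (h : TripodAt S x u r) {i j : Fin n}
    (hi : ∀ y ∈ ball x r, sec0 u (y - x) → y ∈ color E S i)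
    (hj : ∀ y ∈ ball x r, sec2 u (y - x) → y ∈ color E S j) : i ≠ j := by
  have hl := h.lineAt
  have hyS : x + (r / 2 : ℝ) * u ∈ S := by
    rw [hl.mem _ (mem_ball_self hl.pos), sub_self]; simp [crs]
  apply hN.line_sides hyS hl
  · intro z hz hz2
    obtain ⟨h1, _, h3, _⟩ := tripod_mid h.pos h.norm hz
    exact hi z h1 (h3 hz2)
  · intro z hz hz2
    obtain ⟨h1, _, _, h4⟩ := tripod_mid h.pos h.norm hz
    exact hj z h1 (h4 hz2)

end NetPart

end Pool.Agent.H65.Gauss
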