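import Pool.Agent.H65.NetConvex
import Pool.Agent.H65.GaussComp

/-! A network that enters a disc has long pieces there. -/

namespace Pool.Agent.H65.Gauss

open MeasureTheory Set Filter Topology Metric
open scoped ENNReal

variable {n : ℕ} {E : Fin n → Set ℂ} {S : Set ℂ}

lemma TripodAt.leg {x u : ℂ} {r : ℝ} (h : TripodAt S x u r) {t : ℝ} (h0 : 0 ≤ t) (h1 : t < r) :
    x + t * u ∈ S := by
  have : x + t * u ∈ S ∩ ball x r := by
    rw [h.eq]
    exact ⟨u, by simp, t, h0, h1, rfl⟩
  exact this.1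

lemma LineAt.leg {x u : ℂ} {r : ℝ} (h : LineAt S x u r) {t : ℝ} (h1 : |t| < r) :
    x + t * u ∈ S := by
  rw [h.mem _ (add_smul_mem_ball h.norm h1), add_sub_cancel_left, crs_smul_right, crs_self]
  ring

lemma LineAt.mono {x u : ℂ} {r r' : ℝ} (h : LineAt S x u r) (h0 : 0 < r') (h1 : r' ≤ r) :
    LineAt S x u r' :=
  ⟨h0, h.norm, fun y hy => h.mem y (ball_subset_ball h1 hy)⟩

lemma TripodAt.lineAt' {x u : ℂ} {r r' : ℝ} (h : TripodAt S x u r) (h0 : 0 < r') (h1 : r' ≤ r) :
    LineAt S (x + (r' / 2 : ℝ) * u) u (r' / 4) := by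
  refine ⟨by positivity, h.norm, fun z hz => ?_⟩
  obtain ⟨h3, h2, _⟩ := tripod_mid h0 h.norm hz
  rw [h.mem (ball_subset_ball h1 h3), h2]

namespace NetPart

variable (hN : NetPart E S)
include hN

lemma exists_dir {x : ℂ} (hx : x ∈ S) (q : ℂ) :
    ∃ d : ℂ, ‖d‖ = 1 ∧ 0 ≤ dot q d ∧ ∃ r > 0, ∀ t : ℝ, 0 ≤ t → t < r → x + t * d ∈ S := by
  rcases hN.germ hx with ⟨u, r, h⟩ | ⟨u, r, h⟩
  · rcases le_total 0 (dot q u) with h0 | h0
    · exact ⟨u, h.norm, h0, r, h.pos, fun t ht0 ht1 => h.leg (by rwa [abs_of_nonneg ht0])⟩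
    · refine ⟨-u, by rw [norm_neg, h.norm], by rw [dot_neg_right]; linarith, r, h.pos,
        fun t ht0 ht1 => h.neg.leg (by rwa [abs_of_nonneg ht0])⟩
  · have hsum : dot q u + dot q (rot120 * u) + dot q (rot120 * (rot120 * u)) = 0 := by
      have h3 : Real.sqrt 3 * Real.sqrt 3 = 3 := Real.mul_self_sqrt (by norm_num)
      rw [dot_comm q (rot120 * (rot120 * u)), dot_comm q (rot120 * u), dot_comm q u,
        dot_rot_left, dot_rot_left, dot_rot_left, crs_rot_left]
      linear_combination (-dot u q / 4) * h3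
    by_cases h0 : 0 ≤ dot q u
    · exact ⟨u, h.norm, h0, r, h.pos, fun t ht0 ht1 => h.leg ht0 ht1⟩
    by_cases h1 : 0 ≤ dot q (rot120 * u)
    · exact ⟨_, h.rot.norm, h1, r, h.pos, fun t ht0 ht1 => h.rot.leg ht0 ht1⟩
    · have h2 : 0 ≤ dot q (rot120 * (rot120 * u)) := by linarith
      exact ⟨_, h.rot.rot.norm, h2, r, h.pos, fun t ht0 ht1 => h.rot.rot.leg ht0 ht1⟩

lemma sphere_hit {p : ℂ} (hp : p ∈ S) {s : ℝ} (hs : 0 ≤ s) : ∃ x ∈ S, ‖x - p‖ = s := by
  by_contra hcon
  push Not at hcon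
  have hKc : IsCompact (S ∩ closedBall p s) := (isCompact_closedBall p s).inter_left hN.isClosed
  have hKne : (S ∩ closedBall p s).Nonempty := ⟨p, hp, mem_closedBall_self hs⟩
  obtain ⟨x, ⟨hxS, hxb⟩, hmax⟩ := hKc.exists_isMaxOn hKne
    (f := fun x => ‖x - p‖) (by fun_prop)
  have hlt : ‖x - p‖ < s := by
    rw [mem_closedBall, dist_eq_norm] at hxb
    exact lt_of_le_of_ne hxb (hcon x hxS)
  obtain ⟨d, hd, hdot, r, hr, hleg⟩ := hN.exists_dir hxS (x - p)
  set t := min (r / 2) ((s - ‖x - p‖) / 2) with ht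
  have hpos : 0 < s - ‖x - p‖ := by linarith
  have ht0 : 0 < t := by positivity
  have ht1 : t ≤ r / 2 := min_le_left _ _
  have ht2 : t ≤ (s - ‖x - p‖) / 2 := min_le_right _ _
  have hy := hleg t ht0.le (by linarith)
  have hyb : x + t * d ∈ closedBall p s := by
    rw [mem_closedBall, dist_eq_norm]
    have e : x + t * d - p = (x - p) + t * d := by ring
    rw [e]
    calc ‖(x - p) + t * d‖ ≤ ‖x - p‖ + ‖(t : ℂ) * d‖ := norm_add_le _ _
      _ ≤ s := by
        rw [norm_mul, hd, mul_one, Complex.norm_real, Real.norm_of_nonneg ht0.le]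
        linarith
  have h1 : ‖x + t * d - p‖ ≤ ‖x - p‖ := hmax ⟨hy, hyb⟩
  have e : x + t * d - p = (x - p) + t * d := by ring
  rw [e] at h1
  have h2 : ‖(x - p) + t * d‖ ^ 2 ≤ ‖x - p‖ ^ 2 := by gcongr
  rw [norm_add_sq_real, norm_mul, hd, mul_one, Complex.norm_real, Real.norm_of_nonneg ht0.le,
    ← dot_eq_inner, dot_smul_right] at h2
  have : 0 ≤ t * dot (x - p) d := mul_nonneg ht0.le hdot
  nlinarith

/-- line points at prescribed distance, with small radius -/
lemma exists_lineAt {p : ℂ} (hp : p ∈ S) {s : ℝ} (hs : 0 ≤ s) {η : ℝ} (hη : 0 < η) :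
    ∃ y u r, LineAt S y u r ∧ y ∈ S ∧ r ≤ η ∧ |‖y - p‖ - s| ≤ 2 * r := by
  obtain ⟨x, hxS, hx⟩ := hN.sphere_hit hp hs
  rcases hN.germ hxS with ⟨u, r, h⟩ | ⟨u, r, h⟩
  · have hr := h.pos
    refine ⟨x, u, min r η, h.mono (lt_min hr hη) (min_le_left _ _), hxS, min_le_right _ _, ?_⟩
    rw [hx, sub_self, abs_zero]
    have := lt_min hr hη
    positivity
  · have hr := h.pos
    set r' := min r η with hr'
    have hr'0 : 0 < r' := lt_min hr hη
    have hL := h.lineAt' hr'0 (min_le_left _ _)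
    refine ⟨_, u, r' / 4, hL, ?_, ?_, ?_⟩
    · rw [hL.mem _ (mem_ball_self hL.pos), sub_self]; simp [crs]
    · have : r' ≤ η := min_le_right _ _
      linarith
    · rw [← hx]
      have h1 := abs_norm_sub_norm_le (x + ((r' / 2 : ℝ) : ℂ) * u - p) (x - p)
      have e : x + ((r' / 2 : ℝ) : ℂ) * u - p - (x - p) = ((r' / 2 : ℝ) : ℂ) * u := by ring
      rw [e, norm_mul, h.norm, mul_one, Complex.norm_real, Real.norm_of_nonneg (by positivity)] at h1
      linarith

end NetPart

/-! ### Flux through a line -/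

lemma integral_halfplane {G : ℂ → ℝ} (hG : ContDiff ℝ 1 G) (hc : HasCompactSupport G) :
    ∫ w in {w : ℂ | 0 < w.im}, fderiv ℝ G w Complex.I = - ∫ a : ℝ, G ⟨a, 0⟩ := by
  have hcd : Continuous (fun w => fderiv ℝ G w Complex.I) :=
    (hG.continuous_fderiv (by norm_num)).clm_apply continuous_const
  have hcs : HasCompactSupport (fun w => fderiv ℝ G w Complex.I) :=
    hc.fderiv_apply (𝕜 := ℝ) Complex.I
  have hint : Integrable (fun w => fderiv ℝ G w Complex.I) := hcd.integrable_of_hasCompactSupport hcs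
  have hset : {w : ℂ | 0 < w.im} = prodSet univ (Ioi 0) := by
    ext w; simp [prodSet]
  rw [hset, setIntegral_prodSet hint, Measure.restrict_univ, ← integral_neg]
  congr 1
  ext a
  have hder : ∀ b : ℝ, HasDerivAt (fun b : ℝ => G ⟨a, b⟩) (fderiv ℝ G ⟨a, b⟩ Complex.I) b := by
    intro b
    have h1 : HasDerivAt (fun b : ℝ => (⟨a, b⟩ : ℂ)) Complex.I b := by
      have h2 : HasDerivAt (fun b : ℝ => (a : ℂ) + b * Complex.I) Complex.I b := by
        simpa using ((hasDerivAt_id b).ofReal_comp.mul_const Complex.I).const_add (a : ℂ)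
      convert h2 using 1
      ext b'
      exact mk_eq a b'
    have h3 := (hG.differentiable (by norm_num) (⟨a, b⟩ : ℂ)).hasFDerivAt
    exact h3.comp_hasDerivAt b h1
  -- compact support of the slice
  obtain ⟨M, hM⟩ := hc.isCompact.isBounded.exists_norm_le
  have hzero : ∀ b : ℝ, M < |b| → G ⟨a, b⟩ = 0 := by
    intro b hb
    by_contra hne
    have h1 := hM _ (subset_tsupport _ hne)
    have h2 := Complex.abs_im_le_norm (⟨a, b⟩ : ℂ)
    simp only at h2
    linarith
  have htend : Tendsto (fun b : ℝ => G ⟨a, b⟩) atTop (𝓝 0) := by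
    apply tendsto_const_nhds.congr'
    filter_upwards [eventually_gt_atTop (max M 0)] with b hb
    have h1 := lt_of_le_of_lt (le_max_left _ _) hb
    have h2 := lt_of_le_of_lt (le_max_right _ _) hb
    exact (hzero b (by rwa [abs_of_pos h2])).symm
  have hcd2 : Continuous (fun b : ℝ => fderiv ℝ G ⟨a, b⟩ Complex.I) := by
    have h1 : Continuous (fun b : ℝ => (⟨a, b⟩ : ℂ)) := by
      have : (fun b : ℝ => (⟨a, b⟩ : ℂ)) = fun b : ℝ => (a : ℂ) + b * Complex.I := by
        ext b; exact mk_eq a b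
      rw [this]; fun_prop
    exact hcd.comp h1
  have hcs2 : HasCompactSupport (fun b : ℝ => fderiv ℝ G ⟨a, b⟩ Complex.I) := by
    obtain ⟨M', hM'⟩ := hcs.isCompact.isBounded.exists_norm_le
    apply HasCompactSupport.of_support_subset_isCompact (isCompact_Icc (a := -M') (b := M'))
    intro b hb
    have h1 := hM' _ (subset_tsupport _ hb)
    have h2 := Complex.abs_im_le_norm (⟨a, b⟩ : ℂ)
    simp only at h2
    exact abs_le.mp (h2.trans h1)
  have := integral_Ioi_of_hasDerivAt_of_tendsto (f := fun b : ℝ => G ⟨a, b⟩) (a := 0)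
    (hder 0).continuousAt.continuousWithinAt (fun b _ => hder b)
    (hcd2.integrable_of_hasCompactSupport hcs2).integrableOn htend
  rw [this]; ring

lemma flux_halfplane {u : ℂ} (hu : ‖u‖ = 1) (y : ℂ) {g : ℂ → ℝ} (hg : ContDiff ℝ 1 g)
    (hc : HasCompactSupport g) :
    ∫ x in {x | 0 < crs u (x - y)}, divergence (fun z => g z • (-(Complex.I * u))) x =
      ∫ a : ℝ, g (y + a * u) := by
  have hdiff : Differentiable ℝ g := hg.differentiable (by norm_num)
  have h1 : ∀ x, divergence (fun z => g z • (-(Complex.I * u))) x =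
      - fderiv ℝ g x (Complex.I * u) := by
    intro x
    rw [divergence_smul_const _ (hdiff x), map_neg]
  simp only [h1]
  -- change of variables
  let uc : Circle := ⟨u, mem_sphere_zero_iff_norm.mpr hu⟩
  have hmp : MeasurePreserving (fun w : ℂ => y + rotation uc w) volume volume :=
    (measurePreserving_add_left volume y).comp (rotation uc).measurePreserving
  have hemb : MeasurableEmbedding (fun w : ℂ => y + rotation uc w) := by
    exact (MeasurableEquiv.addLeft y).measurableEmbedding.comp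
      (rotation uc).toHomeomorph.toMeasurableEquiv.measurableEmbedding
  have hrot : ∀ w, rotation uc w = u * w := fun w => rfl
  have hcv := hmp.setIntegral_preimage_emb hemb (fun x => - fderiv ℝ g x (Complex.I * u))
    {x | 0 < crs u (x - y)}
  rw [← hcv]
  have hpre : (fun w : ℂ => y + rotation uc w) ⁻¹' {x | 0 < crs u (x - y)} = {w : ℂ | 0 < w.im} := by
    ext w
    simp only [mem_preimage, mem_ofPred_eq, hrot, add_sub_cancel_left]
    have hn := norm_one_iff.mp hu
    have : crs u (u * w) = w.im := by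
      simp [crs]; linear_combination w.im * hn
    rw [this]
  rw [hpre]
  set G : ℂ → ℝ := fun w => g (y + u * w) with hG
  have hGc : ContDiff ℝ 1 G := hg.comp (by fun_prop)
  have hGs : HasCompactSupport G := by
    have hhomeo : G = g ∘ ((rotation uc).toHomeomorph.trans (Homeomorph.addLeft y)) := by
      ext w; simp [hG, hrot]
    rw [hhomeo]
    exact hc.comp_homeomorph _
  have hfd : ∀ w, fderiv ℝ G w Complex.I = fderiv ℝ g (y + u * w) (Complex.I * u) := by
    intro w
    have h2 : HasFDerivAt (fun w : ℂ => y + u * w) (ContinuousLinearMap.mul ℝ ℂ u) w := by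
      have h3 : HasFDerivAt (fun w : ℂ => u * w) (ContinuousLinearMap.mul ℝ ℂ u) w :=
        (ContinuousLinearMap.mul ℝ ℂ u).hasFDerivAt
      exact h3.const_add y
    have h4 := (hdiff (y + u * w)).hasFDerivAt.comp w h2
    have h5 : HasFDerivAt G _ w := h4
    rw [h5.fderiv]
    simp [mul_comm]
  simp only [hrot]
  have h6 : ∀ w, - fderiv ℝ g (y + u * w) (Complex.I * u) = - fderiv ℝ G w Complex.I := by
    intro w; rw [hfd]
  simp only [h6]
  rw [integral_neg, integral_halfplane hGc hGs, neg_neg]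
  congr 1
  ext a
  simp only [hG]
  congr 1
  have : (⟨a, 0⟩ : ℂ) = (a : ℂ) := rfl
  rw [this, mul_comm]

end Pool.Agent.H65.Gauss
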