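import Pool.Agent.H65.NetCalib
import Pool.Agent.H65.GaussExist

/-! Assembly: minimizing partitions that are not straight networks. -/

namespace Pool.Agent.H65.Gauss

open MeasureTheory Set Filter Topology Metric
open scoped ENNReal

lemma IsPartition.netPart {n : ℕ} {v : Fin n → ℝ} {E : Fin n → Set ℂ} {S : Set ℂ}
    (hP : IsPartition v E) (hS : IsStraightNetwork S)
    (hnull : μH[1] (symmDiff (interface E) S) = 0) : NetPart E S :=
  ⟨hP.perimeter, hP.disjoint, hP.cover, hS, hnull⟩

lemma gaussArea_mono {A B : Set ℂ} (hAB : A ⊆ B) : gaussArea A ≤ gaussArea B := by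
  unfold gaussArea
  exact setIntegral_mono_set integrable_gaussDensity.integrableOn
    (Eventually.of_forall fun x => gaussDensity_nonneg x) (Eventually.of_forall hAB)

lemma gaussArea_univ : gaussArea univ = 1 := by
  have h : (univ : Set ℂ) = prodSet univ univ := by ext x; simp [prodSet]
  rw [h, gaussArea_prodSet]
  simp [integral_g1]

lemma gaussArea_compl {A : Set ℂ} (hA : MeasurableSet A) : gaussArea Aᶜ = 1 - gaussArea A := by
  have h := integral_add_compl hA integrable_gaussDensity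
  have h1 : ∫ x, gaussDensity x = 1 := by
    have := gaussArea_univ
    unfold gaussArea at this
    rwa [setIntegral_univ] at this
  rw [h1] at h
  unfold gaussArea
  linarith

lemma gaussArea_ball_pos : 0 < gaussArea (ball 0 1) := by
  unfold gaussArea
  rw [integral_pos_iff_support_of_nonneg_ae
    (Eventually.of_forall fun x => gaussDensity_nonneg x) integrable_gaussDensity.integrableOn]
  have : Function.support gaussDensity = univ := by
    ext t; simp [(gaussDensity_pos t).ne']
  rw [this, Measure.restrict_apply_univ]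
  exact measure_ball_pos _ _ one_pos

lemma g1_eq_density (R : ℝ) : g1 R = Real.sqrt (2 * Real.pi) *
    ((2 * Real.pi)⁻¹ * Real.exp (-R ^ 2 / 2)) := by
  unfold g1
  have hpi := Real.pi_pos
  have h1 : 0 < 2 * Real.pi := by positivity
  have h2 : 0 < Real.sqrt (2 * Real.pi) := Real.sqrt_pos.mpr h1
  have h3 : Real.sqrt (2 * Real.pi) * Real.sqrt (2 * Real.pi) = 2 * Real.pi :=
    Real.mul_self_sqrt h1.le
  have h4 : (Real.sqrt (2 * Real.pi))⁻¹ = Real.sqrt (2 * Real.pi) * (2 * Real.pi)⁻¹ := by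
    rw [eq_mul_inv_iff_mul_eq₀ h1.ne', inv_mul_eq_iff_eq_mul₀ h2.ne', h3]
  rw [h4]; ring

/-- the numerical comparison in the first case -/
lemma case_near {K : ℕ} {R : ℝ} (hR : 3000 * ((K : ℝ) + 1) ≤ R) :
    2 * (g1 R + K * tailQ R) <
      (2 * Real.pi)⁻¹ * Real.exp (-(R - 1 / 2) ^ 2 / 2) / 240 := by
  have hK : (0:ℝ) ≤ K := Nat.cast_nonneg K
  have hR1 : 1 ≤ R := by linarith
  have hpi := Real.pi_pos
  have hg := g1_pos R
  have hq : tailQ R ≤ g1 R := by
    refine (tailQ_le (by linarith)).trans ?_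
    exact div_le_self hg.le hR1
  have h1 : 2 * (g1 R + K * tailQ R) ≤ 2 * (1 + K) * g1 R := by nlinarith
  refine lt_of_le_of_lt h1 ?_
  rw [g1_eq_density]
  have hs : Real.sqrt (2 * Real.pi) ≤ 3 := by
    rw [Real.sqrt_le_left (by norm_num)]
    linarith [Real.pi_lt_d2]
  have hexp : Real.exp (-(R - 1 / 2) ^ 2 / 2) =
      Real.exp (-R ^ 2 / 2) * Real.exp (R / 2 - 1 / 8) := by
    rw [← Real.exp_add]; congr 1; ring
  rw [hexp]
  have he : R / 2 - 1 / 8 + 1 ≤ Real.exp (R / 2 - 1 / 8) := Real.add_one_le_exp _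
  have hp : 0 < (2 * Real.pi)⁻¹ * Real.exp (-R ^ 2 / 2) := by positivity
  have hmain : 2 * (1 + (K:ℝ)) * 3 < Real.exp (R / 2 - 1 / 8) / 240 := by
    have : 2 * (1 + (K:ℝ)) * 3 * 240 < R / 2 - 1 / 8 + 1 := by linarith
    linarith
  calc 2 * (1 + (K:ℝ)) * (Real.sqrt (2 * Real.pi) * ((2 * Real.pi)⁻¹ * Real.exp (-R ^ 2 / 2)))
      ≤ 2 * (1 + (K:ℝ)) * (3 * ((2 * Real.pi)⁻¹ * Real.exp (-R ^ 2 / 2))) := by gcongr
    _ = (2 * (1 + (K:ℝ)) * 3) * ((2 * Real.pi)⁻¹ * Real.exp (-R ^ 2 / 2)) := by ring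
    _ < (Real.exp (R / 2 - 1 / 8) / 240) * ((2 * Real.pi)⁻¹ * Real.exp (-R ^ 2 / 2)) := by
        gcongr
    _ = _ := by ring

lemma sum_le_of_total {n : ℕ} {E : Fin n → Set ℂ} {U : ℝ} (hU : 0 ≤ U)
    (h : totalPerimeter E ≤ ENNReal.ofReal U) :
    ∑ i, gaussPerimeter (E i) ≤ ENNReal.ofReal (2 * U) := by
  unfold totalPerimeter at h
  rw [ENNReal.div_le_iff (by norm_num) ENNReal.ofNat_ne_top] at h
  refine h.trans (le_of_eq ?_)
  rw [show (2:ℝ≥0∞) = ENNReal.ofReal 2 by simp, ← ENNReal.ofReal_mul hU]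
  congr 1
  ring

/-- no partition with the areas `compV K R` and small perimeter has a straight network as
interface -/
theorem not_straight {K : ℕ} (hK : 7 ≤ K) {R κ : ℝ} (hκ : 0 < κ)
    (hκ2 : ∀ j : Fin K, κ ≤ stripM K j) (hR1 : 3000 * ((K : ℝ) + 1) ≤ R)
    (hR2 : (3 + K) / κ + 2 < R) (hR3 : 1 / gaussArea (ball 0 1) < R)
    {E : Fin (K + 1) → Set ℂ} (hP : IsPartition (compV K R) E)
    (hper : totalPerimeter E ≤ ENNReal.ofReal (g1 R + K * tailQ R)) {S : Set ℂ}
    (hS : IsStraightNetwork S) (hnull : μH[1] (symmDiff (interface E) S) = 0) : False := by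
  have hN : NetPart E S := hP.netPart hS hnull
  have hKr : (0:ℝ) ≤ K := Nat.cast_nonneg K
  have hR4 : 3000 ≤ R := by linarith
  have hg := g1_pos R
  have hq := tailQ_pos R
  have hU : 0 ≤ g1 R + K * tailQ R := by positivity
  have hsum := sum_le_of_total hU hper
  by_cases hne : ∃ p ∈ S, p ∈ ball (0:ℂ) (R - 1)
  · -- the network enters the large disc
    obtain ⟨p, hpS, hpb⟩ := hne
    set m := (2 * Real.pi)⁻¹ * Real.exp (-(R - 1 / 2) ^ 2 / 2) with hm
    have hm0 : 0 ≤ m := by positivity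
    have h1 := hN.length_bound hpS hm0 (by
      intro x hx
      rw [mem_ball, dist_zero_right] at hpb
      rw [mem_closedBall, dist_eq_norm] at hx
      have hxn : ‖x‖ ≤ R - 1 / 2 := by
        calc ‖x‖ = ‖(x - p) + p‖ := by congr 1; ring
          _ ≤ ‖x - p‖ + ‖p‖ := norm_add_le _ _
          _ ≤ R - 1 / 2 := by linarith
      unfold gaussDensity
      rw [hm]
      have : ‖x‖ ^ 2 ≤ (R - 1 / 2) ^ 2 := by
        apply pow_le_pow_left₀ (norm_nonneg x) hxn
      gcongr)
    have h2 := h1.trans hsum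
    rw [ENNReal.ofReal_le_ofReal_iff (by positivity)] at h2
    exact absurd h2 (not_le.mpr (case_near hR1))
  · -- the network avoids the large disc
    push Not at hne
    have hsub : ball (0:ℂ) (R - 1) ⊆ Sᶜ := fun x hx hxS => hne x hxS hx
    have h0 : (0:ℂ) ∉ S := fun h => hne 0 h (mem_ball_self (by linarith))
    obtain ⟨i₀, hi₀⟩ := hN.exists_color h0
    set F := connectedComponentIn Sᶜ (0:ℂ) with hFdef
    have hballF : ball (0:ℂ) (R - 1) ⊆ F :=
      (convex_ball (0:ℂ) (R - 1)).isPreconnected.subset_connectedComponentIn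
        (mem_ball_self (by linarith)) hsub
    have hF : IsFace E S F i₀ := by
      refine ⟨⟨0, h0, rfl⟩, ?_⟩
      exact hN.subset_color isPreconnected_connectedComponentIn (connectedComponentIn_subset _ _)
        (mem_connectedComponentIn h0) hi₀
    have harea : ∀ i, gaussArea (color E S i) = compV K R i := by
      intro i
      rw [← hP.area i]
      exact setIntegral_congr_set (hN.color_ae i)
    have hone : ∀ j : Fin K, stripM K j ≤ 1 := by
      intro j
      have h1 := sum_stripM (K := K) (by omega)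
      rw [← h1]
      exact Finset.single_le_sum (f := fun j : Fin K => stripM K j)
        (fun j _ => (stripM_pos j.2).le) (Finset.mem_univ j)
    -- the face has the colour of the big region
    have hi0 : i₀ = 0 := by
      by_contra hcon
      obtain ⟨j, rfl⟩ := Fin.exists_succ_eq_of_ne_zero hcon
      have h1 : gaussArea (ball 0 1) ≤ compV K R j.succ := by
        rw [← harea]
        apply gaussArea_mono
        refine Subset.trans (ball_subset_ball (by linarith)) (hballF.trans hF.col)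
      simp only [compV, Fin.cons_succ] at h1
      have h2 : tailQ R * stripM K j ≤ tailQ R := by
        have := mul_le_mul_of_nonneg_left (hone j) hq.le
        linarith
      have h3 : tailQ R ≤ 1 / (2 * R) := by
        refine (tailQ_le (by linarith)).trans ?_
        have := g1_le R
        calc g1 R / R ≤ (1 / 2) / R := by gcongr
          _ = 1 / (2 * R) := by field_simp
      have ha := gaussArea_ball_pos
      have h4 : 1 / (2 * R) < gaussArea (ball 0 1) := by
        rw [div_lt_iff₀ (by positivity)]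
        rw [div_lt_iff₀ ha] at hR3
        nlinarith
      linarith
    subst hi0
    obtain ⟨j, hj, hdis⟩ := hF.exists_nonadjacent hN (by omega)
    have hcal := hF.calibration hN hj hdis (ρ := R - 1) (by linarith) hballF
    have h1 := hcal.trans hsum
    rw [ENNReal.ofReal_le_ofReal_iff (by positivity)] at h1
    -- areas
    have hFc : tailQ R ≤ gaussArea Fᶜ := by
      have h2 : gaussArea (color E S 0)ᶜ ≤ gaussArea Fᶜ :=
        gaussArea_mono (compl_subset_compl.mpr hF.col)
      rw [gaussArea_compl (isOpen_color 0).measurableSet, harea] at h2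
      simp only [compV, Fin.cons_zero] at h2
      linarith
    obtain ⟨k, rfl⟩ := Fin.exists_succ_eq_of_ne_zero hj
    have hEj : κ * tailQ R ≤ gaussArea (E k.succ) := by
      rw [hP.area]
      simp only [compV, Fin.cons_succ]
      rw [mul_comm]
      exact mul_le_mul_of_nonneg_left (hκ2 k) hq.le
    have hc : R - 2 ≤ (R - 1) - 3 / (R - 1) := by
      have : 3 / (R - 1) ≤ 1 := by
        rw [div_le_one (by linarith)]; linarith
      linarith
    have hgq := g1_le_tailQ (R := R) (by linarith)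
    have h5 : (R - 2) * ((1 + κ) * tailQ R) ≤ ((R - 1) - 3 / (R - 1)) *
        (gaussArea Fᶜ + gaussArea (E k.succ)) := by
      apply mul_le_mul hc (by linarith) (by positivity) (by linarith)
    have h6 : (R - 2) * (1 + κ) * tailQ R ≤ (R + 1 + K) * tailQ R := by
      linarith
    have h7 := le_of_mul_le_mul_right h6 hq
    have h8 : (3 + K) / κ < R - 2 := by linarith
    rw [div_lt_iff₀ hκ] at h8
    nlinarith

theorem main (n : ℕ) (hn : 8 ≤ n) : ∃ v : Fin n → ℝ, (∀ i, 0 < v i) ∧ ∑ i, v i = 1 ∧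
    (∃ E, IsMinimizing v E) ∧
    ∀ E, IsMinimizing v E → ¬ ∃ S, IsStraightNetwork S ∧ μH[1] (symmDiff (interface E) S) = 0 := by
  obtain ⟨K, rfl⟩ : ∃ K, n = K + 1 := ⟨n - 1, by omega⟩
  have hK : 7 ≤ K := by omega
  obtain ⟨κ, hκ, hκ2⟩ : ∃ κ : ℝ, 0 < κ ∧ ∀ j : Fin K, κ ≤ stripM K j := by
    haveI : Nonempty (Fin K) := ⟨⟨0, by omega⟩⟩
    obtain ⟨j, hj⟩ := Finite.exists_min (fun j : Fin K => stripM K j)
    exact ⟨stripM K j, stripM_pos j.2, hj⟩
  have ha := gaussArea_ball_pos
  set R : ℝ := 3000 * ((K : ℝ) + 1) + ((3 + K) / κ + 2) + 1 / gaussArea (ball 0 1) with hR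
  have hp1 : 0 < 3000 * ((K : ℝ) + 1) := by positivity
  have hp2 : 0 < (3 + K) / κ + 2 := by positivity
  have hp3 : 0 < 1 / gaussArea (ball 0 1) := by positivity
  obtain ⟨hpart, htot⟩ := compSet_facts K (by omega) R
  refine ⟨compV K R, fun i => compV_pos i, sum_compV (by omega) R, ?_, ?_⟩
  · apply exists_minimizer
    exact ⟨_, hpart, ne_top_of_le_ne_top ENNReal.ofReal_ne_top htot⟩
  · rintro E ⟨hE, hmin⟩ ⟨S, hS, hnull⟩
    exact not_straight hK hκ hκ2 (by linarith) (by linarith) (by linarith) hE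
      ((hmin _ hpart).trans htot) hS hnull

end Pool.Agent.H65.Gauss
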